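import Pool.Agent.Run7.h902.CwBS

/-!
# Vanishing of higher Chow groups in negative motivic degrees, smooth projective varieties, and moduli
spaces of configurations
-/

set_option autoImplicit false

open CategoryTheory AlgebraicGeometry MvPolynomial Pool.Agent.Y116.UV Pool.Agent.Z125.UN

namespace Pool.Agent.Run7.h902.Cw

open Pool.Agent.Run7.h902

/-- The vanishing in negative degrees and in the weights `n ≤ w` for the scheme `X` of dimension `e`:
`H^i(X, ℚ(n)) = CH^n(X, 2 n - i) = G (e - n) (2 n - i) X` vanishes for `n ≤ w` and `i < 0`. -/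
def Chow.Neg {k : Type} [Field k] (C : Chow k) (w : ℕ) (X : Sch k) : Prop :=
  ∀ e : ℕ, topologicalKrullDim X.left = e → ∀ n m : ℕ, n ≤ w → 2 * n < m →
    Subsingleton (C.G ((e : ℤ) - n) m X)

/-- The vanishing for possibly singular and reducible schemes `X` of dimension at most `e`:
`G (e - n) m X` vanishes for `n ≤ w` and `m > 2 n`. -/
def Chow.NegAll {k : Type} [Field k] (C : Chow k) (w : ℕ) (X : Sch k) : Prop :=
  ∀ e : ℕ, topologicalKrullDim X.left ≤ e → ∀ n m : ℕ, n ≤ w → 2 * n < m →
    Subsingleton (C.G ((e : ℤ) - n) m X)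

section

variable {k : Type} [Field k] (C : Chow k)

lemma tot_neg (w : ℕ) : Cu.Tot True (C.NegAll w) where
  iso := by
    intro X Y hX e hP
    have he : ∀ n : ℕ, topologicalKrullDim Y.left ≤ n → topologicalKrullDim X.left ≤ n := by
      intro n hn
      obtain ⟨e⟩ := e
      let f := (Over.forget _).mapIso e
      exact (Topology.IsInducing.topologicalKrullDim_le
        (Scheme.homeoOfIso f).isInducing).trans hn
    intro n hn a m h1 h2
    obtain ⟨g⟩ := C.iso ((n : ℤ) - a) m X Y hX e
    have := hP n (he n hn) a m h1 h2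
    exact g.symm.toEquiv.subsingleton
  empty X hX := fun _ _ _ _ _ _ => C.empty _ _ X hX
  total := by
    intro Z X U i j hX ht hZ hU n hn a m h1 h2
    obtain ⟨f, g, hfg⟩ := C.localization ((n : ℤ) - a) m Z X U i j hX ht
    refine sub_mid hfg (hZ n ?_ a m h1 h2) (hU n ?_ a m h1 h2)
    · have h1 := (have := ht.closed; i.left.isClosedEmbedding.isInducing)
      exact h1.topologicalKrullDim_le.trans hn
    · have h1 := (have := ht.opened; j.left.isOpenEmbedding.isInducing)
      exact h1.topologicalKrullDim_le.trans hn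

lemma neg_of_all (X : Sch k) {w : ℕ} (h : C.NegAll w X) : C.Neg w X :=
  fun e he => h e he.le

lemma all_of_neg (X : Sch k) (hX : FT True X) (hI : IsIntegral X.left) {e w : ℕ}
    (he : topologicalKrullDim X.left = e) (hb : C.Neg w X) : C.NegAll w X := by
  intro d hd n m h1 h2
  have hed : e ≤ d := by
    rw [he] at hd
    exact_mod_cast hd
  rcases lt_trichotomy (e : ℤ) ((d : ℤ) - n) with hlt | heq | hgt
  · exact C.dim _ m X hX e he hlt
  · rw [← heq]
    exact C.top m X hX hI e he (by omega)
  · obtain ⟨n', hn'⟩ : ∃ n' : ℕ, (e : ℤ) - n' = (d : ℤ) - n := ⟨(e - (d - n) : ℤ).toNat, by omega⟩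
    rw [← hn']
    exact hb e he n' m (by omega) (by omega)

lemma dim_aff (R A : Type) [CommRing R] [CommRing A] [Algebra R A] :
    topologicalKrullDim (aff R A).left = ringKrullDim A :=
  PrimeSpectrum.topologicalKrullDim_eq_ringKrullDim A

/-- From the smooth integral moduli spaces of configurations to all schemes. -/
theorem neg_fixed [PerfectField k] (w d : ℕ) (H : ForSmoothDim k d (C.Neg w)) :
    ∀ X : Sch k, FT True X → topologicalKrullDim X.left ≤ d → C.NegAll w X := by
  intro X hX hXd
  refine Cx.fixed_dim (Cu.generic_field k) (tot_neg C w) d (fun A _ _ _ hd hN hN2 hM => ?_) X hX hXd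
  obtain ⟨e, he⟩ := exists_dim (k := k) _ hN2
  exact all_of_neg C _ (ft_aff True) (integral_aff hd) he (H A hd hN hN2 hM)

/-- Over a prime field the configurations without further fixed points are enough. -/
theorem neg_prime [PerfectField k] (hk : Cu.IntFrac k) (w d : ℕ)
    (H : ForSmooth k (C.Neg w)) :
    ∀ X : Sch k, FT True X → topologicalKrullDim X.left ≤ d → C.NegAll w X := by
  intro X hX hXd
  refine Cx.frame_dim hk (Cu.generic_field k) (tot_neg C w) d (fun A _ _ _ hd hN hN2 hM => ?_) X hX hXd
  obtain ⟨e, he⟩ := exists_dim (k := k) _ hN2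
  exact all_of_neg C _ (ft_aff True) (integral_aff hd) he (H A hd hN hM)

/-- The scheme `X` over the field `k` is projective: it is a closed subscheme of `Proj k[x_0, …, x_n]`. -/
def IsProjective (X : Sch k) : Prop :=
  ∃ (n : ℕ) (_ : GradedAlgebra (homogeneousSubmodule (Fin (n + 1)) k))
    (i : X.left ⟶ Proj (homogeneousSubmodule (Fin (n + 1)) k)), IsClosedImmersion i ∧ i ≫ Proj.toSpecZero (homogeneousSubmodule (Fin (n + 1)) k) ≫
      Spec.map (CommRingCat.ofHom (algebraMap k (homogeneousSubmodule (Fin (n + 1)) k 0))) = X.hom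

/-- `X` is a smooth projective variety over `k`. -/
structure SmoothProjective (X : Sch k) : Prop where
  ft : FT True X
  integral : IsIntegral X.left
  smooth : Smooth X.hom
  projective : IsProjective X

end

/-- Higher Chow groups of complex schemes, with two more known properties:

* `boundary`: the sequence `G b (m + 1) X → G b (m + 1) U → G b m Z` is exact for a closed subscheme `Z`
  and its complement `U`;
* `compact`: resolution of singularities: `Spec A`, for a smooth domain `A`, is an open subscheme of a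
  smooth projective variety `Y` of the same dimension, the complement has smaller dimension. -/
structure ChowC where
  C : Chow ℂ
  boundary : ∀ (b : ℤ) (m : ℕ) (Z X U : Sch ℂ) (i : Z ⟶ X) (j : U ⟶ X), FT True X →
    IsTriple i j → ∃ (f : C.G b (m + 1) X →+ C.G b (m + 1) U) (g : C.G b (m + 1) U →+ C.G b m Z),
      Function.Exact f g
  compact : ∀ (A : Type) [CommRing A] [Algebra ℂ A] [Algebra.FiniteType ℂ A], IsDomain A →
    Algebra.Smooth ℂ A → ∃ (Z Y : Sch ℂ) (i : Z ⟶ Y) (j : aff ℂ A ⟶ Y), IsTriple i j ∧
      SmoothProjective Y ∧ FT True Z ∧ topologicalKrullDim Y.left = ringKrullDim A ∧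
      topologicalKrullDim Z.left < ringKrullDim A

lemma empty_of_dim {X : Scheme.{0}} (h : topologicalKrullDim X < 0) : IsEmpty X := by
  by_contra hne
  rw [not_isEmpty_iff] at hne
  have h5 : (0 : WithBot ℕ∞) ≤ topologicalKrullDim X := by
    have : Nonempty (TopologicalSpace.IrreducibleCloseds X) :=
      ⟨⟨closure {hne.some}, isIrreducible_singleton.closure, isClosed_closure⟩⟩
    exact Order.krullDim_nonneg
  exact absurd h (not_lt.mpr h5)

/-- the vanishing for the complement -/
lemma neg_compl {k : Type} [Field k] (C : Chow k) {w e : ℕ} {Z : Sch k} (hZ : FT True Z)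
    (hZd : topologicalKrullDim Z.left < e)
    (ih : ∀ e' : ℕ, e' + 1 = e → topologicalKrullDim Z.left ≤ e' → C.NegAll w Z) {a m : ℕ} (h1 : a ≤ w) (h2 : 2 * a < m + 1) :
    Subsingleton (C.G ((e : ℤ) - a) m Z) := by
  rcases e with _ | e
  · exact C.empty _ _ Z (empty_of_dim (by exact_mod_cast hZd))
  · have hle : topologicalKrullDim Z.left ≤ e := by
      rcases eq_or_ne (topologicalKrullDim Z.left) ⊥ with hb | hb
      · rw [hb]; exact bot_le
      obtain ⟨x, hx⟩ := WithBot.ne_bot_iff_exists.mp hb
      rw [← hx] at hZd ⊢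
      have h3 : x < ((e + 1 : ℕ) : ℕ∞) := by exact_mod_cast hZd
      obtain ⟨y, hy⟩ := ENat.ne_top_iff_exists.mp (ne_top_of_lt h3)
      rw [← hy] at h3 ⊢
      have h4 : y < e + 1 := by exact_mod_cast h3
      exact_mod_cast Nat.lt_succ_iff.mp h4
    rcases a with _ | a
    · rcases eq_or_ne (topologicalKrullDim Z.left) ⊥ with hb | hb
      · refine C.empty _ _ Z (empty_of_dim ?_)
        rw [hb]
        exact WithBot.bot_lt_coe _
      obtain ⟨x, hx⟩ := WithBot.ne_bot_iff_exists.mp hb
      have h3 : x ≤ (e : ℕ∞) := by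
        rw [← hx] at hle
        exact_mod_cast hle
      obtain ⟨y, hy⟩ := ENat.ne_top_iff_exists.mp (ne_top_of_le_ne_top (ENat.natCast_ne_top e) h3)
      refine C.dim _ m Z hZ y (by rw [← hx, ← hy]; rfl) ?_
      rw [← hy] at h3
      have h4 : y ≤ e := by exact_mod_cast h3
      push_cast
      omega
    · have h5 := ih e rfl hle e hle a m (by omega) (by omega)
      have h6 : ((e + 1 : ℕ) : ℤ) - ((a + 1 : ℕ) : ℤ) = (e : ℤ) - a := by push_cast; ring
      rw [h6]
      exact h5

/-- from smooth projective varieties to all schemes -/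
lemma neg_projective (F : ChowC) (w d : ℕ)
    (H : ∀ Y : Sch ℂ, SmoothProjective Y → topologicalKrullDim Y.left ≤ d → F.C.Neg w Y) (n : ℕ)
    (hnd : n ≤ d) :
    ∀ X : Sch ℂ, FT True X → topologicalKrullDim X.left ≤ n → F.C.NegAll w X := by
  have key : ∀ n ≤ d, (∀ e' : ℕ, e' + 1 = n → ∀ X : Sch ℂ, FT True X →
      topologicalKrullDim X.left ≤ e' → F.C.NegAll w X) →
      ∀ X : Sch ℂ, FT True X → topologicalKrullDim X.left ≤ n → F.C.NegAll w X := by
    intro n hnd ih
    refine neg_fixed F.C w n fun A _ _ _ hd hN hN2 hM => ?_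
    intro e he a m h1 h2
    obtain ⟨Z, Y, i, j, ht, hY, hZ, hYd, hZd⟩ := F.compact A hd hN
    obtain ⟨m, rfl⟩ : ∃ m', m = m' + 1 := ⟨m - 1, by omega⟩
    obtain ⟨f, g, hfg⟩ := F.boundary ((e : ℤ) - a) m Z Y _ i j hY.ft ht
    rw [dim_aff] at he
    refine sub_mid hfg (H Y hY ?_ e (hYd.trans he) a (m + 1) h1 h2)
      (neg_compl F.C hZ (he ▸ hZd) (fun e' he' hZe => ?_) h1 h2)
    · rw [hYd]
      exact hN2.trans (by exact_mod_cast hnd)
    · have hen : e ≤ n := by
        rw [he] at hN2
        exact_mod_cast hN2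
      exact ih (n - 1) (by omega) Z hZ (hZe.trans (by exact_mod_cast (by omega : e' ≤ n - 1)))
  induction n with
  | zero => exact key 0 hnd (fun e' he' => absurd he' (by omega))
  | succ n ih =>
    exact key (n + 1) hnd (fun e' he' => by
      obtain rfl : e' = n := by omega
      exact ih (by omega))

/-- **Theorem.** For all `w` and `d` the following are equivalent: the vanishing in negative degrees in
the weights `n ≤ w` (1) for all smooth projective complex varieties of dimension at most `d`; (2) for all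
schemes of finite type over `ℂ` of dimension at most `d`; (3) for the smooth integral moduli spaces over
`ℂ` of configurations of dimension at most `d`. -/
theorem neg_dim (F : ChowC) (w d : ℕ) :
    List.TFAE [
      ∀ Y : Sch ℂ, SmoothProjective Y → topologicalKrullDim Y.left ≤ d → F.C.Neg w Y,
      ∀ X : Sch ℂ, FT True X → topologicalKrullDim X.left ≤ d → F.C.NegAll w X,
      ForSmoothDim ℂ d (F.C.Neg w)] := by
  tfae_have 2 → 1 := fun H X hX hd => neg_of_all F.C X (H X hX.ft hd)
  tfae_have 1 → 2 := fun H => neg_projective F w d H d le_rfl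
  tfae_have 2 → 3 := by
    intro H A _ _ _ hd hN hN2 _
    exact neg_of_all F.C _ (H _ (ft_aff True) (by rw [dim_aff]; exact hN2))
  tfae_have 3 → 2 := neg_fixed F.C w d
  tfae_finish

end Pool.Agent.Run7.h902.Cw
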