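import Pool.Agent.Run7.h902.CwBS

/-!
# The Beilinson-Soulé vanishing conjecture over all fields and configurations over prime fields
-/

set_option autoImplicit false

open CategoryTheory AlgebraicGeometry Pool.Agent.Y116.UV Pool.Agent.Z125.UN

namespace Pool.Agent.Run7.h902.Cw

open Pool.Agent.Run7.h902

/-- A field all of whose elements are quotients of integers, that is, a prime field, is perfect. -/
lemma perfect_of_prime (k : Type) [Field k] (h : Cu.IntFrac k) : PerfectField k := by
  obtain ⟨p, hp⟩ := CharP.exists k
  rcases CharP.char_is_prime_or_zero k p with hpp | rfl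
  · have : Fact p.Prime := ⟨hpp⟩
    have hs : Function.Surjective (frobenius k p) := by
      intro c
      obtain ⟨m, n, hn, hc⟩ := h c
      refine ⟨c, hn.mul_left_cancel ?_⟩
      have h1 := congrArg (frobenius k p) hc
      rw [map_mul, map_intCast, map_intCast] at h1
      rw [h1, hc]
    have h2 : PerfectRing k p := PerfectRing.ofSurjective k p hs
    exact PerfectRing.toPerfectField k p
  · have : CharZero k := CharP.charP_to_charZero k
    infer_instance

/-- Higher Chow groups over all fields `k`, with the continuity property: every element of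
`CH^n(X, m)`, `X` smooth and integral over the perfect field `k`, is the pull-back of an element of
`CH^n(Y, m)`, where `Y` is smooth and integral over a prime field (`X` is a limit of such `Y`). -/
structure ChowAll where
  C : ∀ (k : Type) [Field k], Chow k
  model : ∀ (k : Type) [Field k] [PerfectField k] (X : Sch k), FT True X → IsIntegral X.left →
    Smooth X.hom → ∀ e n m : ℕ, topologicalKrullDim X.left = e → ∀ x : (C k).G ((e : ℤ) - n) m X,
      ∃ (k₀ : Type) (_ : Field k₀) (Y : Sch k₀) (e₀ : ℕ), Cu.IntFrac k₀ ∧ FT True Y ∧
        IsIntegral Y.left ∧ Smooth Y.hom ∧ topologicalKrullDim Y.left = e₀ ∧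
        ∃ f : (C k₀).G ((e₀ : ℤ) - n) m Y →+ (C k).G ((e : ℤ) - n) m X, x ∈ Set.range f

/-- The Beilinson-Soulé vanishing in the weights `n ≤ w` for all smooth integral schemes over all
perfect fields. -/
def ChowAll.Q1 (F : ChowAll) (w : ℕ) : Prop :=
  ∀ (k : Type) [Field k] [PerfectField k] (X : Sch k), FT True X → IsIntegral X.left →
    Smooth X.hom → (F.C k).BS w X

/-- The Beilinson-Soulé vanishing in the weights `n ≤ w` for the smooth integral moduli spaces of
configurations over the prime fields. -/
def ChowAll.Moduli (F : ChowAll) (w : ℕ) : Prop :=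
  ∀ (k : Type) [Field k], Cu.IntFrac k → ForSmooth k ((F.C k).BS w)

/-- **Theorem.** The Beilinson-Soulé vanishing in the weights `n ≤ w` for all smooth schemes over all
perfect fields is equivalent to the vanishing for the smooth integral moduli spaces of configurations
over the prime fields. -/
theorem bs_all (F : ChowAll) (w : ℕ) : F.Q1 w ↔ F.Moduli w := by
  constructor
  · intro H k _ hk A _ _ _ hd hN _
    have := perfect_of_prime k hk
    exact H k _ (ft_aff True) (integral_aff hd) (smooth_aff hN)
  · rintro H k _ _ X hX hI hS e he n m h1 h2 h3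
    refine ⟨fun x y => ?_⟩
    have key : ∀ x : (F.C k).G ((e : ℤ) - n) m X, x = 0 := by
      intro x
      obtain ⟨k₀, _, Y, e₀, hk₀, hY, hIY, hSY, heY, f, y, rfl⟩ := F.model k X hX hI hS e n m he x
      have := perfect_of_prime k₀ hk₀
      have h4 := bs_prime (F.C k₀) hk₀ w e₀ (fun A _ _ _ hd hN hM _ => H k₀ hk₀ A hd hN hM)
        Y hY heY.le
      have h5 := bs_of_all _ Y h4 e₀ heY n m h1 h2 h3
      rw [Subsingleton.elim y 0, map_zero]
    rw [key x, key y]

end Pool.Agent.Run7.h902.Cw
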