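import Pool.Agent.Run7.h902.CyVan
import Pool.Agent.Run7.h902.CwAll

/-!
# From complex varieties to moduli spaces of configurations over the rational numbers
-/

set_option autoImplicit false

open CategoryTheory AlgebraicGeometry MvPolynomial Pool.Agent.Y116.UV Pool.Agent.Z125.UN

namespace Pool.Agent.Run7.h902.Cw

open Pool.Agent.Run7.h902

/-- Rational higher Chow groups of complex schemes and of schemes over `ℚ`, with the known relations:

* `model`: every element of `CH^n(X, m)`, `X` a smooth projective complex variety, is the pull-back of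
  an element of `CH^n(Y, m)` where `Y` is smooth and integral over `ℚ` (`X` is a limit of such `Y`);
* `inj`: for a smooth integral scheme `Y` over `ℚ` the base change
  `CH^n(Y, m) → CH^n(X, m)`, `X = Y ⊗ ℂ`, is injective. -/
structure ChowQC extends ChowC where
  E : Chow ℚ
  model : ∀ X : Sch ℂ, SmoothProjective X → ∀ e n m : ℕ, topologicalKrullDim X.left = e →
    ∀ x : C.G ((e : ℤ) - n) m X, ∃ (Y : Sch ℚ) (e₀ : ℕ), FT True Y ∧ IsIntegral Y.left ∧
      Smooth Y.hom ∧ topologicalKrullDim Y.left = e₀ ∧
      ∃ f : E.G ((e₀ : ℤ) - n) m Y →+ C.G ((e : ℤ) - n) m X, x ∈ Set.range f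
  inj : ∀ Y : Sch ℚ, FT True Y → IsIntegral Y.left → Smooth Y.hom → ∀ e n m : ℕ,
    topologicalKrullDim Y.left = e → ∃ X : Sch ℂ, FT True X ∧ Smooth X.hom ∧
      topologicalKrullDim X.left = e ∧
      ∃ f : E.G ((e : ℤ) - n) m Y →+ C.G ((e : ℤ) - n) m X, Function.Injective f

lemma intFrac_rat' : Cu.IntFrac ℚ := Cu.intFrac_rat

/-- **Theorem.** The vanishing in negative degrees in the weights `n ≤ w` for all smooth projective
complex varieties is equivalent to the vanishing for the smooth integral moduli spaces over `ℚ` of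
configurations containing the frame, with no other fixed points. -/
theorem neg_rat (F : ChowQC) (w : ℕ) :
    (∀ X : Sch ℂ, SmoothProjective X → F.C.Neg w X) ↔ ForSmooth ℚ (F.E.Neg w) := by
  constructor
  · intro H A _ _ _ hd hN _ e he n m h1 h2
    obtain ⟨X, hX, -, hXd, f, hf⟩ := F.inj _ (ft_aff True) (integral_aff hd) (smooth_aff hN) e n m he
    have h3 := neg_projective F.toChowC w e (fun Y hY _ => H Y hY) e le_rfl X hX hXd.le
    have := h3 e hXd.le n m h1 h2
    exact hf.subsingleton
  · rintro H X hX e he n m h1 h2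
    refine ⟨fun x y => ?_⟩
    have key : ∀ x : F.C.G ((e : ℤ) - n) m X, x = 0 := by
      intro x
      obtain ⟨Y, e₀, hY, hIY, hSY, heY, f, y, rfl⟩ := F.model X hX e n m he x
      have h4 := neg_prime F.E Cu.intFrac_rat w e₀ H Y hY heY.le
      have h5 := neg_of_all _ Y h4 e₀ heY n m h1 h2
      rw [Subsingleton.elim y 0, map_zero]
    rw [key x, key y]

end Pool.Agent.Run7.h902.Cw
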