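import Pool.Agent.Run7.h902.Ax

/-!
# The gap lemma for the cyclotomic tower over `ℚ_p` (helper902, piece B of MP_395897_nt)
-/

set_option autoImplicit false

noncomputable section

namespace Run7.h902

open Polynomial

variable {p : ℕ} [hp : Fact p.Prime]

/-! ### Norms of `ζ - 1` -/

lemma norm_rou {ζ : PadicAlgCl p} {n : ℕ} (hn : n ≠ 0) (h : ζ ^ n = 1) : ‖ζ‖ = 1 := by
  have h1 : ‖ζ‖ ^ n = 1 := by rw [← norm_pow, h, norm_one]
  exact (pow_eq_one_iff_of_nonneg (norm_nonneg _) hn).1 h1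

lemma one_sub_le {ζ μ : PadicAlgCl p} {n : ℕ} (hn : n ≠ 0) (hζ : IsPrimitiveRoot ζ n)
    (hμ : μ ^ n = 1) : ‖1 - μ‖ ≤ ‖1 - ζ‖ := by
  have : NeZero n := ⟨hn⟩
  obtain ⟨i, _, rfl⟩ := hζ.eq_pow_of_pow_eq_one hμ
  rw [← mul_neg_geom_sum, norm_mul]
  apply mul_le_of_le_one_right (norm_nonneg _)
  apply IsUltrametricDist.norm_sum_le_of_forall_le_of_nonneg zero_le_one
  intro j _
  rw [norm_pow, norm_rou hn hζ.pow_eq_one, one_pow]

lemma norm_p : ‖(p : PadicAlgCl p)‖ = (p : ℝ)⁻¹ := by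
  rw [norm_nat p hp.out.ne_zero, padicValNat_self, Nat.cast_one, Real.rpow_neg_one]

lemma pi_norm {ζ : PadicAlgCl p} {k : ℕ} (hζ : IsPrimitiveRoot ζ (p ^ (k + 1))) :
    ‖ζ - 1‖ ^ (Nat.totient (p ^ (k + 1))) = (p : ℝ)⁻¹ := by
  have hn : p ^ (k + 1) ≠ 0 := pow_ne_zero _ hp.out.ne_zero
  have h := eval_one_cyclotomic_prime_pow (R := PadicAlgCl p) (p := p) k
  rw [cyclotomic_eq_prod_X_sub_primitiveRoots hζ, eval_prod] at h
  simp only [eval_sub, eval_X, eval_C] at h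
  have h2 := congrArg (fun x : PadicAlgCl p => ‖x‖) h
  simp only [norm_prod] at h2
  rw [Finset.prod_congr rfl (g := fun _ => ‖ζ - 1‖), Finset.prod_const, hζ.card_primitiveRoots,
    norm_p] at h2
  · exact h2
  · intro μ hμ
    have hμ' := (mem_primitiveRoots (Nat.pos_of_ne_zero hn)).1 hμ
    rw [norm_sub_rev ζ]
    exact le_antisymm (one_sub_le hn hζ hμ'.pow_eq_one) (one_sub_le hn hμ' hζ.pow_eq_one)

lemma phi_pos (k : ℕ) : 0 < Nat.totient (p ^ (k + 1)) :=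
  Nat.totient_pos.2 (pow_pos hp.out.pos _)

lemma pi_pos {ζ : PadicAlgCl p} {k : ℕ} (hζ : IsPrimitiveRoot ζ (p ^ (k + 1))) :
    0 < ‖ζ - 1‖ := by
  have h := pi_norm hζ
  rcases (norm_nonneg (ζ - 1)).lt_or_eq with h1 | h1
  · exact h1
  · rw [← h1, zero_pow (phi_pos k).ne'] at h
    have : (0 : ℝ) < (p : ℝ)⁻¹ := by
      have : (0 : ℝ) < p := by exact_mod_cast hp.out.pos
      positivity
    linarith

/-! ### Expansions in powers of `ζ - 1` -/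

lemma expand {ζ : PadicAlgCl p} {k : ℕ} (hζ : IsPrimitiveRoot ζ (p ^ (k + 1)))
    {x : PadicAlgCl p} (hx : x ∈ IntermediateField.adjoin ℚ_[p] {ζ}) :
    ∃ c : ℕ → ℚ_[p], x = ∑ i ∈ Finset.range (Nat.totient (p ^ (k + 1))), c i • (ζ - 1) ^ i := by
  have halg : IsAlgebraic ℚ_[p] ζ := Algebra.IsAlgebraic.isAlgebraic ζ
  rw [← IntermediateField.mem_toSubalgebra,
    IntermediateField.adjoin_simple_toSubalgebra_of_isAlgebraic halg,
    Algebra.adjoin_singleton_eq_range_aeval] at hx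
  obtain ⟨q, rfl⟩ := hx
  set f : ℚ_[p][X] := (cyclotomic (p ^ (k + 1)) ℚ_[p]).comp (X + 1) with hf
  have hfm : f.Monic := by
    have := (cyclotomic.monic (p ^ (k + 1)) ℚ_[p]).comp_X_add_C 1
    simpa [hf] using this
  have hfd : f.natDegree = Nat.totient (p ^ (k + 1)) := by
    rw [hf, natDegree_comp, natDegree_cyclotomic]
    have : (X + 1 : ℚ_[p][X]).natDegree = 1 := by
      simpa using natDegree_X_add_C (R := ℚ_[p]) 1
    rw [this, mul_one]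
  have hf0 : aeval (ζ - 1) f = 0 := by
    rw [hf, aeval_comp]
    have : aeval (ζ - 1) (X + 1 : ℚ_[p][X]) = ζ := by simp
    rw [this, aeval_def, eval₂_eq_eval_map, map_cyclotomic]
    exact (hζ.isRoot_cyclotomic (pow_pos hp.out.pos _))
  set g : ℚ_[p][X] := q.comp (X + 1) with hg
  have hgq : aeval (ζ - 1) g = aeval ζ q := by
    rw [hg, aeval_comp]
    have : aeval (ζ - 1) (X + 1 : ℚ_[p][X]) = ζ := by simp
    rw [this]
  refine ⟨fun i => (g %ₘ f).coeff i, ?_⟩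
  have hdeg : (g %ₘ f).natDegree < Nat.totient (p ^ (k + 1)) := by
    rw [← hfd]
    exact natDegree_modByMonic_lt g hfm (by
      intro h1
      have := hfd
      rw [h1, natDegree_one] at this
      exact (phi_pos (p := p) k).ne this)
  have := aeval_eq_sum_range' hdeg (ζ - 1)
  rw [aeval_modByMonic_eq_self_of_root hf0, hgq] at this
  exact this

lemma padic_norm_pow {a : ℚ_[p]} (ha : a ≠ 0) : ∃ v : ℤ, ‖a‖ = (p : ℝ) ^ v :=
  ⟨-a.valuation, Padic.norm_eq_zpow_neg_valuation ha⟩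

lemma term_norm {ζ : PadicAlgCl p} {k : ℕ} (hζ : IsPrimitiveRoot ζ (p ^ (k + 1)))
    (a : ℚ_[p]) (i : ℕ) (ha : a ≠ 0) : ∃ v : ℤ, ‖a‖ = (p : ℝ) ^ v ∧
      ‖a • (ζ - 1) ^ i‖ ^ (Nat.totient (p ^ (k + 1))) =
        (p : ℝ) ^ ((Nat.totient (p ^ (k + 1)) : ℤ) * v - i) := by
  obtain ⟨v, hv⟩ := padic_norm_pow ha
  have hp0 : (p : ℝ) ≠ 0 := by exact_mod_cast hp.out.ne_zero
  refine ⟨v, hv, ?_⟩
  rw [norm_smul, hv, norm_pow, mul_pow, ← pow_mul, mul_comm i, pow_mul, pi_norm hζ,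
    zpow_sub₀ hp0, zpow_natCast, mul_comm _ v, zpow_mul, zpow_natCast, inv_pow]
  rfl

lemma norm_expand {ζ : PadicAlgCl p} {k : ℕ} (hζ : IsPrimitiveRoot ζ (p ^ (k + 1)))
    (c : ℕ → ℚ_[p]) {x : PadicAlgCl p} (hx0 : x ≠ 0)
    (hx : x = ∑ i ∈ Finset.range (Nat.totient (p ^ (k + 1))), c i • (ζ - 1) ^ i) :
    (∃ i, i < Nat.totient (p ^ (k + 1)) ∧ c i ≠ 0 ∧ ‖x‖ = ‖c i • (ζ - 1) ^ i‖) ∧
      ∀ j, j < Nat.totient (p ^ (k + 1)) → ‖c j • (ζ - 1) ^ j‖ ≤ ‖x‖ := by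
  classical
  set φ := Nat.totient (p ^ (k + 1)) with hφ
  set s := (Finset.range φ).filter (fun i => c i ≠ 0) with hs
  have hp1 : (1 : ℝ) < p := by exact_mod_cast hp.out.one_lt
  have hxs : x = ∑ i ∈ s, c i • (ζ - 1) ^ i := by
    rw [hx, hs, Finset.sum_filter]
    apply Finset.sum_congr rfl
    intro i _
    by_cases h : c i = 0
    · simp [h]
    · simp [h]
  have hne : s.Nonempty := by
    rw [Finset.nonempty_iff_ne_empty]
    intro h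
    rw [h, Finset.sum_empty] at hxs
    exact hx0 hxs
  have hpw : Set.Pairwise (s : Set ℕ) (fun i j => ‖c i • (ζ - 1) ^ i‖ ≠ ‖c j • (ζ - 1) ^ j‖) := by
    intro i hi j hj hij heq
    rw [Finset.mem_coe, hs, Finset.mem_filter, Finset.mem_range] at hi hj
    obtain ⟨v, _, hv⟩ := term_norm hζ (c i) i hi.2
    obtain ⟨w, _, hw⟩ := term_norm hζ (c j) j hj.2
    rw [heq, hw] at hv
    have h1 := zpow_right_injective₀ (by linarith : (0 : ℝ) < p) hp1.ne' hv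
    rw [← hφ] at h1
    apply hij
    have h2 : (φ : ℤ) ∣ (i : ℤ) - j := ⟨v - w, by rw [mul_sub]; linarith⟩
    have h3 : |(i : ℤ) - j| < φ := by
      rw [abs_lt]
      constructor <;> omega
    have h4 := Int.eq_zero_of_abs_lt_dvd h2 h3
    omega
  have hsup := IsUltrametricDist.norm_sum_eq_sup'_of_pairwise_ne hne hpw
  rw [← hxs] at hsup
  constructor
  · obtain ⟨i, hi, hi2⟩ := Finset.exists_mem_eq_sup' hne (fun i => ‖c i • (ζ - 1) ^ i‖)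
    rw [hs, Finset.mem_filter, Finset.mem_range] at hi
    exact ⟨i, hi.1, hi.2, hsup.trans hi2⟩
  · intro j hj
    by_cases h : c j = 0
    · simp [h]
    · rw [hsup]
      exact Finset.le_sup' (fun i => ‖c i • (ζ - 1) ^ i‖)
        (by rw [hs, Finset.mem_filter, Finset.mem_range]; exact ⟨hj, h⟩)

/-- Norms of elements of `ℚ_p(ζ)`. -/
lemma norm_pow_mem {ζ : PadicAlgCl p} {k : ℕ} (hζ : IsPrimitiveRoot ζ (p ^ (k + 1)))
    {x : PadicAlgCl p} (hx : x ∈ IntermediateField.adjoin ℚ_[p] {ζ}) (hx0 : x ≠ 0) :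
    ∃ v : ℤ, ‖x‖ ^ (Nat.totient (p ^ (k + 1))) = (p : ℝ) ^ v := by
  obtain ⟨c, hc⟩ := expand hζ hx
  obtain ⟨⟨i, _, hi, hi2⟩, _⟩ := norm_expand hζ c hx0 hc
  obtain ⟨v, _, hv⟩ := term_norm hζ (c i) i hi
  exact ⟨_, by rw [hi2]; exact hv⟩

/-- Integral expansions. -/
lemma expand_int {ζ : PadicAlgCl p} {k : ℕ} (hζ : IsPrimitiveRoot ζ (p ^ (k + 1)))
    {x : PadicAlgCl p} (hx : x ∈ IntermediateField.adjoin ℚ_[p] {ζ}) (hx1 : ‖x‖ ≤ 1) :
    ∃ c : ℕ → ℚ_[p], (∀ i, ‖c i‖ ≤ 1) ∧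
      x = ∑ i ∈ Finset.range (Nat.totient (p ^ (k + 1))), c i • (ζ - 1) ^ i := by
  by_cases hx0 : x = 0
  · exact ⟨fun _ => 0, by simp, by simp [hx0]⟩
  obtain ⟨c, hc⟩ := expand hζ hx
  obtain ⟨_, h2⟩ := norm_expand hζ c hx0 hc
  have hp1 : (1 : ℝ) < p := by exact_mod_cast hp.out.one_lt
  have key : ∀ j, j < Nat.totient (p ^ (k + 1)) → ‖c j‖ ≤ 1 := by
    intro j hj
    by_cases h0 : c j = 0
    · simp [h0]
    obtain ⟨v, hv1, hv⟩ := term_norm hζ (c j) j h0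
    have h3 : ‖c j • (ζ - 1) ^ j‖ ^ (Nat.totient (p ^ (k + 1))) ≤ 1 :=
      pow_le_one₀ (norm_nonneg _) ((h2 j hj).trans hx1)
    rw [hv] at h3
    have h4 : (Nat.totient (p ^ (k + 1)) : ℤ) * v - j ≤ 0 := by
      by_contra hcon
      push Not at hcon
      exact absurd h3 (not_le.2 (one_lt_zpow₀ hp1 hcon))
    have h5 : v ≤ 0 := by
      by_contra hcon
      push Not at hcon
      have : (Nat.totient (p ^ (k + 1)) : ℤ) * 1 ≤ (Nat.totient (p ^ (k + 1)) : ℤ) * v :=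
        mul_le_mul_of_nonneg_left hcon (by positivity)
      have hj' : (j : ℤ) < (Nat.totient (p ^ (k + 1)) : ℤ) := by exact_mod_cast hj
      linarith
    rw [hv1]
    exact zpow_le_one_of_nonpos₀ hp1.le h5
  refine ⟨fun i => if i < Nat.totient (p ^ (k + 1)) then c i else 0, ?_, ?_⟩
  · intro i
    by_cases h : i < Nat.totient (p ^ (k + 1))
    · simp only [h, if_true]; exact key i h
    · simp [h]
  · rw [hc]
    apply Finset.sum_congr rfl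
    intro i hi
    simp [Finset.mem_range.1 hi]

/-! ### The automorphism -/

lemma exists_prim (n : ℕ) : ∃ ζ : PadicAlgCl p, IsPrimitiveRoot ζ (p ^ n) := by
  have : NeZero ((p ^ n : ℕ) : PadicAlgCl p) :=
    ⟨by exact_mod_cast pow_ne_zero n hp.out.ne_zero⟩
  have : NeZero (p ^ n) := ⟨pow_ne_zero n hp.out.ne_zero⟩
  exact HasEnoughRootsOfUnity.exists_primitiveRoot (PadicAlgCl p) (p ^ n)

lemma prim_of_pow {ζ : PadicAlgCl p} {k : ℕ} (h : ζ ^ p ^ (k + 1) = 1) (h' : ζ ^ p ^ k ≠ 1) :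
    IsPrimitiveRoot ζ (p ^ (k + 1)) := by
  rw [IsPrimitiveRoot.iff_orderOf]
  exact orderOf_eq_prime_pow h' h

/-- An automorphism which fixes `μ_{p^2}` and moves a root of unity of order `p^3`. -/
lemma exists_gamma : ∃ γ : Gal(PadicAlgCl p/ℚ_[p]),
    (∀ ζ : PadicAlgCl p, ζ ^ p ^ 2 = 1 → γ ζ = ζ) ∧
      ∀ ζ : PadicAlgCl p, IsPrimitiveRoot ζ (p ^ 3) → γ ζ ≠ ζ := by
  obtain ⟨ξ, hξ⟩ := exists_prim (p := p) 2
  obtain ⟨η, hη⟩ := exists_prim (p := p) 3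
  have hp1 : (1 : ℝ) < p := by exact_mod_cast hp.out.one_lt
  have hnot : η ∉ IntermediateField.adjoin ℚ_[p] {ξ} := by
    intro hmem
    have hmem' : η - 1 ∈ IntermediateField.adjoin ℚ_[p] {ξ} := sub_mem hmem (one_mem _)
    obtain ⟨v, hv⟩ := norm_pow_mem (k := 1) hξ hmem' (by
      intro h0
      have := pi_pos (k := 2) hη
      rw [h0, norm_zero] at this
      exact lt_irrefl _ this)
    have h3 := pi_norm (k := 2) hη
    have e : Nat.totient (p ^ (2 + 1)) = Nat.totient (p ^ (1 + 1)) * p := by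
      rw [Nat.totient_prime_pow_succ hp.out, Nat.totient_prime_pow_succ hp.out]
      ring
    rw [e, pow_mul, hv, ← zpow_natCast, ← zpow_mul, ← zpow_neg_one] at h3
    have h4 := zpow_right_injective₀ (by linarith : (0 : ℝ) < p) hp1.ne' h3
    have h5 : (p : ℤ) ∣ 1 := ⟨-v, by linarith⟩
    have h6 := Int.eq_one_of_dvd_one (by positivity) h5
    exact hp.out.one_lt.ne' (by exact_mod_cast h6)
  by_cases hall : ∀ σ ∈ (IntermediateField.adjoin ℚ_[p] {ξ}).fixingSubgroup, σ η = η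
  · exfalso
    obtain ⟨a, ha, ha2⟩ := ax_lemma (IntermediateField.adjoin ℚ_[p] {ξ}) η 0 (by
      intro σ hσ
      rw [hall σ hσ, sub_self, norm_zero])
    rw [mul_zero] at ha2
    have : η = a := by
      have := norm_le_zero_iff.1 ha2
      exact sub_eq_zero.1 this
    exact hnot (this ▸ ha)
  push Not at hall
  obtain ⟨σ, hσ, hση⟩ := hall
  rw [IntermediateField.mem_fixingSubgroup_iff] at hσ
  have hp2 : p ^ 2 ≠ 0 := pow_ne_zero _ hp.out.ne_zero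
  have hp3 : p ^ 3 ≠ 0 := pow_ne_zero _ hp.out.ne_zero
  refine ⟨σ, ?_, ?_⟩
  · intro ζ hζ
    have : NeZero (p ^ 2) := ⟨hp2⟩
    obtain ⟨i, _, rfl⟩ := hξ.eq_pow_of_pow_eq_one hζ
    exact hσ _ (pow_mem (IntermediateField.mem_adjoin_simple_self _ _) _)
  · intro ζ hζ h
    have : NeZero (p ^ 3) := ⟨hp3⟩
    obtain ⟨i, _, hi⟩ := hζ.eq_pow_of_pow_eq_one hη.pow_eq_one
    apply hση
    rw [← hi, map_pow, h]

/-- The powers `γ ^ (p ^ j)`. -/
lemma gamma_pow {γ : Gal(PadicAlgCl p/ℚ_[p])}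
    (h2 : ∀ ζ : PadicAlgCl p, ζ ^ p ^ 2 = 1 → γ ζ = ζ)
    (h3 : ∀ ζ : PadicAlgCl p, IsPrimitiveRoot ζ (p ^ 3) → γ ζ ≠ ζ) (j : ℕ) :
    (∀ ζ : PadicAlgCl p, ζ ^ p ^ (2 + j) = 1 → (γ ^ p ^ j) ζ = ζ) ∧
      ∀ ζ : PadicAlgCl p, IsPrimitiveRoot ζ (p ^ (3 + j)) → (γ ^ p ^ j) ζ ≠ ζ := by
  induction j with
  | zero => simpa using ⟨h2, h3⟩
  | succ j ih =>
    obtain ⟨ih1, ih2⟩ := ih
    set τ := γ ^ p ^ j with hτ
    have hτp : γ ^ p ^ (j + 1) = τ ^ p := by rw [hτ, ← pow_mul, pow_succ]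
    -- general: if `τ ζ = ζ ε` with `τ ε = ε` then `τ^n ζ = ζ ε^n`
    have hgen : ∀ (ζ ε : PadicAlgCl p), τ ζ = ζ * ε → τ ε = ε → ∀ n : ℕ,
        (τ ^ n) ζ = ζ * ε ^ n := by
      intro ζ ε h h' n
      induction n with
      | zero => simp
      | succ n ihn =>
        rw [pow_succ', AlgEquiv.mul_apply, ihn, map_mul, map_pow, h, h', pow_succ']
        ring
    constructor
    · intro ζ hζ
      have hζ0 : ζ ≠ 0 := by
        rintro rfl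
        rw [zero_pow (pow_ne_zero _ hp.out.ne_zero)] at hζ
        exact zero_ne_one hζ
      have hζp : (ζ ^ p) ^ p ^ (2 + j) = 1 := by
        rw [← pow_mul, ← pow_succ', show 2 + j + 1 = 2 + (j + 1) by ring, hζ]
      have hε : (τ ζ / ζ) ^ p = 1 := by
        rw [div_pow, ← map_pow, ih1 _ hζp, div_self (pow_ne_zero _ hζ0)]
      have hε2 : τ (τ ζ / ζ) = τ ζ / ζ := by
        apply ih1
        rw [show 2 + j = 1 + (1 + j) by ring, pow_add, pow_one, pow_mul, hε, one_pow]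
      rw [hτp, hgen ζ (τ ζ / ζ) (by field_simp) hε2 p, hε, mul_one]
    · intro ζ hζ
      have hζ0 : ζ ≠ 0 := hζ.ne_zero (pow_ne_zero _ hp.out.ne_zero)
      have hζp : IsPrimitiveRoot (ζ ^ p) (p ^ (3 + j)) :=
        hζ.pow (pow_pos hp.out.pos _) (by ring)
      have hζpp : (ζ ^ p ^ 2) ^ p ^ (2 + j) = 1 := by
        rw [← pow_mul, ← pow_add, show 2 + (2 + j) = 3 + (j + 1) by ring, hζ.pow_eq_one]
      have hεp : (τ ζ / ζ) ^ p ≠ 1 := by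
        rw [div_pow, ← map_pow]
        intro h
        exact ih2 _ hζp ((div_eq_one_iff_eq (pow_ne_zero _ hζ0)).1 h)
      have hεpp : (τ ζ / ζ) ^ p ^ 2 = 1 := by
        rw [div_pow, ← map_pow, ih1 _ hζpp, div_self (pow_ne_zero _ hζ0)]
      have hε2 : τ (τ ζ / ζ) = τ ζ / ζ := by
        apply ih1
        rw [pow_add, pow_mul, hεpp, one_pow]
      rw [hτp, hgen ζ (τ ζ / ζ) (by field_simp) hε2 p]
      intro h
      exact hεp (mul_left_cancel₀ hζ0 (by rw [h, mul_one]))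

lemma pow_apply_gen {τ : Gal(PadicAlgCl p/ℚ_[p])} {ζ ε : PadicAlgCl p} (h : τ ζ = ζ * ε)
    (h' : τ ε = ε) (n : ℕ) : (τ ^ n) ζ = ζ * ε ^ n := by
  induction n with
  | zero => simp
  | succ n ihn =>
    rw [pow_succ', AlgEquiv.mul_apply, ihn, map_mul, map_pow, h, h', pow_succ']
    ring

/-- Summary: on a root of unity of order `p ^ (3 + j)`. -/
lemma gamma_eps {γ : Gal(PadicAlgCl p/ℚ_[p])}
    (h2 : ∀ ζ : PadicAlgCl p, ζ ^ p ^ 2 = 1 → γ ζ = ζ)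
    (h3 : ∀ ζ : PadicAlgCl p, IsPrimitiveRoot ζ (p ^ 3) → γ ζ ≠ ζ) (j : ℕ)
    {ζ : PadicAlgCl p} (hζ : IsPrimitiveRoot ζ (p ^ (3 + j))) :
    ∃ ε : PadicAlgCl p, ε ≠ 1 ∧ ε ^ p = 1 ∧ (γ ^ p ^ j) ζ = ζ * ε := by
  obtain ⟨g1, g2⟩ := gamma_pow h2 h3 j
  have hζ0 : ζ ≠ 0 := hζ.ne_zero (pow_ne_zero _ hp.out.ne_zero)
  refine ⟨(γ ^ p ^ j) ζ / ζ, ?_, ?_, by field_simp⟩
  · intro h
    exact g2 ζ hζ ((div_eq_one_iff_eq hζ0).1 h)
  · rw [div_pow, ← map_pow, g1 (ζ ^ p) ?_, div_self (pow_ne_zero _ hζ0)]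
    rw [← pow_mul, ← pow_succ', show 2 + j + 1 = 3 + j by ring, hζ.pow_eq_one]

lemma gamma_inf {γ : Gal(PadicAlgCl p/ℚ_[p])}
    (h2 : ∀ ζ : PadicAlgCl p, ζ ^ p ^ 2 = 1 → γ ζ = ζ)
    (h3 : ∀ ζ : PadicAlgCl p, IsPrimitiveRoot ζ (p ^ 3) → γ ζ ≠ ζ) (n : ℕ) (hn : n ≠ 0) :
    ∃ (m : ℕ) (ζ : PadicAlgCl p), ζ ^ p ^ m = 1 ∧ (γ ^ n) ζ ≠ ζ := by
  obtain ⟨v, m, hm, hnm⟩ := Nat.exists_eq_pow_mul_and_not_dvd hn p hp.out.ne_one
  obtain ⟨ζ, hζ⟩ := exists_prim (p := p) (3 + v)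
  obtain ⟨ε, h1, hp', hε⟩ := gamma_eps h2 h3 v hζ
  refine ⟨3 + v, ζ, hζ.pow_eq_one, ?_⟩
  have hγε : (γ ^ p ^ v) ε = ε := by
    apply (gamma_pow h2 h3 v).1
    rw [show 2 + v = 1 + (1 + v) by ring, pow_add, pow_one, pow_mul, hp', one_pow]
  rw [hnm, pow_mul, pow_apply_gen hε hγε m]
  have hζ0 : ζ ≠ 0 := hζ.ne_zero (pow_ne_zero _ hp.out.ne_zero)
  intro h
  have hm1 : ε ^ m = 1 := mul_left_cancel₀ hζ0 (by rw [h, mul_one])
  have hprim : IsPrimitiveRoot ε p := by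
    have := prim_of_pow (k := 0) (ζ := ε) (by simpa using hp') (by simpa using h1)
    simpa using this
  exact hm (hprim.dvd_of_pow_eq_one m hm1)

/-! ### The trace -/

/-- `1 + γ + ... + γ ^ (N - 1)`. -/
def S (γ : Gal(PadicAlgCl p/ℚ_[p])) (N : ℕ) (x : PadicAlgCl p) : PadicAlgCl p :=
  ∑ b ∈ Finset.range N, (γ ^ b) x

lemma S_add (γ : Gal(PadicAlgCl p/ℚ_[p])) (N : ℕ) (x y : PadicAlgCl p) :
    S γ N (x + y) = S γ N x + S γ N y := by
  simp [S, Finset.sum_add_distrib]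

lemma S_smul (γ : Gal(PadicAlgCl p/ℚ_[p])) (N : ℕ) (c : ℚ_[p]) (x : PadicAlgCl p) :
    S γ N (c • x) = c • S γ N x := by
  simp only [S, Finset.smul_sum]
  exact Finset.sum_congr rfl (fun b _ => by
    rw [Algebra.smul_def, Algebra.smul_def, map_mul, AlgEquiv.commutes])

lemma S_sum (γ : Gal(PadicAlgCl p/ℚ_[p])) (N : ℕ) {ι : Type*} (s : Finset ι)
    (f : ι → PadicAlgCl p) : S γ N (∑ i ∈ s, f i) = ∑ i ∈ s, S γ N (f i) := by
  simp only [S, map_sum]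
  exact Finset.sum_comm

lemma S_fixed (γ : Gal(PadicAlgCl p/ℚ_[p])) (N : ℕ) {x : PadicAlgCl p} (h : γ x = x) :
    S γ N x = N * x := by
  have : ∀ b : ℕ, (γ ^ b) x = x := by
    intro b
    induction b with
    | zero => simp
    | succ b ih => rw [pow_succ, AlgEquiv.mul_apply, h, ih]
  simp [S, this]

lemma S_mul_fixed (γ : Gal(PadicAlgCl p/ℚ_[p])) (N : ℕ) {x ε : PadicAlgCl p} (h : γ ε = ε) :
    S γ N (x * ε) = S γ N x * ε := by
  have : ∀ b : ℕ, (γ ^ b) ε = ε := by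
    intro b
    induction b with
    | zero => simp
    | succ b ih => rw [pow_succ, AlgEquiv.mul_apply, h, ih]
  simp only [S, Finset.sum_mul]
  exact Finset.sum_congr rfl (fun b _ => by rw [map_mul, this])

lemma S_gamma (γ : Gal(PadicAlgCl p/ℚ_[p])) (N : ℕ) (x : PadicAlgCl p) :
    S γ N (γ x - x) = (γ ^ N) x - x := by
  have h : ∀ b : ℕ, (γ ^ b) (γ x - x) = (γ ^ (b + 1)) x - (γ ^ b) x := by
    intro b
    rw [map_sub, pow_succ, AlgEquiv.mul_apply]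
  simp only [S, h]
  rw [Finset.sum_range_sub (fun b => (γ ^ b) x)]
  simp

lemma S_gamma_pow (γ : Gal(PadicAlgCl p/ℚ_[p])) (N : ℕ) {x : PadicAlgCl p}
    (hx : (γ ^ N) x = x) (t : ℕ) : S γ N ((γ ^ t) x) = S γ N x := by
  induction t with
  | zero => simp
  | succ t ih =>
    have h1 : (γ ^ N) ((γ ^ t) x) = (γ ^ t) x := by
      rw [← AlgEquiv.mul_apply, ← pow_add, add_comm, pow_add, AlgEquiv.mul_apply, hx]
    have h := S_gamma γ N ((γ ^ t) x)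
    rw [h1, sub_self] at h
    have e : (γ ^ (t + 1)) x = (γ ((γ ^ t) x) - (γ ^ t) x) + (γ ^ t) x := by
      rw [pow_succ', AlgEquiv.mul_apply]; ring
    rw [e, S_add, h, zero_add, ih]

lemma S_root {γ : Gal(PadicAlgCl p/ℚ_[p])}
    (h2 : ∀ ζ : PadicAlgCl p, ζ ^ p ^ 2 = 1 → γ ζ = ζ)
    (h3 : ∀ ζ : PadicAlgCl p, IsPrimitiveRoot ζ (p ^ 3) → γ ζ ≠ ζ) (m : ℕ)
    {ζ : PadicAlgCl p} (hζ : ζ ^ p ^ (2 + m) = 1) :
    ‖S γ (p ^ m) ζ‖ ≤ ‖((p ^ m : ℕ) : PadicAlgCl p)‖ := by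
  classical
  by_cases hs : ζ ^ p ^ 2 = 1
  · rw [S_fixed γ _ (h2 ζ hs), norm_mul, norm_rou (pow_ne_zero _ hp.out.ne_zero) hs, mul_one]
  · -- the order of `ζ` is `p ^ (3 + j)`
    have hex : ∃ j, ζ ^ p ^ (2 + j) = 1 := ⟨m, hζ⟩
    set j := Nat.find hex with hj
    have hj1 : ζ ^ p ^ (2 + j) = 1 := Nat.find_spec hex
    obtain ⟨i, hi⟩ : ∃ i, j = i + 1 := by
      rcases hj0 : j with _ | i
      · rw [hj0] at hj1; exact absurd (by simpa using hj1) hs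
      · exact ⟨i, rfl⟩
    have hj2 : ζ ^ p ^ (2 + i) ≠ 1 := fun h => by
      have : j ≤ i := Nat.find_min' hex h
      omega
    have hprim : IsPrimitiveRoot ζ (p ^ (3 + i)) := by
      have := prim_of_pow (k := 2 + i) (ζ := ζ) (by
        rw [show 2 + i + 1 = 2 + j by omega]; exact hj1) hj2
      rwa [show 2 + i + 1 = 3 + i by omega] at this
    obtain ⟨ε, h1, hp', hε⟩ := gamma_eps h2 h3 i hprim
    have hfix : γ ε = ε := h2 ε (by rw [pow_two, pow_mul, hp', one_pow])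
    have hN : (γ ^ p ^ m) ζ = ζ := (gamma_pow h2 h3 m).1 ζ hζ
    have e1 := S_gamma_pow γ (p ^ m) hN (p ^ i)
    rw [hε, S_mul_fixed γ _ hfix] at e1
    have e2 : S γ (p ^ m) ζ = 0 := by
      have : S γ (p ^ m) ζ * (ε - 1) = 0 := by rw [mul_sub, e1]; ring
      rcases mul_eq_zero.1 this with h | h
      · exact h
      · exact absurd (sub_eq_zero.1 h) h1
    rw [e2, norm_zero]
    exact norm_nonneg _

lemma S_poly {γ : Gal(PadicAlgCl p/ℚ_[p])}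
    (h2 : ∀ ζ : PadicAlgCl p, ζ ^ p ^ 2 = 1 → γ ζ = ζ)
    (h3 : ∀ ζ : PadicAlgCl p, IsPrimitiveRoot ζ (p ^ 3) → γ ζ ≠ ζ) (m : ℕ)
    {ζ : PadicAlgCl p} (hζ : ζ ^ p ^ (2 + m) = 1) (q : ℤ[X]) :
    ‖S γ (p ^ m) (aeval ζ q)‖ ≤ ‖((p ^ m : ℕ) : PadicAlgCl p)‖ := by
  rw [aeval_eq_sum_range, S_sum]
  apply IsUltrametricDist.norm_sum_le_of_forall_le_of_nonneg (norm_nonneg _)
  intro i _
  have e : (q.coeff i • ζ ^ i : PadicAlgCl p) = ((q.coeff i : ℤ) : ℚ_[p]) • ζ ^ i := by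
    rw [Algebra.smul_def, Algebra.smul_def]; simp
  rw [e, S_smul, norm_smul]
  refine (mul_le_of_le_one_left (norm_nonneg _) (Padic.norm_int_le_one _)).trans ?_
  apply S_root h2 h3
  rw [← pow_mul, mul_comm, pow_mul, hζ, one_pow]

lemma S_int {γ : Gal(PadicAlgCl p/ℚ_[p])}
    (h2 : ∀ ζ : PadicAlgCl p, ζ ^ p ^ 2 = 1 → γ ζ = ζ)
    (h3 : ∀ ζ : PadicAlgCl p, IsPrimitiveRoot ζ (p ^ 3) → γ ζ ≠ ζ) (m : ℕ)
    {ζ : PadicAlgCl p} (hζ : IsPrimitiveRoot ζ (p ^ (2 + m))) {x : PadicAlgCl p}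
    (hx : x ∈ IntermediateField.adjoin ℚ_[p] {ζ}) (hx1 : ‖x‖ ≤ 1) :
    ‖S γ (p ^ m) x‖ ≤ ‖((p ^ m : ℕ) : PadicAlgCl p)‖ := by
  have hζ' : IsPrimitiveRoot ζ (p ^ ((1 + m) + 1)) := by
    rwa [show 1 + m + 1 = 2 + m by ring]
  obtain ⟨c, hc1, hc⟩ := expand_int hζ' hx hx1
  rw [hc, S_sum]
  apply IsUltrametricDist.norm_sum_le_of_forall_le_of_nonneg (norm_nonneg _)
  intro i _
  rw [S_smul, norm_smul]
  refine (mul_le_of_le_one_left (norm_nonneg _) (hc1 i)).trans ?_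
  have := S_poly h2 h3 m hζ.pow_eq_one ((X - 1) ^ i)
  simpa using this

/-! ### The gap -/

/-- The field generated by all roots of unity of `p`-power order. -/
def Kinf (p : ℕ) [Fact p.Prime] : IntermediateField ℚ_[p] (PadicAlgCl p) :=
  IntermediateField.adjoin ℚ_[p] {ζ | ∃ m : ℕ, ζ ^ p ^ m = 1}

lemma mem_level {a : PadicAlgCl p} (ha : a ∈ Kinf p) : ∃ (m : ℕ) (ζ : PadicAlgCl p),
    IsPrimitiveRoot ζ (p ^ (2 + m)) ∧ a ∈ IntermediateField.adjoin ℚ_[p] {ζ} := by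
  classical
  obtain ⟨T, hT, haT⟩ := IntermediateField.exists_finset_of_mem_adjoin ha
  have hT' : ∀ x : T, ∃ m : ℕ, (x : PadicAlgCl p) ^ p ^ m = 1 := fun x => hT x.2
  choose f hf using hT'
  set M := ∑ x : T, f x with hM
  have hfM : ∀ x : T, f x ≤ M := fun x =>
    Finset.single_le_sum (fun _ _ => Nat.zero_le _) (Finset.mem_univ x)
  obtain ⟨ζ, hζ⟩ := exists_prim (p := p) (2 + M)
  refine ⟨M, ζ, hζ, ?_⟩
  have hle : IntermediateField.adjoin ℚ_[p] (T : Set (PadicAlgCl p)) ≤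
      IntermediateField.adjoin ℚ_[p] {ζ} := by
    rw [IntermediateField.adjoin_le_iff]
    intro x hx
    have : NeZero (p ^ (2 + M)) := ⟨pow_ne_zero _ hp.out.ne_zero⟩
    have hx1 : x ^ p ^ (2 + M) = 1 := by
      have h1 := hf ⟨x, hx⟩
      have h2 := hfM ⟨x, hx⟩
      have : 2 + M = f ⟨x, hx⟩ + (2 + M - f ⟨x, hx⟩) := by omega
      rw [this, pow_add, pow_mul, h1, one_pow]
    obtain ⟨i, _, rfl⟩ := hζ.eq_pow_of_pow_eq_one hx1
    exact pow_mem (IntermediateField.mem_adjoin_simple_self _ _) _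
  exact hle haT

/-- **The gap lemma**: piece B of the interface of helper547. -/
theorem gap : ∃ γ : Gal(PadicAlgCl p/ℚ_[p]),
    (∀ n : ℕ, n ≠ 0 → ∃ (m : ℕ) (ζ : PadicAlgCl p), ζ ^ p ^ m = 1 ∧ (γ ^ n) ζ ≠ ζ) ∧
      ∀ a ∈ Kinf p, (1 / p : ℝ) ≤ ‖γ a - a - 1‖ := by
  obtain ⟨γ, h2, h3⟩ := exists_gamma (p := p)
  refine ⟨γ, gamma_inf h2 h3, ?_⟩
  intro a ha
  obtain ⟨m, ζ, hζ, haζ⟩ := mem_level ha
  have hp0 : (0 : ℝ) < p := by exact_mod_cast hp.out.pos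
  have hp1 : (1 : ℝ) < p := by exact_mod_cast hp.out.one_lt
  by_contra hcon
  push Not at hcon
  -- `γ` preserves the field
  have hK : ∀ (τ : Gal(PadicAlgCl p/ℚ_[p])), τ ζ ∈ IntermediateField.adjoin ℚ_[p] {ζ} →
      ∀ x ∈ IntermediateField.adjoin ℚ_[p] {ζ}, τ x ∈ IntermediateField.adjoin ℚ_[p] {ζ} := by
    intro τ hτ x hx
    have hle : IntermediateField.adjoin ℚ_[p] {ζ} ≤
        (IntermediateField.adjoin ℚ_[p] {ζ}).comap (τ : PadicAlgCl p →ₐ[ℚ_[p]] PadicAlgCl p) := by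
      rw [IntermediateField.adjoin_le_iff, Set.singleton_subset_iff]
      exact hτ
    exact hle hx
  have hγζ : γ ζ ∈ IntermediateField.adjoin ℚ_[p] {ζ} := by
    have : NeZero (p ^ (2 + m)) := ⟨pow_ne_zero _ hp.out.ne_zero⟩
    obtain ⟨i, _, hi⟩ := hζ.eq_pow_of_pow_eq_one (ξ := γ ζ) (by
      rw [← map_pow, hζ.pow_eq_one, map_one])
    rw [← hi]
    exact pow_mem (IntermediateField.mem_adjoin_simple_self _ _) _
  have hγa : γ a ∈ IntermediateField.adjoin ℚ_[p] {ζ} := hK γ hγζ a haζ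
  -- `γ ^ N` is trivial on the field
  have hN : ∀ x ∈ IntermediateField.adjoin ℚ_[p] {ζ}, (γ ^ p ^ m) x = x := by
    intro x hx
    induction hx using IntermediateField.adjoin_induction with
    | mem x hx =>
      rw [Set.mem_singleton_iff] at hx
      rw [hx]
      exact (gamma_pow h2 h3 m).1 ζ hζ.pow_eq_one
    | algebraMap x => exact AlgEquiv.commutes _ _
    | add x y _ _ ihx ihy => rw [map_add, ihx, ihy]
    | inv x _ ih => rw [map_inv₀, ih]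
    | mul x y _ _ ihx ihy => rw [map_mul, ihx, ihy]
  set y := γ a - a - 1 with hy
  have hyK : y ∈ IntermediateField.adjoin ℚ_[p] {ζ} := sub_mem (sub_mem hγa haζ) (one_mem _)
  have hS1 : S γ (p ^ m) y = -((p ^ m : ℕ) : PadicAlgCl p) := by
    have e : y + 1 = γ a - a := by rw [hy]; ring
    have h4 := S_gamma γ (p ^ m) a
    rw [hN a haζ, sub_self, ← e, S_add, S_fixed γ _ (map_one γ), mul_one] at h4
    exact eq_neg_of_add_eq_zero_left h4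
  set x := ((p : ℚ_[p])⁻¹) • y with hx
  have hxK : x ∈ IntermediateField.adjoin ℚ_[p] {ζ} := by
    rw [hx]
    exact (IntermediateField.adjoin ℚ_[p] {ζ}).smul_mem hyK
  have hx1 : ‖x‖ ≤ 1 := by
    rw [hx, norm_smul, norm_inv, Padic.norm_p, inv_inv]
    have : (p : ℝ) * ‖y‖ ≤ p * (1 / p) := mul_le_mul_of_nonneg_left hcon.le hp0.le
    rwa [mul_one_div_cancel hp0.ne'] at this
  have hfin := S_int h2 h3 m hζ hxK hx1
  rw [hx, S_smul, hS1, norm_smul, norm_neg, norm_inv, Padic.norm_p, inv_inv] at hfin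
  have hpos : 0 < ‖((p ^ m : ℕ) : PadicAlgCl p)‖ := by
    rw [norm_pos_iff]
    exact_mod_cast pow_ne_zero m hp.out.ne_zero
  nlinarith

end Run7.h902
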