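import Pool.Agent.Run7.h547.FM.Kappa
import Pool.Agent.Run7.h902.Gap

/-!
# Tate's theorem `H^0(G_E, ℂ_p(r)) = 0` for `r ≠ 0` (helper902, piece C of MP_395897_nt)
-/

set_option autoImplicit false

noncomputable section

namespace Run7.h902

open Run7.h547

variable {p : ℕ} [hp : Fact p.Prime]

/-! ### The cyclotomic character with values in `ℂ_p` -/

lemma chi_mul (σ τ : GQ p) : chi (σ * τ) = chi σ * chi τ :=
  map_mul (cyclotomicCharacter (PadicAlgCl p) p) (σ : PadicAlgCl p ≃+* PadicAlgCl p)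
    (τ : PadicAlgCl p ≃+* PadicAlgCl p)

lemma chi_one : chi (1 : GQ p) = 1 := map_one (cyclotomicCharacter (PadicAlgCl p) p)

lemma chi_pow (σ : GQ p) (n : ℕ) : chi (σ ^ n) = chi σ ^ n := by
  induction n with
  | zero => simp [chi_one]
  | succ n ih => rw [pow_succ, pow_succ, chi_mul, ih]

/-- `χ(σ)` in `ℂ_p`. -/
def X (σ : GQ p) : ℂ_[p] := zC (chi σ : ℤ_[p])

lemma X_mul (σ τ : GQ p) : X (σ * τ) = X σ * X τ := by
  rw [X, chi_mul, Units.val_mul, map_mul, X, X]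

lemma norm_X (σ : GQ p) : ‖X σ‖ = 1 := by
  rw [X, norm_zC]
  exact PadicInt.norm_units _

lemma X_ne (σ : GQ p) : X σ ≠ 0 := by
  rw [← norm_pos_iff, norm_X]; exact one_pos

lemma actC_X (τ σ : GQ p) : actC τ (X σ) = X σ := actC_zC τ _

lemma actC_Xz (τ σ : GQ p) (r : ℤ) : actC τ (X σ ^ r) = X σ ^ r := by
  rw [map_zpow₀, actC_X]

lemma chi_eq_one_iff (σ : GQ p) :
    chi σ = 1 ↔ ∀ (m : ℕ) (ζ : PadicAlgCl p), ζ ^ p ^ m = 1 → σ ζ = ζ := by
  constructor
  · intro h m ζ hζ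
    rcases m with _ | m
    · rw [pow_zero, pow_one] at hζ
      rw [hζ, map_one]
    · have h1 := cyclotomicCharacter.spec (L := PadicAlgCl p) p
        (σ : PadicAlgCl p ≃+* PadicAlgCl p) ζ hζ
      have h2 : cyclotomicCharacter (PadicAlgCl p) p (σ : PadicAlgCl p ≃+* PadicAlgCl p) = 1 := h
      rw [h2, Units.val_one, map_one] at h1
      have h3 : (1 : ZMod (p ^ (m + 1))).val = 1 := by
        have : Fact (1 < p ^ (m + 1)) := ⟨Nat.one_lt_pow (Nat.succ_ne_zero m) hp.out.one_lt⟩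
        exact ZMod.val_one _
      rw [h3, pow_one] at h1
      exact h1
  · intro h
    apply Units.ext
    rw [Units.val_one]
    apply PadicInt.ext_of_toZModPow.1
    intro n
    rw [map_one]
    have h1 := gal_zt σ n
    rw [h n (zt p n) (zt_prim n).pow_eq_one] at h1
    have hn : NeZero (p ^ n) := ⟨pow_ne_zero _ hp.out.ne_zero⟩
    rcases n with _ | n
    · have : Subsingleton (ZMod (p ^ 0)) := by rw [pow_zero]; infer_instance
      exact Subsingleton.elim _ _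
    have h2 : zt p (n + 1) ^ 1 = zt p (n + 1) ^ chiN σ (n + 1) := by rw [pow_one]; exact h1
    have h3 := (zt_prim (n + 1)).pow_inj (Nat.one_lt_pow (Nat.succ_ne_zero n) hp.out.one_lt)
      (ZMod.val_lt _) h2
    have h4 := congrArg (fun m : ℕ => (m : ZMod (p ^ (n + 1)))) h3
    simp only [ZMod.natCast_zmod_val, Nat.cast_one] at h4
    exact h4.symm

/-! ### Reduction to the case of the base field -/

/-- Extension of embeddings. -/
lemma exists_lift (E : IntermediateField ℚ_[p] (PadicAlgCl p)) (φ : E →ₐ[ℚ_[p]] PadicAlgCl p) :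
    ∃ s : GQ p, ∀ x : E, s (x : PadicAlgCl p) = φ x := by
  obtain ⟨ψ, hψ⟩ := IsAlgClosed.surjective_domRestrict_of_isAlgebraic (K := ℚ_[p]) (L := E)
    (M := PadicAlgCl p) (E := PadicAlgCl p) φ
  refine ⟨(Algebra.IsAlgebraic.algEquivEquivAlgHom ℚ_[p] (PadicAlgCl p)).symm ψ, fun x => ?_⟩
  rw [← hψ]
  have h := (Algebra.IsAlgebraic.algEquivEquivAlgHom ℚ_[p] (PadicAlgCl p)).apply_symm_apply ψ
  have h2 := congrArg (fun f : PadicAlgCl p →ₐ[ℚ_[p]] PadicAlgCl p => f (x : PadicAlgCl p)) h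
  exact h2

lemma reduce (E : IntermediateField ℚ_[p] (PadicAlgCl p)) [FiniteDimensional ℚ_[p] E]
    (r : ℤ) (hr : r ≠ 0) (z : ℂ_[p]) (hz0 : z ≠ 0)
    (hz : ∀ σ ∈ E.fixingSubgroup, actC σ z = X σ ^ r * z) :
    ∃ (r' : ℤ) (z' : ℂ_[p]), r' ≠ 0 ∧ z' ≠ 0 ∧ ∀ σ : GQ p, actC σ z' = X σ ^ r' * z' := by
  classical
  choose s hs using exists_lift E
  have hfin : Finite (E →ₐ[ℚ_[p]] PadicAlgCl p) := inferInstance
  have := Fintype.ofFinite (E →ₐ[ℚ_[p]] PadicAlgCl p)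
  -- the function on cosets
  set F : GQ p → ℂ_[p] := fun σ => (X σ ^ r)⁻¹ * actC σ z with hF
  have hF0 : ∀ σ, F σ ≠ 0 := by
    intro σ
    refine mul_ne_zero (inv_ne_zero (zpow_ne_zero _ (X_ne σ))) ?_
    intro h
    apply hz0
    have h2 := congrArg (actC σ⁻¹) h
    rwa [← actC_mul, inv_mul_cancel, actC_one, map_zero] at h2
  have hFeq : ∀ σ τ : GQ p, (∀ x : E, σ (x : PadicAlgCl p) = τ (x : PadicAlgCl p)) →
      F σ = F τ := by
    intro σ τ h
    have hmem : τ⁻¹ * σ ∈ E.fixingSubgroup := by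
      rw [IntermediateField.mem_fixingSubgroup_iff]
      intro x hx
      rw [AlgEquiv.mul_apply, h ⟨x, hx⟩, ← AlgEquiv.mul_apply, inv_mul_cancel]
      rfl
    have h1 := hz _ hmem
    have h2 : actC σ z = X (τ⁻¹ * σ) ^ r * actC τ z := by
      have h3 := congrArg (actC τ) h1
      rw [← actC_mul, mul_inv_cancel_left, map_mul, actC_Xz] at h3
      exact h3
    have h4 : X σ = X τ * X (τ⁻¹ * σ) := by rw [← X_mul, mul_inv_cancel_left]
    simp only [hF]
    rw [h2, h4, mul_zpow]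
    have h5 : X (τ⁻¹ * σ) ^ r ≠ 0 := zpow_ne_zero _ (X_ne _)
    have h6 : X τ ^ r ≠ 0 := zpow_ne_zero _ (X_ne _)
    field_simp
  have hFact : ∀ g σ : GQ p, actC g (F σ) = X g ^ r * F (g * σ) := by
    intro g σ
    simp only [hF]
    rw [map_mul, map_inv₀, actC_Xz, X_mul, mul_zpow, actC_mul]
    have h5 : X g ^ r ≠ 0 := zpow_ne_zero _ (X_ne _)
    have h6 : X σ ^ r ≠ 0 := zpow_ne_zero _ (X_ne _)
    field_simp
  refine ⟨r * Fintype.card (E →ₐ[ℚ_[p]] PadicAlgCl p), ∏ φ, F (s φ), ?_, ?_, ?_⟩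
  · refine mul_ne_zero hr ?_
    have : Nonempty (E →ₐ[ℚ_[p]] PadicAlgCl p) := ⟨E.val⟩
    exact_mod_cast Fintype.card_ne_zero
  · exact Finset.prod_ne_zero_iff.2 fun φ _ => hF0 _
  · intro g
    rw [map_prod]
    simp only [hFact]
    rw [Finset.prod_mul_distrib, Finset.prod_const, Finset.card_univ, zpow_mul, zpow_natCast]
    congr 1
    -- reindexing
    let e : (E →ₐ[ℚ_[p]] PadicAlgCl p) ≃ (E →ₐ[ℚ_[p]] PadicAlgCl p) :=
      { toFun := fun φ => (g : PadicAlgCl p →ₐ[ℚ_[p]] PadicAlgCl p).comp φ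
        invFun := fun φ => ((g⁻¹ : GQ p) : PadicAlgCl p →ₐ[ℚ_[p]] PadicAlgCl p).comp φ
        left_inv := fun φ => by
          ext x
          change (g⁻¹ : GQ p) (g (φ x)) = φ x
          rw [← AlgEquiv.mul_apply, inv_mul_cancel]; rfl
        right_inv := fun φ => by
          ext x
          change g ((g⁻¹ : GQ p) (φ x)) = φ x
          rw [← AlgEquiv.mul_apply, mul_inv_cancel]; rfl }
    rw [← Equiv.prod_comp e (fun φ => F (s φ))]
    apply Finset.prod_congr rfl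
    intro φ _
    apply hFeq
    intro x
    rw [AlgEquiv.mul_apply, hs φ x, hs (e φ) x]
    rfl

/-! ### Approximation -/

lemma exists_approx (z : ℂ_[p]) {ε : ℝ} (hε : 0 < ε) :
    ∃ α : PadicAlgCl p, ‖z - (α : ℂ_[p])‖ < ε := by
  have h := UniformSpace.Completion.denseRange_coe (α := PadicAlgCl p)
  obtain ⟨α, hα⟩ := Metric.denseRange_iff.1 h z ε hε
  rw [dist_eq_norm] at hα
  exact ⟨α, hα⟩

/-- Norms of algebraic numbers. -/
lemma norm_pow_int (α : PadicAlgCl p) (hα : α ≠ 0) :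
    ∃ (n : ℕ) (k : ℤ), n ≠ 0 ∧ ‖α‖ ^ n = (p : ℝ) ^ k := by
  have hint : IsIntegral ℚ_[p] α := (Algebra.IsAlgebraic.isAlgebraic α).isIntegral
  set P := minpoly ℚ_[p] α with hP
  set PL := P.map (algebraMap ℚ_[p] (PadicAlgCl p)) with hPL
  have hPm : P.Monic := minpoly.monic hint
  have hPLm : PL.Monic := hPm.map _
  have hsp : PL.Splits := IsAlgClosed.splits PL
  have hdeg : PL.natDegree = P.natDegree := Polynomial.natDegree_map _
  have hpos : 0 < P.natDegree := minpoly.natDegree_pos hint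
  have hc0 : P.coeff 0 ≠ 0 := by
    intro h
    exact hα ((minpoly.coeff_zero_eq_zero hint).1 h)
  have hroots : ∀ x ∈ PL.roots, ‖x‖ = ‖α‖ := by
    intro x hx
    have hx0 : Polynomial.aeval x P = 0 := by
      have := (Polynomial.mem_roots hPLm.ne_zero).1 hx
      rwa [Polynomial.IsRoot.def, hPL, Polynomial.eval_map_algebraMap] at this
    obtain ⟨σ, hσ⟩ := minpoly.exists_algEquiv_of_root' (K := ℚ_[p])
      (Algebra.IsAlgebraic.isAlgebraic α) hx0
    rw [← hσ]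
    exact norm_gal σ α
  have h0 := hsp.eval_eq_prod_roots_of_monic hPLm 0
  have hcard : Multiset.card PL.roots = P.natDegree := by
    rw [← hdeg]; exact Polynomial.splits_iff_card_roots.1 hsp
  have h1 : ‖PL.eval 0‖ = ‖α‖ ^ P.natDegree := by
    rw [h0, ← hcard]
    have h4 := map_multiset_prod (normHom (α := PadicAlgCl p)) (PL.roots.map (fun x => 0 - x))
    rw [Multiset.map_map] at h4
    have h5 : ‖(Multiset.map (fun x => 0 - x) PL.roots).prod‖ =
        (Multiset.map (⇑normHom ∘ fun x => 0 - x) PL.roots).prod := h4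
    have h6 : Multiset.map (⇑normHom ∘ fun x => 0 - x) PL.roots =
        Multiset.replicate (Multiset.card PL.roots) ‖α‖ := by
      rw [Multiset.eq_replicate]
      refine ⟨Multiset.card_map _ _, ?_⟩
      intro x hx
      obtain ⟨y, hy, rfl⟩ := Multiset.mem_map.1 hx
      change ‖0 - y‖ = _
      rw [zero_sub, norm_neg]
      exact hroots y hy
    rw [h5, h6, Multiset.prod_replicate]
  rw [← Polynomial.coeff_zero_eq_eval_zero, hPL, Polynomial.coeff_map] at h1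
  obtain ⟨k, hk⟩ := padic_norm_pow hc0
  refine ⟨P.natDegree, k, hpos.ne', ?_⟩
  rw [← h1, ← hk]
  exact norm_algebraMap' (PadicAlgCl p) (P.coeff 0)

/-- Passing to a power and scaling by a power of `p`: norm one. -/
lemma norm_one_of {r : ℤ} (hr : r ≠ 0) {z : ℂ_[p]} (hz0 : z ≠ 0)
    (hz : ∀ σ : GQ p, actC σ z = X σ ^ r * z) :
    ∃ (r' : ℤ) (z' : ℂ_[p]), r' ≠ 0 ∧ ‖z'‖ = 1 ∧ ∀ σ : GQ p, actC σ z' = X σ ^ r' * z' := by
  obtain ⟨α, hα⟩ := exists_approx z (norm_pos_iff.2 hz0)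
  have hnorm : ‖α‖ = ‖z‖ := by
    have h1 : ‖(α : ℂ_[p])‖ = ‖z‖ := by
      by_contra hne
      have h2 := IsUltrametricDist.norm_add_eq_max_of_norm_ne_norm (x := z) (y := -(α : ℂ_[p]))
        (by rw [norm_neg]; exact Ne.symm hne)
      rw [← sub_eq_add_neg, norm_neg] at h2
      have h3 := le_max_left ‖z‖ ‖(α : ℂ_[p])‖
      rw [← h2] at h3
      linarith
    rwa [PadicComplex.norm_extends] at h1
  have hα0 : α ≠ 0 := by rw [← norm_pos_iff, hnorm, norm_pos_iff]; exact hz0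
  obtain ⟨n, k, hn, hk⟩ := norm_pow_int α hα0
  have hp0 : (p : ℝ) ≠ 0 := by exact_mod_cast hp.out.ne_zero
  refine ⟨r * n, z ^ n * (algebraMap ℚ_[p] ℂ_[p] (p : ℚ_[p])) ^ k,
    mul_ne_zero hr (by exact_mod_cast hn), ?_, ?_⟩
  · rw [norm_mul, norm_pow, ← hnorm, hk, norm_zpow, norm_algebraMap', Padic.norm_p, inv_zpow]
    exact mul_inv_cancel₀ (zpow_ne_zero _ hp0)
  · intro σ
    rw [map_mul, map_pow, hz, map_zpow₀, actC_algebraMap, mul_pow, zpow_mul, zpow_natCast]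
    ring

/-- Passing to a power: close to one. -/
lemma near_one_of {r : ℤ} (hr : r ≠ 0) {z : ℂ_[p]} (hz1 : ‖z‖ = 1)
    (hz : ∀ σ : GQ p, actC σ z = X σ ^ r * z) :
    ∃ (r' : ℤ) (z' : ℂ_[p]), r' ≠ 0 ∧ ‖z' - 1‖ < 1 ∧ ∀ σ : GQ p, actC σ z' = X σ ^ r' * z' := by
  obtain ⟨α, hα⟩ := exists_approx z one_pos
  set E := IntermediateField.adjoin ℚ_[p] {α} with hE
  have hαE : α ∈ E := IntermediateField.mem_adjoin_simple_self _ _
  have hfd : FiniteDimensional ℚ_[p] E :=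
    IntermediateField.adjoin.finiteDimensional (Algebra.IsAlgebraic.isAlgebraic α).isIntegral
  have hα1 : ‖α‖ ≤ 1 := by
    rw [← PadicComplex.norm_extends p α]
    have e : (α : ℂ_[p]) = z - (z - α) := by ring
    rw [e]
    exact (norm_sub_le_max' _ _).trans (max_le hz1.le hα.le)
  -- two powers of `α` are close
  have hprop : ProperSpace E := FiniteDimensional.proper ℚ_[p] E
  obtain ⟨a, _, φ, hφ, hlim⟩ := (isCompact_closedBall (0 : E) 1).tendsto_subseq
    (x := fun n : ℕ => (⟨α, hαE⟩ : E) ^ n) (by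
      intro n
      rw [mem_closedBall_zero_iff, norm_pow]
      exact pow_le_one₀ (norm_nonneg _) hα1)
  have hcau := hlim.cauchySeq
  rw [Metric.cauchySeq_iff'] at hcau
  obtain ⟨N, hN⟩ := hcau 1 one_pos
  have h1 := hN (N + 1) (Nat.le_succ N)
  have hlt : φ N < φ (N + 1) := hφ (Nat.lt_succ_self N)
  obtain ⟨m, hm⟩ := Nat.exists_eq_add_of_lt hlt
  rw [dist_eq_norm] at h1
  have h2 : ‖α ^ φ (N + 1) - α ^ φ N‖ < 1 := h1
  -- powers of `z` and `α` are close
  have hα1' : ‖(α : ℂ_[p])‖ ≤ 1 := by rw [PadicComplex.norm_extends]; exact hα1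
  have hpow : ∀ n : ℕ, ‖z ^ n - (α : ℂ_[p]) ^ n‖ < 1 := by
    intro n
    induction n with
    | zero => simp
    | succ n ih =>
      have e : z ^ (n + 1) - (α : ℂ_[p]) ^ (n + 1) =
          z * (z ^ n - (α : ℂ_[p]) ^ n) + (z - (α : ℂ_[p])) * (α : ℂ_[p]) ^ n := by ring
      rw [e]
      refine (IsUltrametricDist.norm_add_le_max _ _).trans_lt (max_lt ?_ ?_)
      · rw [norm_mul, hz1, one_mul]; exact ih
      · rw [norm_mul, norm_pow]
        exact (mul_le_of_le_one_right (norm_nonneg _) (pow_le_one₀ (norm_nonneg _) hα1')).trans_lt hα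
  have h3 : ‖z ^ φ (N + 1) - z ^ φ N‖ < 1 := by
    have e : z ^ φ (N + 1) - z ^ φ N = ((z ^ φ (N + 1) - (α : ℂ_[p]) ^ φ (N + 1)) +
        ((α : ℂ_[p]) ^ φ (N + 1) - (α : ℂ_[p]) ^ φ N)) + -(z ^ φ N - (α : ℂ_[p]) ^ φ N) := by ring
    rw [e]
    refine (IsUltrametricDist.norm_add_le_max _ _).trans_lt (max_lt ?_ ?_)
    · refine (IsUltrametricDist.norm_add_le_max _ _).trans_lt (max_lt (hpow _) ?_)
      have e2 : (α : ℂ_[p]) ^ φ (N + 1) - (α : ℂ_[p]) ^ φ N =
          ((α ^ φ (N + 1) - α ^ φ N : PadicAlgCl p) : ℂ_[p]) := by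
        have := map_sub (algebraMap (PadicAlgCl p) ℂ_[p]) (α ^ φ (N + 1)) (α ^ φ N)
        rw [map_pow, map_pow] at this
        exact this.symm
      rw [e2, PadicComplex.norm_extends]
      exact h2
    · rw [norm_neg]; exact hpow _
  have h4 : ‖z ^ (m + 1) - 1‖ < 1 := by
    have e : z ^ φ (N + 1) - z ^ φ N = z ^ φ N * (z ^ (m + 1) - 1) := by
      rw [hm]; ring
    rw [e, norm_mul, norm_pow, hz1, one_pow, one_mul] at h3
    exact h3
  refine ⟨r * (m + 1 : ℕ), z ^ (m + 1), mul_ne_zero hr (by exact_mod_cast Nat.succ_ne_zero m),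
    h4, ?_⟩
  intro σ
  rw [map_pow, hz, mul_pow, zpow_mul, zpow_natCast]

/-! ### Powers tend to one -/

lemma pow_p_sub_one_le {z : ℂ_[p]} {c : ℝ} (hc : c < 1) (hp' : (p : ℝ)⁻¹ ≤ c)
    (hz : ‖z - 1‖ ≤ c) : ‖z ^ p - 1‖ ≤ c * ‖z - 1‖ := by
  set x := z - 1 with hx
  have hz1 : z = x + 1 := by rw [hx]; ring
  have hc0 : 0 ≤ c := (norm_nonneg _).trans hz
  rw [hz1, add_pow, Finset.sum_range_succ']
  simp only [one_pow, mul_one, pow_zero, Nat.choose_zero_right, Nat.cast_one, add_sub_cancel_right]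
  apply IsUltrametricDist.norm_sum_le_of_forall_le_of_nonneg (mul_nonneg hc0 (norm_nonneg _))
  intro i hi
  rw [Finset.mem_range] at hi
  rw [norm_mul, norm_pow]
  have hx1 : ‖x‖ ≤ 1 := hz.trans hc.le
  by_cases hip : i + 1 = p
  · -- the last term
    rw [hip, Nat.choose_self, Nat.cast_one, norm_one, mul_one]
    have h2 := hp.out.two_le
    obtain ⟨q, hq⟩ : ∃ q, i = q + 1 := ⟨i - 1, by omega⟩
    have e : ‖x‖ ^ p = ‖x‖ ^ (i + 1) := congrArg (fun m : ℕ => ‖x‖ ^ m) hip.symm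
    rw [e, pow_succ]
    apply mul_le_mul_of_nonneg_right _ (norm_nonneg _)
    rw [hq, pow_succ]
    exact (mul_le_of_le_one_left (norm_nonneg _) (pow_le_one₀ (norm_nonneg _) hx1)).trans hz
  · have hdvd : p ∣ p.choose (i + 1) := hp.out.dvd_choose_self (Nat.succ_ne_zero i) (by omega)
    obtain ⟨m, hm⟩ := hdvd
    rw [hm, Nat.cast_mul, norm_mul]
    have h1 : ‖(p : ℂ_[p])‖ = (p : ℝ)⁻¹ := by
      have := norm_algebraMap' ℂ_[p] (p : ℚ_[p])
      rw [Padic.norm_p] at this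
      rw [← this]; simp
    have h2 : ‖(m : ℂ_[p])‖ ≤ 1 := by
      have := norm_algebraMap' ℂ_[p] (m : ℚ_[p])
      have h3 : ‖(m : ℚ_[p])‖ ≤ 1 := by
        have := Padic.norm_int_le_one (p := p) (m : ℤ)
        simpa using this
      have h4 : (m : ℂ_[p]) = algebraMap ℚ_[p] ℂ_[p] (m : ℚ_[p]) := by simp
      rw [h4, this]; exact h3
    rw [h1, pow_succ]
    have h5 : ‖x‖ ^ i * ‖x‖ ≤ ‖x‖ :=
      mul_le_of_le_one_left (norm_nonneg _) (pow_le_one₀ (norm_nonneg _) hx1)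
    have h6 : (p : ℝ)⁻¹ * ‖(m : ℂ_[p])‖ ≤ c :=
      (mul_le_of_le_one_right (by positivity) h2).trans hp'
    calc ‖x‖ ^ i * ‖x‖ * ((p : ℝ)⁻¹ * ‖(m : ℂ_[p])‖)
        ≤ ‖x‖ * c := mul_le_mul h5 h6 (by positivity) (norm_nonneg _)
      _ = c * ‖x‖ := mul_comm _ _

lemma exists_pow_close {z : ℂ_[p]} (hz : ‖z - 1‖ < 1) {ε : ℝ} (hε : 0 < ε) :
    ∃ k : ℕ, ‖z ^ p ^ k - 1‖ < ε := by
  set c := max ‖z - 1‖ (p : ℝ)⁻¹ with hc
  have hp1 : (1 : ℝ) < p := by exact_mod_cast hp.out.one_lt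
  have hc1 : c < 1 := max_lt hz (inv_lt_one_of_one_lt₀ hp1)
  have hc0 : 0 ≤ c := (norm_nonneg _).trans (le_max_left _ _)
  have h : ∀ k : ℕ, ‖z ^ p ^ k - 1‖ ≤ c ^ k * c := by
    intro k
    induction k with
    | zero =>
      rw [pow_zero, pow_one, pow_zero, one_mul]
      exact le_max_left ‖z - 1‖ (p : ℝ)⁻¹
    | succ k ih =>
      have h1 : ‖z ^ p ^ k - 1‖ ≤ c :=
        ih.trans (mul_le_of_le_one_left hc0 (pow_le_one₀ hc0 hc1.le))
      have h2 := pow_p_sub_one_le hc1 (le_max_right _ _) h1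
      rw [← pow_mul, ← pow_succ] at h2
      refine h2.trans ?_
      rw [pow_succ, mul_comm (c ^ k) c, mul_assoc]
      exact mul_le_mul_of_nonneg_left ih hc0
  obtain ⟨k, hk⟩ := exists_pow_lt_of_lt_one hε hc1
  exact ⟨k, (h k).trans_lt ((mul_le_of_le_one_right (pow_nonneg hc0 k) hc1.le).trans_lt hk)⟩

/-! ### The theorem -/

/-- **Tate's theorem**: piece C of the interface of helper547. -/
theorem tate (E : IntermediateField ℚ_[p] (PadicAlgCl p)) [FiniteDimensional ℚ_[p] E]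
    (r : ℤ) (hr : r ≠ 0) (z : ℂ_[p])
    (hz : ∀ σ ∈ E.fixingSubgroup, actC σ z = (zC (chi σ : ℤ_[p])) ^ r * z) : z = 0 := by
  by_contra hz0
  obtain ⟨r1, z1, hr1, hz1, h1⟩ := reduce E r hr z hz0 hz
  obtain ⟨r2, z2, hr2, hz2, h2⟩ := norm_one_of hr1 hz1 h1
  obtain ⟨r3, z3, hr3, hz3, h3⟩ := near_one_of hr2 hz2 h2
  have hp1 : (1 : ℝ) < p := by exact_mod_cast hp.out.one_lt
  have hp0 : (0 : ℝ) < p := by linarith
  obtain ⟨k, hk⟩ := exists_pow_close hz3 (ε := 1 / p) (by positivity)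
  obtain ⟨γ, hγ1, hγ2⟩ := gap (p := p)
  -- `v ≠ 0`
  set n : ℤ := r3 * (p ^ k : ℕ) with hn
  have hn0 : n ≠ 0 := mul_ne_zero hr3 (by exact_mod_cast pow_ne_zero k hp.out.ne_zero)
  have hzk : ∀ σ : GQ p, actC σ (z3 ^ p ^ k) = X σ ^ n * z3 ^ p ^ k := by
    intro σ
    rw [map_pow, h3, mul_pow, hn, zpow_mul, zpow_natCast]
  set w := z3 ^ p ^ k with hw
  set v : ℂ_[p] := X γ ^ n - 1 with hv
  have hv0 : v ≠ 0 := by
    intro h
    have h4 : X γ ^ n = 1 := sub_eq_zero.1 h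
    have h5 : X γ ^ n.natAbs = 1 := by
      rcases Int.natAbs_eq n with h6 | h6
      · rw [h6, zpow_natCast] at h4; exact h4
      · rw [h6, zpow_neg, zpow_natCast, inv_eq_one] at h4; exact h4
    have h6 : chi (γ ^ n.natAbs) = 1 := by
      rw [chi_pow]
      apply Units.ext
      rw [Units.val_pow_eq_pow_val, Units.val_one]
      rw [X, ← map_pow] at h5
      have hinj : Function.Injective (zC (p := p)) := by
        intro a b hab
        have h7 : zC (a - b) = 0 := by rw [map_sub, hab, sub_self]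
        have h8 := norm_zC (a - b)
        rw [h7, norm_zero] at h8
        exact sub_eq_zero.1 (norm_eq_zero.1 h8.symm)
      exact hinj (by rw [h5, map_one])
    obtain ⟨m, ζ, hζ, hζ2⟩ := hγ1 n.natAbs (by omega)
    exact hζ2 ((chi_eq_one_iff _).1 h6 m ζ hζ)
  set lam := w / v with hlam
  have hvfix : ∀ σ : GQ p, actC σ v = v := by
    intro σ
    rw [hv, map_sub, actC_Xz, map_one]
  have hγlam : actC γ lam = lam + w := by
    have e : X γ ^ n = v + 1 := by rw [hv]; ring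
    rw [hlam, map_div₀, hvfix, hzk, e]
    field_simp
    ring
  have hfix : ∀ σ ∈ (Kinf p).fixingSubgroup, actC σ lam = lam := by
    intro σ hσ
    have h4 : chi σ = 1 := by
      rw [chi_eq_one_iff]
      intro m ζ hζ
      rw [IntermediateField.mem_fixingSubgroup_iff] at hσ
      exact hσ ζ (IntermediateField.subset_adjoin _ _ ⟨m, hζ⟩)
    rw [hlam, map_div₀, hvfix, hzk, X, h4, Units.val_one, map_one, one_zpow, one_mul]
  -- approximation
  set δ : ℝ := 1 / (p : ℝ) / (2 * (p : ℝ) ^ p) with hδ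
  have hpp : (1 : ℝ) ≤ (p : ℝ) ^ p := one_le_pow₀ hp1.le
  have hδ0 : 0 < δ := by positivity
  obtain ⟨α, hα⟩ := exists_approx lam hδ0
  obtain ⟨a, haK, ha⟩ := ax_lemma (Kinf p) α δ (by
    intro σ hσ
    have e : ((σ α - α : PadicAlgCl p) : ℂ_[p]) = (actC σ ((α : ℂ_[p]) - lam)) +
        (lam - (α : ℂ_[p])) := by
      rw [map_sub, hfix σ hσ, actC_coe]
      have := map_sub (algebraMap (PadicAlgCl p) ℂ_[p]) (σ α) α
      calc ((σ α - α : PadicAlgCl p) : ℂ_[p]) = ((σ α : PadicAlgCl p) : ℂ_[p]) - (α : ℂ_[p]) := this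
        _ = _ := by ring
    rw [← PadicComplex.norm_extends p (σ α - α), e]
    refine (IsUltrametricDist.norm_add_le_max _ _).trans (max_le ?_ hα.le)
    rw [norm_actC, norm_sub_rev]
    exact hα.le)
  have hδ1 : (p : ℝ) ^ p * δ < 1 / p := by
    have : (p : ℝ) ^ p * δ = (1 / p) / 2 := by
      rw [hδ]; field_simp
    rw [this]
    have : (0 : ℝ) < 1 / p := by positivity
    linarith
  have hδ2 : δ < 1 / p := (le_mul_of_one_le_left hδ0.le hpp).trans_lt hδ1
  have hlama : ‖lam - (a : ℂ_[p])‖ < 1 / p := by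
    have e : lam - (a : ℂ_[p]) = (lam - (α : ℂ_[p])) + ((α - a : PadicAlgCl p) : ℂ_[p]) := by
      have := map_sub (algebraMap (PadicAlgCl p) ℂ_[p]) α a
      calc lam - (a : ℂ_[p]) = (lam - (α : ℂ_[p])) + ((α : ℂ_[p]) - (a : ℂ_[p])) := by ring
        _ = _ := congrArg (fun t => (lam - (α : ℂ_[p])) + t) this.symm
    rw [e]
    refine (IsUltrametricDist.norm_add_le_max _ _).trans_lt (max_lt (hα.trans hδ2) ?_)
    rw [PadicComplex.norm_extends]
    exact ha.trans_lt hδ1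
  have hcontra : ‖γ a - a - 1‖ < 1 / p := by
    have e : ((γ a - a - 1 : PadicAlgCl p) : ℂ_[p]) = (actC γ ((a : ℂ_[p]) - lam) +
        (lam - (a : ℂ_[p]))) + (w - 1) := by
      have h5 : ((γ a - a - 1 : PadicAlgCl p) : ℂ_[p]) =
          ((γ a : PadicAlgCl p) : ℂ_[p]) - (a : ℂ_[p]) - 1 := by
        have h6 := map_sub (algebraMap (PadicAlgCl p) ℂ_[p]) (γ a - a) 1
        have h7 := map_sub (algebraMap (PadicAlgCl p) ℂ_[p]) (γ a) a
        rw [h7, map_one] at h6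
        exact h6
      rw [h5, map_sub, hγlam, actC_coe]
      ring
    rw [← PadicComplex.norm_extends p (γ a - a - 1), e]
    refine (IsUltrametricDist.norm_add_le_max _ _).trans_lt (max_lt ?_ hk)
    refine (IsUltrametricDist.norm_add_le_max _ _).trans_lt (max_lt ?_ hlama)
    rw [norm_actC, norm_sub_rev]
    exact hlama
  exact absurd (hγ2 a haK) (not_le.2 hcontra)

end Run7.h902
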