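import Pool.Agent.Run7.h902.ArthurMain

set_option autoImplicit false

/-!
# Decompositions from quadratic form inequalities, and conversely
-/

open scoped ComplexConjugate InnerProductSpace NNReal
open WeakDual

namespace Pool.Agent.Run7.h902.ArthurTwo

universe u v w x

section PartTwo

variable {H : Type u} [NormedAddCommGroup H] [InnerProductSpace ℂ H] [CompleteSpace H]
variable {X : Type w} {S : X → Type v} [∀ x, CommRing (S x)] [∀ x, Algebra ℂ (S x)]
  [∀ x, StarRing (S x)]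
variable {O : Type x} [Fintype O]

/-- The set of all operators of the family. -/
def opSet (T : ∀ x, S x →⋆ₐ[ℂ] (H →L[ℂ] H)) : Set (H →L[ℂ] H) := {g | ∃ x a, g = T x a}

theorem mem_op (T : ∀ x, S x →⋆ₐ[ℂ] (H →L[ℂ] H)) (x : X) (a : S x) : T x a ∈ gen (opSet T) :=
  mem_gen ⟨x, a, rfl⟩

theorem op_comm (T : ∀ x, S x →⋆ₐ[ℂ] (H →L[ℂ] H))
    (hc : ∀ x y a b, T x a * T y b = T y b * T x a) (x y : gen (opSet T)) : x * y = y * x := by
  refine gen_comm ?_ ?_ x y
  · rintro _ ⟨x, a, rfl⟩ _ ⟨y, b, rfl⟩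
    exact hc x y a b
  · rintro _ ⟨x, a, rfl⟩
    exact ⟨x, star a, (map_star (T x) a).symm⟩

/-- If every character has a common label at `x₀` and at every `y`, there is a decomposition. -/
theorem exists_decomp (T : ∀ x, S x →⋆ₐ[ℂ] (H →L[ℂ] H))
    (hc : ∀ x y a b, T x a * T y b = T y b * T x a)
    (R : ∀ x, O → Set (S x →ₐ[ℂ] ℂ))
    (hR : ∀ x o, IsCompact ((fun (c : S x →ₐ[ℂ] ℂ) (a : S x) => c a) '' R x o))
    (hstar : ∀ x o, ∀ c ∈ R x o, ∀ a, c (star a) = conj (c a))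
    (x₀ : X) (hd : ∀ o o', o ≠ o' → Disjoint (R x₀ o) (R x₀ o'))
    (step1 : ∀ (ψ : gen (opSet T) →ₐ[ℂ] ℂ) (y : X), ∃ o,
      along (gen (opSet T)) (T x₀) (mem_op T x₀) ψ ∈ R x₀ o ∧
        along (gen (opSet T)) (T y) (mem_op T y) ψ ∈ R y o) :
    ∃ W : O → Submodule ℂ H, (∀ o, IsClosed (W o : Set H)) ∧
      (∀ o x a, ∀ v ∈ W o, T x a v ∈ W o) ∧
      (∀ o o', o ≠ o' → ∀ v ∈ W o, ∀ w ∈ W o', ⟪v, w⟫_ℂ = 0) ∧
      (∀ v, ∃ w : O → H, (∀ o, w o ∈ W o) ∧ ∑ o, w o = v) ∧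
      ∀ o x (φ : S x →ₐ[ℂ] ℂ), (∀ (a : S x) (M : ℝ), 0 ≤ M →
        (∀ v ∈ W o, ‖T x a v‖ ≤ M * ‖v‖) → ‖φ a‖ ≤ M) → φ ∈ R x o := by
  classical
  have hst : ∀ x a, star (T x a) = T x (star a) := fun x a => (map_star (T x) a).symm
  set G : Set (H →L[ℂ] H) := opSet T with hG
  have g : ∀ x a, T x a ∈ gen G := mem_op T
  have hcomm : ∀ x y : gen G, x * y = y * x := op_comm T hc
  have step2 : ∀ (ψ : gen G →ₐ[ℂ] ℂ) (o : O), along (gen G) (T x₀) (g x₀) ψ ∈ R x₀ o →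
      ∀ y, along (gen G) (T y) (g y) ψ ∈ R y o := by
    intro ψ o ho y
    obtain ⟨o', h1, h2⟩ := step1 ψ y
    by_cases hoo : o = o'
    · rw [hoo]; exact h2
    · exact ((Set.disjoint_left.1 (hd o o' hoo)) ho h1).elim
  -- the projections
  have hmem : ∀ (ψ : gen G →ₐ[ℂ] ℂ) (o : O),
      ((fun a => ψ ⟨T x₀ a, g x₀ a⟩) ∈ (fun (c : S x₀ →ₐ[ℂ] ℂ) (a : S x₀) => c a) '' R x₀ o ↔
        along (gen G) (T x₀) (g x₀) ψ ∈ R x₀ o) := by
    intro ψ o
    constructor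
    · rintro ⟨c, hc', hce⟩
      have : c = along (gen G) (T x₀) (g x₀) ψ := AlgHom.ext fun a => congrFun hce a
      rw [← this]; exact hc'
    · intro h
      exact ⟨_, h, rfl⟩
  obtain ⟨p, hp1, hp2, hp3, hp4, hp5⟩ := exists_projA (gen G) hcomm
    (fun a : S x₀ => (⟨T x₀ a, g x₀ a⟩ : gen G))
    (fun o => (fun (c : S x₀ →ₐ[ℂ] ℂ) (a : S x₀) => c a) '' R x₀ o)
    (fun o => (hR x₀ o).isClosed)
    (fun o o' hne => by
      rw [Set.disjoint_left]
      rintro _ ⟨c, hc1, rfl⟩ ⟨c', hc2, he⟩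
      have : c' = c := AlgHom.ext fun a => congrFun he a
      rw [this] at hc2
      exact (Set.disjoint_left.1 (hd o o' hne)) hc1 hc2)
    (fun ψ => by
      obtain ⟨o, h1, _⟩ := step1 ψ x₀
      exact ⟨o, (hmem ψ o).2 h1⟩)
  let W : O → Submodule ℂ H := fun o =>
    { carrier := {v | (p o : H →L[ℂ] H) v = v}
      add_mem' := fun {a b} ha hb => by
        show (p o : H →L[ℂ] H) (a + b) = a + b
        rw [map_add, show (p o : H →L[ℂ] H) a = a from ha, show (p o : H →L[ℂ] H) b = b from hb]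
      zero_mem' := map_zero _
      smul_mem' := fun z a ha => by
        show (p o : H →L[ℂ] H) (z • a) = z • a
        rw [map_smul, show (p o : H →L[ℂ] H) a = a from ha] }
  have hWm : ∀ o v, v ∈ W o ↔ (p o : H →L[ℂ] H) v = v := fun o v => Iff.rfl
  have hps : ∀ o, star (p o : H →L[ℂ] H) = p o := fun o => congrArg Subtype.val (hp1 o)
  have hpc : ∀ o x a v, (p o : H →L[ℂ] H) (T x a v) = T x a ((p o : H →L[ℂ] H) v) := by
    intro o x a v
    have h1 : (p o : H →L[ℂ] H) * T x a = T x a * (p o : H →L[ℂ] H) :=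
      congrArg Subtype.val (hcomm (p o) ⟨T x a, g x a⟩)
    exact congrArg (fun (L : H →L[ℂ] H) => L v) h1
  refine ⟨W, ?_, ?_, ?_, ?_, ?_⟩
  · intro o
    exact isClosed_eq (p o : H →L[ℂ] H).continuous continuous_id
  · intro o x a v hv
    rw [hWm] at hv ⊢
    rw [hpc, hv]
  · intro o o' hne v hv w hw
    rw [hWm] at hv hw
    have h1 : (p o : H →L[ℂ] H) ((p o' : H →L[ℂ] H) w) = 0 := by
      have h2 : (p o : H →L[ℂ] H) * (p o' : H →L[ℂ] H) = 0 := congrArg Subtype.val (hp2 o o' hne)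
      exact congrArg (fun (L : H →L[ℂ] H) => L w) h2
    have h3 : ⟪(p o : H →L[ℂ] H) v, (p o' : H →L[ℂ] H) w⟫_ℂ
        = ⟪v, (p o : H →L[ℂ] H) ((p o' : H →L[ℂ] H) w)⟫_ℂ := by
      conv_lhs => rw [← hps o]
      rw [ContinuousLinearMap.star_eq_adjoint, ContinuousLinearMap.adjoint_inner_left]
    rw [← hv, ← hw, h3, h1, inner_zero_right]
  · intro v
    refine ⟨fun o => (p o : H →L[ℂ] H) v, fun o => ?_, ?_⟩
    · rw [hWm]
      have h2 : (p o : H →L[ℂ] H) * (p o : H →L[ℂ] H) = p o := congrArg Subtype.val (hp3 o)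
      exact congrArg (fun (L : H →L[ℂ] H) => L v) h2
    · have h2 : ∑ o, (p o : H →L[ℂ] H) = 1 := by
        have h3 := congrArg Subtype.val hp4
        rw [← StarSubalgebra.coe_subtype, map_sum] at h3
        exact h3
      have h4 := congrArg (fun (L : H →L[ℂ] H) => L v) h2
      simpa using h4
  · intro o x φ hφ
    by_contra hno
    obtain ⟨β, hb1, hb2, -, δ, hδ, hb5⟩ := sep (R x o) (hR x o) (hstar x o) φ hno
    obtain ⟨M₀, hM₀⟩ := (hR x o).bddAbove_image (f := fun g : S x → ℂ => (g β).re)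
      ((Complex.continuous_re.comp (continuous_apply β)).continuousOn)
    set M := max M₀ δ with hM
    have hMδ : 0 ≤ M - δ := by linarith [le_max_right M₀ δ]
    set a' : S x := algebraMap ℂ (S x) (M : ℂ) - β with ha'
    have hn : ‖((⟨T x a', g x a'⟩ * p o : gen G) : H →L[ℂ] H)‖ ≤ M - δ := by
      refine norm_le_of_char (gen G) hcomm _ _ hMδ (fun ψ => ?_)
      rw [map_mul]
      by_cases h : along (gen G) (T x₀) (g x₀) ψ ∈ R x₀ o
      · have h1 : ψ (p o) = 1 := (hp5 o ψ).1 ((hmem ψ o).2 h)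
        have h2 := step2 ψ o h x
        rw [h1, mul_one]
        set c := along (gen G) (T x) (g x) ψ with hc'
        have h3 : ψ ⟨T x a', g x a'⟩ = (M : ℂ) - c β := by
          have : ψ ⟨T x a', g x a'⟩ = c a' := rfl
          rw [this, ha', map_sub, AlgHomClass.commutes]
          rfl
        have h4 : (c β).im = 0 := by
          have h5 := hstar x o c h2 β
          rw [hb1] at h5
          exact Complex.conj_eq_iff_im.1 h5.symm
        have h6 : (M : ℂ) - c β = ((M - (c β).re : ℝ) : ℂ) := by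
          apply Complex.ext
          · simp
          · simp [h4]
        have h7 : (c β).re ≤ M := le_trans (hM₀ ⟨_, ⟨c, h2, rfl⟩, rfl⟩) (le_max_left _ _)
        have h8 := hb5 c h2
        rw [h3, h6, Complex.norm_real, Real.norm_eq_abs, abs_of_nonneg (by linarith)]
        linarith
      · have h1 : ψ (p o) = 0 := (hp5 o ψ).2 (fun h' => h ((hmem ψ o).1 h'))
        rw [h1, mul_zero, norm_zero]
        exact hMδ
    have h1 := hφ a' (M - δ) hMδ (fun v hv => by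
      rw [hWm] at hv
      have h2 : ((⟨T x a', g x a'⟩ * p o : gen G) : H →L[ℂ] H) v = T x a' v := by
        show T x a' ((p o : H →L[ℂ] H) v) = _
        rw [hv]
      rw [← h2]
      exact (ContinuousLinearMap.le_opNorm _ v).trans
        (mul_le_mul_of_nonneg_right hn (norm_nonneg v)))
    have h2 : φ a' = (M : ℂ) := by
      rw [ha', map_sub, hb2, sub_zero, AlgHomClass.commutes]
      rfl
    rw [h2, Complex.norm_real, Real.norm_eq_abs] at h1
    have h3 := le_abs_self M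
    linarith

/-- Conversely, a decomposition implies the inequalities. -/
theorem form_of_decomp (T : ∀ x, S x →⋆ₐ[ℂ] (H →L[ℂ] H))
    (hc : ∀ x y a b, T x a * T y b = T y b * T x a)
    (R : ∀ x, O → Set (S x →ₐ[ℂ] ℂ)) (W : O → Submodule ℂ H)
    (hW : ∀ o, IsClosed (W o : Set H))
    (hinv : ∀ o x a, ∀ v ∈ W o, T x a v ∈ W o)
    (horth : ∀ o o', o ≠ o' → ∀ v ∈ W o, ∀ w ∈ W o', ⟪v, w⟫_ℂ = 0)
    (hsum : ∀ v, ∃ w : O → H, (∀ o, w o ∈ W o) ∧ ∑ o, w o = v)
    (hspec : ∀ o x (φ : S x →ₐ[ℂ] ℂ), (∀ (a : S x) (M : ℝ), 0 ≤ M →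
        (∀ v ∈ W o, ‖T x a v‖ ≤ M * ‖v‖) → ‖φ a‖ ≤ M) → φ ∈ R x o)
    (x₀ y : X) (a : S x₀) (b : S y) (ha : star a = a) (hb : star b = b) (m : ℝ)
    (hm : ∀ o, ∀ φ ∈ R x₀ o, ∀ φ' ∈ R y o, m ≤ (φ a).re + (φ' b).re) (f : H) :
    m * ‖f‖ ^ 2 ≤ (⟪T x₀ a f + T y b f, f⟫_ℂ).re := by
  classical
  obtain ⟨w, hw, rfl⟩ := hsum f
  have e1 : ⟪T x₀ a (∑ o, w o) + T y b (∑ o, w o), ∑ o, w o⟫_ℂ
      = ∑ o, ⟪T x₀ a (w o) + T y b (w o), w o⟫_ℂ := by
    rw [map_sum, map_sum, ← Finset.sum_add_distrib, sum_inner]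
    refine Finset.sum_congr rfl fun o _ => ?_
    rw [inner_sum, Finset.sum_eq_single o]
    · intro o' _ hne
      exact horth o o' (Ne.symm hne) _ ((W o).add_mem (hinv o x₀ a _ (hw o)) (hinv o y b _ (hw o)))
        _ (hw o')
    · intro h
      exact (h (Finset.mem_univ o)).elim
  have e2 : ‖∑ o, w o‖ ^ 2 = ∑ o, ‖w o‖ ^ 2 := by
    have h1 : (⟪∑ o, w o, ∑ o, w o⟫_ℂ).re = ∑ o, ‖w o‖ ^ 2 := by
      rw [sum_inner, Complex.re_sum]
      refine Finset.sum_congr rfl fun o _ => ?_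
      rw [inner_sum, Finset.sum_eq_single o]
      · rw [inner_self_eq_norm_sq_to_K]
        simp only [Complex.coe_algebraMap]
        rw [← Complex.ofReal_pow, Complex.ofReal_re]
      · intro o' _ hne
        exact horth o o' (Ne.symm hne) _ (hw o) _ (hw o')
      · intro h
        exact (h (Finset.mem_univ o)).elim
    rw [← h1, inner_self_eq_norm_sq_to_K]
    simp only [Complex.coe_algebraMap]
    rw [← Complex.ofReal_pow, Complex.ofReal_re]
  rw [e1, e2, Finset.mul_sum, Complex.re_sum]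
  exact Finset.sum_le_sum fun o _ => form_of_spec (T x₀) (T y) (hc x₀ y) (W o) (hW o)
    (hinv o x₀) (hinv o y) (R x₀ o) (R y o) (hspec o x₀) (hspec o y) a b ha hb m (hm o)
    (w o) (hw o)

end PartTwo

end Pool.Agent.Run7.h902.ArthurTwo
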