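import Pool.Agent.Run7.h902.ArthurDec

set_option autoImplicit false

/-!
# Inequalities with rational data imply a common label
-/

open scoped ComplexConjugate InnerProductSpace NNReal
open WeakDual

namespace Pool.Agent.Run7.h902.ArthurTwo

universe u v w x

theorem exists_rat_near (z : ℂ) (η : ℝ) (hη : 0 < η) :
    ∃ r s : ℚ, ‖((r : ℂ) + (s : ℂ) * Complex.I) - z‖ ≤ η := by
  obtain ⟨r, hr1, hr2⟩ := exists_rat_btwn (show z.re - η / 2 < z.re + η / 2 by linarith)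
  obtain ⟨s, hs1, hs2⟩ := exists_rat_btwn (show z.im - η / 2 < z.im + η / 2 by linarith)
  refine ⟨r, s, ?_⟩
  have h1 : (((r : ℂ) + (s : ℂ) * Complex.I) - z).re = (r : ℝ) - z.re := by simp
  have h2 : (((r : ℂ) + (s : ℂ) * Complex.I) - z).im = (s : ℝ) - z.im := by simp
  have h3 := Complex.norm_le_abs_re_add_abs_im (((r : ℂ) + (s : ℂ) * Complex.I) - z)
  rw [h1, h2] at h3
  have h4 : |(r : ℝ) - z.re| ≤ η / 2 := abs_le.2 ⟨by linarith, by linarith⟩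
  have h5 : |(s : ℝ) - z.im| ≤ η / 2 := abs_le.2 ⟨by linarith, by linarith⟩
  linarith

section Sep

variable {S : Type v} [CommRing S] [Algebra ℂ S] [StarRing S]

/-- A homomorphism outside a compact set of homomorphisms is separated from it by sums of
squares of absolute values at elements of a rational form. -/
theorem sepQ (Q : AddSubgroup S) (hspan : Submodule.span ℂ (Q : Set S) = ⊤)
    (hq : ∀ r s : ℚ, algebraMap ℂ S ((r : ℂ) + (s : ℂ) * Complex.I) ∈ Q)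
    (K : Set (S →ₐ[ℂ] ℂ))
    (hK : IsCompact ((fun (c : S →ₐ[ℂ] ℂ) (a : S) => c a) '' K))
    (φ : S →ₐ[ℂ] ℂ) (hφ : φ ∉ K) :
    ∃ δ : ℝ, 0 < δ ∧ ∀ ε : ℝ, 0 < ε → ∃ (k : ℕ) (u : Fin k → S), (∀ i, u i ∈ Q) ∧
      ∑ i, ‖φ (u i)‖ ^ 2 ≤ ε ∧ ∀ c ∈ K, δ ≤ ∑ i, ‖c (u i)‖ ^ 2 := by
  classical
  have hne : ∀ c ∈ K, ∃ a : Q, c (a : S) ≠ φ (a : S) := by
    intro c hc
    by_contra hcon
    push Not at hcon
    apply hφ
    have h1 : (c : S →ₐ[ℂ] ℂ).toLinearMap = (φ : S →ₐ[ℂ] ℂ).toLinearMap := by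
      apply LinearMap.ext_on hspan
      intro a ha
      exact hcon ⟨a, ha⟩
    have : c = φ := AlgHom.ext fun a => congrArg (fun (L : S →ₗ[ℂ] ℂ) => L a) h1
    rw [← this]; exact hc
  obtain ⟨t, ht⟩ := hK.elim_finite_subcover
    (fun a : Q => {g : S → ℂ | g (a : S) ≠ φ (a : S)})
    (fun a => isOpen_ne_fun (continuous_apply (a : S)) continuous_const)
    (by
      rintro g ⟨c, hc, rfl⟩
      obtain ⟨a, ha⟩ := hne c hc
      exact Set.mem_iUnion.2 ⟨a, ha⟩)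
  have hcont : Continuous (fun g : S → ℂ => ∑ a ∈ t, ‖g (a : S) - φ (a : S)‖ ^ 2) :=
    continuous_finset_sum _ fun a _ => ((continuous_apply (a : S)).sub continuous_const).norm.pow 2
  have hpos : ∀ c ∈ K, 0 < ∑ a ∈ t, ‖c (a : S) - φ (a : S)‖ ^ 2 := by
    intro c hc
    have h1 := ht ⟨c, hc, rfl⟩
    simp only [Set.mem_iUnion, exists_prop] at h1
    obtain ⟨a, hat, ha⟩ := h1
    refine Finset.sum_pos' (fun a _ => by positivity) ⟨a, hat, ?_⟩
    have : c (a : S) - φ (a : S) ≠ 0 := sub_ne_zero.2 ha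
    positivity
  obtain ⟨δ₀, hδ₀, hmin⟩ : ∃ δ₀ : ℝ, 0 < δ₀ ∧
      ∀ c ∈ K, δ₀ ≤ ∑ a ∈ t, ‖c (a : S) - φ (a : S)‖ ^ 2 := by
    by_cases hKn : K.Nonempty
    · obtain ⟨g, hg, hmin⟩ := hK.exists_isMinOn (hKn.image _) hcont.continuousOn
      obtain ⟨c₀, hc₀, rfl⟩ := hg
      exact ⟨_, hpos c₀ hc₀, fun c hc => hmin ⟨c, hc, rfl⟩⟩
    · exact ⟨1, one_pos, fun c hc => (hKn ⟨c, hc⟩).elim⟩
  refine ⟨δ₀ / 4, by linarith, fun ε hε => ?_⟩
  -- the precision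
  obtain ⟨η, hη, hη1⟩ : ∃ η : ℝ, 0 < η ∧ (t.card : ℝ) * η ^ 2 ≤ min ε (δ₀ / 4) := by
    have hm : 0 < min ε (δ₀ / 4) := lt_min hε (by linarith)
    have hN : (0 : ℝ) < (t.card : ℝ) + 1 := by positivity
    refine ⟨Real.sqrt (min ε (δ₀ / 4) / ((t.card : ℝ) + 1)),
      Real.sqrt_pos.2 (div_pos hm hN), ?_⟩
    rw [Real.sq_sqrt (div_pos hm hN).le, mul_div_assoc']
    rw [div_le_iff₀ hN]
    nlinarith
  have hz : ∀ a : Q, ∃ z : ℂ, ‖z - φ (a : S)‖ ≤ η ∧ algebraMap ℂ S z ∈ Q := by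
    intro a
    obtain ⟨r, s, h⟩ := exists_rat_near (φ (a : S)) η hη
    exact ⟨_, h, hq r s⟩
  choose z hz1 hz2 using hz
  let e := t.equivFin
  refine ⟨t.card, fun i => ((e.symm i : Q) : S) - algebraMap ℂ S (z (e.symm i : Q)),
    fun i => Q.sub_mem (e.symm i : Q).2 (hz2 _), ?_, fun c hc => ?_⟩
  · have h1 : ∀ i : Fin t.card, ‖φ (((e.symm i : Q) : S) - algebraMap ℂ S (z (e.symm i : Q)))‖ ^ 2
        ≤ η ^ 2 := by
      intro i
      have h2 : φ (((e.symm i : Q) : S) - algebraMap ℂ S (z (e.symm i : Q)))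
          = φ ((e.symm i : Q) : S) - z (e.symm i : Q) := by
        rw [map_sub, AlgHomClass.commutes]; rfl
      rw [h2, norm_sub_rev]
      exact pow_le_pow_left₀ (norm_nonneg _) (hz1 _) 2
    calc _ ≤ ∑ _i : Fin t.card, η ^ 2 := Finset.sum_le_sum fun i _ => h1 i
      _ = (t.card : ℝ) * η ^ 2 := by
        rw [Finset.sum_const, Finset.card_univ, Fintype.card_fin, nsmul_eq_mul]
      _ ≤ ε := hη1.trans (min_le_left _ _)
  · have h1 : ∀ a : Q, ‖c (a : S) - φ (a : S)‖ ^ 2 / 2 - η ^ 2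
        ≤ ‖c ((a : S) - algebraMap ℂ S (z a))‖ ^ 2 := by
      intro a
      have h2 : c ((a : S) - algebraMap ℂ S (z a)) = c (a : S) - z a := by
        rw [map_sub, AlgHomClass.commutes]; rfl
      rw [h2]
      have h3 : ‖c (a : S) - φ (a : S)‖ ≤ ‖c (a : S) - z a‖ + ‖z a - φ (a : S)‖ := by
        have := norm_add_le (c (a : S) - z a) (z a - φ (a : S))
        simpa using this
      have h4 := hz1 a
      have h5 := norm_nonneg (c (a : S) - φ (a : S))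
      have h6 := norm_nonneg (c (a : S) - z a)
      have h7 := norm_nonneg (z a - φ (a : S))
      nlinarith [sq_nonneg (‖c (a : S) - z a‖ - ‖z a - φ (a : S)‖), sq_nonneg (η)]
    have h2 : ∑ i : Fin t.card, ‖c (((e.symm i : Q) : S) - algebraMap ℂ S (z (e.symm i : Q)))‖ ^ 2
        = ∑ a ∈ t, ‖c ((a : S) - algebraMap ℂ S (z a))‖ ^ 2 := by
      rw [← Finset.sum_coe_sort t (fun a => ‖c ((a : S) - algebraMap ℂ S (z a))‖ ^ 2)]
      exact Equiv.sum_comp e.symm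
        (fun a : t => ‖c (((a : Q) : S) - algebraMap ℂ S (z (a : Q)))‖ ^ 2)
    rw [h2]
    have h3 : ∑ a ∈ t, (‖c (a : S) - φ (a : S)‖ ^ 2 / 2 - η ^ 2)
        ≤ ∑ a ∈ t, ‖c ((a : S) - algebraMap ℂ S (z a))‖ ^ 2 :=
      Finset.sum_le_sum fun a _ => h1 a
    rw [Finset.sum_sub_distrib, ← Finset.sum_div, Finset.sum_const, nsmul_eq_mul] at h3
    have h4 := hmin c hc
    have h5 := hη1.trans (min_le_right _ _)
    linarith

end Sep

end Pool.Agent.Run7.h902.ArthurTwo
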