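import Pool.Agent.Run7.h902.ArthurFin

set_option autoImplicit false

/-!
# The finite inequalities imply that every character has a common label
-/

open scoped ComplexConjugate InnerProductSpace NNReal
open WeakDual

namespace Pool.Agent.Run7.h902.ArthurTwo

universe u v w x

theorem char_starA {H : Type u} [NormedAddCommGroup H] [InnerProductSpace ℂ H] [CompleteSpace H]
    (A : StarSubalgebra ℂ (H →L[ℂ] H)) [hA : IsClosed (A : Set (H →L[ℂ] H))]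
    (hc : ∀ a b : A, a * b = b * a) (ψ : A →ₐ[ℂ] ℂ) (n : A) : ψ (star n) = conj (ψ n) := by
  letI := comm A hc
  exact char_star (B := A) ψ n

theorem form_star_mul {H : Type u} [NormedAddCommGroup H] [InnerProductSpace ℂ H]
    [CompleteSpace H] (a : H →L[ℂ] H) (f : H) : (⟪(star a * a) f, f⟫_ℂ).re = ‖a f‖ ^ 2 := by
  have h1 : (star a * a) f = (star a) (a f) := rfl
  rw [h1, ContinuousLinearMap.star_eq_adjoint, ContinuousLinearMap.adjoint_inner_left,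
    inner_self_eq_norm_sq_to_K]
  simp only [Complex.coe_algebraMap]
  rw [← Complex.ofReal_pow, Complex.ofReal_re]

variable {H : Type u} [NormedAddCommGroup H] [InnerProductSpace ℂ H] [CompleteSpace H]
variable {X : Type w} {S : X → Type v} [∀ x, CommRing (S x)] [∀ x, Algebra ℂ (S x)]
  [∀ x, StarRing (S x)]
variable {O : Type x} [Fintype O]

theorem label_of_finite (T : ∀ x, S x →⋆ₐ[ℂ] (H →L[ℂ] H))
    (hc : ∀ x y a b, T x a * T y b = T y b * T x a)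
    (R : ∀ x, O → Set (S x →ₐ[ℂ] ℂ))
    (hR : ∀ x o, IsCompact ((fun (c : S x →ₐ[ℂ] ℂ) (a : S x) => c a) '' R x o))
    (Q : ∀ x, AddSubgroup (S x)) (hspan : ∀ x, Submodule.span ℂ (Q x : Set (S x)) = ⊤)
    (hq : ∀ x, ∀ r s : ℚ, algebraMap ℂ (S x) ((r : ℂ) + (s : ℂ) * Complex.I) ∈ Q x)
    (x₀ : X) (D : Set H) (hD : Dense D)
    (hF : ∀ (y : X) (k l : ℕ) (u : Fin k → S x₀) (v : Fin l → S y),
      (∀ i, u i ∈ Q x₀) → (∀ j, v j ∈ Q y) → ∀ m : ℚ,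
      (∀ o, ∀ φ ∈ R x₀ o, ∀ φ' ∈ R y o,
        (m : ℝ) ≤ ∑ i, ‖φ (u i)‖ ^ 2 + ∑ j, ‖φ' (v j)‖ ^ 2) →
      ∀ f ∈ D, (m : ℝ) * ‖f‖ ^ 2 ≤ ∑ i, ‖T x₀ (u i) f‖ ^ 2 + ∑ j, ‖T y (v j) f‖ ^ 2)
    (ψ : gen (opSet T) →ₐ[ℂ] ℂ) (y : X) :
    ∃ o, along (gen (opSet T)) (T x₀) (mem_op T x₀) ψ ∈ R x₀ o ∧
        along (gen (opSet T)) (T y) (mem_op T y) ψ ∈ R y o := by
  classical
  by_contra hcon
  push Not at hcon
  set φ := along (gen (opSet T)) (T x₀) (mem_op T x₀) ψ with hφ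
  set φ' := along (gen (opSet T)) (T y) (mem_op T y) ψ with hφ'
  have hex : ∀ o, ∃ δ : ℝ, 0 < δ ∧ ∀ ε : ℝ, 0 < ε → ∃ (k : ℕ) (u : Fin k → S x₀) (l : ℕ)
      (v : Fin l → S y), (∀ i, u i ∈ Q x₀) ∧ (∀ j, v j ∈ Q y) ∧
      ∑ i, ‖φ (u i)‖ ^ 2 + ∑ j, ‖φ' (v j)‖ ^ 2 ≤ ε ∧
      ∀ c ∈ R x₀ o, ∀ c' ∈ R y o, δ ≤ ∑ i, ‖c (u i)‖ ^ 2 + ∑ j, ‖c' (v j)‖ ^ 2 := by
    intro o
    by_cases h : φ ∈ R x₀ o
    · obtain ⟨δ, hδ, h1⟩ := sepQ (Q y) (hspan y) (hq y) (R y o) (hR y o) φ' (hcon o h)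
      refine ⟨δ, hδ, fun ε hε => ?_⟩
      obtain ⟨l, v, hv, hv1, hv2⟩ := h1 ε hε
      refine ⟨0, Fin.elim0, l, v, fun i => i.elim0, hv, ?_, fun c _ c' hc' => ?_⟩
      · simpa using hv1
      · simpa using hv2 c' hc'
    · obtain ⟨δ, hδ, h1⟩ := sepQ (Q x₀) (hspan x₀) (hq x₀) (R x₀ o) (hR x₀ o) φ h
      refine ⟨δ, hδ, fun ε hε => ?_⟩
      obtain ⟨k, u, hu, hu1, hu2⟩ := h1 ε hε
      refine ⟨k, u, 0, Fin.elim0, hu, fun i => i.elim0, ?_, fun c hc c' _ => ?_⟩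
      · simpa using hu1
      · simpa using hu2 c hc
  choose δ hδ hE using hex
  obtain ⟨d, hd0, hdle⟩ : ∃ d : ℝ, 0 < d ∧ ∀ o, d ≤ δ o := by
    rcases isEmpty_or_nonempty O with hO | hO
    · exact ⟨1, one_pos, fun o => (hO.false o).elim⟩
    · obtain ⟨o, ho⟩ := Finite.exists_min δ
      exact ⟨δ o, hδ o, ho⟩
  have hN : (0 : ℝ) < 2 * ((Fintype.card O : ℝ) + 1) := by positivity
  have hε : 0 < d / (2 * ((Fintype.card O : ℝ) + 1)) := div_pos hd0 hN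
  choose k u l v hu hv hle hge using fun o => hE o _ hε
  let e₀ := Fintype.equivFin (Σ o, Fin (k o))
  let e₁ := Fintype.equivFin (Σ o, Fin (l o))
  have s₀ : ∀ F : S x₀ → ℝ, ∑ i, F (u (e₀.symm i).1 (e₀.symm i).2) = ∑ o, ∑ i, F (u o i) := by
    intro F
    rw [Equiv.sum_comp e₀.symm (fun p : Σ o, Fin (k o) => F (u p.1 p.2)), Fintype.sum_sigma]
  have s₁ : ∀ F : S y → ℝ, ∑ i, F (v (e₁.symm i).1 (e₁.symm i).2) = ∑ o, ∑ i, F (v o i) := by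
    intro F
    rw [Equiv.sum_comp e₁.symm (fun p : Σ o, Fin (l o) => F (v p.1 p.2)), Fintype.sum_sigma]
  obtain ⟨m, hm1, hm2⟩ := exists_rat_btwn (show d / 2 < d by linarith)
  have hbound : ∀ f ∈ D, (m : ℝ) * ‖f‖ ^ 2 ≤
      ∑ i, ‖T x₀ (u (e₀.symm i).1 (e₀.symm i).2) f‖ ^ 2 +
        ∑ j, ‖T y (v (e₁.symm j).1 (e₁.symm j).2) f‖ ^ 2 := by
    refine hF y _ _ (fun i => u (e₀.symm i).1 (e₀.symm i).2)
      (fun j => v (e₁.symm j).1 (e₁.symm j).2) (fun i => hu _ _) (fun j => hv _ _) m ?_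
    intro o c hc c' hc'
    rw [s₀ (fun a => ‖c a‖ ^ 2), s₁ (fun a => ‖c' a‖ ^ 2), ← Finset.sum_add_distrib]
    have h1 := Finset.single_le_sum
      (f := fun o => ∑ i, ‖c (u o i)‖ ^ 2 + ∑ j, ‖c' (v o j)‖ ^ 2)
      (fun o' _ => by positivity) (Finset.mem_univ o)
    have h2 := hge o c hc c' hc'
    have h3 := hdle o
    exact le_trans (le_trans hm2.le (le_trans h3 h2)) h1
  have hall : ∀ f : H, (m : ℝ) * ‖f‖ ^ 2 ≤
      ∑ i, ‖T x₀ (u (e₀.symm i).1 (e₀.symm i).2) f‖ ^ 2 +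
        ∑ j, ‖T y (v (e₁.symm j).1 (e₁.symm j).2) f‖ ^ 2 := by
    have hcl : IsClosed {f : H | (m : ℝ) * ‖f‖ ^ 2 ≤
      ∑ i, ‖T x₀ (u (e₀.symm i).1 (e₀.symm i).2) f‖ ^ 2 +
        ∑ j, ‖T y (v (e₁.symm j).1 (e₁.symm j).2) f‖ ^ 2} := by
      refine isClosed_le (continuous_const.mul (continuous_norm.pow 2)) ?_
      exact (continuous_finsetSum _ fun i _ => ((T x₀ _).continuous.norm.pow 2)).add
        (continuous_finsetSum _ fun j _ => ((T y _).continuous.norm.pow 2))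
    intro f
    exact (hcl.closure_subset_iff.2 hbound) (hD f)
  -- the operator
  set a₀ : Fin (Fintype.card (Σ o, Fin (k o))) → gen (opSet T) := fun i =>
    ⟨T x₀ (u (e₀.symm i).1 (e₀.symm i).2), mem_op T x₀ _⟩ with ha₀
  set a₁ : Fin (Fintype.card (Σ o, Fin (l o))) → gen (opSet T) := fun i =>
    ⟨T y (v (e₁.symm i).1 (e₁.symm i).2), mem_op T y _⟩ with ha₁
  have hn := char_ge (gen (opSet T)) ψ
    (∑ i, star (a₀ i) * a₀ i + ∑ j, star (a₁ j) * a₁ j) m (by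
      intro f
      refine (hall f).trans (le_of_eq ?_)
      have h1 : ((∑ i, star (a₀ i) * a₀ i + ∑ j, star (a₁ j) * a₁ j : gen (opSet T)) :
          H →L[ℂ] H) = ∑ i, star (a₀ i : H →L[ℂ] H) * (a₀ i : H →L[ℂ] H) +
            ∑ j, star (a₁ j : H →L[ℂ] H) * (a₁ j : H →L[ℂ] H) := by
        have h2 : ∀ z : gen (opSet T), (z : H →L[ℂ] H) = (gen (opSet T)).subtype z :=
          fun z => rfl
        rw [h2, map_add, map_sum, map_sum]
        rfl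
      rw [h1, add_apply, sum_apply, sum_apply, inner_add_left, sum_inner, sum_inner,
        Complex.add_re, Complex.re_sum, Complex.re_sum]
      congr 1
      · exact Finset.sum_congr rfl fun i _ => (form_star_mul _ f).symm
      · exact Finset.sum_congr rfl fun i _ => (form_star_mul _ f).symm)
  have hval : ∀ z : gen (opSet T), (ψ (star z * z)).re = ‖ψ z‖ ^ 2 := by
    intro z
    rw [map_mul, char_starA _ (op_comm T hc), ← Complex.normSq_eq_conj_mul_self,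
      Complex.ofReal_re, Complex.normSq_eq_norm_sq]
  rw [map_add, map_sum, map_sum, Complex.add_re, Complex.re_sum, Complex.re_sum,
    Finset.sum_congr rfl (fun i _ => hval (a₀ i)), Finset.sum_congr rfl (fun j _ => hval (a₁ j))]
    at hn
  have h1 : ∑ i, ‖ψ (a₀ i)‖ ^ 2 = ∑ o, ∑ i, ‖φ (u o i)‖ ^ 2 := s₀ (fun a => ‖φ a‖ ^ 2)
  have h2 : ∑ i, ‖ψ (a₁ i)‖ ^ 2 = ∑ o, ∑ i, ‖φ' (v o i)‖ ^ 2 := s₁ (fun a => ‖φ' a‖ ^ 2)
  rw [h1, h2, ← Finset.sum_add_distrib] at hn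
  have h3 : ∑ o, (∑ i, ‖φ (u o i)‖ ^ 2 + ∑ i, ‖φ' (v o i)‖ ^ 2)
      ≤ (Fintype.card O : ℝ) * (d / (2 * ((Fintype.card O : ℝ) + 1))) := by
    refine (Finset.sum_le_sum fun o _ => hle o).trans (le_of_eq ?_)
    rw [Finset.sum_const, Finset.card_univ, nsmul_eq_mul]
  have h4 : (Fintype.card O : ℝ) * (d / (2 * ((Fintype.card O : ℝ) + 1))) ≤ d / 2 := by
    have h6 : (0 : ℝ) ≤ (Fintype.card O : ℝ) := by positivity
    rw [mul_div_assoc', div_le_div_iff₀ hN two_pos]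
    nlinarith
  linarith

end Pool.Agent.Run7.h902.ArthurTwo
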