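import Pool.Agent.Run7.h902.ArthurTwo

set_option autoImplicit false

/-!
# Commuting star representations: decomposition by disjoint compact sets of characters and
quadratic form inequalities for sums of two operators
-/

open scoped ComplexConjugate InnerProductSpace NNReal
open WeakDual

namespace Pool.Agent.Run7.h902.ArthurTwo

universe u v w x

section Sep

variable {S : Type v} [CommRing S] [Algebra ℂ S] [StarRing S]

/-- A homomorphism outside a compact set of star homomorphisms is separated from it by a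
sum of squares. -/
theorem sep (K : Set (S →ₐ[ℂ] ℂ))
    (hK : IsCompact ((fun (c : S →ₐ[ℂ] ℂ) (a : S) => c a) '' K))
    (hstar : ∀ c ∈ K, ∀ a, c (star a) = conj (c a)) (φ : S →ₐ[ℂ] ℂ) (hφ : φ ∉ K) :
    ∃ β : S, star β = β ∧ φ β = 0 ∧
      (∀ c : S →ₐ[ℂ] ℂ, (∀ a, c (star a) = conj (c a)) → 0 ≤ (c β).re) ∧
      ∃ δ : ℝ, 0 < δ ∧ ∀ c ∈ K, δ ≤ (c β).re := by
  classical
  set u : S → S := fun a => a - algebraMap ℂ S (φ a) with hu
  set b : S → S := fun a => star (u a) * u a with hb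
  have hφu : ∀ a, φ (u a) = 0 := by
    intro a
    simp [hu]
  have hb0 : ∀ a, φ (b a) = 0 := by
    intro a
    simp only [hb, map_mul, hφu, mul_zero]
  have hbs : ∀ a, star (b a) = b a := by
    intro a
    simp only [hb, star_mul, star_star]
  have hbr : ∀ c : S →ₐ[ℂ] ℂ, (∀ a, c (star a) = conj (c a)) → ∀ a,
      (c (b a)).re = ‖c a - φ a‖ ^ 2 := by
    intro c hc a
    have h1 : c (u a) = c a - φ a := by simp [hu]
    have h2 : c (b a) = conj (c a - φ a) * (c a - φ a) := by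
      simp only [hb, map_mul, hc, h1]
    rw [h2, ← Complex.normSq_eq_conj_mul_self, Complex.ofReal_re, Complex.normSq_eq_norm_sq]
  have hne : ∀ c ∈ K, ∃ a : S, 0 < (c (b a)).re := by
    intro c hc
    by_contra hcon
    push Not at hcon
    apply hφ
    have : c = φ := by
      apply AlgHom.ext
      intro a
      have h1 := hcon a
      rw [hbr c (hstar c hc) a] at h1
      have h2 : ‖c a - φ a‖ = 0 := by
        have := sq_nonneg ‖c a - φ a‖
        exact pow_eq_zero_iff (two_ne_zero) |>.1 (le_antisymm h1 this)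
      exact sub_eq_zero.1 (norm_eq_zero.1 h2)
    rw [← this]; exact hc
  obtain ⟨t, ht⟩ := hK.elim_finite_subcover
    (fun a : S => {g : S → ℂ | 0 < (g (b a)).re})
    (fun a => isOpen_lt continuous_const (Complex.continuous_re.comp (continuous_apply (b a))))
    (by
      rintro g ⟨c, hc, rfl⟩
      obtain ⟨a, ha⟩ := hne c hc
      exact Set.mem_iUnion.2 ⟨a, ha⟩)
  refine ⟨∑ a ∈ t, b a, ?_, ?_, ?_, ?_⟩
  · rw [star_sum]
    exact Finset.sum_congr rfl fun a _ => hbs a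
  · rw [map_sum]
    exact Finset.sum_eq_zero fun a _ => hb0 a
  · intro c hc
    rw [map_sum, Complex.re_sum]
    exact Finset.sum_nonneg fun a _ => by rw [hbr c hc]; positivity
  · have hpos : ∀ c ∈ K, 0 < (c (∑ a ∈ t, b a)).re := by
      intro c hc
      have h1 := ht ⟨c, hc, rfl⟩
      simp only [Set.mem_iUnion, exists_prop] at h1
      obtain ⟨a, hat, ha⟩ := h1
      rw [map_sum, Complex.re_sum]
      exact Finset.sum_pos' (fun a _ => by rw [hbr c (hstar c hc)]; positivity) ⟨a, hat, ha⟩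
    by_cases hKn : K.Nonempty
    · obtain ⟨g, hg, hmin⟩ := hK.exists_isMinOn (hKn.image _)
        ((Complex.continuous_re.comp (continuous_apply (∑ a ∈ t, b a))).continuousOn)
      obtain ⟨c₀, hc₀, rfl⟩ := hg
      exact ⟨(c₀ (∑ a ∈ t, b a)).re, hpos c₀ hc₀, fun c hc => hmin ⟨c, hc, rfl⟩⟩
    · exact ⟨1, one_pos, fun c hc => (hKn ⟨c, hc⟩).elim⟩

end Sep

section Gen

variable {H : Type u} [NormedAddCommGroup H] [InnerProductSpace ℂ H] [CompleteSpace H]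

/-- The closed star subalgebra generated by a set of operators. -/
noncomputable def gen (G : Set (H →L[ℂ] H)) : StarSubalgebra ℂ (H →L[ℂ] H) :=
  (StarAlgebra.adjoin ℂ G).topologicalClosure

instance gen_closed (G : Set (H →L[ℂ] H)) : IsClosed (gen G : Set (H →L[ℂ] H)) :=
  StarSubalgebra.isClosed_topologicalClosure _

theorem mem_gen {G : Set (H →L[ℂ] H)} {g : H →L[ℂ] H} (hg : g ∈ G) : g ∈ gen G :=
  StarSubalgebra.le_topologicalClosure _ (StarAlgebra.subset_adjoin ℂ G hg)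

theorem gen_comm {G : Set (H →L[ℂ] H)} (h1 : ∀ a ∈ G, ∀ b ∈ G, a * b = b * a)
    (h2 : ∀ a ∈ G, star a ∈ G) (a b : gen G) : a * b = b * a := by
  have h3 : ∀ a b : StarAlgebra.adjoin ℂ G, a * b = b * a := by
    have := StarAlgebra.isMulCommutative_adjoin ℂ (s := G) (fun a ha b hb => h1 a ha b hb)
      (fun a ha b hb => h1 a ha (star b) (h2 b hb))
    intro a b
    exact mul_comm' a b
  exact (StarSubalgebra.commRingTopologicalClosure (StarAlgebra.adjoin ℂ G) h3).mul_comm a b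

variable {S : Type v} [CommRing S] [Algebra ℂ S] [StarRing S]

/-- The homomorphism given by a character along a representation. -/
noncomputable def along (A : StarSubalgebra ℂ (H →L[ℂ] H)) (T : S →⋆ₐ[ℂ] (H →L[ℂ] H)) (h : ∀ a, T a ∈ A)
    (ψ : A →ₐ[ℂ] ℂ) : S →ₐ[ℂ] ℂ where
  toFun a := ψ ⟨T a, h a⟩
  map_one' := by
    have : (⟨T 1, h 1⟩ : A) = 1 := Subtype.ext (map_one T)
    rw [this, map_one]
  map_mul' a b := by
    have : (⟨T (a * b), h (a * b)⟩ : A) = ⟨T a, h a⟩ * ⟨T b, h b⟩ := Subtype.ext (map_mul T a b)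
    rw [this, map_mul]
  map_zero' := by
    have : (⟨T 0, h 0⟩ : A) = 0 := Subtype.ext (map_zero T)
    rw [this, map_zero]
  map_add' a b := by
    have : (⟨T (a + b), h (a + b)⟩ : A) = ⟨T a, h a⟩ + ⟨T b, h b⟩ := Subtype.ext (map_add T a b)
    rw [this, map_add]
  commutes' z := by
    have : (⟨T (algebraMap ℂ S z), h _⟩ : A) = algebraMap ℂ A z :=
      Subtype.ext (AlgHomClass.commutes T z)
    rw [this, AlgHomClass.commutes]

end Gen

section PartOne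

variable {H : Type u} [NormedAddCommGroup H] [InnerProductSpace ℂ H] [CompleteSpace H]
variable {S₀ : Type v} [CommRing S₀] [Algebra ℂ S₀] [StarRing S₀]
variable {S₁ : Type w} [CommRing S₁] [Algebra ℂ S₁] [StarRing S₁]

theorem proj_comm (W : Submodule ℂ H) [W.HasOrthogonalProjection] (T : H →L[ℂ] H)
    (h1 : ∀ v ∈ W, T v ∈ W) (h2 : ∀ v ∈ W, (star T) v ∈ W) :
    T * W.starProjection = W.starProjection * T := by
  ext v
  show T (W.starProjection v) = W.starProjection (T v)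
  have h3 : T (W.starProjection v) ∈ W := h1 _ (W.starProjection_apply_mem v)
  have h4 : T v - T (W.starProjection v) ∈ Wᗮ := by
    rw [← map_sub, Submodule.mem_orthogonal]
    intro w hw
    rw [← ContinuousLinearMap.adjoint_inner_left, ← ContinuousLinearMap.star_eq_adjoint]
    exact (Submodule.mem_orthogonal _ _).1 (W.sub_starProjection_mem_orthogonal v) _ (h2 w hw)
  exact (Submodule.eq_starProjection_of_mem_orthogonal h3 h4).symm

/-- If the characters occurring on a closed invariant subspace are in `R₀`, respectively in `R₁`,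
then the form of a sum of two hermitian elements is bounded below as on `R₀ × R₁`. -/
theorem form_of_spec (T₀ : S₀ →⋆ₐ[ℂ] (H →L[ℂ] H)) (T₁ : S₁ →⋆ₐ[ℂ] (H →L[ℂ] H))
    (hc : ∀ a b, T₀ a * T₁ b = T₁ b * T₀ a)
    (W : Submodule ℂ H) (hW : IsClosed (W : Set H))
    (i₀ : ∀ a, ∀ v ∈ W, T₀ a v ∈ W) (i₁ : ∀ a, ∀ v ∈ W, T₁ a v ∈ W)
    (R₀ : Set (S₀ →ₐ[ℂ] ℂ)) (R₁ : Set (S₁ →ₐ[ℂ] ℂ))
    (hR₀ : ∀ φ : S₀ →ₐ[ℂ] ℂ, (∀ (a : S₀) (M : ℝ), 0 ≤ M → (∀ v ∈ W, ‖T₀ a v‖ ≤ M * ‖v‖) →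
      ‖φ a‖ ≤ M) → φ ∈ R₀)
    (hR₁ : ∀ φ : S₁ →ₐ[ℂ] ℂ, (∀ (a : S₁) (M : ℝ), 0 ≤ M → (∀ v ∈ W, ‖T₁ a v‖ ≤ M * ‖v‖) →
      ‖φ a‖ ≤ M) → φ ∈ R₁)
    (a : S₀) (b : S₁) (ha : star a = a) (hb : star b = b) (m : ℝ)
    (hm : ∀ φ ∈ R₀, ∀ φ' ∈ R₁, m ≤ (φ a).re + (φ' b).re) (v : H) (hv : v ∈ W) :
    m * ‖v‖ ^ 2 ≤ (⟪T₀ a v + T₁ b v, v⟫_ℂ).re := by
  haveI : CompleteSpace W := hW.completeSpace_coe
  set P : H →L[ℂ] H := W.starProjection with hP
  have hPs : star P = P := isSelfAdjoint_starProjection W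
  have hPP : P * P = P := W.isIdempotentElem_starProjection
  have hst₀ : ∀ a, star (T₀ a) = T₀ (star a) := fun a => (map_star T₀ a).symm
  have hst₁ : ∀ a, star (T₁ a) = T₁ (star a) := fun a => (map_star T₁ a).symm
  have hP₀ : ∀ a, T₀ a * P = P * T₀ a := fun a => proj_comm W (T₀ a) (i₀ a)
    (fun v hv => by rw [hst₀]; exact i₀ _ v hv)
  have hP₁ : ∀ a, T₁ a * P = P * T₁ a := fun a => proj_comm W (T₁ a) (i₁ a)
    (fun v hv => by rw [hst₁]; exact i₁ _ v hv)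
  have h00 : ∀ a b, T₀ a * T₀ b = T₀ b * T₀ a := fun a b => by
    rw [← map_mul, mul_comm, map_mul]
  have h11 : ∀ a b, T₁ a * T₁ b = T₁ b * T₁ a := fun a b => by
    rw [← map_mul, mul_comm, map_mul]
  set G : Set (H →L[ℂ] H) := {P} ∪ (Set.range T₀ ∪ Set.range T₁) with hG
  have g0 : ∀ a, T₀ a ∈ gen G := fun a => mem_gen (Or.inr (Or.inl ⟨a, rfl⟩))
  have g1 : ∀ a, T₁ a ∈ gen G := fun a => mem_gen (Or.inr (Or.inr ⟨a, rfl⟩))
  have gP : P ∈ gen G := mem_gen (Or.inl rfl)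
  have hcomm : ∀ x y : gen G, x * y = y * x := by
    refine gen_comm ?_ ?_
    · rintro x (rfl | ⟨x, rfl⟩ | ⟨x, rfl⟩) y (rfl | ⟨y, rfl⟩ | ⟨y, rfl⟩)
      · rfl
      · exact (hP₀ y).symm
      · exact (hP₁ y).symm
      · exact hP₀ x
      · exact h00 x y
      · exact hc x y
      · exact hP₁ x
      · exact (hc y x).symm
      · exact h11 x y
    · rintro x (rfl | ⟨x, rfl⟩ | ⟨x, rfl⟩)
      · rw [hPs]; exact Or.inl rfl
      · rw [hst₀]; exact Or.inr (Or.inl ⟨_, rfl⟩)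
      · rw [hst₁]; exact Or.inr (Or.inr ⟨_, rfl⟩)
  have key : ∀ ψ : gen G →ₐ[ℂ] ℂ, ψ ⟨P, gP⟩ = 1 →
      m ≤ (ψ ⟨T₀ a, g0 a⟩).re + (ψ ⟨T₁ b, g1 b⟩).re := by
    intro ψ hψ
    refine hm (along (gen G) T₀ g0 ψ) (hR₀ _ ?_) (along (gen G) T₁ g1 ψ) (hR₁ _ ?_)
    · intro a' M hM h
      have h1 : ψ ⟨T₀ a', g0 a'⟩ = ψ (⟨T₀ a', g0 a'⟩ * ⟨P, gP⟩) := by
        rw [map_mul, hψ, mul_one]
      show ‖ψ ⟨T₀ a', g0 a'⟩‖ ≤ M
      rw [h1]
      refine (char_norm_le (gen G) ψ _).trans ?_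
      refine ContinuousLinearMap.opNorm_le_bound _ hM (fun w => ?_)
      calc ‖(T₀ a') (P w)‖ ≤ M * ‖P w‖ := h _ (W.starProjection_apply_mem w)
        _ ≤ M * ‖w‖ := mul_le_mul_of_nonneg_left (W.norm_starProjection_apply_le w) hM
    · intro a' M hM h
      have h1 : ψ ⟨T₁ a', g1 a'⟩ = ψ (⟨T₁ a', g1 a'⟩ * ⟨P, gP⟩) := by
        rw [map_mul, hψ, mul_one]
      show ‖ψ ⟨T₁ a', g1 a'⟩‖ ≤ M
      rw [h1]
      refine (char_norm_le (gen G) ψ _).trans ?_
      refine ContinuousLinearMap.opNorm_le_bound _ hM (fun w => ?_)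
      calc ‖(T₁ a') (P w)‖ ≤ M * ‖P w‖ := h _ (W.starProjection_apply_mem w)
        _ ≤ M * ‖w‖ := mul_le_mul_of_nonneg_left (W.norm_starProjection_apply_le w) hM
  -- the element
  set n : gen G := ((⟨T₀ a, g0 a⟩ + ⟨T₁ b, g1 b⟩) - algebraMap ℂ (gen G) (m : ℂ)) * ⟨P, gP⟩
    with hn
  have hns : star n = n := by
    have e0 : star (⟨T₀ a, g0 a⟩ : gen G) = ⟨T₀ a, g0 a⟩ := Subtype.ext (by
      show star (T₀ a) = T₀ a
      rw [hst₀, ha])
    have e1 : star (⟨T₁ b, g1 b⟩ : gen G) = ⟨T₁ b, g1 b⟩ := Subtype.ext (by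
      show star (T₁ b) = T₁ b
      rw [hst₁, hb])
    have eP : star (⟨P, gP⟩ : gen G) = ⟨P, gP⟩ := Subtype.ext hPs
    have em : star (algebraMap ℂ (gen G) (m : ℂ)) = algebraMap ℂ (gen G) (m : ℂ) := by
      rw [← algebraMap_star_comm]
      congr 1
      exact Complex.conj_ofReal m
    rw [hn, star_mul, star_sub, star_add, e0, e1, eP, em, hcomm]
  have hψP : ∀ ψ : gen G →ₐ[ℂ] ℂ, ψ ⟨P, gP⟩ = 0 ∨ ψ ⟨P, gP⟩ = 1 := by
    intro ψ
    have h1 : (⟨P, gP⟩ : gen G) * ⟨P, gP⟩ = ⟨P, gP⟩ := Subtype.ext hPP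
    have h2 : ψ ⟨P, gP⟩ * ψ ⟨P, gP⟩ = ψ ⟨P, gP⟩ := by rw [← map_mul, h1]
    have h3 : ψ ⟨P, gP⟩ * (ψ ⟨P, gP⟩ - 1) = 0 := by rw [mul_sub, h2, mul_one, sub_self]
    rcases mul_eq_zero.1 h3 with h | h
    · exact Or.inl h
    · exact Or.inr (sub_eq_zero.1 h)
  have hform := form_nonneg (gen G) hcomm n hns (fun ψ => by
    rcases hψP ψ with h | h
    · rw [hn, map_mul, h, mul_zero]
      exact le_refl _
    · rw [hn, map_mul, h, mul_one, map_sub, map_add, AlgHomClass.commutes]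
      have h1 := key ψ h
      simp only [Complex.sub_re, Complex.add_re, Algebra.algebraMap_self, RingHom.id_apply,
        Complex.ofReal_re]
      linarith) v
  have hnv : (n : H →L[ℂ] H) v = (T₀ a v + T₁ b v) - (m : ℂ) • v := by
    have hPv : P v = v := W.starProjection_eq_self_iff.2 hv
    have h1 : (n : H →L[ℂ] H) = ((T₀ a + T₁ b) - algebraMap ℂ (H →L[ℂ] H) (m : ℂ)) * P := rfl
    rw [h1]
    show ((T₀ a + T₁ b) - algebraMap ℂ (H →L[ℂ] H) (m : ℂ)) (P v) = _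
    rw [hPv, Algebra.algebraMap_eq_smul_one]
    rfl
  rw [hnv, inner_sub_left, inner_smul_left, Complex.sub_re, inner_self_eq_norm_sq_to_K] at hform
  have h5 : ((conj (m : ℂ)) * ((algebraMap ℝ ℂ) ‖v‖) ^ 2).re = m * ‖v‖ ^ 2 := by
    rw [Complex.conj_ofReal]
    simp only [Complex.coe_algebraMap]
    rw [← Complex.ofReal_pow, ← Complex.ofReal_mul, Complex.ofReal_re]
  rw [Complex.coe_algebraMap] at h5
  have h6 := hform
  simp only [Complex.coe_algebraMap] at h6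
  rw [h5] at h6
  linarith

end PartOne

end Pool.Agent.Run7.h902.ArthurTwo
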