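import Mathlib

set_option autoImplicit false

/-!
# Commuting families of operators: characters, forms and projections
-/

open scoped ComplexConjugate InnerProductSpace NNReal
open WeakDual

namespace Pool.Agent.Run7.h902.ArthurTwo

universe u v w

section Basic

variable {H : Type u} [NormedAddCommGroup H] [InnerProductSpace ℂ H] [CompleteSpace H]
variable (A : StarSubalgebra ℂ (H →L[ℂ] H)) [hA : IsClosed (A : Set (H →L[ℂ] H))]

/-- A lower bound of the form bounds the real parts of the values of all characters. -/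
theorem char_ge (ψ : A →ₐ[ℂ] ℂ) (n : A) (m : ℝ)
    (h : ∀ f : H, m * ‖f‖ ^ 2 ≤ (⟪(n : H →L[ℂ] H) f, f⟫_ℂ).re) : m ≤ (ψ n).re := by
  have h1 : ψ n ∈ spectrum ℂ n := AlgHom.apply_mem_spectrum ψ n
  rw [StarSubalgebra.spectrum_eq (hS := hA)] at h1
  by_contra hlt
  push Not at hlt
  refine (spectrum.mem_iff.1 h1) ?_
  rw [← IsUnit.neg_iff, neg_sub]
  have hc : 0 < m - (ψ n).re := by linarith
  refine ContinuousLinearMap.isUnit_of_forall_le_norm_inner_map _ (c := ⟨m - (ψ n).re, hc.le⟩)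
    hc (fun f => ?_)
  have h2 : (⟪((n : H →L[ℂ] H) - algebraMap ℂ (H →L[ℂ] H) (ψ n)) f, f⟫_ℂ).re
      = (⟪(n : H →L[ℂ] H) f, f⟫_ℂ).re - (ψ n).re * ‖f‖ ^ 2 := by
    have h3 : ((n : H →L[ℂ] H) - algebraMap ℂ (H →L[ℂ] H) (ψ n)) f
        = (n : H →L[ℂ] H) f - (ψ n) • f := by
      rw [Algebra.algebraMap_eq_smul_one]; rfl
    rw [h3, inner_sub_left, inner_smul_left, Complex.sub_re, inner_self_eq_norm_sq_to_K]
    congr 1
    have : ((‖f‖ : ℂ) ^ 2) = ((‖f‖ ^ 2 : ℝ) : ℂ) := by push_cast; rfl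
    simp only [Complex.coe_algebraMap]
    rw [this, Complex.mul_re, Complex.ofReal_re, Complex.ofReal_im, Complex.conj_re]
    ring
  calc ‖f‖ ^ 2 * ((⟨m - (ψ n).re, hc.le⟩ : ℝ≥0) : ℝ)
      = m * ‖f‖ ^ 2 - (ψ n).re * ‖f‖ ^ 2 := by
        show ‖f‖ ^ 2 * (m - (ψ n).re) = _
        ring
    _ ≤ (⟪((n : H →L[ℂ] H) - algebraMap ℂ (H →L[ℂ] H) (ψ n)) f, f⟫_ℂ).re := by
        rw [h2]; linarith [h f]
    _ ≤ ‖⟪((n : H →L[ℂ] H) - algebraMap ℂ (H →L[ℂ] H) (ψ n)) f, f⟫_ℂ‖ := Complex.re_le_norm _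

/-- Characters are contractive. -/
theorem char_norm_le (ψ : A →ₐ[ℂ] ℂ) (n : A) : ‖ψ n‖ ≤ ‖(n : H →L[ℂ] H)‖ := by
  have h1 : ψ n ∈ spectrum ℂ n := AlgHom.apply_mem_spectrum ψ n
  have hnt : Nontrivial (H →L[ℂ] H) := by
    by_contra hn
    rw [not_nontrivial_iff_subsingleton] at hn
    have h0 : (1 : A) = 0 := Subtype.ext (Subsingleton.elim _ _)
    have h01 : ψ 1 = ψ 0 := by rw [h0]
    simp at h01
  rw [StarSubalgebra.spectrum_eq (hS := hA)] at h1
  have := spectrum.norm_le_norm_of_mem h1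
  exact this

/-- The structure of a commutative C*-algebra. -/
@[reducible] noncomputable def comm (hc : ∀ a b : A, a * b = b * a) : CommCStarAlgebra A :=
  { (inferInstance : CStarAlgebra A) with
    mul_comm := hc }

/-- The norm is bounded by the supremum over the characters. -/
theorem norm_le_of_char (hc : ∀ a b : A, a * b = b * a) (n : A) (M : ℝ) (hM : 0 ≤ M)
    (h : ∀ ψ : A →ₐ[ℂ] ℂ, ‖ψ n‖ ≤ M) : ‖(n : H →L[ℂ] H)‖ ≤ M := by
  letI := comm A hc
  have h1 : ‖gelfandTransform ℂ A n‖ = ‖n‖ :=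
    (AddMonoidHomClass.isometry_iff_norm _).1 (gelfandTransform_isometry A) n
  have h2 : ‖gelfandTransform ℂ A n‖ ≤ M := by
    rw [ContinuousMap.norm_le _ hM]
    intro ψ
    exact h (CharacterSpace.toAlgHom ψ)
  calc ‖(n : H →L[ℂ] H)‖ = ‖n‖ := rfl
    _ ≤ M := by rw [← h1]; exact h2

end Basic

section Comm

variable {B : Type u} [CommCStarAlgebra B]

theorem char_star (ψ : B →ₐ[ℂ] ℂ) (n : B) : ψ (star n) = conj (ψ n) := by
  haveI := AlgHomClass.instStarHomClass (F := B →ₐ[ℂ] ℂ) (A := B)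
  exact map_star ψ n

theorem exists_of_fun (k : C(characterSpace ℂ B, ℂ)) :
    ∃ n : B, ∀ ψ : B →ₐ[ℂ] ℂ, ψ n = k (CharacterSpace.equivAlgHom.symm ψ) := by
  refine ⟨(gelfandStarTransform B).symm k, fun ψ => ?_⟩
  have h1 : gelfandStarTransform B ((gelfandStarTransform B).symm k) = k :=
    (gelfandStarTransform B).apply_symm_apply k
  calc ψ ((gelfandStarTransform B).symm k)
      = (CharacterSpace.equivAlgHom.symm ψ) ((gelfandStarTransform B).symm k) := by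
        rw [CharacterSpace.equivAlgHom_symm_coe]
    _ = gelfandStarTransform B ((gelfandStarTransform B).symm k)
          (CharacterSpace.equivAlgHom.symm ψ) := rfl
    _ = _ := by rw [h1]

theorem eq_of_char (n n' : B) (h : ∀ ψ : B →ₐ[ℂ] ℂ, ψ n = ψ n') : n = n' := by
  apply (gelfandStarTransform B).injective
  ext ψ
  exact h (CharacterSpace.toAlgHom ψ)

theorem exists_sqrt (n : B) (hn : star n = n) (h : ∀ ψ : B →ₐ[ℂ] ℂ, 0 ≤ (ψ n).re) :
    ∃ s : B, star s = s ∧ s * s = n := by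
  have hcont : Continuous (fun ψ : characterSpace ℂ B => ((Real.sqrt (ψ n).re : ℝ) : ℂ)) := by
    have h0 : Continuous (fun ψ : characterSpace ℂ B => ψ n) :=
      (gelfandTransform ℂ B n).continuous
    exact Complex.continuous_ofReal.comp (Real.continuous_sqrt.comp (Complex.continuous_re.comp h0))
  obtain ⟨s, hs⟩ := exists_of_fun (B := B) ⟨_, hcont⟩
  have hs' : ∀ ψ : B →ₐ[ℂ] ℂ, ψ s = ((Real.sqrt (ψ n).re : ℝ) : ℂ) := by
    intro ψ
    rw [hs ψ]
    show ((Real.sqrt ((CharacterSpace.equivAlgHom.symm ψ) n).re : ℝ) : ℂ) = _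
    rw [CharacterSpace.equivAlgHom_symm_coe]
  refine ⟨s, eq_of_char _ _ fun ψ => ?_, eq_of_char _ _ fun ψ => ?_⟩
  · rw [char_star, hs', Complex.conj_ofReal]
  · have him : (ψ n).im = 0 := by
      have h2 := char_star ψ n
      rw [hn] at h2
      exact Complex.conj_eq_iff_im.1 h2.symm
    rw [map_mul, hs', ← Complex.ofReal_mul, Real.mul_self_sqrt (h ψ)]
    apply Complex.ext
    · simp
    · simp [him]

theorem exists_proj {S : Type v} {O : Type w} [Fintype O] (t : S → B) (K : O → Set (S → ℂ))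
    (hK : ∀ o, IsClosed (K o)) (hd : ∀ o o', o ≠ o' → Disjoint (K o) (K o'))
    (hcov : ∀ ψ : B →ₐ[ℂ] ℂ, ∃ o, (fun a => ψ (t a)) ∈ K o) :
    ∃ p : O → B, (∀ o, star (p o) = p o) ∧ (∀ o o', o ≠ o' → p o * p o' = 0) ∧
      (∀ o, p o * p o = p o) ∧ ∑ o, p o = 1 ∧
      ∀ o, ∀ ψ : B →ₐ[ℂ] ℂ, ((fun a => ψ (t a)) ∈ K o → ψ (p o) = 1) ∧
        ((fun a => ψ (t a)) ∉ K o → ψ (p o) = 0) := by
  classical
  have hcont : Continuous (fun (ψ : characterSpace ℂ B) (a : S) => ψ (t a)) :=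
    continuous_pi fun a => (gelfandTransform ℂ B (t a)).continuous
  have hZ : ∀ o, IsClosed ((fun (ψ : characterSpace ℂ B) (a : S) => ψ (t a)) ⁻¹' K o) :=
    fun o => (hK o).preimage hcont
  have hZc : ∀ o, IsClopen ((fun (ψ : characterSpace ℂ B) (a : S) => ψ (t a)) ⁻¹' K o) := by
    intro o
    refine ⟨hZ o, ?_⟩
    rw [← isClosed_compl_iff]
    have : ((fun (ψ : characterSpace ℂ B) (a : S) => ψ (t a)) ⁻¹' K o)ᶜ =
        ⋃ o' ∈ {o' : O | o' ≠ o}, (fun (ψ : characterSpace ℂ B) (a : S) => ψ (t a)) ⁻¹' K o' := by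
      ext ψ
      simp only [Set.mem_compl_iff, Set.mem_preimage, Set.mem_iUnion, Set.mem_setOf_eq,
        exists_prop]
      constructor
      · intro h
        obtain ⟨o', ho'⟩ := hcov (CharacterSpace.toAlgHom ψ)
        refine ⟨o', ?_, ho'⟩
        rintro rfl
        exact h ho'
      · rintro ⟨o', hne, ho'⟩ ho
        exact (Set.disjoint_left.1 (hd o' o hne)) ho' ho
    rw [this]
    exact Set.Finite.isClosed_biUnion (Set.toFinite _) fun o' _ => hZ o'
  have hex : ∀ o, ∃ p : B, ∀ ψ : B →ₐ[ℂ] ℂ, ((fun a => ψ (t a)) ∈ K o → ψ p = 1) ∧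
        ((fun a => ψ (t a)) ∉ K o → ψ p = 0) := by
    intro o
    obtain ⟨p, hp⟩ := exists_of_fun (B := B) ((LocallyConstant.charFn ℂ (hZc o)).toContinuousMap)
    refine ⟨p, fun ψ => ?_⟩
    have hmem : (CharacterSpace.equivAlgHom.symm ψ ∈
        (fun (ψ : characterSpace ℂ B) (a : S) => ψ (t a)) ⁻¹' K o) ↔
        (fun a => ψ (t a)) ∈ K o := by
      show (fun a => (CharacterSpace.equivAlgHom.symm ψ) (t a)) ∈ K o ↔ _
      rw [CharacterSpace.equivAlgHom_symm_coe]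
    constructor
    · intro h
      rw [hp ψ]
      exact (LocallyConstant.charFn_eq_one ℂ _ (hZc o)).2 (hmem.2 h)
    · intro h
      rw [hp ψ]
      exact (LocallyConstant.charFn_eq_zero ℂ _ (hZc o)).2 (fun h' => h (hmem.1 h'))
  choose p hp using hex
  have hval : ∀ o, ∀ ψ : B →ₐ[ℂ] ℂ, ψ (p o) = if (fun a => ψ (t a)) ∈ K o then 1 else 0 := by
    intro o ψ
    split_ifs with h
    · exact (hp o ψ).1 h
    · exact (hp o ψ).2 h
  refine ⟨p, fun o => eq_of_char _ _ fun ψ => ?_, fun o o' hne => eq_of_char _ _ fun ψ => ?_,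
    fun o => eq_of_char _ _ fun ψ => ?_, eq_of_char _ _ fun ψ => ?_, hp⟩
  · rw [char_star, hval]
    split_ifs <;> simp
  · rw [map_mul, hval, hval, map_zero]
    split_ifs with h h'
    · exact ((Set.disjoint_left.1 (hd o o' hne)) h h').elim
    all_goals simp
  · rw [map_mul, hval]
    split_ifs <;> simp
  · rw [map_sum, map_one]
    obtain ⟨o, ho⟩ := hcov ψ
    rw [Finset.sum_eq_single o]
    · exact (hp o ψ).1 ho
    · intro o' _ hne
      exact (hp o' ψ).2 (fun h' => (Set.disjoint_left.1 (hd o' o hne)) h' ho)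
    · intro h
      exact (h (Finset.mem_univ o)).elim

end Comm

section Basic2

variable {H : Type u} [NormedAddCommGroup H] [InnerProductSpace ℂ H] [CompleteSpace H]
variable (A : StarSubalgebra ℂ (H →L[ℂ] H)) [hA : IsClosed (A : Set (H →L[ℂ] H))]

/-- A lower bound of the real parts of the values of all characters bounds the form. -/
theorem form_nonneg (hc : ∀ a b : A, a * b = b * a) (n : A) (hn : star n = n)
    (h : ∀ ψ : A →ₐ[ℂ] ℂ, 0 ≤ (ψ n).re) (f : H) :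
    0 ≤ (⟪(n : H →L[ℂ] H) f, f⟫_ℂ).re := by
  letI := comm A hc
  obtain ⟨s, hs, hss⟩ := exists_sqrt (B := A) n hn h
  have h1 : (n : H →L[ℂ] H) = (s : H →L[ℂ] H) * (s : H →L[ℂ] H) := by
    rw [← hss]; rfl
  have h2 : star (s : H →L[ℂ] H) = (s : H →L[ℂ] H) := congrArg Subtype.val hs
  have h3 : (n : H →L[ℂ] H) f = (s : H →L[ℂ] H) ((s : H →L[ℂ] H) f) := by rw [h1]; rfl
  have h4 : ⟪(s : H →L[ℂ] H) ((s : H →L[ℂ] H) f), f⟫_ℂ
      = ⟪(s : H →L[ℂ] H) f, (s : H →L[ℂ] H) f⟫_ℂ := by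
    conv_lhs => rw [← h2]
    rw [ContinuousLinearMap.star_eq_adjoint, ContinuousLinearMap.adjoint_inner_left]
    rw [ContinuousLinearMap.star_eq_adjoint] at h2
    rw [h2]
  rw [h3, h4, inner_self_eq_norm_sq_to_K]
  have : ((‖(s : H →L[ℂ] H) f‖ : ℂ) ^ 2) = ((‖(s : H →L[ℂ] H) f‖ ^ 2 : ℝ) : ℂ) := by
    push_cast; rfl
  simp only [Complex.coe_algebraMap]
  rw [this, Complex.ofReal_re]
  positivity

theorem exists_projA (hc : ∀ a b : A, a * b = b * a) {S : Type v} {O : Type w} [Fintype O]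
    (t : S → A) (K : O → Set (S → ℂ))
    (hK : ∀ o, IsClosed (K o)) (hd : ∀ o o', o ≠ o' → Disjoint (K o) (K o'))
    (hcov : ∀ ψ : A →ₐ[ℂ] ℂ, ∃ o, (fun a => ψ (t a)) ∈ K o) :
    ∃ p : O → A, (∀ o, star (p o) = p o) ∧ (∀ o o', o ≠ o' → p o * p o' = 0) ∧
      (∀ o, p o * p o = p o) ∧ ∑ o, p o = 1 ∧
      ∀ o, ∀ ψ : A →ₐ[ℂ] ℂ, ((fun a => ψ (t a)) ∈ K o → ψ (p o) = 1) ∧
        ((fun a => ψ (t a)) ∉ K o → ψ (p o) = 0) := by
  letI := comm A hc
  exact exists_proj (B := A) t K hK hd hcov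

end Basic2

end Pool.Agent.Run7.h902.ArthurTwo
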