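import Mathlib

/-!
# Ax's lemma for the algebraic closure of `ℚ_p` (helper902, piece A of MP_395897_nt)
-/

set_option autoImplicit false

noncomputable section

namespace Run7.h902

open Polynomial

/-! ### Polynomials with small roots over an ultrametric field -/

section Ultra

variable {L : Type*} [NormedField L] [IsUltrametricDist L]

lemma coeff_small (δ : ℝ) (hδ : 0 ≤ δ) (s : Multiset L) (hs : ∀ x ∈ s, ‖x‖ ≤ δ) :
    ∀ i j : ℕ, i + j = Multiset.card s →
      ‖((s.map (fun a => X - C a)).prod).coeff i‖ ≤ δ ^ j := by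
  induction s using Multiset.induction_on with
  | empty =>
    intro i j h
    simp only [Multiset.card_zero, Nat.add_eq_zero_iff] at h
    rw [h.1, h.2]; simp
  | cons a s ih =>
    have ha : ‖a‖ ≤ δ := hs a (Multiset.mem_cons_self a s)
    have ih' := ih (fun x hx => hs x (Multiset.mem_cons_of_mem hx))
    intro i j h
    rw [Multiset.card_cons] at h
    rw [Multiset.map_cons, Multiset.prod_cons, sub_mul, coeff_sub, coeff_C_mul]
    have hdeg : ((s.map (fun a => X - C a)).prod).natDegree = Multiset.card s :=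
      natDegree_multiset_prod_X_sub_C_eq_card s
    have h2 : ‖a * ((s.map (fun a => X - C a)).prod).coeff i‖ ≤ δ ^ j := by
      rcases j with _ | j
      · have : ((s.map (fun a => X - C a)).prod).coeff i = 0 :=
          coeff_eq_zero_of_natDegree_lt (by omega)
        rw [this]; simp
      · rw [norm_mul, pow_succ, mul_comm]
        exact mul_le_mul (ih' i j (by omega)) ha (norm_nonneg _) (pow_nonneg hδ _)
    have h1 : ‖(X * (s.map (fun a => X - C a)).prod).coeff i‖ ≤ δ ^ j := by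
      rcases i with _ | i
      · simp [pow_nonneg hδ]
      · rw [coeff_X_mul]
        exact ih' i j (by omega)
    rw [sub_eq_add_neg]
    exact (IsUltrametricDist.norm_add_le_max _ _).trans (max_le h1 (by rwa [norm_neg]))

lemma prod_gt {c : ℝ} (hc : 0 ≤ c) (s : Multiset ℝ) (hs : ∀ x ∈ s, c < x) (h0 : s ≠ 0) :
    c ^ (Multiset.card s) < s.prod := by
  induction s using Multiset.induction_on with
  | empty => exact absurd rfl h0
  | cons a s ih =>
    have ha : c < a := hs a (Multiset.mem_cons_self a s)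
    rw [Multiset.card_cons, Multiset.prod_cons, pow_succ, mul_comm]
    by_cases h : s = 0
    · subst h; simpa using ha
    · have h1 := ih (fun x hx => hs x (Multiset.mem_cons_of_mem hx)) h
      exact mul_lt_mul'' ha h1 hc (pow_nonneg hc _)

end Ultra

/-! ### Binomial coefficients -/

lemma choose_unit {p : ℕ} [hp : Fact p.Prime] (v m : ℕ) (hm : ¬ p ∣ m) :
    ¬ p ∣ Nat.choose (p ^ v * m) (p ^ v) := by
  induction v with
  | zero => simpa using hm
  | succ v ih =>
    have h := Choose.choose_modEq_choose_mod_mul_choose_div_nat (p := p)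
      (n := p ^ (v + 1) * m) (k := p ^ (v + 1))
    have e1 : p ^ (v + 1) * m % p = 0 := Nat.mod_eq_zero_of_dvd (by
      rw [pow_succ, mul_assoc, mul_comm, mul_assoc]; exact dvd_mul_right _ _)
    have e2 : p ^ (v + 1) % p = 0 := Nat.mod_eq_zero_of_dvd (by
      rw [pow_succ]; exact dvd_mul_left _ _)
    have e3 : p ^ (v + 1) * m / p = p ^ v * m := by
      rw [pow_succ, mul_assoc, mul_left_comm]
      exact Nat.mul_div_cancel_left _ hp.out.pos
    have e4 : p ^ (v + 1) / p = p ^ v := by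
      rw [pow_succ]; exact Nat.mul_div_cancel _ hp.out.pos
    rw [e1, e2, e3, e4, Nat.choose_self, one_mul] at h
    intro hd
    exact ih ((Nat.ModEq.dvd_iff h (dvd_refl p)).1 hd)

lemma choose_pp {p : ℕ} [hp : Fact p.Prime] (k : ℕ) :
    padicValNat p (Nat.choose (p ^ (k + 1)) (p ^ k)) = 1 := by
  have h := hp.out.emultiplicity_choose_prime_pow_add_emultiplicity (n := k + 1) (k := p ^ k)
    (Nat.pow_le_pow_right hp.out.pos (Nat.le_succ k)) (pow_ne_zero _ hp.out.ne_zero)
  have hc : Nat.choose (p ^ (k + 1)) (p ^ k) ≠ 0 :=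
    (Nat.choose_pos (Nat.pow_le_pow_right hp.out.pos (Nat.le_succ k))).ne'
  rw [← padicValNat_eq_emultiplicity hc, ← padicValNat_eq_emultiplicity
    (pow_ne_zero _ hp.out.ne_zero), padicValNat.prime_pow] at h
  have h' : padicValNat p (Nat.choose (p ^ (k + 1)) (p ^ k)) + k = k + 1 := by exact_mod_cast h
  omega

section Main

variable {p : ℕ} [hp : Fact p.Prime]

lemma norm_nat (n : ℕ) (hn : n ≠ 0) :
    ‖(n : PadicAlgCl p)‖ = (p : ℝ) ^ (-(padicValNat p n : ℝ)) := by
  have h : (n : PadicAlgCl p) = algebraMap ℚ_[p] (PadicAlgCl p) (n : ℚ_[p]) := by simp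
  rw [h]
  have h2 := PadicAlgCl.norm_extends (p := p) (n : ℚ_[p])
  have h3 : ‖algebraMap ℚ_[p] (PadicAlgCl p) (n : ℚ_[p])‖ = ‖(n : ℚ_[p])‖ := h2
  rw [h3, Padic.norm_eq_zpow_neg_valuation (by exact_mod_cast hn), Padic.valuation_natCast,
    ← Real.rpow_intCast, Int.cast_neg, Int.cast_natCast]

lemma choice (n : ℕ) (hn : 2 ≤ n) : ∃ q : ℕ, 0 < q ∧ q < n ∧ ∃ c : ℝ, 1 ≤ c ∧
    ‖(Nat.choose n q : PadicAlgCl p)‖ * c ^ (n - q) = 1 ∧
    ∀ n' : ℕ, 1 ≤ n' → n' ≤ n - q →
      (p : ℝ) ^ ((p : ℝ) * (1 - 1 / n')) * c ≤ (p : ℝ) ^ ((p : ℝ) * (1 - 1 / n)) := by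
  have hp1 : (1 : ℝ) < p := by exact_mod_cast hp.out.one_lt
  have hp0 : (0 : ℝ) < p := by linarith
  obtain ⟨v, m, hm, hnm⟩ := Nat.exists_eq_pow_mul_and_not_dvd (n := n) (by omega) p
    hp.out.ne_one
  by_cases hm1 : m = 1
  · subst hm1
    rw [mul_one] at hnm
    obtain ⟨k, rfl⟩ : ∃ k, v = k + 1 := by
      rcases v with _ | k
      · simp at hnm; omega
      · exact ⟨k, rfl⟩
    have hlt : p ^ k < p ^ (k + 1) := Nat.pow_lt_pow_right hp.out.one_lt (Nat.lt_succ_self k)
    have hk0 : 0 < p ^ k := pow_pos hp.out.pos k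
    subst hnm
    have hsub : ((p ^ (k + 1) - p ^ k : ℕ) : ℝ) = (p : ℝ) ^ (k + 1) - (p : ℝ) ^ k := by
      rw [Nat.cast_sub hlt.le]; push_cast; ring
    have hpk : (0 : ℝ) < (p : ℝ) ^ k := pow_pos hp0 k
    have hsub0 : (0 : ℝ) < (p : ℝ) ^ (k + 1) - (p : ℝ) ^ k := by
      rw [← hsub]; exact_mod_cast Nat.sub_pos_of_lt hlt
    refine ⟨p ^ k, hk0, hlt, (p : ℝ) ^ (1 / ((p : ℝ) ^ (k + 1) - (p : ℝ) ^ k)), ?_, ?_, ?_⟩
    · exact Real.one_le_rpow hp1.le (by positivity)
    · rw [norm_nat _ (Nat.choose_pos hlt.le).ne', choose_pp, ← Real.rpow_natCast,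
        ← Real.rpow_mul hp0.le, hsub, ← Real.rpow_add hp0]
      rw [one_div, inv_mul_cancel₀ hsub0.ne']
      norm_num
    · intro n' h1 h2
      rw [← Real.rpow_add hp0]
      apply Real.rpow_le_rpow_of_exponent_le hp1.le
      have h1' : (1 : ℝ) ≤ n' := by exact_mod_cast h1
      have h2' : (n' : ℝ) ≤ (p : ℝ) ^ (k + 1) - (p : ℝ) ^ k := by
        rw [← hsub]; exact_mod_cast h2
      have e1 : 1 / ((p : ℝ) ^ (k + 1) - (p : ℝ) ^ k) ≤ 1 / (n' : ℝ) :=
        one_div_le_one_div_of_le (by linarith) h2'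
      push_cast
      have e2 : 1 / ((p : ℝ) ^ (k + 1) - (p : ℝ) ^ k) =
          (p : ℝ) * (1 / ((p : ℝ) ^ (k + 1) - (p : ℝ) ^ k) - 1 / (p : ℝ) ^ (k + 1)) := by
        have : (p : ℝ) - 1 ≠ 0 := by linarith
        have e3 : (p : ℝ) ^ (k + 1) - (p : ℝ) ^ k = (p : ℝ) ^ k * (p - 1) := by ring
        rw [e3]
        field_simp
        ring
      have e4 : (p : ℝ) * (1 / ((p : ℝ) ^ (k + 1) - (p : ℝ) ^ k)) ≤ (p : ℝ) * (1 / (n' : ℝ)) :=
        mul_le_mul_of_nonneg_left e1 hp0.le
      nlinarith [e2, e4]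
  · have hm0 : m ≠ 0 := by
      rintro rfl
      exact hm (dvd_zero p)
    have hlt : p ^ v < n := by
      rw [hnm]
      exact lt_mul_of_one_lt_right (pow_pos hp.out.pos v) (by omega)
    refine ⟨p ^ v, pow_pos hp.out.pos v, hlt, 1, le_refl _, ?_, ?_⟩
    · rw [one_pow, mul_one, norm_nat _ (Nat.choose_pos hlt.le).ne',
        padicValNat.eq_zero_of_not_dvd (by rw [hnm]; exact choose_unit v m hm)]
      norm_num
    · intro n' h1 h2
      rw [mul_one]
      apply Real.rpow_le_rpow_of_exponent_le hp1.le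
      have h1' : (1 : ℝ) ≤ n' := by exact_mod_cast h1
      have h2' : (n' : ℝ) ≤ n := by exact_mod_cast (by omega : n' ≤ n)
      have e1 : 1 / (n : ℝ) ≤ 1 / (n' : ℝ) := one_div_le_one_div_of_le (by linarith) h2'
      nlinarith

lemma ax_aux (K : IntermediateField ℚ_[p] (PadicAlgCl p)) : ∀ n : ℕ, ∀ α : PadicAlgCl p,
    (minpoly K α).natDegree = n → ∀ δ : ℝ, 0 ≤ δ →
    (∀ σ ∈ K.fixingSubgroup, ‖σ α - α‖ ≤ δ) →
    ∃ a ∈ K, ‖α - a‖ ≤ (p : ℝ) ^ ((p : ℝ) * (1 - 1 / n)) * δ := by
  intro n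
  induction n using Nat.strong_induction_on with
  | _ n ih =>
  intro α hn δ hδ h
  have hp1 : (1 : ℝ) < p := by exact_mod_cast hp.out.one_lt
  have hp0 : (0 : ℝ) < p := by linarith
  have hint : ∀ x : PadicAlgCl p, IsIntegral K x := fun x =>
    (Algebra.IsAlgebraic.isAlgebraic (R := K) x).isIntegral
  have hpos : 0 < n := hn ▸ minpoly.natDegree_pos (hint α)
  by_cases hn1 : n = 1
  · have hα : α ∈ (algebraMap K (PadicAlgCl p)).range :=
      minpoly.mem_range_of_degree_eq_one K α (by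
        rw [degree_eq_natDegree (minpoly.ne_zero (hint α)), hn, hn1]; rfl)
    obtain ⟨a, rfl⟩ := hα
    exact ⟨_, a.2, by
      change ‖(a : PadicAlgCl p) - (a : PadicAlgCl p)‖ ≤ _
      rw [sub_self, norm_zero]; positivity⟩
  obtain ⟨q, hq0, hqn, c, hc1, hc2, hc3⟩ := choice (p := p) n (by omega)
  set P := minpoly K α with hP
  have hPm : P.Monic := minpoly.monic (hint α)
  set PL := P.map (algebraMap K (PadicAlgCl p)) with hPL
  have hPLm : PL.Monic := hPm.map _
  have hPLd : PL.natDegree = n := by rw [hPL, natDegree_map, hn]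
  have hsp : PL.Splits := IsAlgClosed.splits PL
  have hnorm : Normal K (PadicAlgCl p) := inferInstance
  -- the roots are close to `α`
  have hroots : ∀ x ∈ PL.roots, ‖x - α‖ ≤ δ := by
    intro x hx
    have hx0 : aeval x P = 0 := by
      have := (mem_roots hPLm.ne_zero).1 hx
      rwa [IsRoot.def, hPL, eval_map_algebraMap] at this
    obtain ⟨σ, hσ⟩ := minpoly.exists_algEquiv_of_root' (K := K)
      (Algebra.IsAlgebraic.isAlgebraic α) hx0
    have h1 := h (σ.restrictScalars ℚ_[p]) (by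
      rw [IntermediateField.mem_fixingSubgroup_iff]
      intro y hy
      exact σ.commutes ⟨y, hy⟩)
    have h2 : (σ.restrictScalars ℚ_[p]) α = x := hσ
    rwa [h2] at h1
  -- the Taylor expansion at `α`
  have htay : (taylor α PL) = ((PL.roots.map (fun a => a - α)).map (fun a => X - C a)).prod := by
    conv_lhs => rw [hsp.eq_prod_roots_of_monic hPLm]
    rw [taylor_apply, multiset_prod_comp, Multiset.map_map, Multiset.map_map]
    congr 1
    apply Multiset.map_congr rfl
    intro a _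
    simp only [Function.comp_apply, sub_comp, X_comp, C_comp, map_sub]
    ring
  have hcard : Multiset.card (PL.roots.map (fun a => a - α)) = n := by
    rw [Multiset.card_map, ← hPLd]
    exact (splits_iff_card_roots.1 hsp)
  have hco := coeff_small δ hδ (PL.roots.map (fun a => a - α)) (by
    intro x hx
    obtain ⟨y, hy, rfl⟩ := Multiset.mem_map.1 hx
    exact hroots y hy) q (n - q) (by rw [hcard]; omega)
  rw [← htay, taylor_coeff] at hco
  -- the Hasse derivative over `K`
  set Q := hasseDeriv q P with hQ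
  have hQL : hasseDeriv q PL = Q.map (algebraMap K (PadicAlgCl p)) := by
    ext i
    rw [hasseDeriv_coeff, hPL, coeff_map, coeff_map, hQ, hasseDeriv_coeff, map_mul, map_natCast]
  have hQd : Q.natDegree = n - q := by
    rw [hQ, natDegree_hasseDeriv, hn]
  have hQc : Q.leadingCoeff = (Nat.choose n q : K) := by
    rw [leadingCoeff, hQd, hQ, hasseDeriv_coeff, Nat.sub_add_cancel hqn.le]
    have : P.coeff n = 1 := by rw [← hn]; exact hPm
    rw [this, mul_one]
  have hQ0 : Q ≠ 0 := by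
    rw [← leadingCoeff_ne_zero, hQc]
    exact_mod_cast (Nat.choose_pos hqn.le).ne'
  rw [hQL] at hco
  set QL := Q.map (algebraMap K (PadicAlgCl p)) with hQLd
  have hQs : QL.Splits := IsAlgClosed.splits QL
  have hQLc : QL.leadingCoeff = (Nat.choose n q : PadicAlgCl p) := by
    rw [hQLd, leadingCoeff_map, hQc]; simp
  have hQL0 : QL ≠ 0 := (Polynomial.map_ne_zero_iff (algebraMap K (PadicAlgCl p)).injective).2 hQ0
  rw [hQs.eval_eq_prod_roots, hQLc, norm_mul] at hco
  have hQcard : Multiset.card QL.roots = n - q := by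
    rw [← hQd, splits_iff_card_roots.1 hQs, hQLd, natDegree_map]
  -- a root close to `α`
  obtain ⟨b, hb, hbα⟩ : ∃ b ∈ QL.roots, ‖α - b‖ ≤ c * δ := by
    by_contra hcon
    push Not at hcon
    have h1 := prod_gt (c := c * δ) (by positivity) (QL.roots.map (fun b => ‖α - b‖)) (by
      intro x hx
      obtain ⟨y, hy, rfl⟩ := Multiset.mem_map.1 hx
      exact hcon y hy) (by
      intro h0
      have : Multiset.card (QL.roots.map (fun b => ‖α - b‖)) = 0 := by rw [h0]; rfl
      rw [Multiset.card_map, hQcard] at this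
      omega)
    rw [Multiset.card_map, hQcard] at h1
    have h2 : ‖(Multiset.map (fun x => α - x) QL.roots).prod‖ =
        (QL.roots.map (fun b => ‖α - b‖)).prod := by
      have h4 := map_multiset_prod (normHom (α := PadicAlgCl p)) (QL.roots.map (fun x => α - x))
      rw [Multiset.map_map] at h4
      exact h4
    rw [h2] at hco
    have hcpos : 0 < ‖(Nat.choose n q : PadicAlgCl p)‖ := by
      rw [norm_pos_iff]
      exact_mod_cast (Nat.choose_pos hqn.le).ne'
    have h3 : ‖(Nat.choose n q : PadicAlgCl p)‖ * (c * δ) ^ (n - q) <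
        ‖(Nat.choose n q : PadicAlgCl p)‖ * (QL.roots.map (fun b => ‖α - b‖)).prod :=
      mul_lt_mul_of_pos_left h1 hcpos
    rw [mul_pow, ← mul_assoc, hc2, one_mul] at h3
    linarith
  have hb0 : aeval b Q = 0 := by
    have := (mem_roots hQL0).1 hb
    rwa [IsRoot.def, hQLd, eval_map_algebraMap] at this
  have hbd : (minpoly K b).natDegree ≤ n - q := by
    rw [← hQd]
    exact natDegree_le_of_dvd (minpoly.dvd K b hb0) hQ0
  have hbpos : 0 < (minpoly K b).natDegree := minpoly.natDegree_pos (hint b)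
  obtain ⟨a, haK, ha⟩ := ih (minpoly K b).natDegree (by omega) b rfl (c * δ) (by positivity) (by
    intro σ hσ
    have e : σ b - b = (σ b - σ α) + (σ α - α) + (α - b) := by ring
    have e1 : ‖σ b - σ α‖ ≤ c * δ := by
      rw [← map_sub]
      have : ‖σ (b - α)‖ = ‖b - α‖ :=
        (spectralNorm_eq_of_equiv (K := ℚ_[p]) σ (b - α)).symm
      rw [this, norm_sub_rev]; exact hbα
    have e2 : ‖σ α - α‖ ≤ c * δ := (h σ hσ).trans (le_mul_of_one_le_left hδ hc1)
    rw [e]
    refine (IsUltrametricDist.norm_add_le_max _ _).trans (max_le ?_ hbα)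
    exact (IsUltrametricDist.norm_add_le_max _ _).trans (max_le e1 e2))
  refine ⟨a, haK, ?_⟩
  have hfin : (p : ℝ) ^ ((p : ℝ) * (1 - 1 / ((minpoly K b).natDegree : ℕ))) * (c * δ) ≤
      (p : ℝ) ^ ((p : ℝ) * (1 - 1 / n)) * δ := by
    rw [← mul_assoc]
    exact mul_le_mul_of_nonneg_right (hc3 _ hbpos hbd) hδ
  have hge : c * δ ≤ (p : ℝ) ^ ((p : ℝ) * (1 - 1 / ((minpoly K b).natDegree : ℕ))) * (c * δ) := by
    apply le_mul_of_one_le_left (by positivity)
    apply Real.one_le_rpow hp1.le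
    have : (1 : ℝ) ≤ (minpoly K b).natDegree := by exact_mod_cast hbpos
    have : 1 / ((minpoly K b).natDegree : ℝ) ≤ 1 := by
      rw [div_le_one (by linarith)]; exact this
    exact mul_nonneg hp0.le (by linarith)
  have e : α - a = (α - b) + (b - a) := by ring
  rw [e]
  exact (IsUltrametricDist.norm_add_le_max _ _).trans
    (max_le (hbα.trans (hge.trans hfin)) (ha.trans hfin))

/-- **Ax's lemma** (with the constant `p ^ p`): piece A of the interface of helper547. -/
theorem ax_lemma (K : IntermediateField ℚ_[p] (PadicAlgCl p)) (α : PadicAlgCl p) (δ : ℝ)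
    (h : ∀ σ ∈ K.fixingSubgroup, ‖σ α - α‖ ≤ δ) : ∃ a ∈ K, ‖α - a‖ ≤ (p : ℝ) ^ p * δ := by
  have hp1 : (1 : ℝ) < p := by exact_mod_cast hp.out.one_lt
  have hδ : 0 ≤ δ := (norm_nonneg _).trans (h 1 (one_mem _))
  obtain ⟨a, haK, ha⟩ := ax_aux K _ α rfl δ hδ h
  refine ⟨a, haK, ha.trans ?_⟩
  apply mul_le_mul_of_nonneg_right _ hδ
  rw [← Real.rpow_natCast]
  apply Real.rpow_le_rpow_of_exponent_le hp1.le
  have : (0 : ℝ) ≤ 1 / ((minpoly K α).natDegree : ℝ) := by positivity
  nlinarith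

end Main

end Run7.h902
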