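import Pool.Agent.Run7.h902.CxMain

/-!
# Every integral scheme of finite type has an open subscheme which is a moduli space of configurations
-/

set_option autoImplicit false

open CategoryTheory AlgebraicGeometry MvPolynomial Pool.Agent.Z125.UN Pool.Agent.Y116.UV

open Pool.Agent.Run7.h902

namespace Pool.Agent.Run7.h902.Cb

variable {R : Type} [CommRing R] {sep : Prop}

section

variable {N M : ∀ (A : Type) [CommRing A] [Algebra R A], Prop}

/-- the open subscheme of an integral scheme, from the affine case -/
theorem exists_open_of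
    (h : ∀ (B : Type) [CommRing B] [IsDomain B] [Algebra R B] [Algebra.FiniteType R B],
      ∃ (u : B) (A : Type) (_ : CommRing A) (_ : Algebra R A), u ≠ 0 ∧ IsDomain A ∧ N A ∧ M A ∧
        Nonempty (Localization.Away u ≃ₐ[R] A))
    {X : Sch R} (hX : FT sep X) (hI : IsIntegral X.left) :
    ∃ (A : Type) (_ : CommRing A) (_ : Algebra R A) (_ : Algebra.FiniteType R A)
      (j : aff R A ⟶ X) (Z : Sch R) (i : Z ⟶ X), IsDomain A ∧ N A ∧ M A ∧ FT sep Z ∧
        IsTriple i j := by
  have hne : Nonempty X.left := inferInstance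
  obtain ⟨x⟩ := hne
  obtain ⟨V, hV, hxV, -⟩ := exists_isAffineOpen_mem_and_subset (X := X.left)
    (x := x) (U := ⊤) trivial
  have hVc : IsCompact (V : Set X.left) := hV.isCompact
  have hFT := ft_opn hX V hVc
  have haff : IsAffine (opn X V).left := hV
  obtain ⟨B, _, _, _, ⟨e⟩⟩ := exists_aff (opn X V) hFT.locallyOfFiniteType
  have hVne : Nonempty (opn X V).left := ⟨⟨x, hxV⟩⟩
  have hVI : IsIntegral (opn X V).left :=
    isIntegral_of_isOpenImmersion (opnMap X V).left
  let el : (aff R B).left ≅ (opn X V).left := (Over.forget _).mapIso e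
  have hBI : IsIntegral (aff R B).left := by
    have : Nonempty (aff R B).left := ⟨el.inv hVne.some⟩
    exact isIntegral_of_isOpenImmersion el.hom
  have hB : IsDomain B := (affine_isIntegral_iff (.of B)).mp hBI
  obtain ⟨u, A, _, _, hu, hA, hN, hM, ⟨f⟩⟩ := h B
  have hft : Algebra.FiniteType R (Localization.Away u) :=
    Algebra.FiniteType.trans (S := B) inferInstance inferInstance
  have hftA : Algebra.FiniteType R A := Algebra.FiniteType.equiv hft f
  let j : aff R A ⟶ X := (affIso f).hom ≫ affMap (IsScalarTower.toAlgHom R B (Localization.Away u)) ≫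
    e.hom ≫ opnMap X V
  have hj : IsOpenImmersion j.left := by
    have h1 : IsOpenImmersion (affIso f).hom.left :=
      inferInstanceAs (IsOpenImmersion ((Over.forget _).mapIso (affIso f)).hom)
    have h2 := (triple_away (R := R) u).opened
    have h3 : IsOpenImmersion e.hom.left :=
      inferInstanceAs (IsOpenImmersion ((Over.forget _).mapIso e).hom)
    change IsOpenImmersion ((affIso f).hom.left ≫
      (affMap (IsScalarTower.toAlgHom R B (Localization.Away u))).left ≫ e.hom.left ≫
        (opnMap X V).left)
    infer_instance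
  refine ⟨A, inferInstance, inferInstance, hftA, j, clo X j.left.opensRange,
    cloMap X j.left.opensRange, hA, hN, hM, ft_clo hX, ⟨inferInstance, hj, ?_⟩⟩
  rw [range_cloMap]
  rfl

end

variable {N : ∀ (A : Type) [CommRing A] [Algebra R A], Prop}

/-- **Theorem.** Every integral scheme `X` of finite type over a Noetherian ring whose elements are
quotients of integers has an open subscheme which is isomorphic to an integral moduli space of
configurations with the generic property `N`, containing the frame. -/
theorem exists_open [IsNoetherianRing R] (hR : Cu.IntFrac R) (hN : Cu.Generic R N) {X : Sch R}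
    (hX : FT sep X) (hI : IsIntegral X.left) :
    ∃ (A : Type) (_ : CommRing A) (_ : Algebra R A) (_ : Algebra.FiniteType R A)
      (j : aff R A ⟶ X) (Z : Sch R) (i : Z ⟶ X), IsDomain A ∧ N A ∧ Cx.FrameModuli R A ∧
        FT sep Z ∧ IsTriple i j := by
  refine exists_open_of (M := fun A _ _ => Cx.FrameModuli R A) (fun B _ _ _ _ => ?_) hX hI
  obtain ⟨w, hw, hNw⟩ := hN.exi B
  have hdom : IsDomain (Localization.Away w) :=
    IsLocalization.isDomain_localization (powers_le_nonZeroDivisors_of_noZeroDivisors hw)
  have hft : Algebra.FiniteType R (Localization.Away w) :=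
    Algebra.FiniteType.trans (S := B) inferInstance inferInstance
  have hfp : Algebra.FinitePresentation R (Localization.Away w) :=
    Algebra.FinitePresentation.of_finiteType.mp hft
  obtain ⟨v, β, hβ, τ, D, K, hv, hDM, ⟨e⟩⟩ := Cu.generic_stratum hR (Localization.Away w)
  have hdom2 : IsDomain (Localization.Away v) :=
    IsLocalization.isDomain_localization (powers_le_nonZeroDivisors_of_noZeroDivisors hv)
  have hd : IsDomain (Cf.Conf R τ D K) := e.symm.toMulEquiv.isDomain _
  obtain ⟨u, hu, ⟨e2⟩⟩ := Cu.down (R := R) B w hw v hv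
  exact ⟨u, Cf.Conf R τ D K, inferInstance, inferInstance, hu, hd, hN.alg e (hN.away _ v hNw),
    ⟨β, hβ, τ, _, Cx.isModuli_conf' hDM hd.toNontrivial⟩, ⟨e2.trans e⟩⟩

/-- **Theorem.** The same over an arbitrary Noetherian ring, with fixed points. -/
theorem exists_open_fixed [IsNoetherianRing R] (hN : Cu.Generic R N) {X : Sch R}
    (hX : FT sep X) (hI : IsIntegral X.left) :
    ∃ (A : Type) (_ : CommRing A) (_ : Algebra R A) (_ : Algebra.FiniteType R A)
      (j : aff R A ⟶ X) (Z : Sch R) (i : Z ⟶ X), IsDomain A ∧ N A ∧ Cx.FixedModuli R A ∧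
        FT sep Z ∧ IsTriple i j := by
  refine exists_open_of (M := fun A _ _ => Cx.FixedModuli R A) (fun B _ _ _ _ => ?_) hX hI
  obtain ⟨w, hw, hNw⟩ := hN.exi B
  have hdom : IsDomain (Localization.Away w) :=
    IsLocalization.isDomain_localization (powers_le_nonZeroDivisors_of_noZeroDivisors hw)
  have hft : Algebra.FiniteType R (Localization.Away w) :=
    Algebra.FiniteType.trans (S := B) inferInstance inferInstance
  have hfp : Algebra.FinitePresentation R (Localization.Away w) :=
    Algebra.FinitePresentation.of_finiteType.mp hft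
  obtain ⟨v, α, β, hα, hβ, fix, τ, D, K, hv, hDM, ⟨e⟩⟩ :=
    Cv.generic_stratum (R := R) (Localization.Away w)
  have hdom2 : IsDomain (Localization.Away v) :=
    IsLocalization.isDomain_localization (powers_le_nonZeroDivisors_of_noZeroDivisors hv)
  have hd : IsDomain (Cv.Conf fix τ D K) := e.symm.toMulEquiv.isDomain _
  obtain ⟨u, hu, ⟨e2⟩⟩ := Cu.down (R := R) B w hw v hv
  exact ⟨u, Cv.Conf fix τ D K, inferInstance, inferInstance, hu, hd, hN.alg e (hN.away _ v hNw),
    ⟨α, β, hα, hβ, fix, τ, _, Cx.isModuli_conf hDM hd.toNontrivial⟩, ⟨e2.trans e⟩⟩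

end Pool.Agent.Run7.h902.Cb
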