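import Pool.Agent.Z125.UN.Pc

/-!
# Moduli spaces of point configurations in the projective plane

A configuration consists of the four points `(1:0:0)`, `(0:1:0)`, `(0:0:1)`, `(1:1:1)` of the standard
frame and of further points, which are labelled by a finite type `β`. Every further point lies in a
given Schubert cell of the plane: its coordinate vector is `(1, x, y)`, `(0, 1, y)` or `(0, 0, 1)`. It is
prescribed for every triple of points whether it is collinear or not.
-/

set_option autoImplicit false

open MvPolynomial Pool.Agent.Z125.UN

namespace Pool.Agent.Run7.h902.Cf

/-- the labels of the points: the four points of the frame and the points of `β` -/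
abbrev Pt (β : Type) : Type := Fin 4 ⊕ β

/-- triples of points -/
abbrev Tr (β : Type) : Type := Pt β × Pt β × Pt β

/-- the indices of the free coordinates: the coordinate `r` of the point `k` is free if `τ k < r` -/
abbrev Co {β : Type} (τ : β → Fin 3) : Type := {c : β × Fin 3 // τ c.1 < c.2}

/-- the points `(1:0:0)`, `(0:1:0)`, `(0:0:1)`, `(1:1:1)` -/
def frame (C : Type) [CommRing C] (i : Fin 4) (r : Fin 3) : C :=
  if i.val = 3 ∨ i.val = r.val then 1 else 0

/-- the vector of coordinates of a point: the point `k` of `β` has the coordinates `0` before the
place `τ k` and `1` at the place `τ k`, the other coordinates are variables -/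
noncomputable def vec (R : Type) [CommRing R] {β : Type} (τ : β → Fin 3) :
    Pt β → Fin 3 → MvPolynomial (Co τ) R
  | Sum.inl i, r => frame _ i r
  | Sum.inr k, r => if h : τ k < r then X ⟨(k, r), h⟩ else if r = τ k then 1 else 0

/-- the determinant of three vectors -/
def det3 {C : Type} [CommRing C] (u v w : Fin 3 → C) : C :=
  (Matrix.of ![u, v, w]).det

/-- the determinant of the coordinate vectors of three points; it vanishes if and only if the points
are collinear -/
noncomputable def dt (R : Type) [CommRing R] {β : Type} (τ : β → Fin 3) (t : Tr β) :
    MvPolynomial (Co τ) R :=
  det3 (vec R τ t.1) (vec R τ t.2.1) (vec R τ t.2.2)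

/-- The ring of functions on the scheme of the configurations for which the triples in `D` are collinear
and the triples in `N` are not collinear (the determinants of the triples in `D` vanish, those of the
triples in `N` are invertible). -/
noncomputable abbrev Conf (R : Type) [CommRing R] {β : Type} (τ : β → Fin 3) (D N : Finset (Tr β)) :
    Type :=
  Pc (fun t : D => dt R τ t.1) (∏ t ∈ N, dt R τ t)

end Pool.Agent.Run7.h902.Cf
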