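import Pool.Agent.Run7.h902.CyVan

/-!
# The Tate conjecture for divisors over finite fields and moduli spaces of configurations
-/

set_option autoImplicit false

open CategoryTheory AlgebraicGeometry MvPolynomial Pool.Agent.Y116.UV Pool.Agent.Z125.UN

namespace Pool.Agent.Run7.h902.Cz

open Pool.Agent.Run7.h902

/-- The groups and the numbers in Tate's formula for the order of the pole of the zeta function of a
scheme `X` of finite type over `𝔽_p` of dimension at most `n` at `s = n - 1`, with known properties:

* `rk n X` is the rank of `CH_(n - 1)(X)` minus the rank of `CH_(n - 1)(X, 1)`; for a smooth integral `X`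
  of dimension `n` this is `rank Pic X - rank (O(X)^* / constants)`. It is additive by the localization
  sequence (all ranks are finite);
* `ord n X = - ord_{s = n - 1} ζ(X, s)`; it is additive;
* `low`: both numbers are the number of the irreducible components of dimension `n - 1` if the dimension
  of `X` is less than `n`;
* `Q1 Y`: the Tate conjecture for divisors, in the form of the problem (for all `ℓ`), for the smooth
  projective variety `Y`; `tate`: it is equivalent to the formula (Tate);
* `surfaces`: it is enough to prove it for surfaces (de Jong, Morrow);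
* `compact`: a smooth affine surface is open in a smooth projective surface. -/
structure Divisors (p : ℕ) [Fact p.Prime] where
  rk : ℕ → Sch (ZMod p) → ℤ
  ord : ℕ → Sch (ZMod p) → ℤ
  Q1 : Sch (ZMod p) → Prop
  iso : ∀ (n : ℕ) (X Y : Sch (ZMod p)), FT True X → Nonempty (X ≅ Y) →
    rk n X = rk n Y ∧ ord n X = ord n Y
  empty : ∀ (n : ℕ) (X : Sch (ZMod p)), IsEmpty X.left → rk n X = 0 ∧ ord n X = 0
  add : ∀ (n : ℕ) (Z X U : Sch (ZMod p)) (i : Z ⟶ X) (j : U ⟶ X), FT True X →
    topologicalKrullDim X.left ≤ n → IsTriple i j →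
    rk n X = rk n Z + rk n U ∧ ord n X = ord n Z + ord n U
  low : ∀ (n : ℕ) (X : Sch (ZMod p)), FT True X → topologicalKrullDim X.left < n → rk n X = ord n X
  tate : ∀ (n : ℕ) (Y : Sch (ZMod p)), Cw.SmoothProjective Y → topologicalKrullDim Y.left = n →
    (Q1 Y ↔ rk n Y = ord n Y)
  surfaces : (∀ Y : Sch (ZMod p), Cw.SmoothProjective Y → topologicalKrullDim Y.left = (2 : ℕ) →
    Q1 Y) → ∀ Y : Sch (ZMod p), Cw.SmoothProjective Y → Q1 Y
  compact : ∀ (A : Type) [CommRing A] [Algebra (ZMod p) A] [Algebra.FiniteType (ZMod p) A],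
    IsDomain A → Algebra.Smooth (ZMod p) A → ringKrullDim A = (2 : ℕ) →
      ∃ (Z Y : Sch (ZMod p)) (i : Z ⟶ Y) (j : aff (ZMod p) A ⟶ Y), IsTriple i j ∧
        Cw.SmoothProjective Y ∧ FT True Z ∧ topologicalKrullDim Y.left = (2 : ℕ) ∧
        topologicalKrullDim Z.left < (2 : ℕ)

variable {p : ℕ} [Fact p.Prime] (F : Divisors p)

/-- the formula for schemes of dimension at most `n` -/
def Divisors.Formula (n : ℕ) (X : Sch (ZMod p)) : Prop :=
  topologicalKrullDim X.left ≤ n → F.rk n X = F.ord n X

lemma iso_dim {R : Type} [CommRing R] {X Y : Sch R} (e : Nonempty (X ≅ Y)) {n : ℕ}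
    (hn : topologicalKrullDim Y.left ≤ n) : topologicalKrullDim X.left ≤ n := by
  obtain ⟨e⟩ := e
  let f := (Over.forget _).mapIso e
  exact (Topology.IsInducing.topologicalKrullDim_le
    (Scheme.homeoOfIso f).isInducing).trans hn

lemma closed_dim {R : Type} [CommRing R] {Z X U : Sch R} {i : Z ⟶ X} {j : U ⟶ X}
    (ht : IsTriple i j) {n : ℕ} (hn : topologicalKrullDim X.left ≤ n) :
    topologicalKrullDim Z.left ≤ n := by
  have h1 := (have := ht.closed; i.left.isClosedEmbedding.isInducing)
  exact h1.topologicalKrullDim_le.trans hn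

lemma open_dim {R : Type} [CommRing R] {Z X U : Sch R} {i : Z ⟶ X} {j : U ⟶ X}
    (ht : IsTriple i j) {n : ℕ} (hn : topologicalKrullDim X.left ≤ n) :
    topologicalKrullDim U.left ≤ n := by
  have h1 := (have := ht.opened; j.left.isOpenEmbedding.isInducing)
  exact h1.topologicalKrullDim_le.trans hn

lemma tot_formula (n : ℕ) : Cu.Tot True (F.Formula n) where
  iso := by
    intro X Y hX e hP hd
    have h1 := F.iso n X Y hX e
    rw [← h1.1, ← h1.2]
    exact hP (iso_dim e hd)
  empty X hX := fun _ => by rw [(F.empty n X hX).1, (F.empty n X hX).2]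
  total := by
    intro Z X U i j hX ht hZ hU hd
    have h1 := F.add n Z X U i j hX hd ht
    rw [h1.1, h1.2, hZ (closed_dim ht hd), hU (open_dim ht hd)]

lemma prime_zmod : Cu.IntFrac (ZMod p) := Cu.intFrac_of_surj fun c => ⟨(c.val : ℤ), by simp⟩

/-- **Theorem.** For every prime number `p` the following are equivalent: (1) the Tate conjecture for
divisors for all smooth projective varieties over finite fields of characteristic `p`; (2) Tate's formula
for all schemes of finite type over `𝔽_p` of dimension at most `2`; (3) Tate's formula for the smooth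
integral moduli spaces over `𝔽_p` of configurations, of dimension `2`. -/
theorem tate_iff :
    List.TFAE [
      ∀ Y : Sch (ZMod p), Cw.SmoothProjective Y → F.Q1 Y,
      ∀ X : Sch (ZMod p), FT True X → topologicalKrullDim X.left ≤ (2 : ℕ) → F.rk 2 X = F.ord 2 X,
      ∀ (A : Type) [CommRing A] [Algebra (ZMod p) A] [Algebra.FiniteType (ZMod p) A], IsDomain A →
        Algebra.Smooth (ZMod p) A → Cx.FrameModuli (ZMod p) A → ringKrullDim A = (2 : ℕ) →
          F.rk 2 (aff (ZMod p) A) = F.ord 2 (aff (ZMod p) A)] := by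
  tfae_have 1 → 3 := by
    intro H A _ _ _ hd hN _ hA
    obtain ⟨Z, Y, i, j, ht, hY, hZ, hYd, hZd⟩ := F.compact A hd hN hA
    have h1 := F.add 2 Z Y _ i j hY.ft hYd.le ht
    have h2 := (F.tate 2 Y hY hYd).mp (H Y hY)
    have h3 := F.low 2 Z hZ hZd
    rw [h1.1, h1.2, h3] at h2
    exact add_left_cancel h2
  tfae_have 3 → 2 := by
    intro H X hX hXd
    refine Cx.frame_dim prime_zmod (Cu.generic_field (ZMod p)) (tot_formula F 2) 2
      (fun A _ _ _ hd hN hN2 hM _ => ?_) X hX hXd hXd
    rcases hN2.lt_or_eq with h | h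
    · exact F.low 2 _ (ft_aff True) (by rw [Cw.dim_aff]; exact h)
    · exact H A hd hN hM h
  tfae_have 2 → 1 := fun H => F.surfaces fun Y hY hYd => (F.tate 2 Y hY hYd).mpr (H Y hY.ft hYd.le)
  tfae_finish

end Pool.Agent.Run7.h902.Cz
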