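import Pool.Agent.Run7.h902.CxMain
import Pool.Agent.Run7.h902.CzDiv
import Pool.Agent.Q193.Zeta.Prod

/-!
# Orders of zeta functions of arithmetic schemes and moduli spaces of configurations
-/

set_option autoImplicit false

open CategoryTheory AlgebraicGeometry Pool.Agent.Y116.UV Pool.Agent.Z125.UN Filter Topology

namespace Pool.Agent.Run7.h902.Cs

open Pool.Agent.Run7.h902

/-- The zeta function of `X`: the Euler product `∏ (1 - N(x)^{-s})⁻¹` over the closed points `x`. -/
noncomputable def zeta (X : Scheme.{0}) (s : ℂ) : ℂ :=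
  ∏' x : {x : X // IsClosed ({x} : Set X)}, (1 - ((Nat.card (X.residueField x.1) : ℂ) ^ (-s)))⁻¹

/-- Rational vector spaces `A k X` with known properties of the rational higher Chow groups
`CH_m(X, k) ⊗ ℚ` of cycles of dimension `m + k` on `X × Δ^k` (for a fixed `m`; `k ∈ ℤ`, zero for `k < 0`)
of schemes of finite type over `ℤ`: invariance under isomorphisms, vanishing for the empty scheme, and
the long exact localization sequence. -/
structure Cycles where
  A : ℤ → Sch ℤ → Type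
  grp : ∀ (k : ℤ) (X : Sch ℤ), AddCommGroup (A k X)
  mod : ∀ (k : ℤ) (X : Sch ℤ), Module ℚ (A k X)
  iso : ∀ (k : ℤ) (X Y : Sch ℤ), FT False X → Nonempty (X ≅ Y) → Nonempty (A k X ≃ₗ[ℚ] A k Y)
  empty : ∀ (k : ℤ) (X : Sch ℤ), IsEmpty X.left → Subsingleton (A k X)
  les : ∀ (Z X U : Sch ℤ) (i : Z ⟶ X) (j : U ⟶ X), FT False X → IsTriple i j →
    ∃ (f : ∀ k, A k Z →ₗ[ℚ] A k X) (g : ∀ k, A k X →ₗ[ℚ] A k U) (h : ∀ k, A (k + 1) U →ₗ[ℚ] A k Z),
      ∀ k, Function.Exact (f k) (g k) ∧ Function.Exact (g (k + 1)) (h k) ∧ Function.Exact (h k) (f k)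

attribute [instance] Cycles.grp Cycles.mod

variable (C : Cycles)

/-- All spaces `A k X` are finite-dimensional, and all but finitely many of them are zero. -/
def Cycles.FinRank (X : Sch ℤ) : Prop :=
  (∀ k, Module.Finite ℚ (C.A k X)) ∧ {k | ¬ Subsingleton (C.A k X)}.Finite

/-- The alternating sum `∑ (-1)^k dim A k X`. -/
noncomputable def Cycles.chi (X : Sch ℤ) : ℤ :=
  ∑ᶠ k : ℤ, (k.negOnePow : ℤ) * (Module.finrank ℚ (C.A k X) : ℤ)

/-- **The strong form of the conjecture of Soulé at `s = m` for `X`**: the zeta function of `X` extends to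
a meromorphic function on a half-plane which contains `m`; the spaces `A k X` are finite-dimensional and
almost all zero; and the order at `s = m` is `∑ (-1)^(k + 1) dim A k X`. -/
def Cycles.Soule (m : ℤ) (X : Sch ℤ) : Prop :=
  ∃ (F : ℂ → ℂ) (ε : ℝ), 0 < ε ∧ MeromorphicOn F {s | (m : ℝ) - ε < s.re} ∧
    (∃ σ : ℝ, ∀ s : ℂ, σ < s.re → F s = zeta X.left s) ∧ C.FinRank X ∧
    meromorphicOrderAt F (m : ℂ) = ((-C.chi X : ℤ) : WithTop ℤ)

section rank

variable {C}

lemma fin_supp {X : Sch ℤ} (h : C.FinRank X) :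
    (Function.support fun k : ℤ => (k.negOnePow : ℤ) * (Module.finrank ℚ (C.A k X) : ℤ)).Finite := by
  refine h.2.subset fun k hk hs => hk ?_
  have : Module.finrank ℚ (C.A k X) = 0 := Module.finrank_zero_of_subsingleton
  simp [this]

lemma sub_mid {P Q S : Type} [AddCommGroup P] [AddCommGroup Q] [AddCommGroup S] [Module ℚ P]
    [Module ℚ Q] [Module ℚ S] {f : P →ₗ[ℚ] Q} {g : Q →ₗ[ℚ] S} (h : Function.Exact f g)
    (hP : Subsingleton P) (hS : Subsingleton S) : Subsingleton Q := by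
  refine ⟨fun x y => ?_⟩
  have h0 : ∀ x : Q, x = 0 := fun x => by
    obtain ⟨z, hz⟩ := (h x).mp (Subsingleton.elim _ _)
    rw [← hz, Subsingleton.elim z 0, map_zero]
  rw [h0 x, h0 y]

lemma fin_mid {P Q S : Type} [AddCommGroup P] [AddCommGroup Q] [AddCommGroup S] [Module ℚ P]
    [Module ℚ Q] [Module ℚ S] {f : P →ₗ[ℚ] Q} {g : Q →ₗ[ℚ] S} (h : Function.Exact f g)
    (hP : Module.Finite ℚ P) (hS : Module.Finite ℚ S) : Module.Finite ℚ Q := by
  have hP' : IsNoetherian ℚ P := isNoetherian_of_isNoetherianRing_of_finite ℚ P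
  have hS' : IsNoetherian ℚ S := isNoetherian_of_isNoetherianRing_of_finite ℚ S
  have h1 : LinearMap.range f = LinearMap.ker g := by
    ext x
    exact (h x).symm
  have h2 : IsNoetherian ℚ Q := isNoetherian_of_range_eq_ker f g h1
  infer_instance

lemma dim_mid {P Q S : Type} [AddCommGroup P] [AddCommGroup Q] [AddCommGroup S] [Module ℚ P]
    [Module ℚ Q] [Module ℚ S] {f : P →ₗ[ℚ] Q} {g : Q →ₗ[ℚ] S} (h : Function.Exact f g)
    (hQ : Module.Finite ℚ Q) : (Module.finrank ℚ Q : ℤ) =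
      Module.finrank ℚ (LinearMap.range g) + Module.finrank ℚ (LinearMap.range f) := by
  have h1 := LinearMap.finrank_range_add_finrank_ker g
  have h2 : LinearMap.ker g = LinearMap.range f := by
    ext x
    exact h x
  rw [h2] at h1
  exact_mod_cast h1.symm

variable {Z X U : Sch ℤ} {f : ∀ k, C.A k Z →ₗ[ℚ] C.A k X} {g : ∀ k, C.A k X →ₗ[ℚ] C.A k U}
  {h : ∀ k, C.A (k + 1) U →ₗ[ℚ] C.A k Z}

lemma fin_total (hl : ∀ k, Function.Exact (f k) (g k) ∧ Function.Exact (g (k + 1)) (h k) ∧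
    Function.Exact (h k) (f k)) (hZ : C.FinRank Z) (hU : C.FinRank U) : C.FinRank X := by
  refine ⟨fun k => fin_mid (hl k).1 (hZ.1 k) (hU.1 k), (hZ.2.union hU.2).subset fun k hk => ?_⟩
  by_contra h2
  rw [Set.mem_union, not_or] at h2
  exact hk (sub_mid (hl k).1 (not_not.mp h2.1) (not_not.mp h2.2))

/-- The Euler characteristic is additive in long exact sequences. -/
theorem chi_les (hl : ∀ k, Function.Exact (f k) (g k) ∧ Function.Exact (g (k + 1)) (h k) ∧
    Function.Exact (h k) (f k)) (hZ : C.FinRank Z) (hX : C.FinRank X) (hU : C.FinRank U) :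
    C.chi X = C.chi Z + C.chi U := by
  let η : ℤ → ℤ := fun k => Module.finrank ℚ (LinearMap.range (h k))
  let θ : ℤ → ℤ := fun k => (k.negOnePow : ℤ) * η k
  have hθ : (Function.support θ).Finite := by
    refine hZ.2.subset fun k hk hs => hk ?_
    have h1 : LinearMap.range (h k) = ⊥ := by
      rw [LinearMap.range_eq_bot]
      ext x
      exact Subsingleton.elim _ _
    change (k.negOnePow : ℤ) * (Module.finrank ℚ (LinearMap.range (h k)) : ℤ) = 0
    rw [h1, finrank_bot]
    simp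
  have hθ1 : (Function.support fun k => θ (k - 1)).Finite :=
    hθ.preimage (Equiv.injective (Equiv.subRight (1 : ℤ))).injOn
  have h0 : ∀ k : ℤ, (k.negOnePow : ℤ) * (Module.finrank ℚ (C.A k X) : ℤ) =
      ((k.negOnePow : ℤ) * (Module.finrank ℚ (C.A k Z) : ℤ) +
        (k.negOnePow : ℤ) * (Module.finrank ℚ (C.A k U) : ℤ)) + (θ (k - 1) - θ k) := by
    intro k
    obtain ⟨l, rfl⟩ : ∃ l, k = l + 1 := ⟨k - 1, by ring⟩
    have e1 := dim_mid (hl (l + 1)).1 (hX.1 _)
    have e2 := dim_mid (hl l).2.1 (hU.1 _)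
    have e3 := dim_mid (hl (l + 1)).2.2 (hZ.1 _)
    have e4 : ((l + 1).negOnePow : ℤ) = -(l.negOnePow : ℤ) := by
      rw [Int.negOnePow_succ]
      simp
    simp only [θ, η, add_sub_cancel_right]
    rw [e1, e2, e3, e4]
    ring
  have hz : ∑ᶠ k, (θ (k - 1) - θ k) = 0 := by
    have h1 : ∑ᶠ k, θ (k - 1) = ∑ᶠ k, θ k := finsum_comp_equiv (Equiv.subRight (1 : ℤ)) (f := θ)
    rw [finsum_sub_distrib hθ1 hθ, h1, sub_self]
  rw [Cycles.chi, Cycles.chi, Cycles.chi, finsum_congr h0, finsum_add_distrib, hz, add_zero,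
    finsum_add_distrib (fin_supp hZ) (fin_supp hU)]
  · exact ((fin_supp hZ).union (fin_supp hU)).subset (Function.support_add _ _)
  · exact (hθ1.union hθ).subset (Function.support_sub _ _)

lemma fin_iso {X Y : Sch ℤ} (e : ∀ k, Nonempty (C.A k X ≃ₗ[ℚ] C.A k Y)) (h : C.FinRank X) :
    C.FinRank Y ∧ C.chi Y = C.chi X := by
  refine ⟨⟨fun k => ?_, h.2.subset fun k hk hs => hk ?_⟩, ?_⟩
  · obtain ⟨e⟩ := e k
    have := h.1 k
    exact Module.Finite.equiv e
  · obtain ⟨e⟩ := e k
    exact e.symm.toEquiv.subsingleton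
  · rw [Cycles.chi, Cycles.chi]
    refine finsum_congr fun k => ?_
    obtain ⟨e⟩ := e k
    rw [e.finrank_eq]

lemma zeta_empty (X : Scheme.{0}) (h : IsEmpty X) (s : ℂ) : zeta X s = 1 := by
  have h1 : IsEmpty {x : X // IsClosed ({x} : Set X)} := ⟨fun x => h.elim x.1⟩
  rw [zeta]
  exact tprod_empty

end rank

/-- The strong form of the conjecture of Soulé passes from a closed part and the open complement to the
scheme. -/
theorem tot_soule (m : ℤ) : Cu.Tot False (C.Soule m) where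
  iso := by
    rintro X Y hX e ⟨F, ε, hε, hF, ⟨σ, hσ⟩, hr, ho⟩
    obtain ⟨τ, hτ⟩ := Pool.Agent.Q193.Zeta.zeta_iso hX e
    obtain ⟨h1, h2⟩ := fin_iso (fun k => C.iso k X Y hX e) hr
    refine ⟨F, ε, hε, hF, ⟨max σ τ, fun s hs => ?_⟩, h1, by rw [h2]; exact ho⟩
    rw [hσ s (lt_of_le_of_lt (le_max_left _ _) hs)]
    exact hτ s (lt_of_le_of_lt (le_max_right _ _) hs)
  empty X hX := by
    have h0 : ∀ k, Subsingleton (C.A k X) := fun k => C.empty k X hX
    refine ⟨fun _ => 1, 1, one_pos, fun z _ => MeromorphicAt.const 1 z, ⟨0, fun s _ => ?_⟩,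
      ⟨fun k => inferInstance, ?_⟩, ?_⟩
    · rw [zeta_empty _ hX]
    · have h1 : {k | ¬ Subsingleton (C.A k X)} = ∅ := by
        ext k
        simp [h0 k]
      rw [h1]
      exact Set.finite_empty
    · have h1 : C.chi X = 0 := by
        rw [Cycles.chi]
        refine (finsum_congr fun k => ?_).trans finsum_zero
        have := h0 k
        rw [Module.finrank_zero_of_subsingleton]
        simp
      rw [h1, meromorphicOrderAt_const]
      simp
  total := by
    rintro Z X U i j hX ht ⟨F, ε, hε, hF, ⟨σ, hσ⟩, hr, ho⟩ ⟨G, ε', hε', hG, ⟨σ', hσ'⟩, hr', ho'⟩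
    obtain ⟨τ, h⟩ := Pool.Agent.Q193.Zeta.zeta_triple hX
      (Pool.Agent.Q193.Zeta.ft_closed i hX ht.closed) (Pool.Agent.Q193.Zeta.ft_open j hX ht.opened) ht
    obtain ⟨f, g, h', hl⟩ := C.les Z X U i j hX ht
    have h1 := fin_total hl hr hr'
    have hsub : {s : ℂ | (m : ℝ) - min ε ε' < s.re} ⊆ {s | (m : ℝ) - ε < s.re} := fun s hs =>
      lt_of_le_of_lt (by linarith [min_le_left ε ε'] : (m : ℝ) - ε ≤ m - min ε ε') hs
    have hsub' : {s : ℂ | (m : ℝ) - min ε ε' < s.re} ⊆ {s | (m : ℝ) - ε' < s.re} := fun s hs =>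
      lt_of_le_of_lt (by linarith [min_le_right ε ε'] : (m : ℝ) - ε' ≤ m - min ε ε') hs
    have hm : ∀ δ : ℝ, 0 < δ → (m : ℂ) ∈ {s : ℂ | (m : ℝ) - δ < s.re} := fun δ hδ => by
      rw [Set.mem_ofPred_eq, Complex.intCast_re]
      linarith
    refine ⟨F * G, min ε ε', lt_min hε hε', (fun z hz => (hF z (hsub hz)).mul (hG z (hsub' hz))),
      ⟨max (max σ σ') τ, fun s hs => ?_⟩, h1, ?_⟩
    · have a1 : σ < s.re := lt_of_le_of_lt ((le_max_left _ _).trans (le_max_left _ _)) hs
      have a2 : σ' < s.re := lt_of_le_of_lt ((le_max_right _ _).trans (le_max_left _ _)) hs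
      have a3 := (h s (lt_of_le_of_lt (le_max_right _ _) hs)).1
      rw [Pi.mul_apply, hσ s a1, hσ' s a2]
      exact a3.symm
    · rw [meromorphicOrderAt_mul (hF _ (hm ε hε)) (hG _ (hm ε' hε')), ho, ho',
        chi_les hl hr h1 hr', ← WithTop.coe_add]
      congr 1
      ring

/-- **Theorem.** For all `d` the strong form of the conjecture of Soulé at `s = m` for all schemes of finite
type over `ℤ` of dimension at most `d` is equivalent to the strong form for the integral moduli spaces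
over `ℤ` of configurations, of dimension at most `d`, which are smooth over `ℤ` or over a prime
field. -/
theorem soule_dim (m : ℤ) (d : ℕ) :
    (∀ X : Sch ℤ, FT False X → topologicalKrullDim X.left ≤ d → C.Soule m X) ↔
    ∀ (A : Type) [CommRing A] [Algebra ℤ A] [Algebra.FiniteType ℤ A], IsDomain A →
      Cu.SmoothZ A → Cx.FrameModuli ℤ A → ringKrullDim A ≤ d → C.Soule m (aff ℤ A) := by
  constructor
  · intro H A _ _ _ _ _ _ hA
    exact H _ (ft_aff False) (by
      have h1 : topologicalKrullDim (aff ℤ A).left = ringKrullDim A :=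
        PrimeSpectrum.topologicalKrullDim_eq_ringKrullDim A
      rw [h1]
      exact hA)
  · intro H X hX hXd
    exact Cx.frame_dim (Cu.intFrac_of_surj fun c => ⟨c, rfl⟩) Cu.generic_int (tot_soule C m) d
      (fun A _ _ _ hd hN hN2 hM => H A hd hN hM hN2) X hX hXd

end Pool.Agent.Run7.h902.Cs
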