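import Pool.Agent.Run7.h902.CwBS
import Pool.Agent.Z125.UN.MotUni

/-!
# Schur-finiteness of motives and moduli spaces of configurations
-/

set_option autoImplicit false

open CategoryTheory MonoidalCategory AlgebraicGeometry Pool.Agent.TH137.DG Pool.Agent.Y116.UV
  Pool.Agent.Z125.UN

namespace Pool.Agent.Run7.h902.Cs

open Pool.Agent.Run7.h902

lemma ft_empty {R : Type} [CommRing R] (X : Sch R) (h : IsEmpty X.left) : FT True X where
  locallyOfFiniteType := inferInstance
  quasiCompact := by
    have : CompactSpace X.left := inferInstance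
    exact (quasiCompact_iff_compactSpace X.hom).mpr this
  separated _ := inferInstance

universe v u

variable {k : Type} [Field k] {C : Type u} [Category.{v} C] [MonoidalCategory C]
  [SymmetricCategory C] [Preadditive C] [Linear ℚ C] [Limits.HasZeroObject C] [HasShift C ℤ]
  [∀ n : ℤ, (shiftFunctor C n).Additive] [Pretriangulated C] {D : Motives k C}

lemma tot_schur (hD : IsMotives D) : Cu.Tot True fun X : Sch k => IsSchurFinite (D.Mc X) where
  iso := (bnd_sf hD).iso
  empty X hX := by
    refine (hD.duality X (ft_empty X hX) inferInstance).mp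
      (hD.curves X (ft_empty X hX) inferInstance ?_)
    have h1 : topologicalKrullDim X.left = ⊥ := by
      have : IsEmpty (TopologicalSpace.IrreducibleCloseds X.left) := ⟨fun s =>
        hX.elim s.isIrreducible.nonempty.some⟩
      exact Order.krullDim_eq_bot
    rw [h1]
    exact bot_le
  total := (bnd_sf hD).total

/-- **Theorem.** Schur-finiteness in dimension at most `n` over a perfect field is equivalent to
Schur-finiteness for the smooth integral moduli spaces of configurations of dimension at most `n`. -/
theorem schur_dim [PerfectField k] (hD : IsMotives D) (n : ℕ) :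
    (∀ X : Sch k, FT True X → Smooth X.hom → topologicalKrullDim X.left ≤ n →
      IsSchurFinite (D.M X)) ↔ Cw.ForSmoothDim k n fun X => IsSchurFinite (D.M X) := by
  constructor
  · intro H A _ _ _ hd hN hn _
    refine H _ (ft_aff True) (Cw.smooth_aff hN) ?_
    have h1 : topologicalKrullDim (aff k A).left = ringKrullDim A :=
      PrimeSpectrum.topologicalKrullDim_eq_ringKrullDim A
    rw [h1]
    exact hn
  · intro H X hX hs hn
    rw [hD.duality X hX hs]
    exact Cx.fixed_dim (Cu.generic_field k) (tot_schur hD) n (fun A _ _ _ hd hN hN2 hM =>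
      (hD.duality _ (ft_aff True) (Cw.smooth_aff hN)).mp (H A hd hN hN2 hM)) X hX hn

/-- **Theorem.** The same over a prime field, without fixed points. -/
theorem schur_prime [PerfectField k] (hk : Cu.IntFrac k) (hD : IsMotives D) (n : ℕ) :
    (∀ X : Sch k, FT True X → Smooth X.hom → topologicalKrullDim X.left ≤ n →
      IsSchurFinite (D.M X)) ↔
    ∀ (A : Type) [CommRing A] [Algebra k A] [Algebra.FiniteType k A], IsDomain A →
      Algebra.Smooth k A → ringKrullDim A ≤ n → Cx.FrameModuli k A →
        IsSchurFinite (D.M (aff k A)) := by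
  constructor
  · intro H A _ _ _ hd hN hn _
    refine H _ (ft_aff True) (Cw.smooth_aff hN) ?_
    have h1 : topologicalKrullDim (aff k A).left = ringKrullDim A :=
      PrimeSpectrum.topologicalKrullDim_eq_ringKrullDim A
    rw [h1]
    exact hn
  · intro H X hX hs hn
    rw [hD.duality X hX hs]
    exact Cx.frame_dim hk (Cu.generic_field k) (tot_schur hD) n (fun A _ _ _ hd hN hN2 hM =>
      (hD.duality _ (ft_aff True) (Cw.smooth_aff hN)).mp (H A hd hN hN2 hM)) X hX hn

end Pool.Agent.Run7.h902.Cs
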