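import Pool.Agent.Run7.h902.CtEt
import Pool.Agent.Run7.h902.CsSchur
import Pool.Agent.R904.TR.Defs
import Pool.Agent.R904.CU.Regular
import Pool.Agent.R703.SM.GLS

/-!
# Bass's finite generation conjecture and moduli spaces of configurations
-/

set_option autoImplicit false

open CategoryTheory AlgebraicGeometry Pool.Agent.Y116.UV Pool.Agent.Z125.UN Pool.Agent.R904.CU
  Pool.Agent.R904.TR

namespace Pool.Agent.Run7.h902.Ct

open Pool.Agent.Run7.h902

/-- smooth schemes over `ℤ` or over a prime field are regular -/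
lemma regular_smoothZ (A : Type) [CommRing A] [Algebra ℤ A] (h : Cu.SmoothZ A) :
    IsRegularScheme (aff ℤ A).left := by
  have h1 : IsRegularRing A := by
    rcases h with h | ⟨p, hp, hA, h⟩
    · exact Pool.Agent.R703.SM.regular_of_smooth ℤ A
    · have : Fact p.Prime := ⟨hp⟩
      exact Pool.Agent.R703.SM.regular_of_smooth (ZMod p) A
  exact isRegularScheme_spec A

lemma ft_toInt' {B : Type} [CommRing B] (i : Algebra ℤ B) (h : @Algebra.FiniteType ℤ B _ _ i) :
    @Algebra.FiniteType ℤ B _ _ (Ring.toIntAlgebra B) := by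
  have e := Subsingleton.elim i (Ring.toIntAlgebra B)
  rw [← e]
  exact h

variable (K : KThy)

lemma kfg_iff {P : Type} [AddCommGroup P] : AddGroup.FG P ↔ Module.Finite ℤ P :=
  Module.Finite.iff_addGroup_fg.symm

lemma tot_k (n : ℕ) : Cu.Tot False fun X : Sch ℤ => AddGroup.FG (K.G n X.left) where
  iso := by
    intro X Y hX e h
    obtain ⟨e⟩ := e
    obtain ⟨e⟩ := K.iso n X.left Y.left ((Over.forget _).mapIso e)
    rw [kfg_iff] at h ⊢
    exact fg_equiv e h
  empty X hX := by
    refine K.curves n X.left X.hom ⟨(Cs.ft_empty X hX).1, (Cs.ft_empty X hX).2⟩ ?_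
    have h1 : topologicalKrullDim X.left = ⊥ := by
      have : IsEmpty (TopologicalSpace.IrreducibleCloseds X.left) := ⟨fun s =>
        hX.elim s.isIrreducible.nonempty.some⟩
      exact Order.krullDim_eq_bot
    rw [h1]
    exact bot_le
  total := by
    intro Z X U i j hX ht hZ hU
    obtain ⟨a, b, d, h1, -⟩ := K.localization X.left Z.left U.left X.hom i.left j.left
      ⟨hX.1, hX.2⟩ ht.closed ht.opened ht.compl
    rw [kfg_iff] at hZ hU ⊢
    exact fg_mid (h1 n) hZ hU

/-- **Theorem.** In each degree `n` and dimension at most `d`: finite generation of `K'_n` for regular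
schemes, for all schemes, and for the moduli spaces of configurations. -/
theorem bass_dim (n d : ℕ) :
    List.TFAE [
      ∀ (X : Scheme.{0}) (f : X ⟶ Spec (.of ℤ)), FinType ℤ X f → IsRegularScheme X →
        topologicalKrullDim X ≤ d → AddGroup.FG (K.G n X),
      ∀ (X : Scheme.{0}) (f : X ⟶ Spec (.of ℤ)), FinType ℤ X f →
        topologicalKrullDim X ≤ d → AddGroup.FG (K.G n X),
      ∀ (A : Type) [CommRing A] [Algebra ℤ A] [Algebra.FiniteType ℤ A], IsDomain A →
        Cu.SmoothZ A → Cx.FrameModuli ℤ A → ringKrullDim A ≤ d →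
          AddGroup.FG (K.G n (Spec (.of A)))] := by
  tfae_have 2 → 1 := fun H X f hf _ => H X f hf
  tfae_have 1 → 3 := by
    intro H A _ _ _ _ hN _ hA
    have h2 : FT False (aff ℤ A) := ft_aff False
    refine H (aff ℤ A).left (aff ℤ A).hom ⟨h2.1, h2.2⟩ (regular_smoothZ A hN) ?_
    have h1 : topologicalKrullDim (aff ℤ A).left = ringKrullDim A :=
      PrimeSpectrum.topologicalKrullDim_eq_ringKrullDim A
    rw [h1]
    exact hA
  tfae_have 3 → 2 := by
    intro H X f hf hd
    exact Cx.frame_dim intFrac_int Cu.generic_int (tot_k K n) d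
      (fun A _ _ _ hd hN hN2 hM => H A hd hN hM hN2) (Over.mk f) ⟨hf.1, hf.2, fun h => h.elim⟩ hd
  tfae_finish

/-- **Theorem.** Bass's conjecture is equivalent to finite generation of `K'_n` of the moduli spaces of
configurations for the `n` in any infinite set. -/
theorem bass_all (S : Set ℕ) (hS : S.Infinite) :
    K.Bass ↔
    ∀ n ∈ S, ∀ (A : Type) [CommRing A] [Algebra ℤ A] [Algebra.FiniteType ℤ A], IsDomain A →
      Cu.SmoothZ A → Cx.FrameModuli ℤ A → AddGroup.FG (K.G n (Spec (.of A))) := by
  constructor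
  · intro H n _ A _ _ _ _ hN _
    have h2 : FT False (aff ℤ A) := ft_aff False
    exact H (aff ℤ A).left (aff ℤ A).hom ⟨h2.1, h2.2⟩ (regular_smoothZ A hN) n
  · intro H
    have h1 : ∀ n ∈ S, ∀ X : Sch ℤ, FT False X → AddGroup.FG (K.G n X.left) := fun n hn X hX =>
      Cx.frame_all intFrac_int Cu.generic_int (tot_k K n)
        (fun A _ _ _ hd hN hM => H n hn A hd hN hM) X hX
    have h2 : ∀ (m n : ℕ), n + m ∈ S → ∀ (B : Type) [CommRing B] [Algebra.FiniteType ℤ B],
        AddGroup.FG (K.G n (Spec (.of B))) := by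
      intro m
      induction m with
      | zero =>
        intro n hn B _ _
        exact h1 n hn (aff ℤ B) (ft_aff False)
      | succ m ih =>
        intro n hn B _ _
        obtain ⟨e⟩ := K.laurent n B
        have hft : @Algebra.FiniteType ℤ (LaurentPolynomial B) _ _ AddMonoidAlgebra.algebra :=
          Algebra.FiniteType.trans (S := B) inferInstance inferInstance
        have h3 : AddGroup.FG (K.G (n + 1) (laurS B)) :=
          @ih (n + 1) (by rwa [add_assoc, add_comm 1]) (LaurentPolynomial B) _ (ft_toInt' _ hft)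
        rw [kfg_iff] at h3 ⊢
        have h4 := fg_equiv e h3
        exact Module.Finite.of_surjective
          (AddMonoidHom.snd (K.G (n + 1) (sp B)) (K.G n (sp B))).toIntLinearMap
          (fun x => ⟨(0, x), rfl⟩)
    intro X f hf _ n
    refine of_affine' (P := fun X : Sch ℤ => AddGroup.FG (K.G n X.left)) (tot_k K n).iso
      (tot_k K n).total (fun B _ hB1 hB2 => ?_) (Over.mk f) ⟨hf.1, hf.2, fun h => h.elim⟩
    obtain ⟨l, hl, hnl⟩ := hS.exists_gt n
    exact @h2 (l - n) n (by rwa [Nat.add_sub_cancel' hnl.le]) B _ (ft_toInt' hB1 hB2)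

end Pool.Agent.Run7.h902.Ct
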