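import Pool.Agent.Run7.h902.CsOrd

/-!
# Finite generation of étale motivic cohomology and moduli spaces of configurations
-/

set_option autoImplicit false

open CategoryTheory AlgebraicGeometry Pool.Agent.Y116.UV Pool.Agent.Z125.UN

namespace Pool.Agent.Run7.h902.Ct

open Pool.Agent.Run7.h902

/-- Groups `A n i X` with known properties of `H^i(X_et, ℤ^c(n))`, `n ≤ 0`, for separated schemes `X` of
finite type over `ℤ`: invariance under isomorphisms, vanishing for the empty scheme; exactness of
`A n i Z → A n i X → A n i U` for a closed subscheme `Z` and its complement `U` (localization);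
`A n i X` is a direct factor of `A n (i - 1) (X × 𝔾_m)`, and `A n i (X × 𝔸^1) ≅ A (n - 1) (i + 2) X`
(homotopy invariance), for affine `X`. -/
structure EtaleMotivic where
  A : ℤ → ℤ → Sch ℤ → Type
  grp : ∀ (n i : ℤ) (X : Sch ℤ), AddCommGroup (A n i X)
  iso : ∀ (n i : ℤ) (X Y : Sch ℤ), n ≤ 0 → FT True X → Nonempty (X ≅ Y) →
    Nonempty (A n i X ≃+ A n i Y)
  empty : ∀ (n i : ℤ) (X : Sch ℤ), IsEmpty X.left → Subsingleton (A n i X)
  localization : ∀ (n i : ℤ) (Z X U : Sch ℤ) (a : Z ⟶ X) (b : U ⟶ X), n ≤ 0 → FT True X →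
    IsTriple a b → ∃ (f : A n i Z →+ A n i X) (g : A n i X →+ A n i U), Function.Exact f g
  torus : ∀ (n i : ℤ) (B : Type) [CommRing B] [Algebra ℤ B] [Algebra.FiniteType ℤ B], n ≤ 0 →
    ∃ (s : A n i (aff ℤ B) →+ A n (i - 1) (aff ℤ (LaurentPolynomial B)))
      (r : A n (i - 1) (aff ℤ (LaurentPolynomial B)) →+ A n i (aff ℤ B)), r.comp s = AddMonoidHom.id _
  line : ∀ (n i : ℤ) (B : Type) [CommRing B] [Algebra ℤ B] [Algebra.FiniteType ℤ B], n ≤ 0 →
    Nonempty (A n i (aff ℤ (Polynomial B)) ≃+ A (n - 1) (i + 2) (aff ℤ B))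

attribute [instance] EtaleMotivic.grp

variable (E : EtaleMotivic)

/-- `H^i(X_et, ℤ^c(n))` is finitely generated. -/
def EtaleMotivic.FG (n i : ℤ) (X : Sch ℤ) : Prop := Module.Finite ℤ (E.A n i X)

lemma fg_equiv {P Q : Type} [AddCommGroup P] [AddCommGroup Q] (e : P ≃+ Q)
    (h : Module.Finite ℤ P) : Module.Finite ℤ Q :=
  Module.Finite.equiv e.toIntLinearEquiv

lemma fg_retract {P Q : Type} [AddCommGroup P] [AddCommGroup Q] (s : P →+ Q) (r : Q →+ P)
    (h : r.comp s = AddMonoidHom.id _) (hQ : Module.Finite ℤ Q) : Module.Finite ℤ P := by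
  refine Module.Finite.of_surjective r.toIntLinearMap fun x => ⟨s x, ?_⟩
  exact DFunLike.congr_fun h x

lemma fg_mid {P Q S : Type} [AddCommGroup P] [AddCommGroup Q] [AddCommGroup S] {f : P →+ Q}
    {g : Q →+ S} (h : Function.Exact f g) (hP : Module.Finite ℤ P) (hS : Module.Finite ℤ S) :
    Module.Finite ℤ Q := by
  have hP' : IsNoetherian ℤ P := isNoetherian_of_isNoetherianRing_of_finite ℤ P
  have hS' : IsNoetherian ℤ S := isNoetherian_of_isNoetherianRing_of_finite ℤ S
  have h1 : LinearMap.range f.toIntLinearMap = LinearMap.ker g.toIntLinearMap := by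
    ext x
    exact (h x).symm
  have h2 : IsNoetherian ℤ Q := isNoetherian_of_range_eq_ker _ _ h1
  infer_instance

lemma tot_fg {n : ℤ} (hn : n ≤ 0) (i : ℤ) : Cu.Tot True (E.FG n i) where
  iso := by
    intro X Y hX e h
    obtain ⟨e⟩ := E.iso n i X Y hn hX e
    exact fg_equiv e h
  empty X hX := by
    have := E.empty n i X hX
    change Module.Finite ℤ (E.A n i X)
    infer_instance
  total := by
    intro Z X U a b hX ht hZ hU
    obtain ⟨f, g, hfg⟩ := E.localization n i Z X U a b hn hX ht
    exact fg_mid hfg hZ hU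

lemma intFrac_int : Cu.IntFrac ℤ := Cu.intFrac_of_surj fun c => ⟨c, rfl⟩

/-- **Theorem.** In a fixed weight `n ≤ 0`, degree `i` and dimension at most `d`, finite generation for all
schemes is equivalent to finite generation for the moduli spaces of configurations. -/
theorem fg_dim {n : ℤ} (hn : n ≤ 0) (i : ℤ) (d : ℕ) :
    (∀ X : Sch ℤ, FT True X → topologicalKrullDim X.left ≤ d → E.FG n i X) ↔
    ∀ (A : Type) [CommRing A] [Algebra ℤ A] [Algebra.FiniteType ℤ A], IsDomain A →
      Cu.SmoothZ A → Cx.FrameModuli ℤ A → ringKrullDim A ≤ d → E.FG n i (aff ℤ A) := by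
  constructor
  · intro H A _ _ _ _ _ _ hA
    exact H _ (ft_aff True) (by
      have h1 : topologicalKrullDim (aff ℤ A).left = ringKrullDim A :=
        PrimeSpectrum.topologicalKrullDim_eq_ringKrullDim A
      rw [h1]
      exact hA)
  · intro H X hX hXd
    exact Cx.frame_dim intFrac_int Cu.generic_int (tot_fg E hn i) d
      (fun A _ _ _ hd hN hN2 hM => H A hd hN hM hN2) X hX hXd

lemma of_aff {n : ℤ} (hn : n ≤ 0) (i : ℤ)
    (h : ∀ (B : Type) [CommRing B] [Algebra ℤ B] [Algebra.FiniteType ℤ B], E.FG n i (aff ℤ B))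
    (X : Sch ℤ) (hX : FT True X) : E.FG n i X :=
  of_affine' (tot_fg E hn i).iso (tot_fg E hn i).total h X hX

/-- **Theorem.** Finite generation in all negative weights and all degrees follows from the weight `-1` and
a set of degrees which is not bounded below, for the moduli spaces of configurations. -/
theorem fg_all (D : Set ℤ) (hD : ∀ N : ℤ, ∃ i ∈ D, i ≤ N) :
    (∀ n : ℤ, n < 0 → ∀ (i : ℤ) (X : Sch ℤ), FT True X → E.FG n i X) ↔
    ∀ i ∈ D, ∀ (A : Type) [CommRing A] [Algebra ℤ A] [Algebra.FiniteType ℤ A], IsDomain A →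
      Cu.SmoothZ A → Cx.FrameModuli ℤ A → E.FG (-1) i (aff ℤ A) := by
  constructor
  · intro H i _ A _ _ _ _ _ _
    exact H (-1) (by norm_num) i _ (ft_aff True)
  · intro H
    have h1 : ∀ i ∈ D, ∀ X : Sch ℤ, FT True X → E.FG (-1) i X := fun i hi X hX =>
      Cx.frame_all intFrac_int Cu.generic_int (tot_fg E (by norm_num) i)
        (fun A _ _ _ hd hN hM => H i hi A hd hN hM) X hX
    have h2 : ∀ (m : ℕ) (i : ℤ), i - m ∈ D → ∀ (B : Type) [CommRing B] [Algebra ℤ B]
        [Algebra.FiniteType ℤ B], E.FG (-1) i (aff ℤ B) := by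
      intro m
      induction m with
      | zero =>
        intro i hi B _ _ _
        exact h1 i (by simpa using hi) _ (ft_aff True)
      | succ m ih =>
        intro i hi B _ _ _
        obtain ⟨s, r, hsr⟩ := E.torus (-1) i B (by norm_num)
        have hft : Algebra.FiniteType ℤ (LaurentPolynomial B) :=
          Algebra.FiniteType.trans (S := B) inferInstance inferInstance
        exact fg_retract s r hsr (ih (i - 1) (by push_cast at hi; rwa [sub_sub, add_comm 1]) _)
    have h3 : ∀ (m : ℕ) (i : ℤ) (X : Sch ℤ), FT True X → E.FG (-1 - m) i X := by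
      intro m
      induction m with
      | zero =>
        intro i X hX
        refine of_aff E (by simp) i (fun B _ _ _ => ?_) X hX
        obtain ⟨j, hj, hji⟩ := hD i
        obtain ⟨l, hl⟩ : ∃ l : ℕ, i - l = j := ⟨(i - j).toNat, by omega⟩
        have := h2 l i (by rw [hl]; exact hj) B
        simpa using this
      | succ m ih =>
        intro i X hX
        refine of_aff E (by push_cast; omega) i (fun B _ _ _ => ?_) X hX
        obtain ⟨e⟩ := E.line (-1 - m) (i - 2) B (by omega)
        have hft : Algebra.FiniteType ℤ (Polynomial B) :=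
          Algebra.FiniteType.trans (S := B) inferInstance inferInstance
        have h4 := fg_equiv e (ih (i - 2) _ (ft_aff True))
        have e1 : (-1 - m - 1 : ℤ) = -1 - ((m + 1 : ℕ) : ℤ) := by push_cast; ring
        have e2 : i - 2 + 2 = i := by ring
        rw [e1, e2] at h4
        exact h4
    intro n hn i X hX
    obtain ⟨m, rfl⟩ : ∃ m : ℕ, n = -1 - m := ⟨(-1 - n).toNat, by omega⟩
    exact h3 m i X hX

end Pool.Agent.Run7.h902.Ct
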