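import Mathlib

/-!
# Every finitely presented algebra is the universal ring of a finite partial ring

`R` is a commutative ring all of whose elements are quotients of integers (`ℤ`, `ℤ / n`, `ℚ`, localizations
of these rings). A finite subset of an algebra `A` with the partial addition and multiplication and with
`0` and `1` is a finite partial ring; every `A` of finite presentation is determined by one of them.
-/

set_option autoImplicit false

open MvPolynomial

namespace Pool.Agent.Run7.h902.Cu

/-- Every element of the ring is a quotient of two integers. -/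
def IntFrac (R : Type) [CommRing R] : Prop :=
  ∀ c : R, ∃ m n : ℤ, IsUnit (n : R) ∧ (n : R) * c = m

lemma intFrac_of_surj {R : Type} [CommRing R] (h : Function.Surjective (Int.cast : ℤ → R)) :
    IntFrac R := by
  intro c
  obtain ⟨m, hm⟩ := h c
  exact ⟨m, 1, by simp, by simp [hm]⟩

lemma intFrac_rat : IntFrac ℚ := by
  intro c
  refine ⟨c.num, c.den, ?_, ?_⟩
  · simp
  · have h := Rat.num_div_den c
    have h2 : (c.den : ℚ) ≠ 0 := by exact_mod_cast c.den_ne_zero
    have h3 : (c.den : ℚ) * c = c.num := by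
      rw [mul_comm, Rat.mul_den_eq_num]
    exact_mod_cast h3

/-- The function `f` respects zero, one, and all sums and products of the elements of the finite
family `ι` which are again in the family. -/
structure Cmp {A C V : Type} [CommRing A] [CommRing C] (ι : V → A) (f : V → C) : Prop where
  zero : ∀ v, ι v = 0 → f v = 0
  one : ∀ v, ι v = 1 → f v = 1
  add : ∀ u v w, ι w = ι u + ι v → f w = f u + f v
  mul : ∀ u v w, ι w = ι u * ι v → f w = f u * f v

/-- The algebra `A` is determined by the partial ring of the family `ι`. -/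
def Univ (R : Type) [CommRing R] {A V : Type} [CommRing A] [Algebra R A] (ι : V → A) : Prop :=
  ∀ (C : Type) [CommRing C] [Algebra R C] (f : V → C), Cmp ι f →
    ∃! F : A →ₐ[R] C, ∀ v, F (ι v) = f v

section

variable {R : Type} [CommRing R] {A : Type} [CommRing A] [Algebra R A]

/-- compatibility on a subset -/
structure On {C : Type} [CommRing C] (S : Finset A) (f : A → C) : Prop where
  zero : (0 : A) ∈ S → f 0 = 0
  one : (1 : A) ∈ S → f 1 = 1
  add : ∀ u ∈ S, ∀ v ∈ S, u + v ∈ S → f (u + v) = f u + f v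
  mul : ∀ u ∈ S, ∀ v ∈ S, u * v ∈ S → f (u * v) = f u * f v

lemma On.mono {C : Type} [CommRing C] {S T : Finset A} {f : A → C} (h : S ⊆ T) (hf : On T f) :
    On S f where
  zero h0 := hf.zero (h h0)
  one h0 := hf.one (h h0)
  add u hu v hv huv := hf.add u (h hu) v (h hv) (h huv)
  mul u hu v hv huv := hf.mul u (h hu) v (h hv) (h huv)

variable {n : ℕ} (x : Fin n → A)

/-- The value of the polynomial `p` is in `S` and is respected by compatible functions. -/
def Rl (R : Type) [CommRing R] [Algebra R A] (x : Fin n → A) (S : Finset A)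
    (p : MvPolynomial (Fin n) R) : Prop :=
  aeval x p ∈ S ∧ ∀ (C : Type) [CommRing C] [Algebra R C] (f : A → C), On S f →
    f (aeval x p) = aeval (fun i => f (x i)) p

/-- all elements of `S` are values of polynomials which are respected by compatible functions -/
def Ex (R : Type) [CommRing R] [Algebra R A] (x : Fin n → A) (S : Finset A) : Prop :=
  ∀ s ∈ S, ∃ p : MvPolynomial (Fin n) R, aeval x p = s ∧ Rl R x S p

variable {x}

lemma Rl.mono {S T : Finset A} {p : MvPolynomial (Fin n) R} (h : S ⊆ T) (hp : Rl R x S p) :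
    Rl R x T p :=
  ⟨h hp.1, fun C _ _ f hf => hp.2 C f (hf.mono h)⟩

lemma ex_union [DecidableEq A] {S T : Finset A} (hS : Ex R x S) (hT : Ex R x T) :
    Ex R x (S ∪ T) := by
  intro s hs
  rcases Finset.mem_union.mp hs with h | h
  · obtain ⟨p, hp, hr⟩ := hS s h
    exact ⟨p, hp, hr.mono Finset.subset_union_left⟩
  · obtain ⟨p, hp, hr⟩ := hT s h
    exact ⟨p, hp, hr.mono Finset.subset_union_right⟩

lemma ex_insert [DecidableEq A] {S : Finset A} (hS : Ex R x S) (p : MvPolynomial (Fin n) R)
    (h : Rl R x (insert (aeval x p) S) p) : Ex R x (insert (aeval x p) S) := by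
  intro s hs
  rcases Finset.mem_insert.mp hs with rfl | hs
  · exact ⟨p, rfl, h⟩
  · obtain ⟨q, hq, hr⟩ := hS s hs
    exact ⟨q, hq, hr.mono (Finset.subset_insert _ _)⟩

/-- `p` can be realized -/
def Ok (R : Type) [CommRing R] [Algebra R A] (x : Fin n → A) (p : MvPolynomial (Fin n) R) : Prop :=
  ∃ S : Finset A, Ex R x S ∧ Rl R x S p

lemma ok_zero : Ok R x 0 := by
  classical
  have h : Rl R x {0} 0 := by
    refine ⟨by simp, fun C _ _ f hf => ?_⟩
    rw [map_zero, map_zero]
    exact hf.zero (Finset.mem_singleton_self _)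
  refine ⟨{0}, ?_, h⟩
  intro s hs
  rw [Finset.mem_singleton] at hs
  exact ⟨0, by rw [hs, map_zero], h⟩

lemma ok_one : Ok R x 1 := by
  classical
  have h : Rl R x {1} 1 := by
    refine ⟨by simp, fun C _ _ f hf => ?_⟩
    rw [map_one, map_one]
    exact hf.one (Finset.mem_singleton_self _)
  refine ⟨{1}, ?_, h⟩
  intro s hs
  rw [Finset.mem_singleton] at hs
  exact ⟨1, by rw [hs, map_one], h⟩

lemma ok_X (i : Fin n) : Ok R x (X i) := by
  classical
  have h : Rl R x {x i} (X i) := by
    refine ⟨by simp, fun C _ _ f hf => ?_⟩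
    rw [aeval_X, aeval_X]
  refine ⟨{x i}, ?_, h⟩
  intro s hs
  rw [Finset.mem_singleton] at hs
  exact ⟨X i, by rw [hs, aeval_X], h⟩

lemma ok_add {p q : MvPolynomial (Fin n) R} (hp : Ok R x p) (hq : Ok R x q) : Ok R x (p + q) := by
  classical
  obtain ⟨S, hS, h1⟩ := hp
  obtain ⟨T, hT, h2⟩ := hq
  have h : Rl R x (insert (aeval x (p + q)) (S ∪ T)) (p + q) := by
    refine ⟨Finset.mem_insert_self _ _, fun C _ _ f hf => ?_⟩
    have hs : S ⊆ insert (aeval x (p + q)) (S ∪ T) :=
      Finset.subset_union_left.trans (Finset.subset_insert _ _)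
    have ht : T ⊆ insert (aeval x (p + q)) (S ∪ T) :=
      Finset.subset_union_right.trans (Finset.subset_insert _ _)
    have h3 := h1.2 C f (hf.mono hs)
    have h4 := h2.2 C f (hf.mono ht)
    rw [map_add, map_add, ← h3, ← h4]
    refine hf.add _ (hs h1.1) _ (ht h2.1) ?_
    rw [map_add]
    exact Finset.mem_insert_self _ _
  exact ⟨_, ex_insert (ex_union hS hT) _ h, h⟩

lemma ok_mul {p q : MvPolynomial (Fin n) R} (hp : Ok R x p) (hq : Ok R x q) : Ok R x (p * q) := by
  classical
  obtain ⟨S, hS, h1⟩ := hp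
  obtain ⟨T, hT, h2⟩ := hq
  have h : Rl R x (insert (aeval x (p * q)) (S ∪ T)) (p * q) := by
    refine ⟨Finset.mem_insert_self _ _, fun C _ _ f hf => ?_⟩
    have hs : S ⊆ insert (aeval x (p * q)) (S ∪ T) :=
      Finset.subset_union_left.trans (Finset.subset_insert _ _)
    have ht : T ⊆ insert (aeval x (p * q)) (S ∪ T) :=
      Finset.subset_union_right.trans (Finset.subset_insert _ _)
    have h3 := h1.2 C f (hf.mono hs)
    have h4 := h2.2 C f (hf.mono ht)
    rw [map_mul, map_mul, ← h3, ← h4]
    refine hf.mul _ (hs h1.1) _ (ht h2.1) ?_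
    rw [map_mul]
    exact Finset.mem_insert_self _ _
  exact ⟨_, ex_insert (ex_union hS hT) _ h, h⟩

lemma ok_neg {p : MvPolynomial (Fin n) R} (hp : Ok R x p) : Ok R x (-p) := by
  classical
  obtain ⟨S, hS, h1⟩ := hp
  obtain ⟨T, hT, h2⟩ := ok_zero (R := R) (x := x)
  have h : Rl R x (insert (aeval x (-p)) (S ∪ T)) (-p) := by
    refine ⟨Finset.mem_insert_self _ _, fun C _ _ f hf => ?_⟩
    have hs : S ⊆ insert (aeval x (-p)) (S ∪ T) :=
      Finset.subset_union_left.trans (Finset.subset_insert _ _)
    have ht : T ⊆ insert (aeval x (-p)) (S ∪ T) :=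
      Finset.subset_union_right.trans (Finset.subset_insert _ _)
    have h3 := h1.2 C f (hf.mono hs)
    have h4 := h2.2 C f (hf.mono ht)
    have h5 := hf.add _ (hs h1.1) _ (Finset.mem_insert_self _ _) (by
      rw [← map_add, add_neg_cancel]
      exact ht h2.1)
    rw [← map_add, add_neg_cancel, h4, map_zero, h3] at h5
    rw [map_neg (aeval (R := R) fun i => f (x i))]
    exact (neg_eq_of_add_eq_zero_right h5.symm).symm
  exact ⟨_, ex_insert (ex_union hS hT) _ h, h⟩

/-- the subring of the polynomials that can be realized -/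
def okRing (R : Type) [CommRing R] [Algebra R A] (x : Fin n → A) :
    Subring (MvPolynomial (Fin n) R) where
  carrier := {p | Ok R x p}
  mul_mem' := ok_mul
  one_mem' := ok_one
  add_mem' := ok_add
  zero_mem' := ok_zero
  neg_mem' := ok_neg

lemma ok_C (hR : IntFrac R) (c : R) : Ok R x (C c) := by
  classical
  obtain ⟨m, k, hk, hc⟩ := hR c
  obtain ⟨S, hS, h1⟩ : Ok R x (C ((m : ℤ) : R)) := by
    have : ((m : ℤ) : MvPolynomial (Fin n) R) ∈ okRing R x := intCast_mem _ m
    rw [← map_intCast (C : R →+* MvPolynomial (Fin n) R)] at this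
    exact this
  obtain ⟨T, hT, h2⟩ : Ok R x (C ((k : ℤ) : R)) := by
    have : ((k : ℤ) : MvPolynomial (Fin n) R) ∈ okRing R x := intCast_mem _ k
    rw [← map_intCast (C : R →+* MvPolynomial (Fin n) R)] at this
    exact this
  have h : Rl R x (insert (aeval x (C c)) (S ∪ T)) (C c) := by
    refine ⟨Finset.mem_insert_self _ _, fun D _ _ f hf => ?_⟩
    have hs : S ⊆ insert (aeval x (C c : MvPolynomial (Fin n) R)) (S ∪ T) :=
      Finset.subset_union_left.trans (Finset.subset_insert _ _)
    have ht : T ⊆ insert (aeval x (C c : MvPolynomial (Fin n) R)) (S ∪ T) :=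
      Finset.subset_union_right.trans (Finset.subset_insert _ _)
    have h3 := h1.2 D f (hf.mono hs)
    have h4 := h2.2 D f (hf.mono ht)
    have e : aeval x (C ((k : ℤ) : R)) * aeval x (C c) = aeval x (C ((m : ℤ) : R)) := by
      rw [← map_mul, ← C_mul, hc]
    have h5 := hf.mul _ (ht h2.1) _ (Finset.mem_insert_self _ _) (by rw [e]; exact hs h1.1)
    rw [e, h3, h4, aeval_C, aeval_C, ← hc, map_mul] at h5
    rw [aeval_C (R := R) (σ := Fin n) (fun i => f (x i)) c]
    exact ((hk.map (algebraMap R D)).mul_left_cancel h5).symm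
  exact ⟨_, ex_insert (ex_union hS hT) _ h, h⟩

lemma ok_all (hR : IntFrac R) (p : MvPolynomial (Fin n) R) : Ok R x p := by
  induction p using MvPolynomial.induction_on with
  | C c => exact ok_C hR c
  | add p q hp hq => exact ok_add hp hq
  | mul_X p i hp => exact ok_mul hp (ok_X i)

/-- Every algebra of finite presentation is the universal algebra of a finite partial ring. -/
theorem exists_univ (hR : IntFrac R) (A : Type) [CommRing A] [Algebra R A]
    [h : Algebra.FinitePresentation R A] :
    ∃ (V : Type) (_ : Finite V) (ι : V → A), Univ R ι := by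
  classical
  obtain ⟨n, φ, hs, G, hG⟩ := h
  let x : Fin n → A := fun i => φ (X i)
  have hφ : aeval x = φ := by
    apply MvPolynomial.algHom_ext
    intro i
    rw [aeval_X]
  choose S hS hr using fun p => ok_all (x := x) hR p
  let T : Finset A := (insert 0 (Finset.univ.image X ∪ G)).biUnion S
  have hsub : ∀ p ∈ insert 0 (Finset.univ.image X ∪ G), S p ⊆ T := fun p hp =>
    Finset.subset_biUnion_of_mem S hp
  have hT : Ex R x T := by
    intro s hs
    obtain ⟨p, hp, hsp⟩ := Finset.mem_biUnion.mp hs
    obtain ⟨q, hq, h2⟩ := hS p s hsp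
    exact ⟨q, hq, h2.mono (hsub p hp)⟩
  have hgood : ∀ p ∈ insert 0 (Finset.univ.image X ∪ G), Rl R x T p := fun p hp =>
    (hr p).mono (hsub p hp)
  have h0 : (0 : A) ∈ T := by
    have := (hgood 0 (Finset.mem_insert_self _ _)).1
    rwa [map_zero] at this
  refine ⟨T, inferInstance, Subtype.val, fun C _ _ f hf => ?_⟩
  let g : A → C := fun a => if h : a ∈ T then f ⟨a, h⟩ else 0
  have hg : ∀ a (h : a ∈ T), g a = f ⟨a, h⟩ := fun a h => dif_pos h
  have hon : On T g := by
    constructor
    · intro h
      rw [hg _ h]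
      exact hf.zero _ rfl
    · intro h
      rw [hg _ h]
      exact hf.one _ rfl
    · intro u hu v hv huv
      rw [hg _ hu, hg _ hv, hg _ huv]
      exact hf.add ⟨u, hu⟩ ⟨v, hv⟩ ⟨u + v, huv⟩ rfl
    · intro u hu v hv huv
      rw [hg _ hu, hg _ hv, hg _ huv]
      exact hf.mul ⟨u, hu⟩ ⟨v, hv⟩ ⟨u * v, huv⟩ rfl
  let ψ : MvPolynomial (Fin n) R →ₐ[R] C := aeval fun i => g (x i)
  have hker : ∀ p, φ p = 0 → ψ p = 0 := by
    intro p hp
    have h1 : p ∈ Ideal.span (G : Set (MvPolynomial (Fin n) R)) := by
      rw [hG]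
      exact hp
    have h2 : Ideal.span (G : Set (MvPolynomial (Fin n) R)) ≤ RingHom.ker ψ := by
      rw [Ideal.span_le]
      intro q hq
      have h3 := (hgood q (Finset.mem_insert_of_mem (Finset.mem_union_right _ hq))).2 C g hon
      have h4 : aeval x q = 0 := by
        rw [hφ]
        have : q ∈ RingHom.ker φ.toRingHom := by
          rw [← hG]
          exact Ideal.subset_span hq
        exact this
      rw [h4, hon.zero h0] at h3
      exact h3.symm
    exact h2 h1
  let F : A →ₐ[R] C := (Ideal.Quotient.liftₐ (RingHom.ker φ) ψ fun p hp => hker p hp).comp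
    (Ideal.quotientKerAlgEquivOfSurjective hs).symm.toAlgHom
  have hF : ∀ p, F (φ p) = ψ p := by
    intro p
    have h1 : (Ideal.quotientKerAlgEquivOfSurjective hs).symm (φ p) =
        Ideal.Quotient.mk (RingHom.ker φ) p := by
      rw [AlgEquiv.symm_apply_eq]
      rfl
    change Ideal.Quotient.liftₐ (RingHom.ker φ) ψ (fun p hp => hker p hp)
      ((Ideal.quotientKerAlgEquivOfSurjective hs).symm (φ p)) = _
    rw [h1]
    rfl
  have hx : ∀ i, x i ∈ T := by
    intro i
    have := (hgood (X i) (Finset.mem_insert_of_mem (Finset.mem_union_left _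
      (Finset.mem_image_of_mem _ (Finset.mem_univ i))))).1
    rwa [aeval_X] at this
  refine ⟨F, fun v => ?_, fun F' hF' => ?_⟩
  · obtain ⟨q, hq, h2⟩ := hT v.1 v.2
    have h3 := h2.2 C g hon
    rw [hq, hg _ v.2] at h3
    rw [h3, ← hF, ← hφ, hq]
  · have h1 : F'.comp φ = F.comp φ := by
      apply MvPolynomial.algHom_ext
      intro i
      rw [AlgHom.comp_apply, AlgHom.comp_apply, hF]
      have h2 := hF' ⟨x i, hx i⟩
      change F' (x i) = ψ (X i)
      rw [h2, aeval_X, hg _ (hx i)]
    ext a
    obtain ⟨p, rfl⟩ := hs a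
    exact DFunLike.congr_fun h1 p

end

end Pool.Agent.Run7.h902.Cu
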