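import Pool.Agent.Run7.h902.CfDefs
import Pool.Agent.Run7.h902.CuRing

/-!
# Every finitely presented algebra is the ring of a space of configurations of points in the plane

A quantity `v` is represented by the points `(1, v, 0)`, `(1, 0, v)`, `(0, 1, v)`, `(1, 1, v)`,
`(1, 0, -v)`; products and sums are collinearity conditions.
-/

set_option autoImplicit false
set_option linter.unusedSectionVars false

open MvPolynomial Pool.Agent.Z125.UN Pool.Agent.Run7.h902.Cf

namespace Pool.Agent.Run7.h902.Cu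

section matrices

variable {R : Type} [CommRing R] {β : Type} {τ : β → Fin 3} {C : Type} [CommRing C]

/-- matrices whose rows have the normal form of the cell -/
def Norm (τ : β → Fin 3) (y : β → Fin 3 → C) : Prop :=
  ∀ k r, ¬ τ k < r → y k r = if r = τ k then 1 else 0

/-- with the frame -/
def full (y : β → Fin 3 → C) : Pt β → Fin 3 → C
  | Sum.inl i => frame C i
  | Sum.inr k => y k

/-- the values of the free coordinates -/
def asg (τ : β → Fin 3) (y : β → Fin 3 → C) : Co τ → C := fun s => y s.1.1 s.1.2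

lemma aeval_vec [Algebra R C] {y : β → Fin 3 → C} (hy : Norm τ y) (p : Pt β) (r : Fin 3) :
    aeval (asg τ y) (vec R τ p r) = full y p r := by
  rcases p with i | k
  · simp only [vec, full, frame]
    split_ifs
    · rw [map_one]
    · rw [map_zero]
  · by_cases h : τ k < r
    · simp only [vec, full, dif_pos h, aeval_X, asg]
    · simp only [vec, full, dif_neg h, hy k r h]
      split_ifs
      · rw [map_one]
      · rw [map_zero]

lemma det3_apply (u v w : Fin 3 → C) : det3 u v w = u 0 * v 1 * w 2 - u 0 * v 2 * w 1 -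
    u 1 * v 0 * w 2 + u 1 * v 2 * w 0 + u 2 * v 0 * w 1 - u 2 * v 1 * w 0 := by
  simp [det3, Matrix.det_fin_three]

lemma aeval_dt [Algebra R C] {y : β → Fin 3 → C} (hy : Norm τ y) (t : Tr β) :
    aeval (asg τ y) (dt R τ t) = det3 (full y t.1) (full y t.2.1) (full y t.2.2) := by
  rw [dt, det3_apply, det3_apply]
  simp only [map_add, map_sub, map_mul, aeval_vec hy]

end matrices

/-- the labels of the points -/
abbrev Lb (V : Type) : Type := Fin 5 ⊕ (V × Fin 5)

/-- the cells -/
def cell (V : Type) : Lb V → Fin 3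
  | Sum.inl i => ![0, 0, 1, 0, 1] i
  | Sum.inr (_, f) => ![0, 0, 1, 0, 0] f

section tar

variable {V : Type} {C : Type} [CommRing C]

/-- the auxiliary points -/
def tarAux (C : Type) [CommRing C] : Fin 5 → Fin 3 → C :=
  ![![1, 1, 0], ![1, 0, 1], ![0, 1, 1], ![1, -1, 0], ![0, 1, -1]]

/-- the points of a quantity -/
def tarVar (z : C) : Fin 5 → Fin 3 → C :=
  ![![1, z, 0], ![1, 0, z], ![0, 1, z], ![1, 1, z], ![1, 0, -z]]

/-- the matrix of the values of the quantities -/
def tar (val : V → C) : Lb V → Fin 3 → C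
  | Sum.inl i => tarAux C i
  | Sum.inr (v, f) => tarVar (val v) f

lemma norm_tar (val : V → C) : Norm (cell V) (tar val) := by
  rintro (i | ⟨v, f⟩) r h
  · fin_cases i <;> fin_cases r <;> simp_all [cell, tar, tarAux]
  · fin_cases f <;> fin_cases r <;> simp_all [cell, tar, tarVar]

lemma map_tar {C' : Type} [CommRing C'] (φ : C →+* C') (v : V → C) (k : Lb V) (r : Fin 3) :
    φ (tar v k r) = tar (fun u => φ (v u)) k r := by
  rcases k with i | ⟨u, f⟩
  · fin_cases i <;> fin_cases r <;> simp [tar, tarAux]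
  · fin_cases f <;> fin_cases r <;> simp [tar, tarVar]

end tar

section rel

variable {V : Type}

/-- the frame -/
def fe (i : Fin 4) : Pt (Lb V) := Sum.inl i

/-- the auxiliary points -/
def fa (i : Fin 5) : Pt (Lb V) := Sum.inr (Sum.inl i)

/-- the points of the quantities -/
def fw (v : V) (f : Fin 5) : Pt (Lb V) := Sum.inr (Sum.inr (v, f))

/-- the relations of the auxiliary points -/
def auxRel : Fin 8 → Tr (Lb V) :=
  ![(fe 0, fe 1, fa 0), (fe 2, fe 3, fa 0), (fe 0, fe 2, fa 1), (fe 1, fe 3, fa 1),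
    (fe 0, fe 3, fa 2), (fe 0, fe 1, fa 3), (fa 1, fa 2, fa 3), (fa 0, fa 1, fa 4)]

/-- the relations of the points of a quantity -/
def varRel (v : V) : Fin 8 → Tr (Lb V) :=
  ![(fe 0, fe 1, fw v 0), (fe 0, fe 2, fw v 1), (fe 2, fe 3, fw v 3), (fe 0, fe 2, fw v 4),
    (fw v 0, fw v 1, fa 4), (fw v 1, fw v 2, fa 3), (fw v 2, fw v 3, fe 0), (fw v 0, fw v 4, fa 2)]

variable {A : Type} [CommRing A]

/-- the collinear triples -/
inductive IsRel (ι : V → A) : Tr (Lb V) → Prop
  | aux (i : Fin 8) : IsRel ι (auxRel i)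
  | var (v : V) (i : Fin 8) : IsRel ι (varRel v i)
  | zero (v : V) (h : ι v = 0) : IsRel ι (fe 0, fe 1, fw v 1)
  | one (v : V) (h : ι v = 1) : IsRel ι (fe 2, fe 3, fw v 0)
  | add (u v w : V) (h : ι w = ι u + ι v) : IsRel ι (fw u 1, fw v 2, fw w 3)
  | mul (u v w : V) (h : ι w = ι u * ι v) : IsRel ι (fw u 0, fw v 2, fw w 4)

/-- the finite set of the collinear triples -/
noncomputable def dd [Finite V] (ι : V → A) : Finset (Tr (Lb V)) :=
  (Set.toFinite {t | IsRel ι t}).toFinset

lemma mem_dd [Finite V] (ι : V → A) (t : Tr (Lb V)) : t ∈ dd ι ↔ IsRel ι t := by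
  rw [dd, Set.Finite.mem_toFinset]
  rfl

variable {C : Type} [CommRing C]

/-- all relations hold for a matrix -/
def Holds (ι : V → A) (y : Lb V → Fin 3 → C) : Prop :=
  ∀ t, IsRel ι t → det3 (full y t.1) (full y t.2.1) (full y t.2.2) = 0

lemma holds_tar (ι : V → A) (f : V → C) (h : Cmp ι f) : Holds ι (tar f) := by
  rintro t (i | ⟨v, i⟩ | ⟨v, hv⟩ | ⟨v, hv⟩ | ⟨u, v, w, hw⟩ | ⟨u, v, w, hw⟩)
  · rw [det3_apply]
    fin_cases i <;> simp [auxRel, full, fe, fa, frame, tar, tarAux]
  · rw [det3_apply]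
    fin_cases i <;> simp [varRel, full, fe, fa, fw, frame, tar, tarAux, tarVar]
  · rw [det3_apply]
    simp [full, fe, fw, frame, tar, tarVar, h.zero v hv]
  · rw [det3_apply]
    simp [full, fe, fw, frame, tar, tarVar, h.one v hv]
  · rw [det3_apply]
    simp [full, fw, tar, tarVar, h.add u v w hw]
  · rw [det3_apply]
    simp [full, fw, tar, tarVar, h.mul u v w hw]

section back

variable {ι : V → A} {Y : Lb V → Fin 3 → C}

lemma nrm {k : Lb V} {r : Fin 3} (hn : Norm (cell V) Y) (h : ¬ cell V k < r) :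
    Y k r = if r = cell V k then 1 else 0 := hn k r h

lemma back_aux (hn : Norm (cell V) Y) (h : Holds ι Y) (i : Fin 5) :
    Y (Sum.inl i) = tarAux C i := by
  have a00 : Y (Sum.inl 0) 0 = 1 := by
    rw [nrm hn (by simp [cell])]; simp [cell]
  have a10 : Y (Sum.inl 1) 0 = 1 := by
    rw [nrm hn (by simp [cell])]; simp [cell]
  have a20 : Y (Sum.inl 2) 0 = 0 := by
    rw [nrm hn (by simp [cell])]; simp [cell]
  have a21 : Y (Sum.inl 2) 1 = 1 := by
    rw [nrm hn (by simp [cell])]; simp [cell]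
  have a30 : Y (Sum.inl 3) 0 = 1 := by
    rw [nrm hn (by simp [cell])]; simp [cell]
  have a40 : Y (Sum.inl 4) 0 = 0 := by
    rw [nrm hn (by simp [cell])]; simp [cell]
  have a41 : Y (Sum.inl 4) 1 = 1 := by
    rw [nrm hn (by simp [cell])]; simp [cell]
  have h0 := h _ (IsRel.aux 0)
  have h1 := h _ (IsRel.aux 1)
  have h2 := h _ (IsRel.aux 2)
  have h3 := h _ (IsRel.aux 3)
  have h4 := h _ (IsRel.aux 4)
  have h5 := h _ (IsRel.aux 5)
  have h6 := h _ (IsRel.aux 6)
  have h7 := h _ (IsRel.aux 7)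
  rw [det3_apply] at h0 h1 h2 h3 h4 h5 h6 h7
  simp [auxRel, full, fe, fa, frame, a00, a10, a20, a21, a30, a40, a41] at h0 h1 h2 h3 h4 h5 h6 h7
  have b01 : Y (Sum.inl 0) 1 = 1 := sub_eq_zero.mp h1
  have b12 : Y (Sum.inl 1) 2 = 1 := by linear_combination -h3
  have b22 : Y (Sum.inl 2) 2 = 1 := sub_eq_zero.mp h4
  rw [h5, b22, h2, b12] at h6
  have b31 : Y (Sum.inl 3) 1 = -1 := by linear_combination -h6
  rw [h2, b12, b01, h0] at h7
  have b42 : Y (Sum.inl 4) 2 = -1 := by linear_combination -h7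
  funext r
  fin_cases i <;> fin_cases r <;>
    simp [tarAux, a00, a10, a20, a21, a30, a40, a41, h0, h2, h5, b01, b12, b22, b31, b42]

lemma back_var (hn : Norm (cell V) Y) (h : Holds ι Y) (v : V) (f : Fin 5) :
    Y (Sum.inr (v, f)) = tarVar (Y (Sum.inr (v, 0)) 1) f := by
  have a00 : Y (Sum.inr (v, 0)) 0 = 1 := by
    rw [nrm hn (by simp [cell])]; simp [cell]
  have a10 : Y (Sum.inr (v, 1)) 0 = 1 := by
    rw [nrm hn (by simp [cell])]; simp [cell]
  have a20 : Y (Sum.inr (v, 2)) 0 = 0 := by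
    rw [nrm hn (by simp [cell])]; simp [cell]
  have a21 : Y (Sum.inr (v, 2)) 1 = 1 := by
    rw [nrm hn (by simp [cell])]; simp [cell]
  have a30 : Y (Sum.inr (v, 3)) 0 = 1 := by
    rw [nrm hn (by simp [cell])]; simp [cell]
  have a40 : Y (Sum.inr (v, 4)) 0 = 1 := by
    rw [nrm hn (by simp [cell])]; simp [cell]
  have h0 := h _ (IsRel.var v 0)
  have h1 := h _ (IsRel.var v 1)
  have h2 := h _ (IsRel.var v 2)
  have h3 := h _ (IsRel.var v 3)
  have h4 := h _ (IsRel.var v 4)
  have h5 := h _ (IsRel.var v 5)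
  have h6 := h _ (IsRel.var v 6)
  have h7 := h _ (IsRel.var v 7)
  rw [det3_apply] at h0 h1 h2 h3 h4 h5 h6 h7
  simp [varRel, full, fe, fa, fw, frame, a00, a10, a20, a21, a30, a40, back_aux hn h,
    tarAux] at h0 h1 h2 h3 h4 h5 h6 h7
  have b11 : Y (Sum.inr (v, 1)) 2 = Y (Sum.inr (v, 0)) 1 := by
    rw [h1, h0] at h4
    linear_combination -h4
  have b22 : Y (Sum.inr (v, 2)) 2 = Y (Sum.inr (v, 0)) 1 := by
    rw [h1, b11] at h5
    linear_combination h5
  have b31 : Y (Sum.inr (v, 3)) 1 = 1 := sub_eq_zero.mp h2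
  have b32 : Y (Sum.inr (v, 3)) 2 = Y (Sum.inr (v, 0)) 1 := by
    rw [b31, b22] at h6
    linear_combination h6
  have b42 : Y (Sum.inr (v, 4)) 2 = -Y (Sum.inr (v, 0)) 1 := by
    rw [h3, h0] at h7
    linear_combination -h7
  funext r
  fin_cases f <;> fin_cases r <;>
    simp [tarVar, a00, a10, a20, a21, a30, a40, h0, h1, h3, b11, b22, b31, b32, b42]

/-- the value of a quantity -/
def ev (Y : Lb V → Fin 3 → C) (v : V) : C := Y (Sum.inr (v, 0)) 1

lemma back_tar (hn : Norm (cell V) Y) (h : Holds ι Y) : Y = tar (ev Y) := by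
  funext k
  rcases k with i | ⟨v, f⟩
  · exact back_aux hn h i
  · exact back_var hn h v f

lemma back_cmp (hn : Norm (cell V) Y) (h : Holds ι Y) : Cmp ι (ev Y) where
  zero v hv := by
    have h1 := h _ (IsRel.zero v hv)
    rw [det3_apply, back_tar hn h] at h1
    simpa [full, fw, fe, frame, tar, tarVar] using h1
  one v hv := by
    have h1 := h _ (IsRel.one v hv)
    rw [det3_apply, back_tar hn h] at h1
    simp [full, fw, fe, frame, tar, tarVar] at h1
    exact sub_eq_zero.mp h1
  add u v w hw := by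
    have h1 := h _ (IsRel.add u v w hw)
    rw [det3_apply, back_tar hn h] at h1
    simp [full, fw, tar, tarVar] at h1
    linear_combination h1
  mul u v w hw := by
    have h1 := h _ (IsRel.mul u v w hw)
    rw [det3_apply, back_tar hn h] at h1
    simp [full, fw, tar, tarVar] at h1
    linear_combination -h1

end back

end rel

section iso

variable {R : Type} [CommRing R] {A : Type} [CommRing A] [Algebra R A] {V : Type} [Finite V]
  (ι : V → A)

/-- the generic matrix -/
noncomputable def gen (R : Type) [CommRing R] (ι : V → A) :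
    Lb V → Fin 3 → Conf R (cell V) (dd ι) ∅ := fun k r =>
  if h : cell V k < r then
    pv (fun t : dd ι => dt R (cell V) t.1) (∏ t ∈ (∅ : Finset (Tr (Lb V))), dt R (cell V) t)
      ⟨(k, r), h⟩
  else if r = cell V k then 1 else 0

lemma gen_norm : Norm (cell V) (gen R ι) := fun k r h => by rw [gen, dif_neg h]

lemma gen_asg : asg (cell V) (gen R ι) = pv (fun t : dd ι => dt R (cell V) t.1)
    (∏ t ∈ (∅ : Finset (Tr (Lb V))), dt R (cell V) t) := by
  funext s
  rw [asg, gen, dif_pos s.2]

lemma gen_holds : Holds ι (gen R ι) := by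
  intro t ht
  have h := aeval_dt (R := R) (gen_norm (R := R) ι) t
  rw [← h, gen_asg, pc_aeval]
  exact pc_rel _ _ (⟨t, (mem_dd ι t).mpr ht⟩ : dd ι)

/-- An algebra which is the universal algebra of a finite partial ring is the ring of a space of
configurations with some collinear triples. -/
theorem conf_univ (hu : Univ R ι) : Nonempty (A ≃ₐ[R] Conf R (cell V) (dd ι) ∅) := by
  obtain ⟨F, hF, -⟩ := hu _ (ev (gen R ι)) (back_cmp (gen_norm (R := R) ι) (gen_holds (R := R) ι))
  have hc : Cmp ι ι := ⟨fun _ h => h, fun _ h => h, fun _ _ _ h => h, fun _ _ _ h => h⟩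
  have h1 : ∀ t : dd ι, aeval (asg (cell V) (tar ι)) (dt R (cell V) t.1) = 0 := by
    intro t
    rw [aeval_dt (norm_tar _)]
    exact holds_tar ι ι hc _ ((mem_dd ι t.1).mp t.2)
  have h2 : IsUnit (aeval (asg (cell V) (tar ι))
      (∏ t ∈ (∅ : Finset (Tr (Lb V))), dt R (cell V) t)) := by
    rw [Finset.prod_empty, map_one]
    exact isUnit_one
  let G : Conf R (cell V) (dd ι) ∅ →ₐ[R] A := pcLift _ _ _ h1 h2
  have hG : ∀ s, G (pv _ _ s) = asg (cell V) (tar ι) s := fun s => pcLift_pv _ _ _ h1 h2 s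
  have hGg : ∀ k r, G (gen R ι k r) = tar ι k r := by
    intro k r
    by_cases h : cell V k < r
    · have e : gen R ι k r = pv _ _ ⟨(k, r), h⟩ := by rw [gen, dif_pos h]
      rw [e, hG]
      rfl
    · rw [gen, dif_neg h, norm_tar ι k r h]
      split_ifs
      · rw [map_one]
      · rw [map_zero]
  obtain ⟨I, -, hI⟩ := hu A ι hc
  have hGF : G.comp F = AlgHom.id R A := by
    have e1 := hI (G.comp F) fun v => by
      rw [AlgHom.comp_apply, hF, ev, hGg]
      simp [tar, tarVar]
    have e2 := hI (AlgHom.id R A) fun v => rfl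
    rw [e1, e2]
  have hFG : F.comp G = AlgHom.id R _ := by
    apply pc_ext
    intro s
    rw [AlgHom.comp_apply, hG]
    change F (tar ι s.1.1 s.1.2) = _
    rw [show F (tar ι s.1.1 s.1.2) = tar (fun u => F (ι u)) s.1.1 s.1.2 from
      map_tar (RingHomClass.toRingHom F) ι _ _]
    have e : (fun u => F (ι u)) = ev (gen R ι) := funext hF
    rw [e, ← back_tar (gen_norm (R := R) ι) (gen_holds (R := R) ι)]
    change asg (cell V) (gen R ι) s = _
    rw [gen_asg]
    rfl
  exact ⟨AlgEquiv.ofAlgHom F G hFG hGF⟩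

end iso

/-- **Universality.** Every algebra of finite presentation over a ring whose elements are quotients of
integers is isomorphic to the ring of a space of configurations of points in the plane with some
collinear triples. -/
theorem exists_conf {R : Type} [CommRing R] (hR : IntFrac R) (A : Type) [CommRing A] [Algebra R A]
    [Algebra.FinitePresentation R A] :
    ∃ (β : Type) (_ : Finite β) (τ : β → Fin 3) (D : Finset (Tr β)),
      Nonempty (A ≃ₐ[R] Conf R τ D ∅) := by
  obtain ⟨V, hV, ι, hu⟩ := exists_univ hR A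
  exact ⟨Lb V, inferInstance, cell V, dd ι, conf_univ ι hu⟩

end Pool.Agent.Run7.h902.Cu
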