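import Mathlib

/-!
# Generic smoothness of arithmetic schemes

A domain of finite type over the integers has a localization which is smooth over the integers or
over a finite prime field.
-/

set_option autoImplicit false

namespace Pool.Agent.Run7.h902.Cu

/-- A class of algebras which is stable under localizations and contains a localization of every domain
of finite type. -/
structure Generic (R : Type) [CommRing R] (N : ∀ (A : Type) [CommRing A] [Algebra R A], Prop) :
    Prop where
  alg : ∀ {A B : Type} [CommRing A] [CommRing B] [Algebra R A] [Algebra R B], (A ≃ₐ[R] B) →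
    N A → N B
  away : ∀ (A : Type) [CommRing A] [Algebra R A] (h : A), N A → N (Localization.Away h)
  exi : ∀ (B : Type) [CommRing B] [IsDomain B] [Algebra R B] [Algebra.FiniteType R B],
    ∃ w : B, w ≠ 0 ∧ N (Localization.Away w)

/-- all algebras -/
lemma generic_true (R : Type) [CommRing R] : Generic R fun _ _ _ => True :=
  ⟨fun _ h => h, fun _ _ _ _ h => h, fun _ _ _ _ _ => ⟨1, one_ne_zero, trivial⟩⟩

lemma smooth_away {R A : Type} [CommRing R] [CommRing A] [Algebra R A] (h : A)
    (hs : Algebra.Smooth R A) : Algebra.Smooth R (Localization.Away h) :=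
  have : Algebra.Smooth A (Localization.Away h) := Algebra.Smooth.of_isLocalization_Away h
  Algebra.Smooth.comp R A (Localization.Away h)

/-- A domain whose fraction field is formally smooth over the base is generically smooth. -/
lemma exists_smooth_of {R : Type} [CommRing R] (B : Type) [CommRing B] [IsDomain B] [Algebra R B]
    [Algebra.FinitePresentation R B] (h : Algebra.FormallySmooth R (FractionRing B)) :
    ∃ w : B, w ≠ 0 ∧ Algebra.Smooth R (Localization.Away w) := by
  have h2 : (⊥ : Ideal B).IsPrime := Ideal.isPrime_bot
  have h4 : Algebra.IsSmoothAt R (⊥ : Ideal B) := by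
    have hl : IsLocalization (⊥ : Ideal B).primeCompl (FractionRing B) := by
      have h5 : (⊥ : Ideal B).primeCompl = nonZeroDivisors B := by
        ext x
        rw [mem_nonZeroDivisors_iff_ne_zero]
        rfl
      rw [h5]
      infer_instance
    exact Algebra.FormallySmooth.of_equiv ((IsLocalization.algEquiv (⊥ : Ideal B).primeCompl
      (FractionRing B) (Localization.AtPrime (⊥ : Ideal B))).restrictScalars R)
  obtain ⟨w, hw, hs⟩ := Algebra.IsSmoothAt.exists_notMem_smooth R (⊥ : Ideal B)
  exact ⟨w, fun h => hw (by rw [h]; exact Ideal.zero_mem _), hs⟩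

/-- A domain of finite type over a perfect field is generically smooth. -/
lemma exists_smooth_field {k : Type} [Field k] [PerfectField k] (B : Type) [CommRing B] [IsDomain B]
    [Algebra k B] [Algebra.FiniteType k B] :
    ∃ w : B, w ≠ 0 ∧ Algebra.Smooth k (Localization.Away w) :=
  have : Algebra.FinitePresentation k B := Algebra.FinitePresentation.of_finiteType.mp
    inferInstance
  exists_smooth_of B Algebra.FormallySmooth.of_perfectField

/-- smooth algebras over a perfect field -/
lemma generic_field (k : Type) [Field k] [PerfectField k] :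
    Generic k fun A _ _ => Algebra.Smooth k A where
  alg e h := by
    have := h
    exact Algebra.Smooth.of_equiv e
  away _ _ _ h hs := smooth_away h hs
  exi B _ _ _ _ := exists_smooth_field B

/-- The ring is smooth over the integers or it is smooth over a finite prime field. -/
def SmoothZ (A : Type) [CommRing A] [Algebra ℤ A] : Prop :=
  Algebra.Smooth ℤ A ∨ ∃ (p : ℕ) (_ : p.Prime) (_ : Algebra (ZMod p) A), Algebra.Smooth (ZMod p) A

lemma exists_smoothZ (B : Type) [CommRing B] [IsDomain B] [Algebra ℤ B] [Algebra.FiniteType ℤ B] :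
    ∃ w : B, w ≠ 0 ∧ SmoothZ (Localization.Away w) := by
  have hfp : Algebra.FinitePresentation ℤ B := Algebra.FinitePresentation.of_finiteType.mp
    inferInstance
  obtain ⟨p, hp⟩ := CharP.exists B
  rcases CharP.char_is_prime_or_zero B p with hpp | rfl
  · have : Fact p.Prime := ⟨hpp⟩
    let _ : Algebra (ZMod p) B := ZMod.algebra B p
    have ht : @IsScalarTower ℤ (ZMod p) B Algebra.toSMul Algebra.toSMul Algebra.toSMul :=
      IsScalarTower.of_algebraMap_eq' (Subsingleton.elim _ _)
    have hft : Algebra.FiniteType (ZMod p) B :=
      Algebra.FiniteType.of_restrictScalars_finiteType ℤ (ZMod p) B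
    obtain ⟨w, hw, hs⟩ := exists_smooth_field (k := ZMod p) B
    exact ⟨w, hw, Or.inr ⟨p, hpp, inferInstance, hs⟩⟩
  · have h0 : CharZero B := CharP.charP_to_charZero B
    have h1 : CharZero (FractionRing B) :=
      charZero_of_injective_algebraMap (IsFractionRing.injective B (FractionRing B))
    have ht : @IsScalarTower ℤ ℚ (FractionRing B) Algebra.toSMul Algebra.toSMul Algebra.toSMul :=
      IsScalarTower.of_algebraMap_eq' (Subsingleton.elim _ _)
    have h2 : Algebra.EssFiniteType ℤ (FractionRing B) :=
      Algebra.EssFiniteType.comp ℤ B (FractionRing B)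
    have h3 : Algebra.EssFiniteType ℚ (FractionRing B) :=
      Algebra.EssFiniteType.of_comp ℤ ℚ (FractionRing B)
    have h4 : Algebra.FormallySmooth ℚ (FractionRing B) := Algebra.FormallySmooth.of_perfectField
    have h5 : Algebra.FormallySmooth ℤ ℚ := Algebra.FormallySmooth.of_isLocalization
      (nonZeroDivisors ℤ)
    have h6 : Algebra.FormallySmooth ℤ (FractionRing B) := Algebra.FormallySmooth.comp ℤ ℚ _
    obtain ⟨w, hw, hs⟩ := exists_smooth_of (R := ℤ) B h6
    exact ⟨w, hw, Or.inl hs⟩

/-- smooth rings over the integers or over finite prime fields -/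
lemma generic_int : Generic ℤ fun A _ _ => SmoothZ A where
  alg := by
    rintro A B _ _ _ _ e (h | ⟨p, hp, hA, h⟩)
    · exact Or.inl (Algebra.Smooth.of_equiv e)
    · let _ : Algebra (ZMod p) B := ((e.toRingEquiv.toRingHom).comp
        (algebraMap (ZMod p) A)).toAlgebra
      exact Or.inr ⟨p, hp, inferInstance,
        Algebra.Smooth.of_equiv (AlgEquiv.ofRingEquiv (f := e.toRingEquiv) fun r => rfl)⟩
  away := by
    rintro A _ _ w (h | ⟨p, hp, hA, h⟩)
    · exact Or.inl (smooth_away w h)
    · exact Or.inr ⟨p, hp, inferInstance, smooth_away w h⟩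
  exi B _ _ _ _ := exists_smoothZ B

end Pool.Agent.Run7.h902.Cu
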