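import Pool.Agent.Z125.UN.Pc
import Pool.Agent.Y116.UV.Geo

/-!
# Properties which pass from a closed part and the complementary open part to the scheme
-/

set_option autoImplicit false

open CategoryTheory AlgebraicGeometry MvPolynomial Pool.Agent.Z125.UN Pool.Agent.Y116.UV

namespace Pool.Agent.Run7.h902.Cu

/-- The property `P` of schemes of finite type over `R` holds for `X` if it holds for a closed
subscheme and for its open complement. -/
structure Tot {R : Type} [CommRing R] (sep : Prop) (P : Sch R → Prop) : Prop where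
  iso : ∀ {X Y : Sch R}, FT sep X → Nonempty (X ≅ Y) → P X → P Y
  empty : ∀ X : Sch R, IsEmpty X.left → P X
  total : ∀ {Z X U : Sch R} (i : Z ⟶ X) (j : U ⟶ X), FT sep X → IsTriple i j → P Z → P U → P X

section

variable {R : Type} [CommRing R] {sep : Prop} {P : Sch R → Prop}

lemma Tot.alg (hP : Tot sep P) {A B : Type} [CommRing A] [CommRing B] [Algebra R A] [Algebra R B]
    [Algebra.FiniteType R A] (e : A ≃ₐ[R] B) (h : P (aff R A)) : P (aff R B) :=
  hP.iso (ft_aff sep) ⟨(affIso e).symm⟩ h

lemma Tot.zero (hP : Tot sep P) (A : Type) [CommRing A] [Algebra R A] (h : Subsingleton A) :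
    P (aff R A) :=
  hP.empty _ (PrimeSpectrum.isEmpty_iff_subsingleton.mpr h)

lemma Tot.split (hP : Tot sep P) {A : Type} [CommRing A] [Algebra R A] [Algebra.FiniteType R A]
    (w : A) (h1 : P (aff R (A ⧸ Ideal.span {w}))) (h2 : P (aff R (Localization.Away w))) :
    P (aff R A) :=
  hP.total _ _ (ft_aff sep) (triple_away w) h1 h2

/-- different generators of the same ideal -/
noncomputable def pcCongr {σ κ κ' : Type} {G : κ → MvPolynomial σ R}
    {G' : κ' → MvPolynomial σ R} {w w' : MvPolynomial σ R}
    (h : Ideal.span (Set.range G) = Ideal.span (Set.range G')) (hw : w = w') :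
    Pc G w ≃ₐ[R] Pc G' w' :=
  pcEquiv (pv G' w')
    (fun k => by
      rw [pc_aeval]
      refine pc_zero _ _ ?_
      rw [← h]
      exact Ideal.subset_span ⟨k, rfl⟩)
    (by
      rw [pc_aeval, hw]
      exact pc_unit _ _)
    (pv G w)
    (fun k => by
      rw [pc_aeval]
      refine pc_zero _ _ ?_
      rw [h]
      exact Ideal.subset_span ⟨k, rfl⟩)
    (by
      rw [pc_aeval, ← hw]
      exact pc_unit _ _)
    (fun s => pcLift_pv _ _ _ _ _ s) (fun s => pcLift_pv _ _ _ _ _ s)

lemma Tot.pcs (hP : Tot sep P) {σ κ : Type} [Finite σ] {G : κ → MvPolynomial σ R}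
    {w e : MvPolynomial σ R} (hc : P (aff R (Pc (adj G e) w))) (ho : P (aff R (Pc G (w * e)))) :
    P (aff R (Pc G w)) :=
  hP.split (pc G w e) (hP.alg (cloE G w e).symm hc) (hP.alg (opnE G w e).symm ho)

/-- the ring of functions on the locally closed subscheme `I = 0`, `w ≠ 0` -/
abbrev PI {σ : Type} (I : Ideal (MvPolynomial σ R)) (w : MvPolynomial σ R) : Type :=
  Pc (fun g : I => g.1) w

lemma span_val {σ : Type} (I : Ideal (MvPolynomial σ R)) :
    Ideal.span (Set.range fun g : I => g.1) = I := by
  have h : (Set.range fun g : I => g.1) = (I : Set (MvPolynomial σ R)) := Subtype.range_val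
  rw [h]
  exact Ideal.span_eq I

lemma span_adj {σ : Type} (I : Ideal (MvPolynomial σ R)) (e : MvPolynomial σ R) :
    Ideal.span (Set.range (adj (fun g : I => g.1) e)) = I ⊔ Ideal.span {e} := by
  apply le_antisymm
  · rw [Ideal.span_le]
    rintro _ ⟨_ | g, rfl⟩
    · exact Ideal.mem_sup_right (Ideal.mem_span_singleton_self e)
    · exact Ideal.mem_sup_left g.2
  · refine sup_le (fun g hg => Ideal.subset_span ⟨some ⟨g, hg⟩, rfl⟩) ?_
    rw [Ideal.span_singleton_le_iff_mem]
    exact Ideal.subset_span ⟨none, rfl⟩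

lemma Tot.piSplit (hP : Tot sep P) {σ : Type} [Finite σ] {I : Ideal (MvPolynomial σ R)}
    {w e : MvPolynomial σ R} (hc : P (aff R (PI (I ⊔ Ideal.span {e}) w)))
    (ho : P (aff R (PI I (w * e)))) : P (aff R (PI I w)) := by
  refine hP.pcs (e := e) (hP.alg (pcCongr ?_ rfl) hc) ho
  rw [span_val, span_adj]

/-- if `a b` vanishes and `a` is invertible then `b` vanishes -/
noncomputable def piZero {σ : Type} {I : Ideal (MvPolynomial σ R)} {w a b : MvPolynomial σ R}
    (hab : a * b ∈ I) : PI (I ⊔ Ideal.span {b}) (w * a) ≃ₐ[R] PI I (w * a) := by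
  have h0 : ∀ g ∈ I ⊔ Ideal.span {b}, pc (fun g : I => g.1) (w * a) g = 0 := by
    intro g hg
    obtain ⟨x, hx, y, hy, rfl⟩ := Submodule.mem_sup.mp hg
    obtain ⟨c, rfl⟩ := Ideal.mem_span_singleton'.mp hy
    have h1 : pc (fun g : I => g.1) (w * a) a * pc (fun g : I => g.1) (w * a) b = 0 := by
      rw [← map_mul]
      exact pc_rel (fun g : I => g.1) (w * a) ⟨_, hab⟩
    have h2 : pc (fun g : I => g.1) (w * a) b = 0 :=
      (pc_unit_right (fun g : I => g.1) w a).mul_right_eq_zero.mp h1
    rw [map_add, map_mul, h2, mul_zero, add_zero]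
    exact pc_rel (fun g : I => g.1) (w * a) ⟨x, hx⟩
  exact pcEquiv (pv _ _) (fun k => by rw [pc_aeval]; exact h0 _ k.2)
    (by rw [pc_aeval]; exact pc_unit _ _) (pv _ _)
    (fun k => by
      rw [pc_aeval]
      exact pc_rel (fun g : (I ⊔ Ideal.span {b} : Ideal _) => g.1) (w * a)
        ⟨k.1, Ideal.mem_sup_left k.2⟩)
    (by rw [pc_aeval]; exact pc_unit _ _)
    (fun s => pcLift_pv _ _ _ _ _ s) (fun s => pcLift_pv _ _ _ _ _ s)

lemma pc_subsingleton {σ κ : Type} {G : κ → MvPolynomial σ R} {w : MvPolynomial σ R}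
    (h : w ∈ Ideal.span (Set.range G)) : Subsingleton (Pc G w) := by
  have h1 := pc_unit G w
  rw [pc_zero G w h] at h1
  exact subsingleton_of_zero_eq_one (isUnit_zero_iff.mp h1)

/-- the ring of functions of an open subscheme of an integral scheme -/
lemma pi_domain {σ : Type} {I : Ideal (MvPolynomial σ R)} (hI : I.IsPrime)
    {w : MvPolynomial σ R} (hw : w ∉ I) : IsDomain (PI I w) := by
  have h : IsDomain (MvPolynomial σ R ⧸ Ideal.span (Set.range fun g : I => g.1)) := by
    rw [span_val]
    infer_instance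
  have h1 : Ideal.Quotient.mk (Ideal.span (Set.range fun g : I => g.1)) w ≠ 0 := by
    rw [Ne, Ideal.Quotient.eq_zero_iff_mem, span_val]
    exact hw
  exact IsLocalization.isDomain_of_le_nonZeroDivisors (PI I w)
    (M := Submonoid.powers (Ideal.Quotient.mk (Ideal.span (Set.range fun g : I => g.1)) w))
    (powers_le_nonZeroDivisors_of_noZeroDivisors h1)

/-- localizations at associated elements -/
noncomputable def awayAssoc {A : Type} [CommRing A] [Algebra R A] {v w : A} (h : Associated v w) :
    Localization.Away v ≃ₐ[R] Localization.Away w :=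
  have : IsLocalization.Away v (Localization.Away w) := IsLocalization.Away.of_associated h.symm
  (IsLocalization.algEquiv (Submonoid.powers v) (Localization.Away v)
    (Localization.Away w)).restrictScalars R

/-- Noetherian induction: it is enough to find, for each domain of finite type, a non-empty open
subscheme for which the property is true. -/
theorem Tot.noeth [IsNoetherianRing R] (hP : Tot sep P)
    (hD : ∀ (B : Type) [CommRing B] [IsDomain B] [Algebra R B] [Algebra.FiniteType R B],
      ∃ w : B, w ≠ 0 ∧ P (aff R (Localization.Away w)))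
    (A : Type) [CommRing A] [Algebra R A] [h : Algebra.FiniteType R A] : P (aff R A) := by
  obtain ⟨n, φ, hφ⟩ := Algebra.FiniteType.iff_quotient_mvPolynomial''.mp h
  have key : ∀ (I : Ideal (MvPolynomial (Fin n) R)) (w : MvPolynomial (Fin n) R),
      P (aff R (PI I w)) := by
    intro I
    induction I using IsNoetherian.induction with
    | hgt I ih =>
    intro w
    by_cases hw : w ∈ I
    · exact hP.zero _ (pc_subsingleton (by rwa [span_val]))
    have hlt : ∀ c, c ∉ I → I < I ⊔ Ideal.span {c} := fun c hc =>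
      lt_of_le_of_ne le_sup_left fun h => hc (by
        rw [h]
        exact Ideal.mem_sup_right (Ideal.mem_span_singleton_self c))
    by_cases hp : Ideal.IsPrime I
    · have hdom := pi_domain hp hw
      obtain ⟨v, hv, hPv⟩ := hD (PI I w)
      obtain ⟨⟨y, ⟨_, k, rfl⟩⟩, hy⟩ := IsLocalization.surj (Submonoid.powers
        (Ideal.Quotient.mk (Ideal.span (Set.range fun g : I => g.1)) w)) v
      obtain ⟨g, rfl⟩ := Ideal.Quotient.mk_surjective y
      have hu : IsUnit (algebraMap _ (PI I w)
          (Ideal.Quotient.mk (Ideal.span (Set.range fun g : I => g.1)) w ^ k)) := by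
        rw [map_pow]
        exact (pc_unit (fun g : I => g.1) w).pow k
      have hass : Associated v (pc (fun g : I => g.1) w g) := ⟨hu.unit, hy⟩
      have hg : g ∉ I := by
        intro hg
        have h0 : pc (fun g : I => g.1) w g = 0 := pc_rel (fun g : I => g.1) w ⟨g, hg⟩
        rw [h0] at hass
        exact hv (hass.eq_zero_iff.mpr rfl)
      have hf : Algebra.FiniteType R (Localization.Away v) :=
        Algebra.FiniteType.trans (S := PI I w) inferInstance inferInstance
      have hf2 : Algebra.FiniteType R (Localization.Away (pc (fun g : I => g.1) w g)) :=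
        Algebra.FiniteType.trans (S := PI I w) inferInstance inferInstance
      exact hP.piSplit (ih _ (hlt g hg) w)
        (hP.alg (opnE _ _ _) (hP.alg (awayAssoc hass) hPv))
    · have h1 : ∃ a b, a * b ∈ I ∧ a ∉ I ∧ b ∉ I := by
        by_contra hcon
        push Not at hcon
        exact hp ⟨fun h => hw (by rw [h]; trivial), fun {a b} hab => by
          by_contra h
          push Not at h
          exact h.2 (hcon a b hab h.1)⟩
      obtain ⟨a, b, hab, ha, hb⟩ := h1
      exact hP.piSplit (ih _ (hlt a ha) w) (hP.alg (piZero hab) (ih _ (hlt b hb) (w * a)))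
  have h1 := key (RingHom.ker φ) 1
  have e1 : PI (RingHom.ker φ) 1 ≃ₐ[R] A :=
    (oneE (fun g : RingHom.ker φ => g.1)).symm.trans ((Ideal.quotientEquivAlgOfEq R
      (span_val (RingHom.ker φ))).trans (Ideal.quotientKerAlgEquivOfSurjective hφ))
  exact hP.alg e1 h1

end

end Pool.Agent.Run7.h902.Cu
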