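import Pool.Agent.Run7.h902.CuGad
import Pool.Agent.Run7.h902.CuTot
import Pool.Agent.Run7.h902.CuSmooth

/-!
# Moduli spaces of point configurations decide every property which passes from a closed part and
the complementary open part to the scheme, dimension by dimension
-/

set_option autoImplicit false

open CategoryTheory AlgebraicGeometry MvPolynomial Pool.Agent.Z125.UN Pool.Agent.Y116.UV
  Pool.Agent.Run7.h902.Cf

namespace Pool.Agent.Run7.h902.Cu

variable {R : Type} [CommRing R]

section

/-- localizations of isomorphic algebras -/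
noncomputable def awayEquiv {A B : Type} [CommRing A] [CommRing B] [Algebra R A] [Algebra R B]
    (e : A ≃ₐ[R] B) (h : B) : Localization.Away (e.symm h) ≃ₐ[R] Localization.Away h :=
  IsLocalization.algEquivOfAlgEquiv (M := Submonoid.powers (e.symm h))
    (T := Submonoid.powers h) _ _ e (by
      rw [Submonoid.map_powers]
      simp)

/-- localizations of localizations of domains -/
lemma down (B : Type) [CommRing B] [IsDomain B] [Algebra R B] (w : B) (hw : w ≠ 0)
    (h : Localization.Away w) (hh : h ≠ 0) :
    ∃ v : B, v ≠ 0 ∧ Nonempty (Localization.Away v ≃ₐ[R] Localization.Away h) := by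
  obtain ⟨⟨a, ⟨_, k, rfl⟩⟩, ha⟩ := IsLocalization.surj (Submonoid.powers w) h
  have hu : IsUnit (algebraMap B (Localization.Away w) (w ^ k)) := by
    rw [map_pow]
    exact (IsLocalization.Away.algebraMap_isUnit w).pow k
  have hass0 : Associated h (algebraMap B (Localization.Away w) a) := ⟨hu.unit, ha⟩
  have hass : Associated (algebraMap B (Localization.Away w) a) h := hass0.symm
  have hl : IsLocalization.Away (w * a) (Localization.Away h) :=
    IsLocalization.Away.mul_of_associated (S := Localization.Away w) w a h hass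
  refine ⟨w * a, ?_, ⟨(IsLocalization.algEquiv (Submonoid.powers (w * a))
    (Localization.Away (w * a)) (Localization.Away h)).restrictScalars R⟩⟩
  intro h0
  rcases mul_eq_zero.mp h0 with h0 | h0
  · exact hw h0
  · rw [h0, map_zero] at hass
    exact hh (hass.eq_zero_iff.mp rfl)

/-- The generic stratum of a domain: for every domain there is an open subscheme which is a moduli
space of configurations. -/
theorem generic_stratum (hR : IntFrac R) (B : Type) [CommRing B] [IsDomain B] [Algebra R B]
    [Algebra.FinitePresentation R B] :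
    ∃ (w : B) (β : Type) (_ : Finite β) (τ : β → Fin 3) (D N : Finset (Tr β)), w ≠ 0 ∧
      (∀ t, t ∈ D ∨ t ∈ N) ∧ Nonempty (Localization.Away w ≃ₐ[R] Conf R τ D N) := by
  classical
  obtain ⟨β, hβ, τ, D₀, ⟨e⟩⟩ := exists_conf hR B
  let _ : Fintype β := Fintype.ofFinite β
  have hdom : IsDomain (Conf R τ D₀ ∅) := e.symm.toMulEquiv.isDomain B
  let G₀ : D₀ → MvPolynomial (Co τ) R := fun t => dt R τ t.1
  let w₀ : MvPolynomial (Co τ) R := ∏ t ∈ (∅ : Finset (Tr β)), dt R τ t
  let D : Finset (Tr β) := Finset.univ.filter fun t => pc G₀ w₀ (dt R τ t) = 0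
  let N : Finset (Tr β) := Finset.univ.filter fun t => pc G₀ w₀ (dt R τ t) ≠ 0
  let g : MvPolynomial (Co τ) R := ∏ t ∈ N, dt R τ t
  have hg : pc G₀ w₀ g ≠ 0 := by
    change pc G₀ w₀ (∏ t ∈ N, dt R τ t) ≠ 0
    rw [map_prod]
    exact Finset.prod_ne_zero_iff.mpr fun t ht => (Finset.mem_filter.mp ht).2
  have hD : ∀ t ∈ D, pc G₀ (w₀ * g) (dt R τ t) = 0 := by
    intro t ht
    have h1 : pc G₀ w₀ (dt R τ t) = 0 := (Finset.mem_filter.mp ht).2
    rw [← opnF_pc, h1, map_zero]
  have hD0 : ∀ t ∈ D₀, t ∈ D := fun t ht =>
    Finset.mem_filter.mpr ⟨Finset.mem_univ _, pc_rel G₀ w₀ ⟨t, ht⟩⟩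
  let G : D → MvPolynomial (Co τ) R := fun t => dt R τ t.1
  have e1 : Pc G₀ (w₀ * g) ≃ₐ[R] Pc G g :=
    pcEquiv (pv G g)
      (fun k => by
        rw [pc_aeval]
        exact pc_rel G g ⟨k.1, hD0 _ k.2⟩)
      (by
        rw [pc_aeval, map_mul]
        refine IsUnit.mul ?_ (pc_unit G g)
        change IsUnit (pc G g (∏ t ∈ (∅ : Finset (Tr β)), dt R τ t))
        rw [Finset.prod_empty, map_one]
        exact isUnit_one)
      (pv G₀ (w₀ * g))
      (fun k => by
        rw [pc_aeval]
        exact hD _ k.2)
      (by
        rw [pc_aeval]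
        exact pc_unit_right G₀ w₀ g)
      (fun s => pcLift_pv _ _ _ _ _ s) (fun s => pcLift_pv _ _ _ _ _ s)
  refine ⟨e.symm (pc G₀ w₀ g), β, hβ, τ, D, N, ?_, ?_,
    ⟨(awayEquiv e _).trans ((opnE G₀ w₀ g).trans e1)⟩⟩
  · intro h
    exact hg ((map_eq_zero_iff e.symm e.symm.injective).mp h)
  · intro t
    by_cases h : pc G₀ w₀ (dt R τ t) = 0
    · exact Or.inl (Finset.mem_filter.mpr ⟨Finset.mem_univ _, h⟩)
    · exact Or.inr (Finset.mem_filter.mpr ⟨Finset.mem_univ _, h⟩)

end

section

variable {sep : Prop} {P : Sch R → Prop} {N : ∀ (A : Type) [CommRing A] [Algebra R A], Prop}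

/-- `P` is true for the moduli spaces of configurations which are integral and have the property
`N`. -/
def ForConf (R : Type) [CommRing R] (N : ∀ (A : Type) [CommRing A] [Algebra R A], Prop)
    (P : Sch R → Prop) : Prop :=
  ∀ (β : Type) [Finite β] (τ : β → Fin 3) (D M : Finset (Tr β)), (∀ t, t ∈ D ∨ t ∈ M) →
    IsDomain (Conf R τ D M) → N (Conf R τ D M) → P (aff R (Conf R τ D M))

/-- **Theorem.** A property which passes from a closed part and the complementary open part to the
scheme is true for all (separated) schemes of finite type if and only if it is true for the moduli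
spaces of configurations of points in the projective plane which are integral and have the generic
property `N`. -/
theorem tot_iff [IsNoetherianRing R] (hR : IntFrac R) (hN : Generic R N) (hP : Tot sep P) :
    (∀ X : Sch R, FT sep X → P X) ↔ ForConf R N P := by
  constructor
  · intro h β _ τ D M _ _ _
    exact h _ (ft_aff sep)
  · intro h
    refine of_affine' hP.iso hP.total fun A _ _ _ => ?_
    refine hP.noeth (fun B _ _ _ _ => ?_) A
    obtain ⟨w, hw, hNw⟩ := hN.exi B
    have hdom : IsDomain (Localization.Away w) :=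
      IsLocalization.isDomain_localization (powers_le_nonZeroDivisors_of_noZeroDivisors hw)
    have hft : Algebra.FiniteType R (Localization.Away w) :=
      Algebra.FiniteType.trans (S := B) inferInstance inferInstance
    have hfp : Algebra.FinitePresentation R (Localization.Away w) :=
      Algebra.FinitePresentation.of_finiteType.mp hft
    obtain ⟨v, β, hβ, τ, D, M, hv, hDM, ⟨e⟩⟩ := generic_stratum hR (Localization.Away w)
    have hdom2 : IsDomain (Localization.Away v) :=
      IsLocalization.isDomain_localization (powers_le_nonZeroDivisors_of_noZeroDivisors hv)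
    have h1 : P (aff R (Conf R τ D M)) :=
      h β τ D M hDM (e.symm.toMulEquiv.isDomain _) (hN.alg e (hN.away _ v hNw))
    obtain ⟨u, hu, ⟨e2⟩⟩ := down (R := R) B w hw v hv
    exact ⟨u, hu, hP.alg (e.symm.trans e2.symm) h1⟩

/-- dimension at most `n` -/
lemma Tot.dim (hP : Tot sep P) (n : ℕ) : Tot sep fun X => topologicalKrullDim X.left ≤ n → P X where
  iso := by
    intro X Y hX e hPX hY
    refine hP.iso hX e (hPX ?_)
    obtain ⟨e⟩ := e
    let f := (Over.forget _).mapIso e
    exact (Topology.IsInducing.topologicalKrullDim_le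
      (Scheme.homeoOfIso f).isInducing).trans hY
  empty X hX _ := hP.empty X hX
  total := by
    intro Z X U i j hX ht hZ hU hn
    refine hP.total i j hX ht (hZ ?_) (hU ?_)
    · have h1 := (have := ht.closed; i.left.isClosedEmbedding.isInducing)
      exact h1.topologicalKrullDim_le.trans hn
    · have h1 := (have := ht.opened; j.left.isOpenEmbedding.isInducing)
      exact h1.topologicalKrullDim_le.trans hn

/-- **Theorem.** The same for schemes of dimension at most `n`. -/
theorem tot_dim [IsNoetherianRing R] (hR : IntFrac R) (hN : Generic R N) (hP : Tot sep P) (n : ℕ) :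
    (∀ X : Sch R, FT sep X → topologicalKrullDim X.left ≤ n → P X) ↔
      ForConf R (fun A _ _ => N A ∧ ringKrullDim A ≤ n) P := by
  rw [tot_iff hR hN (hP.dim n)]
  have h : ∀ (A : Type) [CommRing A] [Algebra R A],
      topologicalKrullDim (aff R A).left = ringKrullDim A := fun A _ _ =>
    PrimeSpectrum.topologicalKrullDim_eq_ringKrullDim A
  constructor
  · intro H β _ τ D M hDM hd hN'
    exact H β τ D M hDM hd hN'.1 (by rw [h]; exact hN'.2)
  · intro H β _ τ D M hDM hd hN' hn
    rw [h] at hn
    exact H β τ D M hDM hd ⟨hN', hn⟩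

end

end Pool.Agent.Run7.h902.Cu
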