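import Pool.Agent.Z125.UN.Pc

/-!
# Moduli spaces of point configurations in the projective plane over a general base

Some of the points are fixed, with given coordinates in the base ring; the other points are labelled by
a finite type `β` and every one of them lies in a given Schubert cell of the plane: its coordinate
vector is `(1, x, y)`, `(0, 1, y)` or `(0, 0, 1)`. It is prescribed for every triple of points whether it
is collinear or not.
-/

set_option autoImplicit false

open MvPolynomial Pool.Agent.Z125.UN

namespace Pool.Agent.Run7.h902.Cv

/-- triples of points; the points of `α` are fixed, the points of `β` move -/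
abbrev Tr (α β : Type) : Type := (α ⊕ β) × (α ⊕ β) × (α ⊕ β)

/-- the indices of the free coordinates: the coordinate `r` of the point `k` is free if `τ k < r` -/
abbrev Co {β : Type} (τ : β → Fin 3) : Type := {c : β × Fin 3 // τ c.1 < c.2}

/-- the vector of coordinates of a point: the point `i` of `α` has the coordinates `fix i`; the point
`k` of `β` has the coordinates `0` before the place `τ k` and `1` at the place `τ k`, the other
coordinates are variables -/
noncomputable def vec {R : Type} [CommRing R] {α β : Type} (fix : α → Fin 3 → R) (τ : β → Fin 3) :
    α ⊕ β → Fin 3 → MvPolynomial (Co τ) R
  | Sum.inl i, r => C (fix i r)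
  | Sum.inr k, r => if h : τ k < r then X ⟨(k, r), h⟩ else if r = τ k then 1 else 0

/-- the determinant of three vectors -/
def det3 {C : Type} [CommRing C] (u v w : Fin 3 → C) : C :=
  (Matrix.of ![u, v, w]).det

/-- the determinant of the coordinate vectors of three points; it vanishes if and only if the points
are collinear -/
noncomputable def dt {R : Type} [CommRing R] {α β : Type} (fix : α → Fin 3 → R) (τ : β → Fin 3)
    (t : Tr α β) : MvPolynomial (Co τ) R :=
  det3 (vec fix τ t.1) (vec fix τ t.2.1) (vec fix τ t.2.2)

/-- The ring of functions on the scheme of the configurations for which the triples in `D` are collinear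
and the triples in `N` are not collinear (the determinants of the triples in `D` vanish, those of the
triples in `N` are invertible). -/
noncomputable abbrev Conf {R : Type} [CommRing R] {α β : Type} (fix : α → Fin 3 → R)
    (τ : β → Fin 3) (D N : Finset (Tr α β)) : Type :=
  Pc (fun t : D => dt fix τ t.1) (∏ t ∈ N, dt fix τ t)

end Pool.Agent.Run7.h902.Cv
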