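import Pool.Agent.Run7.h902.CuRing

/-!
# Every finitely presented algebra is the universal ring of a finite partial ring, general base

Now `R` is any commutative ring, and the partial ring contains finitely many constants.
-/

set_option autoImplicit false

open MvPolynomial

namespace Pool.Agent.Run7.h902.Cv

/-- The function `f` respects zero, one, the constants in `K`, and all sums and products of the
elements of the finite family `ι` which are again in the family. -/
structure Cmp {R : Type} [CommRing R] (K : Finset R) {A C V : Type} [CommRing A] [CommRing C]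
    [Algebra R A] [Algebra R C] (ι : V → A) (f : V → C) : Prop where
  const : ∀ c ∈ K, ∀ v, ι v = algebraMap R A c → f v = algebraMap R C c
  zero : ∀ v, ι v = 0 → f v = 0
  one : ∀ v, ι v = 1 → f v = 1
  add : ∀ u v w, ι w = ι u + ι v → f w = f u + f v
  mul : ∀ u v w, ι w = ι u * ι v → f w = f u * f v

/-- The algebra `A` is determined by the partial ring of the family `ι`. -/
def Univ {R : Type} [CommRing R] (K : Finset R) {A V : Type} [CommRing A] [Algebra R A]
    (ι : V → A) : Prop :=
  ∀ (C : Type) [CommRing C] [Algebra R C] (f : V → C), Cmp K ι f →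
    ∃! F : A →ₐ[R] C, ∀ v, F (ι v) = f v

section

variable {R : Type} [CommRing R] {A : Type} [CommRing A] [Algebra R A]

/-- compatibility on a subset -/
structure On {C : Type} [CommRing C] [Algebra R C] (K : Finset R) (S : Finset A) (f : A → C) :
    Prop where
  const : ∀ c ∈ K, algebraMap R A c ∈ S → f (algebraMap R A c) = algebraMap R C c
  zero : (0 : A) ∈ S → f 0 = 0
  one : (1 : A) ∈ S → f 1 = 1
  add : ∀ u ∈ S, ∀ v ∈ S, u + v ∈ S → f (u + v) = f u + f v
  mul : ∀ u ∈ S, ∀ v ∈ S, u * v ∈ S → f (u * v) = f u * f v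

lemma On.mono {C : Type} [CommRing C] [Algebra R C] {K L : Finset R} {S T : Finset A} {f : A → C}
    (hK : K ⊆ L) (h : S ⊆ T) (hf : On L T f) : On K S f where
  const c hc hs := hf.const c (hK hc) (h hs)
  zero h0 := hf.zero (h h0)
  one h0 := hf.one (h h0)
  add u hu v hv huv := hf.add u (h hu) v (h hv) (h huv)
  mul u hu v hv huv := hf.mul u (h hu) v (h hv) (h huv)

variable {n : ℕ} (x : Fin n → A)

/-- The value of the polynomial `p` is in `S` and is respected by compatible functions. -/
def Rl (x : Fin n → A) (K : Finset R) (S : Finset A) (p : MvPolynomial (Fin n) R) : Prop :=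
  aeval x p ∈ S ∧ ∀ (C : Type) [CommRing C] [Algebra R C] (f : A → C), On K S f →
    f (aeval x p) = aeval (fun i => f (x i)) p

/-- all elements of `S` are values of polynomials which are respected by compatible functions -/
def Ex (x : Fin n → A) (K : Finset R) (S : Finset A) : Prop :=
  ∀ s ∈ S, ∃ p : MvPolynomial (Fin n) R, aeval x p = s ∧ Rl x K S p

variable {x}

lemma Rl.mono {K L : Finset R} {S T : Finset A} {p : MvPolynomial (Fin n) R} (hK : K ⊆ L)
    (h : S ⊆ T) (hp : Rl x K S p) : Rl x L T p :=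
  ⟨h hp.1, fun C _ _ f hf => hp.2 C f (hf.mono hK h)⟩

lemma ex_union [DecidableEq A] [DecidableEq R] {K L : Finset R} {S T : Finset A} (hS : Ex x K S)
    (hT : Ex x L T) : Ex x (K ∪ L) (S ∪ T) := by
  intro s hs
  rcases Finset.mem_union.mp hs with h | h
  · obtain ⟨p, hp, hr⟩ := hS s h
    exact ⟨p, hp, hr.mono Finset.subset_union_left Finset.subset_union_left⟩
  · obtain ⟨p, hp, hr⟩ := hT s h
    exact ⟨p, hp, hr.mono Finset.subset_union_right Finset.subset_union_right⟩

lemma ex_insert [DecidableEq A] {K : Finset R} {S : Finset A} (hS : Ex x K S)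
    (p : MvPolynomial (Fin n) R) (h : Rl x K (insert (aeval x p) S) p) :
    Ex x K (insert (aeval x p) S) := by
  intro s hs
  rcases Finset.mem_insert.mp hs with rfl | hs
  · exact ⟨p, rfl, h⟩
  · obtain ⟨q, hq, hr⟩ := hS s hs
    exact ⟨q, hq, hr.mono (Finset.Subset.refl _) (Finset.subset_insert _ _)⟩

/-- `p` can be realized -/
def Ok (x : Fin n → A) (p : MvPolynomial (Fin n) R) : Prop :=
  ∃ (K : Finset R) (S : Finset A), Ex x K S ∧ Rl x K S p

lemma ok_C (c : R) : Ok x (C c) := by
  classical
  have h : Rl x {c} {algebraMap R A c} (C c) := by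
    refine ⟨by rw [aeval_C]; exact Finset.mem_singleton_self _, fun D _ _ f hf => ?_⟩
    rw [aeval_C, aeval_C]
    exact hf.const c (Finset.mem_singleton_self _) (Finset.mem_singleton_self _)
  refine ⟨{c}, {algebraMap R A c}, ?_, h⟩
  intro s hs
  rw [Finset.mem_singleton] at hs
  exact ⟨C c, by rw [hs, aeval_C], h⟩

lemma ok_X (i : Fin n) : Ok x (X i : MvPolynomial (Fin n) R) := by
  classical
  have h : Rl x (∅ : Finset R) {x i} (X i) := by
    refine ⟨by simp, fun C _ _ f hf => ?_⟩
    rw [aeval_X, aeval_X]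
  refine ⟨∅, {x i}, ?_, h⟩
  intro s hs
  rw [Finset.mem_singleton] at hs
  exact ⟨X i, by rw [hs, aeval_X], h⟩

lemma ok_add {p q : MvPolynomial (Fin n) R} (hp : Ok x p) (hq : Ok x q) : Ok x (p + q) := by
  classical
  obtain ⟨K, S, hS, h1⟩ := hp
  obtain ⟨L, T, hT, h2⟩ := hq
  have h : Rl x (K ∪ L) (insert (aeval x (p + q)) (S ∪ T)) (p + q) := by
    refine ⟨Finset.mem_insert_self _ _, fun C _ _ f hf => ?_⟩
    have hs : S ⊆ insert (aeval x (p + q)) (S ∪ T) :=
      Finset.subset_union_left.trans (Finset.subset_insert _ _)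
    have ht : T ⊆ insert (aeval x (p + q)) (S ∪ T) :=
      Finset.subset_union_right.trans (Finset.subset_insert _ _)
    have h3 := h1.2 C f (hf.mono Finset.subset_union_left hs)
    have h4 := h2.2 C f (hf.mono Finset.subset_union_right ht)
    rw [map_add, map_add, ← h3, ← h4]
    refine hf.add _ (hs h1.1) _ (ht h2.1) ?_
    rw [map_add]
    exact Finset.mem_insert_self _ _
  exact ⟨_, _, ex_insert (ex_union hS hT) _ h, h⟩

lemma ok_mul {p q : MvPolynomial (Fin n) R} (hp : Ok x p) (hq : Ok x q) : Ok x (p * q) := by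
  classical
  obtain ⟨K, S, hS, h1⟩ := hp
  obtain ⟨L, T, hT, h2⟩ := hq
  have h : Rl x (K ∪ L) (insert (aeval x (p * q)) (S ∪ T)) (p * q) := by
    refine ⟨Finset.mem_insert_self _ _, fun C _ _ f hf => ?_⟩
    have hs : S ⊆ insert (aeval x (p * q)) (S ∪ T) :=
      Finset.subset_union_left.trans (Finset.subset_insert _ _)
    have ht : T ⊆ insert (aeval x (p * q)) (S ∪ T) :=
      Finset.subset_union_right.trans (Finset.subset_insert _ _)
    have h3 := h1.2 C f (hf.mono Finset.subset_union_left hs)
    have h4 := h2.2 C f (hf.mono Finset.subset_union_right ht)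
    rw [map_mul, map_mul, ← h3, ← h4]
    refine hf.mul _ (hs h1.1) _ (ht h2.1) ?_
    rw [map_mul]
    exact Finset.mem_insert_self _ _
  exact ⟨_, _, ex_insert (ex_union hS hT) _ h, h⟩

lemma ok_all (p : MvPolynomial (Fin n) R) : Ok x p := by
  induction p using MvPolynomial.induction_on with
  | C c => exact ok_C c
  | add p q hp hq => exact ok_add hp hq
  | mul_X p i hp => exact ok_mul hp (ok_X i)

/-- Every algebra of finite presentation is the universal algebra of a finite partial ring. -/
theorem exists_univ (A : Type) [CommRing A] [Algebra R A]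
    [h : Algebra.FinitePresentation R A] :
    ∃ (K : Finset R) (V : Type) (_ : Finite V) (ι : V → A), Univ K ι := by
  classical
  obtain ⟨n, φ, hs, G, hG⟩ := h
  let x : Fin n → A := fun i => φ (X i)
  have hφ : aeval x = φ := by
    apply MvPolynomial.algHom_ext
    intro i
    rw [aeval_X]
  choose K S hS hr using fun p => ok_all (R := R) (x := x) p
  let T : Finset A := (insert 0 (Finset.univ.image X ∪ G)).biUnion S
  let L : Finset R := (insert 0 (Finset.univ.image X ∪ G)).biUnion K
  have hsub : ∀ p ∈ insert 0 (Finset.univ.image X ∪ G), S p ⊆ T := fun p hp =>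
    Finset.subset_biUnion_of_mem S hp
  have hsub2 : ∀ p ∈ insert 0 (Finset.univ.image X ∪ G), K p ⊆ L := fun p hp =>
    Finset.subset_biUnion_of_mem K hp
  have hT : Ex x L T := by
    intro s hs
    obtain ⟨p, hp, hsp⟩ := Finset.mem_biUnion.mp hs
    obtain ⟨q, hq, h2⟩ := hS p s hsp
    exact ⟨q, hq, h2.mono (hsub2 p hp) (hsub p hp)⟩
  have hgood : ∀ p ∈ insert 0 (Finset.univ.image X ∪ G), Rl x L T p := fun p hp =>
    (hr p).mono (hsub2 p hp) (hsub p hp)
  have h0 : (0 : A) ∈ T := by
    have := (hgood 0 (Finset.mem_insert_self _ _)).1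
    rwa [map_zero] at this
  refine ⟨L, T, inferInstance, Subtype.val, fun C _ _ f hf => ?_⟩
  let g : A → C := fun a => if h : a ∈ T then f ⟨a, h⟩ else 0
  have hg : ∀ a (h : a ∈ T), g a = f ⟨a, h⟩ := fun a h => dif_pos h
  have hon : On L T g := by
    constructor
    · intro c hc h
      rw [hg _ h]
      exact hf.const c hc _ rfl
    · intro h
      rw [hg _ h]
      exact hf.zero _ rfl
    · intro h
      rw [hg _ h]
      exact hf.one _ rfl
    · intro u hu v hv huv
      rw [hg _ hu, hg _ hv, hg _ huv]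
      exact hf.add ⟨u, hu⟩ ⟨v, hv⟩ ⟨u + v, huv⟩ rfl
    · intro u hu v hv huv
      rw [hg _ hu, hg _ hv, hg _ huv]
      exact hf.mul ⟨u, hu⟩ ⟨v, hv⟩ ⟨u * v, huv⟩ rfl
  let ψ : MvPolynomial (Fin n) R →ₐ[R] C := aeval fun i => g (x i)
  have hker : ∀ p, φ p = 0 → ψ p = 0 := by
    intro p hp
    have h1 : p ∈ Ideal.span (G : Set (MvPolynomial (Fin n) R)) := by
      rw [hG]
      exact hp
    have h2 : Ideal.span (G : Set (MvPolynomial (Fin n) R)) ≤ RingHom.ker ψ := by
      rw [Ideal.span_le]
      intro q hq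
      have h3 := (hgood q (Finset.mem_insert_of_mem (Finset.mem_union_right _ hq))).2 C g hon
      have h4 : aeval x q = 0 := by
        rw [hφ]
        have : q ∈ RingHom.ker φ.toRingHom := by
          rw [← hG]
          exact Ideal.subset_span hq
        exact this
      rw [h4, hon.zero h0] at h3
      exact h3.symm
    exact h2 h1
  let F : A →ₐ[R] C := (Ideal.Quotient.liftₐ (RingHom.ker φ) ψ fun p hp => hker p hp).comp
    (Ideal.quotientKerAlgEquivOfSurjective hs).symm.toAlgHom
  have hF : ∀ p, F (φ p) = ψ p := by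
    intro p
    have h1 : (Ideal.quotientKerAlgEquivOfSurjective hs).symm (φ p) =
        Ideal.Quotient.mk (RingHom.ker φ) p := by
      rw [AlgEquiv.symm_apply_eq]
      rfl
    change Ideal.Quotient.liftₐ (RingHom.ker φ) ψ (fun p hp => hker p hp)
      ((Ideal.quotientKerAlgEquivOfSurjective hs).symm (φ p)) = _
    rw [h1]
    rfl
  have hx : ∀ i, x i ∈ T := by
    intro i
    have := (hgood (X i) (Finset.mem_insert_of_mem (Finset.mem_union_left _
      (Finset.mem_image_of_mem _ (Finset.mem_univ i))))).1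
    rwa [aeval_X] at this
  refine ⟨F, fun v => ?_, fun F' hF' => ?_⟩
  · obtain ⟨q, hq, h2⟩ := hT v.1 v.2
    have h3 := h2.2 C g hon
    rw [hq, hg _ v.2] at h3
    rw [h3, ← hF, ← hφ, hq]
  · have h1 : F'.comp φ = F.comp φ := by
      apply MvPolynomial.algHom_ext
      intro i
      rw [AlgHom.comp_apply, AlgHom.comp_apply, hF]
      have h2 := hF' ⟨x i, hx i⟩
      change F' (x i) = ψ (X i)
      rw [h2, aeval_X, hg _ (hx i)]
    ext a
    obtain ⟨p, rfl⟩ := hs a
    exact DFunLike.congr_fun h1 p

end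

end Pool.Agent.Run7.h902.Cv
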