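import Pool.Agent.Run7.h902.CvDefs
import Pool.Agent.Run7.h902.CvRing

/-!
# Every finitely presented algebra is the ring of a space of configurations of points in the plane,
general base

A quantity `v` is represented by the points `(1, v, 0)`, `(1, 0, v)`, `(0, 1, v)`, `(1, 1, v)`,
`(1, 0, -v)`; products and sums are collinearity conditions.
-/

set_option autoImplicit false
set_option linter.unusedSectionVars false

open MvPolynomial Pool.Agent.Z125.UN

namespace Pool.Agent.Run7.h902.Cv

section matrices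

variable {R : Type} [CommRing R] {α β : Type} {fix : α → Fin 3 → R} {τ : β → Fin 3} {C : Type}
  [CommRing C]

/-- matrices whose rows have the normal form of the cell -/
def Norm (τ : β → Fin 3) (y : β → Fin 3 → C) : Prop :=
  ∀ k r, ¬ τ k < r → y k r = if r = τ k then 1 else 0

/-- with the fixed points -/
def full [Algebra R C] (fix : α → Fin 3 → R) (y : β → Fin 3 → C) : α ⊕ β → Fin 3 → C
  | Sum.inl i => fun r => algebraMap R C (fix i r)
  | Sum.inr k => y k

/-- the values of the free coordinates -/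
def asg (τ : β → Fin 3) (y : β → Fin 3 → C) : Co τ → C := fun s => y s.1.1 s.1.2

lemma aeval_vec [Algebra R C] {y : β → Fin 3 → C} (hy : Norm τ y) (p : α ⊕ β) (r : Fin 3) :
    aeval (asg τ y) (vec fix τ p r) = full fix y p r := by
  rcases p with i | k
  · simp only [vec, full, aeval_C]
  · by_cases h : τ k < r
    · simp only [vec, full, dif_pos h, aeval_X, asg]
    · simp only [vec, full, dif_neg h, hy k r h]
      split_ifs
      · rw [map_one]
      · rw [map_zero]

lemma det3_apply (u v w : Fin 3 → C) : det3 u v w = u 0 * v 1 * w 2 - u 0 * v 2 * w 1 -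
    u 1 * v 0 * w 2 + u 1 * v 2 * w 0 + u 2 * v 0 * w 1 - u 2 * v 1 * w 0 := by
  simp [det3, Matrix.det_fin_three]

lemma aeval_dt [Algebra R C] {y : β → Fin 3 → C} (hy : Norm τ y) (t : Tr α β) :
    aeval (asg τ y) (dt fix τ t) = det3 (full fix y t.1) (full fix y t.2.1) (full fix y t.2.2) := by
  rw [dt, det3_apply, det3_apply]
  simp only [map_add, map_sub, map_mul, aeval_vec hy]

end matrices

/-- the labels of the points -/
abbrev Lb (V : Type) : Type := Fin 5 ⊕ (V × Fin 5)

/-- the cells -/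
def cell (V : Type) : Lb V → Fin 3
  | Sum.inl i => ![0, 0, 1, 0, 1] i
  | Sum.inr (_, f) => ![0, 0, 1, 0, 0] f

section tar

variable {V : Type} {C : Type} [CommRing C]

/-- the auxiliary points -/
def tarAux (C : Type) [CommRing C] : Fin 5 → Fin 3 → C :=
  ![![1, 1, 0], ![1, 0, 1], ![0, 1, 1], ![1, -1, 0], ![0, 1, -1]]

/-- the points of a quantity -/
def tarVar (z : C) : Fin 5 → Fin 3 → C :=
  ![![1, z, 0], ![1, 0, z], ![0, 1, z], ![1, 1, z], ![1, 0, -z]]

/-- the matrix of the values of the quantities -/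
def tar (val : V → C) : Lb V → Fin 3 → C
  | Sum.inl i => tarAux C i
  | Sum.inr (v, f) => tarVar (val v) f

lemma norm_tar (val : V → C) : Norm (cell V) (tar val) := by
  rintro (i | ⟨v, f⟩) r h
  · fin_cases i <;> fin_cases r <;> simp_all [cell, tar, tarAux]
  · fin_cases f <;> fin_cases r <;> simp_all [cell, tar, tarVar]

lemma map_tar {C' : Type} [CommRing C'] (φ : C →+* C') (v : V → C) (k : Lb V) (r : Fin 3) :
    φ (tar v k r) = tar (fun u => φ (v u)) k r := by
  rcases k with i | ⟨u, f⟩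
  · fin_cases i <;> fin_cases r <;> simp [tar, tarAux]
  · fin_cases f <;> fin_cases r <;> simp [tar, tarVar]

end tar

section rel

variable {R : Type} [CommRing R] {K : Finset R} {V : Type}

/-- the labels of the fixed points: the fix and the constants -/
abbrev Fx (K : Finset R) : Type := Fin 4 ⊕ K

/-- the fixed points -/
def fix (K : Finset R) : Fx K → Fin 3 → R
  | Sum.inl i => ![![1, 0, 0], ![0, 1, 0], ![0, 0, 1], ![1, 1, 1]] i
  | Sum.inr c => ![1, c.1, 0]

/-- the fix -/
def fe (i : Fin 4) : Fx K ⊕ Lb V := Sum.inl (Sum.inl i)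

/-- the points of the constants -/
def fc (c : K) : Fx K ⊕ Lb V := Sum.inl (Sum.inr c)

/-- the auxiliary points -/
def fa (i : Fin 5) : Fx K ⊕ Lb V := Sum.inr (Sum.inl i)

/-- the points of the quantities -/
def fw (v : V) (f : Fin 5) : Fx K ⊕ Lb V := Sum.inr (Sum.inr (v, f))

/-- the relations of the auxiliary points -/
def auxRel : Fin 8 → Tr (Fx K) (Lb V) :=
  ![(fe 0, fe 1, fa 0), (fe 2, fe 3, fa 0), (fe 0, fe 2, fa 1), (fe 1, fe 3, fa 1),
    (fe 0, fe 3, fa 2), (fe 0, fe 1, fa 3), (fa 1, fa 2, fa 3), (fa 0, fa 1, fa 4)]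

/-- the relations of the points of a quantity -/
def varRel (v : V) : Fin 8 → Tr (Fx K) (Lb V) :=
  ![(fe 0, fe 1, fw v 0), (fe 0, fe 2, fw v 1), (fe 2, fe 3, fw v 3), (fe 0, fe 2, fw v 4),
    (fw v 0, fw v 1, fa 4), (fw v 1, fw v 2, fa 3), (fw v 2, fw v 3, fe 0), (fw v 0, fw v 4, fa 2)]

variable {A : Type} [CommRing A] [Algebra R A]

/-- the collinear triples -/
inductive IsRel (K : Finset R) (ι : V → A) : Tr (Fx K) (Lb V) → Prop
  | aux (i : Fin 8) : IsRel K ι (auxRel i)
  | var (v : V) (i : Fin 8) : IsRel K ι (varRel v i)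
  | const (c : K) (v : V) (h : ι v = algebraMap R A c.1) : IsRel K ι (fe 2, fc c, fw v 0)
  | zero (v : V) (h : ι v = 0) : IsRel K ι (fe 0, fe 1, fw v 1)
  | one (v : V) (h : ι v = 1) : IsRel K ι (fe 2, fe 3, fw v 0)
  | add (u v w : V) (h : ι w = ι u + ι v) : IsRel K ι (fw u 1, fw v 2, fw w 3)
  | mul (u v w : V) (h : ι w = ι u * ι v) : IsRel K ι (fw u 0, fw v 2, fw w 4)

/-- the finite set of the collinear triples -/
noncomputable def dd [Finite V] (K : Finset R) (ι : V → A) : Finset (Tr (Fx K) (Lb V)) :=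
  (Set.toFinite {t | IsRel K ι t}).toFinset

lemma mem_dd [Finite V] (ι : V → A) (t : Tr (Fx K) (Lb V)) : t ∈ dd K ι ↔ IsRel K ι t := by
  rw [dd, Set.Finite.mem_toFinset]
  rfl

variable {C : Type} [CommRing C] [Algebra R C]

/-- all relations hold for a matrix -/
def Holds (K : Finset R) (ι : V → A) (y : Lb V → Fin 3 → C) : Prop :=
  ∀ t, IsRel K ι t →
    det3 (full (fix K) y t.1) (full (fix K) y t.2.1) (full (fix K) y t.2.2) = 0

lemma holds_tar (ι : V → A) (f : V → C) (h : Cmp K ι f) : Holds K ι (tar f) := by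
  rintro t (i | ⟨v, i⟩ | ⟨c, v, hv⟩ | ⟨v, hv⟩ | ⟨v, hv⟩ | ⟨u, v, w, hw⟩ | ⟨u, v, w, hw⟩)
  · rw [det3_apply]
    fin_cases i <;> simp [auxRel, full, fe, fa, fix, tar, tarAux]
  · rw [det3_apply]
    fin_cases i <;> simp [varRel, full, fe, fa, fw, fix, tar, tarAux, tarVar]
  · rw [det3_apply]
    simp [full, fe, fc, fw, fix, tar, tarVar, h.const c.1 c.2 v hv]
  · rw [det3_apply]
    simp [full, fe, fw, fix, tar, tarVar, h.zero v hv]
  · rw [det3_apply]
    simp [full, fe, fw, fix, tar, tarVar, h.one v hv]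
  · rw [det3_apply]
    simp [full, fw, tar, tarVar, h.add u v w hw]
  · rw [det3_apply]
    simp [full, fw, tar, tarVar, h.mul u v w hw]

section back

variable {ι : V → A} {Y : Lb V → Fin 3 → C}

lemma nrm {k : Lb V} {r : Fin 3} (hn : Norm (cell V) Y) (h : ¬ cell V k < r) :
    Y k r = if r = cell V k then 1 else 0 := hn k r h

lemma back_aux (hn : Norm (cell V) Y) (h : Holds K ι Y) (i : Fin 5) :
    Y (Sum.inl i) = tarAux C i := by
  have a00 : Y (Sum.inl 0) 0 = 1 := by
    rw [nrm hn (by simp [cell])]; simp [cell]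
  have a10 : Y (Sum.inl 1) 0 = 1 := by
    rw [nrm hn (by simp [cell])]; simp [cell]
  have a20 : Y (Sum.inl 2) 0 = 0 := by
    rw [nrm hn (by simp [cell])]; simp [cell]
  have a21 : Y (Sum.inl 2) 1 = 1 := by
    rw [nrm hn (by simp [cell])]; simp [cell]
  have a30 : Y (Sum.inl 3) 0 = 1 := by
    rw [nrm hn (by simp [cell])]; simp [cell]
  have a40 : Y (Sum.inl 4) 0 = 0 := by
    rw [nrm hn (by simp [cell])]; simp [cell]
  have a41 : Y (Sum.inl 4) 1 = 1 := by
    rw [nrm hn (by simp [cell])]; simp [cell]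
  have h0 := h _ (IsRel.aux 0)
  have h1 := h _ (IsRel.aux 1)
  have h2 := h _ (IsRel.aux 2)
  have h3 := h _ (IsRel.aux 3)
  have h4 := h _ (IsRel.aux 4)
  have h5 := h _ (IsRel.aux 5)
  have h6 := h _ (IsRel.aux 6)
  have h7 := h _ (IsRel.aux 7)
  rw [det3_apply] at h0 h1 h2 h3 h4 h5 h6 h7
  simp [auxRel, full, fe, fa, fix, a00, a10, a20, a21, a30, a40, a41] at h0 h1 h2 h3 h4 h5 h6 h7
  have b01 : Y (Sum.inl 0) 1 = 1 := sub_eq_zero.mp h1
  have b12 : Y (Sum.inl 1) 2 = 1 := by linear_combination -h3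
  have b22 : Y (Sum.inl 2) 2 = 1 := sub_eq_zero.mp h4
  rw [h5, b22, h2, b12] at h6
  have b31 : Y (Sum.inl 3) 1 = -1 := by linear_combination -h6
  rw [h2, b12, b01, h0] at h7
  have b42 : Y (Sum.inl 4) 2 = -1 := by linear_combination -h7
  funext r
  fin_cases i <;> fin_cases r <;>
    simp [tarAux, a00, a10, a20, a21, a30, a40, a41, h0, h2, h5, b01, b12, b22, b31, b42]

lemma back_var (hn : Norm (cell V) Y) (h : Holds K ι Y) (v : V) (f : Fin 5) :
    Y (Sum.inr (v, f)) = tarVar (Y (Sum.inr (v, 0)) 1) f := by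
  have a00 : Y (Sum.inr (v, 0)) 0 = 1 := by
    rw [nrm hn (by simp [cell])]; simp [cell]
  have a10 : Y (Sum.inr (v, 1)) 0 = 1 := by
    rw [nrm hn (by simp [cell])]; simp [cell]
  have a20 : Y (Sum.inr (v, 2)) 0 = 0 := by
    rw [nrm hn (by simp [cell])]; simp [cell]
  have a21 : Y (Sum.inr (v, 2)) 1 = 1 := by
    rw [nrm hn (by simp [cell])]; simp [cell]
  have a30 : Y (Sum.inr (v, 3)) 0 = 1 := by
    rw [nrm hn (by simp [cell])]; simp [cell]
  have a40 : Y (Sum.inr (v, 4)) 0 = 1 := by
    rw [nrm hn (by simp [cell])]; simp [cell]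
  have h0 := h _ (IsRel.var v 0)
  have h1 := h _ (IsRel.var v 1)
  have h2 := h _ (IsRel.var v 2)
  have h3 := h _ (IsRel.var v 3)
  have h4 := h _ (IsRel.var v 4)
  have h5 := h _ (IsRel.var v 5)
  have h6 := h _ (IsRel.var v 6)
  have h7 := h _ (IsRel.var v 7)
  rw [det3_apply] at h0 h1 h2 h3 h4 h5 h6 h7
  simp [varRel, full, fe, fa, fw, fix, a00, a10, a20, a21, a30, a40, back_aux hn h,
    tarAux] at h0 h1 h2 h3 h4 h5 h6 h7
  have b11 : Y (Sum.inr (v, 1)) 2 = Y (Sum.inr (v, 0)) 1 := by
    rw [h1, h0] at h4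
    linear_combination -h4
  have b22 : Y (Sum.inr (v, 2)) 2 = Y (Sum.inr (v, 0)) 1 := by
    rw [h1, b11] at h5
    linear_combination h5
  have b31 : Y (Sum.inr (v, 3)) 1 = 1 := sub_eq_zero.mp h2
  have b32 : Y (Sum.inr (v, 3)) 2 = Y (Sum.inr (v, 0)) 1 := by
    rw [b31, b22] at h6
    linear_combination h6
  have b42 : Y (Sum.inr (v, 4)) 2 = -Y (Sum.inr (v, 0)) 1 := by
    rw [h3, h0] at h7
    linear_combination -h7
  funext r
  fin_cases f <;> fin_cases r <;>
    simp [tarVar, a00, a10, a20, a21, a30, a40, h0, h1, h3, b11, b22, b31, b32, b42]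

/-- the value of a quantity -/
def ev (Y : Lb V → Fin 3 → C) (v : V) : C := Y (Sum.inr (v, 0)) 1

lemma back_tar (hn : Norm (cell V) Y) (h : Holds K ι Y) : Y = tar (ev Y) := by
  funext k
  rcases k with i | ⟨v, f⟩
  · exact back_aux hn h i
  · exact back_var hn h v f

lemma back_cmp (hn : Norm (cell V) Y) (h : Holds K ι Y) : Cmp K ι (ev Y) where
  const c hc v hv := by
    have h1 := h _ (IsRel.const ⟨c, hc⟩ v hv)
    rw [det3_apply, back_tar hn h] at h1
    simp [full, fw, fe, fc, fix, tar, tarVar] at h1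
    exact sub_eq_zero.mp h1
  zero v hv := by
    have h1 := h _ (IsRel.zero v hv)
    rw [det3_apply, back_tar hn h] at h1
    simpa [full, fw, fe, fix, tar, tarVar] using h1
  one v hv := by
    have h1 := h _ (IsRel.one v hv)
    rw [det3_apply, back_tar hn h] at h1
    simp [full, fw, fe, fix, tar, tarVar] at h1
    exact sub_eq_zero.mp h1
  add u v w hw := by
    have h1 := h _ (IsRel.add u v w hw)
    rw [det3_apply, back_tar hn h] at h1
    simp [full, fw, tar, tarVar] at h1
    linear_combination h1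
  mul u v w hw := by
    have h1 := h _ (IsRel.mul u v w hw)
    rw [det3_apply, back_tar hn h] at h1
    simp [full, fw, tar, tarVar] at h1
    linear_combination -h1

end back

end rel

section iso

variable {R : Type} [CommRing R] {K : Finset R} {A : Type} [CommRing A] [Algebra R A] {V : Type}
  [Finite V] (ι : V → A)

/-- the ring of configurations with the collinear triples of the partial ring -/
abbrev Cn (K : Finset R) (ι : V → A) : Type := Conf (fix K) (cell V) (dd K ι) ∅

/-- the relations -/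
noncomputable abbrev g0 (K : Finset R) (ι : V → A) (t : dd K ι) :
    MvPolynomial (Co (cell V)) R := dt (fix K) (cell V) t.1

/-- the empty product -/
noncomputable abbrev w0 (K : Finset R) (V : Type) : MvPolynomial (Co (cell V)) R :=
  ∏ t ∈ (∅ : Finset (Tr (Fx K) (Lb V))), dt (fix K) (cell V) t

/-- the generic matrix -/
noncomputable def gen (K : Finset R) (ι : V → A) : Lb V → Fin 3 → Cn K ι := fun k r =>
  if h : cell V k < r then pv (g0 K ι) (w0 K V) ⟨(k, r), h⟩ else if r = cell V k then 1 else 0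

lemma gen_norm : Norm (cell V) (gen K ι) := fun k r h => by rw [gen, dif_neg h]

lemma gen_asg : asg (cell V) (gen K ι) = pv (g0 K ι) (w0 K V) := by
  funext s
  rw [asg, gen, dif_pos s.2]

lemma gen_holds : Holds K ι (gen K ι) := by
  intro t ht
  have h := aeval_dt (R := R) (fix := fix K) (gen_norm (K := K) ι) t
  rw [← h, gen_asg, pc_aeval]
  exact pc_rel (g0 K ι) _ ⟨t, (mem_dd ι t).mpr ht⟩

/-- An algebra which is the universal algebra of a finite partial ring is the ring of a space of
configurations with some collinear triples. -/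
theorem conf_univ (hu : Univ K ι) : Nonempty (A ≃ₐ[R] Cn K ι) := by
  obtain ⟨F, hF, -⟩ := hu _ (ev (gen K ι)) (back_cmp (gen_norm (K := K) ι) (gen_holds (K := K) ι))
  have hc : Cmp K ι ι := ⟨fun _ _ _ h => h, fun _ h => h, fun _ h => h, fun _ _ _ h => h,
    fun _ _ _ h => h⟩
  have h1 : ∀ t : dd K ι, aeval (asg (cell V) (tar ι)) (dt (fix K) (cell V) t.1) = 0 := by
    intro t
    rw [aeval_dt (norm_tar _)]
    exact holds_tar ι ι hc _ ((mem_dd ι t.1).mp t.2)
  have h2 : IsUnit (aeval (asg (cell V) (tar ι)) (w0 K V)) := by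
    change IsUnit (aeval (asg (cell V) (tar ι)) (∏ t ∈ ∅, _))
    rw [Finset.prod_empty, map_one]
    exact isUnit_one
  let G : Cn K ι →ₐ[R] A := pcLift _ _ _ h1 h2
  have hG : ∀ s, G (pv _ _ s) = asg (cell V) (tar ι) s := fun s => pcLift_pv _ _ _ h1 h2 s
  have hGg : ∀ k r, G (gen K ι k r) = tar ι k r := by
    intro k r
    by_cases h : cell V k < r
    · have e : gen K ι k r = pv _ _ ⟨(k, r), h⟩ := by rw [gen, dif_pos h]
      rw [e, hG]
      rfl
    · rw [gen, dif_neg h, norm_tar ι k r h]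
      split_ifs
      · rw [map_one]
      · rw [map_zero]
  obtain ⟨I, -, hI⟩ := hu A ι hc
  have hGF : G.comp F = AlgHom.id R A := by
    have e1 := hI (G.comp F) fun v => by
      rw [AlgHom.comp_apply, hF, ev, hGg]
      simp [tar, tarVar]
    have e2 := hI (AlgHom.id R A) fun v => rfl
    rw [e1, e2]
  have hFG : F.comp G = AlgHom.id R _ := by
    apply pc_ext
    intro s
    rw [AlgHom.comp_apply, hG]
    change F (tar ι s.1.1 s.1.2) = _
    rw [show F (tar ι s.1.1 s.1.2) = tar (fun u => F (ι u)) s.1.1 s.1.2 from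
      map_tar (RingHomClass.toRingHom F) ι _ _]
    have e : (fun u => F (ι u)) = ev (gen K ι) := funext hF
    rw [e, ← back_tar (gen_norm (K := K) ι) (gen_holds (K := K) ι)]
    change asg (cell V) (gen K ι) s = _
    rw [gen_asg]
    rfl
  exact ⟨AlgEquiv.ofAlgHom F G hFG hGF⟩

end iso

/-- **Universality.** Every algebra of finite presentation over a commutative ring is isomorphic to
the ring of a space of configurations of points in the plane, some of which are fixed, with some
collinear triples. -/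
theorem exists_conf {R : Type} [CommRing R] (A : Type) [CommRing A] [Algebra R A]
    [Algebra.FinitePresentation R A] :
    ∃ (α β : Type) (_ : Finite α) (_ : Finite β) (f : α → Fin 3 → R) (τ : β → Fin 3)
      (D : Finset (Tr α β)), Nonempty (A ≃ₐ[R] Conf f τ D ∅) := by
  obtain ⟨K, V, hV, ι, hu⟩ := exists_univ (R := R) A
  exact ⟨Fx K, Lb V, inferInstance, inferInstance, fix K, cell V, dd K ι, conf_univ ι hu⟩

end Pool.Agent.Run7.h902.Cv
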