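import Pool.Agent.Run7.h902.CxMain

/-!
# The Beilinson-Soulé vanishing conjecture for higher Chow groups and moduli spaces of configurations
-/

set_option autoImplicit false

open CategoryTheory AlgebraicGeometry Pool.Agent.Y116.UV Pool.Agent.Z125.UN

namespace Pool.Agent.Run7.h902.Cw

open Pool.Agent.Run7.h902

/-- Groups `G b m X` with known properties of Bloch's higher Chow groups (the homology in degree `m` of the complex
of the cycles of dimension `b + m` on `X × Δ^m`) of schemes of finite type over a field:

* `iso`: they depend only on the isomorphism class of `X`;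
* `empty`: they vanish for the empty scheme;
* `localization`: the sequence `G b m Z → G b m X → G b m U` is exact for a closed subscheme `Z` and
  its complement `U`;
* `dim`: they vanish if `b` is greater than the dimension of `X`;
* `top`: `G e m X = CH^0(X, m) = 0` for an integral scheme `X` of dimension `e` and `m > 0`. -/
structure Chow (k : Type) [Field k] where
  G : ℤ → ℕ → Sch k → Type
  grp : ∀ (b : ℤ) (m : ℕ) (X : Sch k), AddCommGroup (G b m X)
  iso : ∀ (b : ℤ) (m : ℕ) (X Y : Sch k), FT True X → Nonempty (X ≅ Y) → Nonempty (G b m X ≃+ G b m Y)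
  empty : ∀ (b : ℤ) (m : ℕ) (X : Sch k), IsEmpty X.left → Subsingleton (G b m X)
  localization : ∀ (b : ℤ) (m : ℕ) (Z X U : Sch k) (i : Z ⟶ X) (j : U ⟶ X), FT True X →
    IsTriple i j → ∃ (f : G b m Z →+ G b m X) (g : G b m X →+ G b m U), Function.Exact f g
  dim : ∀ (b : ℤ) (m : ℕ) (X : Sch k), FT True X → ∀ e : ℕ, topologicalKrullDim X.left = e →
    (e : ℤ) < b → Subsingleton (G b m X)
  top : ∀ (m : ℕ) (X : Sch k), FT True X → IsIntegral X.left → ∀ e : ℕ,
    topologicalKrullDim X.left = e → 0 < m → Subsingleton (G e m X)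

attribute [instance] Chow.grp

/-- The Beilinson-Soulé vanishing in the weights `n ≤ w` for the scheme `X` of dimension `e`:
`H^i(X, ℤ(n)) = CH^n(X, 2 n - i) = G (e - n) (2 n - i) X` vanishes for `1 ≤ n ≤ w` and `i ≤ 0`. -/
def Chow.BS {k : Type} [Field k] (C : Chow k) (w : ℕ) (X : Sch k) : Prop :=
  ∀ e : ℕ, topologicalKrullDim X.left = e → ∀ n m : ℕ, 1 ≤ n → n ≤ w → 2 * n ≤ m →
    Subsingleton (C.G ((e : ℤ) - n) m X)

/-- The vanishing for possibly singular and reducible schemes `X` of dimension at most `e`:
`G (e - n) m X` vanishes for `1 ≤ n ≤ w` and `m ≥ 2 n`. -/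
def Chow.BSAll {k : Type} [Field k] (C : Chow k) (w : ℕ) (X : Sch k) : Prop :=
  ∀ e : ℕ, topologicalKrullDim X.left ≤ e → ∀ n m : ℕ, 1 ≤ n → n ≤ w → 2 * n ≤ m →
    Subsingleton (C.G ((e : ℤ) - n) m X)

/-- The property `P` is true for the smooth integral moduli spaces over `k` of configurations which
contain the frame and no other fixed points. -/
def ForSmooth (k : Type) [Field k] (P : Sch k → Prop) : Prop :=
  ∀ (A : Type) [CommRing A] [Algebra k A] [Algebra.FiniteType k A], IsDomain A →
    Algebra.Smooth k A → Cx.FrameModuli k A → P (aff k A)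

/-- The property `P` is true for the smooth integral moduli spaces over `k` of configurations of
dimension at most `d`, with arbitrary fixed points. -/
def ForSmoothDim (k : Type) [Field k] (d : ℕ) (P : Sch k → Prop) : Prop :=
  ∀ (A : Type) [CommRing A] [Algebra k A] [Algebra.FiniteType k A], IsDomain A →
    Algebra.Smooth k A → ringKrullDim A ≤ d → Cx.FixedModuli k A → P (aff k A)

section

variable {k : Type} [Field k] (C : Chow k)

lemma sub_mid {A B C : Type} [AddCommGroup A] [AddCommGroup B] [AddCommGroup C] {f : A →+ B}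
    {g : B →+ C} (h : Function.Exact f g) (hA : Subsingleton A) (hC : Subsingleton C) :
    Subsingleton B := by
  refine ⟨fun x y => ?_⟩
  have key : ∀ x : B, x = 0 := by
    intro x
    obtain ⟨a, rfl⟩ := (h x).mp (Subsingleton.elim _ _)
    rw [Subsingleton.elim a 0, map_zero]
  rw [key x, key y]

lemma tot_bs (w : ℕ) : Cu.Tot True (C.BSAll w) where
  iso := by
    intro X Y hX e hP
    have he : ∀ n : ℕ, topologicalKrullDim Y.left ≤ n → topologicalKrullDim X.left ≤ n := by
      intro n hn
      obtain ⟨e⟩ := e
      let f := (Over.forget _).mapIso e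
      exact (Topology.IsInducing.topologicalKrullDim_le
        (Scheme.homeoOfIso f).isInducing).trans hn
    intro n hn a m h1 h2 h3
    obtain ⟨g⟩ := C.iso ((n : ℤ) - a) m X Y hX e
    have := hP n (he n hn) a m h1 h2 h3
    exact g.symm.toEquiv.subsingleton
  empty X hX := fun _ _ _ _ _ _ _ => C.empty _ _ X hX
  total := by
    intro Z X U i j hX ht hZ hU n hn a m h1 h2 h3
    obtain ⟨f, g, hfg⟩ := C.localization ((n : ℤ) - a) m Z X U i j hX ht
    refine sub_mid hfg (hZ n ?_ a m h1 h2 h3) (hU n ?_ a m h1 h2 h3)
    · have h1 := (have := ht.closed; i.left.isClosedEmbedding.isInducing)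
      exact h1.topologicalKrullDim_le.trans hn
    · have h1 := (have := ht.opened; j.left.isOpenEmbedding.isInducing)
      exact h1.topologicalKrullDim_le.trans hn

lemma bs_of_all (X : Sch k) {w : ℕ} (h : C.BSAll w X) : C.BS w X :=
  fun e he => h e he.le

lemma all_of_bs (X : Sch k) (hX : FT True X) (hI : IsIntegral X.left) {e w : ℕ}
    (he : topologicalKrullDim X.left = e) (hb : C.BS w X) : C.BSAll w X := by
  intro d hd n m h1 h2 h3
  have hed : e ≤ d := by
    rw [he] at hd
    exact_mod_cast hd
  rcases lt_trichotomy (e : ℤ) ((d : ℤ) - n) with hlt | heq | hgt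
  · exact C.dim _ m X hX e he hlt
  · rw [← heq]
    exact C.top m X hX hI e he (by omega)
  · obtain ⟨n', hn'⟩ : ∃ n' : ℕ, (e : ℤ) - n' = (d : ℤ) - n := ⟨(e - (d - n) : ℤ).toNat, by omega⟩
    rw [← hn']
    exact hb e he n' m (by omega) (by omega) (by omega)

/-- the dimension of an integral affine scheme with bounded dimension is a natural number -/
lemma exists_dim (A : Type) [CommRing A] [Algebra k A] [IsDomain A] {d : ℕ}
    (h : ringKrullDim A ≤ d) : ∃ e : ℕ, topologicalKrullDim (aff k A).left = e := by
  have h1 : topologicalKrullDim (aff k A).left = ringKrullDim A :=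
    PrimeSpectrum.topologicalKrullDim_eq_ringKrullDim A
  rw [h1]
  have h2 : (0 : WithBot ℕ∞) ≤ ringKrullDim A := ringKrullDim_nonneg_of_nontrivial
  obtain ⟨x, hx⟩ := WithBot.ne_bot_iff_exists.mp (ne_bot_of_le_ne_bot (by simp) h2)
  rw [← hx] at h ⊢
  have h3 : x ≤ (d : ℕ∞) := by exact_mod_cast h
  obtain ⟨e, he⟩ := ENat.ne_top_iff_exists.mp (ne_top_of_le_ne_top (ENat.natCast_ne_top d) h3)
  exact ⟨e, by rw [← he]; rfl⟩

lemma smooth_aff {R : Type} [CommRing R] {A : Type} [CommRing A] [Algebra R A]
    (h : Algebra.Smooth R A) : Smooth (aff R A).hom := by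
  change Smooth (Spec.map (CommRingCat.ofHom (algebraMap R A)))
  rw [HasRingHomProperty.Spec_iff (P := @Smooth)]
  exact RingHom.smooth_algebraMap.mpr h

lemma integral_aff {R : Type} [CommRing R] {A : Type} [CommRing A] [Algebra R A] (h : IsDomain A) :
    IsIntegral (aff R A).left :=
  inferInstanceAs (IsIntegral (Spec (.of A)))

/-- **Theorem.** For a perfect field `k` and all `w` and `d` the following are equivalent:
(1) the Beilinson-Soulé vanishing in the weights `n ≤ w` for all smooth integral schemes over `k` of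
dimension at most `d`; (2) the vanishing `G (e - n) m X = 0`, `1 ≤ n ≤ w`, `m ≥ 2 n`, for all schemes
`X` of finite type of dimension at most `e` and `d`; (3) the Beilinson-Soulé vanishing in the weights
`n ≤ w` for the smooth integral moduli spaces of configurations of dimension at most `d`. -/
theorem bs_dim [PerfectField k] (w d : ℕ) :
    List.TFAE [
      ∀ X : Sch k, FT True X → IsIntegral X.left → Smooth X.hom → topologicalKrullDim X.left ≤ d →
        C.BS w X,
      ∀ X : Sch k, FT True X → topologicalKrullDim X.left ≤ d → C.BSAll w X,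
      ForSmoothDim k d (C.BS w)] := by
  have h1 : ∀ (A : Type) [CommRing A] [Algebra k A],
      topologicalKrullDim (aff k A).left = ringKrullDim A := fun A _ _ =>
    PrimeSpectrum.topologicalKrullDim_eq_ringKrullDim A
  tfae_have 2 → 1 := fun H X hX _ _ hd => bs_of_all C X (H X hX hd)
  tfae_have 1 → 3 := by
    intro H A _ _ _ hd hN hN2 _
    exact H _ (ft_aff True) (integral_aff hd) (smooth_aff hN) (by rw [h1]; exact hN2)
  tfae_have 3 → 2 := by
    intro H X hX hXd
    refine Cx.fixed_dim (Cu.generic_field k) (tot_bs C w) d (fun A _ _ _ hd hN hN2 hM => ?_) X hX hXd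
    obtain ⟨e, he⟩ := exists_dim (k := k) _ hN2
    exact all_of_bs C _ (ft_aff True) (integral_aff hd) he (H A hd hN hN2 hM)
  tfae_finish

/-- **Theorem.** Over a prime field the configurations without further fixed points are enough. -/
theorem bs_prime [PerfectField k] (hk : Cu.IntFrac k) (w d : ℕ)
    (H : ForSmooth k fun X => topologicalKrullDim X.left ≤ d → C.BS w X) :
    ∀ X : Sch k, FT True X → topologicalKrullDim X.left ≤ d → C.BSAll w X := by
  have h1 : ∀ (A : Type) [CommRing A] [Algebra k A],
      topologicalKrullDim (aff k A).left = ringKrullDim A := fun A _ _ =>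
    PrimeSpectrum.topologicalKrullDim_eq_ringKrullDim A
  intro X hX hXd
  refine Cx.frame_dim hk (Cu.generic_field k) (tot_bs C w) d (fun A _ _ _ hd hN hN2 hM => ?_) X hX hXd
  obtain ⟨e, he⟩ := exists_dim (k := k) _ hN2
  exact all_of_bs C _ (ft_aff True) (integral_aff hd) he (H A hd hN hM (by rw [h1]; exact hN2))

end

end Pool.Agent.Run7.h902.Cw
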