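import Mathlib

/-!
# Moduli spaces of configurations of points in the projective plane

A configuration consists of points of the projective plane which are labelled by `α ⊕ β`. The points in
`α` are fixed, with coordinates `fix` in the base ring `R`. Every point `k` in `β` lies in a given
Schubert cell: its coordinate vector is `(1, x, y)`, `(0, 1, y)` or `(0, 0, 1)` if `τ k` is `0`, `1` or
`2`. For every triple of points it is prescribed whether it is collinear: the determinant of the
coordinate vectors is zero for the triples in `D` and invertible for all other triples.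
-/

set_option autoImplicit false

namespace Pool.Agent.Run7.h902.Cx

/-- triples of points -/
abbrev Tr (α β : Type) : Type := (α ⊕ β) × (α ⊕ β) × (α ⊕ β)

/-- the determinant of three vectors -/
def det3 {A : Type} [CommRing A] (u v w : Fin 3 → A) : A :=
  u 0 * (v 1 * w 2 - v 2 * w 1) - u 1 * (v 0 * w 2 - v 2 * w 0) + u 2 * (v 0 * w 1 - v 1 * w 0)

/-- the coordinate vectors of the fixed points and of the moving points -/
def pts {R A α β : Type} [CommRing R] [CommRing A] [Algebra R A] (fix : α → Fin 3 → R)
    (y : β → Fin 3 → A) : α ⊕ β → Fin 3 → A :=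
  Sum.elim (fun i r => algebraMap R A (fix i r)) y

/-- The vectors `y k` are the coordinates over `A` of the moving points of a configuration in the
cells given by `τ`, such that the triples in `D` are collinear and all other triples are not
collinear. -/
structure IsConf {R A α β : Type} [CommRing R] [CommRing A] [Algebra R A] (fix : α → Fin 3 → R)
    (τ : β → Fin 3) (D : Set (Tr α β)) (y : β → Fin 3 → A) : Prop where
  zero : ∀ k r, r < τ k → y k r = 0
  one : ∀ k, y k (τ k) = 1
  collinear : ∀ t ∈ D, det3 (pts fix y t.1) (pts fix y t.2.1) (pts fix y t.2.2) = 0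
  independent : ∀ t ∉ D, IsUnit (det3 (pts fix y t.1) (pts fix y t.2.1) (pts fix y t.2.2))

/-- `Spec A` is the moduli space of the configurations: there is a universal configuration over
`A`. -/
def IsModuli (R : Type) {α β : Type} [CommRing R] (fix : α → Fin 3 → R) (τ : β → Fin 3)
    (D : Set (Tr α β)) (A : Type) [CommRing A] [Algebra R A] : Prop :=
  ∃ y : β → Fin 3 → A, IsConf fix τ D y ∧ ∀ (C : Type) [CommRing C] [Algebra R C]
    (z : β → Fin 3 → C), IsConf fix τ D z → ∃! F : A →ₐ[R] C, ∀ k r, F (y k r) = z k r

/-- the points `(1:0:0)`, `(0:1:0)`, `(0:0:1)`, `(1:1:1)` -/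
def frame (R : Type) [CommRing R] (i : Fin 4) (r : Fin 3) : R :=
  if i.val = 3 ∨ i.val = r.val then 1 else 0

/-- `Spec A` is a moduli space over `R` of configurations which contain the frame `(1:0:0)`, `(0:1:0)`,
`(0:0:1)`, `(1:1:1)` and no other fixed points: the realization space of a matroid of rank three with a
frame, modulo the projective linear group. -/
def FrameModuli (R : Type) [CommRing R] (A : Type) [CommRing A] [Algebra R A] : Prop :=
  ∃ (β : Type) (_ : Finite β) (τ : β → Fin 3) (D : Set (Tr (Fin 4) β)), IsModuli R (frame R) τ D A

/-- `Spec A` is a moduli space over `R` of configurations with finitely many fixed points. -/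
def FixedModuli (R : Type) [CommRing R] (A : Type) [CommRing A] [Algebra R A] : Prop :=
  ∃ (α β : Type) (_ : Finite α) (_ : Finite β) (fix : α → Fin 3 → R) (τ : β → Fin 3)
    (D : Set (Tr α β)), IsModuli R fix τ D A

end Pool.Agent.Run7.h902.Cx
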