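import Pool.Agent.Run7.h902.CxDefs
import Pool.Agent.Run7.h902.CvMain

/-!
# The rings `Conf` represent the functors of configurations
-/

set_option autoImplicit false

open CategoryTheory AlgebraicGeometry MvPolynomial Pool.Agent.Z125.UN Pool.Agent.Y116.UV

open Pool.Agent.Run7.h902

namespace Pool.Agent.Run7.h902.Cx

variable {R : Type} [CommRing R]

section fixed

variable {α β : Type} {fix : α → Fin 3 → R} {τ : β → Fin 3}

lemma det3_eq {C : Type} [CommRing C] (u v w : Fin 3 → C) : Cv.det3 u v w = det3 u v w := by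
  rw [Cv.det3_apply, det3]
  ring

lemma full_eq {C : Type} [CommRing C] [Algebra R C] (y : β → Fin 3 → C) :
    Cv.full fix y = pts fix y := by
  funext p
  cases p <;> rfl

lemma norm_iff {C : Type} [CommRing C] (y : β → Fin 3 → C) :
    Cv.Norm τ y ↔ (∀ k r, r < τ k → y k r = 0) ∧ ∀ k, y k (τ k) = 1 := by
  constructor
  · intro h
    refine ⟨fun k r hr => ?_, fun k => ?_⟩
    · rw [h k r (not_lt.mpr hr.le), if_neg hr.ne]
    · rw [h k _ (lt_irrefl _), if_pos rfl]
  · rintro ⟨h0, h1⟩ k r hr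
    split_ifs with h
    · rw [h, h1]
    · exact h0 k r (lt_of_le_of_ne (not_lt.mp hr) h)

/-- the generic matrix -/
noncomputable def gen (fix : α → Fin 3 → R) (τ : β → Fin 3) (D N : Finset (Cv.Tr α β)) (k : β)
    (r : Fin 3) : Cv.Conf fix τ D N :=
  if h : τ k < r then pv (fun t : D => Cv.dt fix τ t.1) (∏ t ∈ N, Cv.dt fix τ t) ⟨(k, r), h⟩
  else if r = τ k then 1 else 0

lemma gen_norm (D N : Finset (Cv.Tr α β)) : Cv.Norm τ (gen fix τ D N) := fun k r h => by
  rw [gen, dif_neg h]

lemma gen_asg (D N : Finset (Cv.Tr α β)) : Cv.asg τ (gen fix τ D N) =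
    pv (fun t : D => Cv.dt fix τ t.1) (∏ t ∈ N, Cv.dt fix τ t) := by
  funext s
  rw [Cv.asg, gen, dif_pos s.2]

lemma gen_det (D N : Finset (Cv.Tr α β)) (t : Cv.Tr α β) :
    det3 (pts fix (gen fix τ D N) t.1) (pts fix (gen fix τ D N) t.2.1)
      (pts fix (gen fix τ D N) t.2.2) =
    pc (fun t : D => Cv.dt fix τ t.1) (∏ t ∈ N, Cv.dt fix τ t) (Cv.dt fix τ t) := by
  rw [← det3_eq, ← full_eq, ← Cv.aeval_dt (R := R) (gen_norm D N) t, gen_asg, pc_aeval]

/-- The ring `Conf fix τ D N` is the ring of the moduli space, if it is not zero and all triples are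
in `D` or in `N`. -/
theorem isModuli_conf {D N : Finset (Cv.Tr α β)} (hDN : ∀ t, t ∈ D ∨ t ∈ N)
    (hn : Nontrivial (Cv.Conf fix τ D N)) :
    IsModuli R fix τ {t | t ∈ D} (Cv.Conf fix τ D N) := by
  have hu : ∀ t ∈ N, IsUnit (pc (fun t : D => Cv.dt fix τ t.1) (∏ t ∈ N, Cv.dt fix τ t)
      (Cv.dt fix τ t)) := by
    intro t ht
    have h1 := pc_unit (fun t : D => Cv.dt fix τ t.1) (∏ t ∈ N, Cv.dt fix τ t)
    rw [map_prod, IsUnit.prod_iff] at h1
    exact h1 t ht
  have hd : ∀ t ∈ N, t ∉ D := by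
    intro t ht hD
    have h1 := hu t ht
    rw [pc_rel (fun t : D => Cv.dt fix τ t.1) (∏ t ∈ N, Cv.dt fix τ t) ⟨t, hD⟩] at h1
    exact not_isUnit_zero h1
  have hN := (norm_iff (gen fix τ D N)).mp (gen_norm D N)
  refine ⟨gen fix τ D N, ⟨hN.1, hN.2, fun t ht => ?_, fun t ht => ?_⟩, ?_⟩
  · rw [gen_det]
    exact pc_rel (fun t : D => Cv.dt fix τ t.1) (∏ t ∈ N, Cv.dt fix τ t) ⟨t, ht⟩
  · rw [gen_det]
    exact hu t ((hDN t).resolve_left ht)
  · intro C _ _ z hz
    have hzn : Cv.Norm τ z := (norm_iff z).mpr ⟨hz.zero, hz.one⟩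
    have h1 : ∀ t : D, aeval (Cv.asg τ z) (Cv.dt fix τ t.1) = 0 := by
      intro t
      rw [Cv.aeval_dt hzn, det3_eq, full_eq]
      exact hz.collinear t.1 t.2
    have h2 : IsUnit (aeval (Cv.asg τ z) (∏ t ∈ N, Cv.dt fix τ t)) := by
      rw [map_prod, IsUnit.prod_iff]
      intro t ht
      rw [Cv.aeval_dt hzn, det3_eq, full_eq]
      exact hz.independent t (hd t ht)
    refine ⟨pcLift _ _ _ h1 h2, fun k r => ?_, fun F hF => ?_⟩
    · by_cases h : τ k < r
      · have e : gen fix τ D N k r = pv _ _ ⟨(k, r), h⟩ := by rw [gen, dif_pos h]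
        rw [e, pcLift_pv]
        rfl
      · rw [gen, dif_neg h, hzn k r h]
        split_ifs
        · rw [map_one]
        · rw [map_zero]
    · apply pc_ext
      intro s
      rw [pcLift_pv]
      have h3 := hF s.1.1 s.1.2
      rw [gen, dif_pos s.2] at h3
      exact h3

end fixed

section frame

variable {β : Type} {τ : β → Fin 3}

lemma det3_eq' {C : Type} [CommRing C] (u v w : Fin 3 → C) : Cf.det3 u v w = det3 u v w := by
  rw [Cu.det3_apply, det3]
  ring

lemma full_eq' {C : Type} [CommRing C] [Algebra R C] (y : β → Fin 3 → C) :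
    Cu.full y = pts (frame R) y := by
  funext p r
  rcases p with i | k
  · change Cf.frame C i r = algebraMap R C (frame R i r)
    rw [Cf.frame, frame]
    split_ifs
    · rw [map_one]
    · rw [map_zero]
  · rfl

lemma norm_iff' {C : Type} [CommRing C] (y : β → Fin 3 → C) :
    Cu.Norm τ y ↔ (∀ k r, r < τ k → y k r = 0) ∧ ∀ k, y k (τ k) = 1 := norm_iff y

/-- the generic matrix -/
noncomputable def gen' (R : Type) [CommRing R] (τ : β → Fin 3) (D N : Finset (Cf.Tr β)) (k : β)
    (r : Fin 3) : Cf.Conf R τ D N :=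
  if h : τ k < r then pv (fun t : D => Cf.dt R τ t.1) (∏ t ∈ N, Cf.dt R τ t) ⟨(k, r), h⟩
  else if r = τ k then 1 else 0

lemma gen_norm' (D N : Finset (Cf.Tr β)) : Cu.Norm τ (gen' R τ D N) := fun k r h => by
  rw [gen', dif_neg h]

lemma gen_asg' (D N : Finset (Cf.Tr β)) : Cu.asg τ (gen' R τ D N) =
    pv (fun t : D => Cf.dt R τ t.1) (∏ t ∈ N, Cf.dt R τ t) := by
  funext s
  rw [Cu.asg, gen', dif_pos s.2]

lemma gen_det' (D N : Finset (Cf.Tr β)) (t : Cf.Tr β) :
    det3 (pts (frame R) (gen' R τ D N) t.1) (pts (frame R) (gen' R τ D N) t.2.1)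
      (pts (frame R) (gen' R τ D N) t.2.2) =
    pc (fun t : D => Cf.dt R τ t.1) (∏ t ∈ N, Cf.dt R τ t) (Cf.dt R τ t) := by
  rw [← det3_eq', ← full_eq', ← Cu.aeval_dt (R := R) (gen_norm' D N) t, gen_asg', pc_aeval]

/-- The ring `Conf R τ D N` is the ring of the moduli space, if it is not zero and all triples are
in `D` or in `N`. -/
theorem isModuli_conf' {D N : Finset (Cf.Tr β)} (hDN : ∀ t, t ∈ D ∨ t ∈ N)
    (hn : Nontrivial (Cf.Conf R τ D N)) :
    IsModuli R (frame R) τ {t | t ∈ D} (Cf.Conf R τ D N) := by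
  have hu : ∀ t ∈ N, IsUnit (pc (fun t : D => Cf.dt R τ t.1) (∏ t ∈ N, Cf.dt R τ t)
      (Cf.dt R τ t)) := by
    intro t ht
    have h1 := pc_unit (fun t : D => Cf.dt R τ t.1) (∏ t ∈ N, Cf.dt R τ t)
    rw [map_prod, IsUnit.prod_iff] at h1
    exact h1 t ht
  have hd : ∀ t ∈ N, t ∉ D := by
    intro t ht hD
    have h1 := hu t ht
    rw [pc_rel (fun t : D => Cf.dt R τ t.1) (∏ t ∈ N, Cf.dt R τ t) ⟨t, hD⟩] at h1
    exact not_isUnit_zero h1
  have hN := (norm_iff' (gen' R τ D N)).mp (gen_norm' D N)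
  refine ⟨gen' R τ D N, ⟨hN.1, hN.2, fun t ht => ?_, fun t ht => ?_⟩, ?_⟩
  · rw [gen_det']
    exact pc_rel (fun t : D => Cf.dt R τ t.1) (∏ t ∈ N, Cf.dt R τ t) ⟨t, ht⟩
  · rw [gen_det']
    exact hu t ((hDN t).resolve_left ht)
  · intro C _ _ z hz
    have hzn : Cu.Norm τ z := (norm_iff' z).mpr ⟨hz.zero, hz.one⟩
    have h1 : ∀ t : D, aeval (Cu.asg τ z) (Cf.dt R τ t.1) = 0 := by
      intro t
      rw [Cu.aeval_dt hzn, det3_eq', full_eq' (R := R)]
      exact hz.collinear t.1 t.2
    have h2 : IsUnit (aeval (Cu.asg τ z) (∏ t ∈ N, Cf.dt R τ t)) := by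
      rw [map_prod, IsUnit.prod_iff]
      intro t ht
      rw [Cu.aeval_dt hzn, det3_eq', full_eq' (R := R)]
      exact hz.independent t (hd t ht)
    refine ⟨pcLift _ _ _ h1 h2, fun k r => ?_, fun F hF => ?_⟩
    · by_cases h : τ k < r
      · have e : gen' R τ D N k r = pv _ _ ⟨(k, r), h⟩ := by rw [gen', dif_pos h]
        rw [e, pcLift_pv]
        rfl
      · rw [gen', dif_neg h, hzn k r h]
        split_ifs
        · rw [map_one]
        · rw [map_zero]
    · apply pc_ext
      intro s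
      rw [pcLift_pv]
      have h3 := hF s.1.1 s.1.2
      rw [gen', dif_pos s.2] at h3
      exact h3

end frame

section main

variable {sep : Prop} {P : Sch R → Prop} {N : ∀ (A : Type) [CommRing A] [Algebra R A], Prop}

lemma forConf_of (h : ∀ (A : Type) [CommRing A] [Algebra R A] [Algebra.FiniteType R A],
    IsDomain A → N A → FrameModuli R A → P (aff R A)) : Cu.ForConf R N P :=
  fun β hβ τ _ _ hDM hd hN => h _ hd hN ⟨β, hβ, τ, _, isModuli_conf' hDM hd.toNontrivial⟩

lemma forConfF_of (h : ∀ (A : Type) [CommRing A] [Algebra R A] [Algebra.FiniteType R A],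
    IsDomain A → N A → FixedModuli R A → P (aff R A)) : Cv.ForConf R N P :=
  fun α β hα hβ fix τ _ _ hDM hd hN =>
    h _ hd hN ⟨α, β, hα, hβ, fix, τ, _, isModuli_conf hDM hd.toNontrivial⟩

/-- **Theorem.** A property which passes from a closed part and the complementary open part to the
scheme is true for all schemes of finite type of dimension at most `n` over a ring whose elements are
quotients of integers if it is true for the moduli spaces of configurations (containing the frame)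
which are integral, of dimension at most `n`, and have the generic property `N`. -/
theorem frame_dim [IsNoetherianRing R] (hR : Cu.IntFrac R) (hN : Cu.Generic R N)
    (hP : Cu.Tot sep P) (n : ℕ) (h : ∀ (A : Type) [CommRing A] [Algebra R A]
      [Algebra.FiniteType R A], IsDomain A → N A → ringKrullDim A ≤ n → FrameModuli R A →
        P (aff R A)) (X : Sch R) (hX : FT sep X) (hn : topologicalKrullDim X.left ≤ n) : P X :=
  (Cu.tot_dim hR hN hP n).mpr (forConf_of fun A _ _ _ hd hA => h A hd hA.1 hA.2) X hX hn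

/-- The same without a bound for the dimension. -/
theorem frame_all [IsNoetherianRing R] (hR : Cu.IntFrac R) (hN : Cu.Generic R N)
    (hP : Cu.Tot sep P) (h : ∀ (A : Type) [CommRing A] [Algebra R A]
      [Algebra.FiniteType R A], IsDomain A → N A → FrameModuli R A →
        P (aff R A)) (X : Sch R) (hX : FT sep X) : P X :=
  (Cu.tot_iff hR hN hP).mpr (forConf_of fun A _ _ _ hd hA => h A hd hA) X hX

/-- The same over any Noetherian ring, with fixed points. -/
theorem fixed_dim [IsNoetherianRing R] (hN : Cu.Generic R N)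
    (hP : Cu.Tot sep P) (n : ℕ) (h : ∀ (A : Type) [CommRing A] [Algebra R A]
      [Algebra.FiniteType R A], IsDomain A → N A → ringKrullDim A ≤ n → FixedModuli R A →
        P (aff R A)) (X : Sch R) (hX : FT sep X) (hn : topologicalKrullDim X.left ≤ n) : P X :=
  (Cv.tot_dim hN hP n).mpr (forConfF_of fun A _ _ _ hd hA => h A hd hA.1 hA.2) X hX hn

end main

end Pool.Agent.Run7.h902.Cx
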