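import Pool.Agent.Run7.h902.CzDiv
import Pool.Agent.Run7.h902.CbOpen
import Pool.Agent.Run7.h902.CwAll

/-!
# The Tate conjecture for divisors over finitely generated fields and moduli spaces of configurations
-/

set_option autoImplicit false

open CategoryTheory AlgebraicGeometry Pool.Agent.Y116.UV Pool.Agent.Z125.UN

namespace Pool.Agent.Run7.h902.Cz

open Pool.Agent.Run7.h902

/-- The field `k` is finitely generated over its prime field. -/
def FinGen (k : Type) [Field k] : Prop :=
  ∃ S : Set k, S.Finite ∧ Subfield.closure S = ⊤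

/-- The assertions `surj k X` of the problem for the smooth projective varieties `X` over the finitely
generated fields `k` of characteristic `p` (for a fixed prime number `ℓ ≠ p`), and the spaces
`B k X = V_ℓ(Br(X ⊗ k^s))^{G_k}` for smooth varieties `X`, with known facts:

* `kummer`: `surj k X` if and only if `B k X = 0`;
* `birational`: `B k X ≅ B k U` for a non-empty open subscheme `U` of a smooth variety `X` (Tate);
* `low`: `B k X = 0` for smooth `X` of dimension at most one (Tsen);
* `reduction`: it is enough to prove the assertions for the surfaces over the prime field `k₀` (regarded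
  as surfaces over finite extensions of `k₀`; André, Ambrosi for the reduction to number fields and
  finite fields; the Lefschetz theorem on `(1,1)`-classes, de Jong and Morrow for the reduction to
  surfaces);
* `compact`: a smooth affine surface over the prime field is open in a smooth projective surface. -/
structure BrauerData (p : ℕ) where
  surj : ∀ (k : Type) [Field k], Sch k → Prop
  B : ∀ (k : Type) [Field k], Sch k → Type
  kummer : ∀ (k : Type) [Field k] [CharP k p], FinGen k → ∀ X : Sch k, Cw.SmoothProjective X →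
    (surj k X ↔ Subsingleton (B k X))
  birational : ∀ (k : Type) [Field k] [CharP k p], FinGen k → ∀ (Z X U : Sch k) (i : Z ⟶ X)
    (j : U ⟶ X), FT True X → IsIntegral X.left → Smooth X.hom → Nonempty U.left → IsTriple i j →
      Nonempty (B k X ≃ B k U)
  low : ∀ (k : Type) [Field k] [CharP k p], FinGen k → ∀ X : Sch k, FT True X →
    IsIntegral X.left → Smooth X.hom → topologicalKrullDim X.left < (2 : ℕ) → Subsingleton (B k X)
  reduction : ∀ (k₀ : Type) [Field k₀] [CharP k₀ p], Cu.IntFrac k₀ →
    (∀ X : Sch k₀, Cw.SmoothProjective X → topologicalKrullDim X.left = (2 : ℕ) → surj k₀ X) →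
      ∀ (k : Type) [Field k] [CharP k p], FinGen k → ∀ X : Sch k, Cw.SmoothProjective X → surj k X
  compact : ∀ (k₀ : Type) [Field k₀] [CharP k₀ p], Cu.IntFrac k₀ → ∀ (A : Type) [CommRing A]
    [Algebra k₀ A] [Algebra.FiniteType k₀ A], IsDomain A → Algebra.Smooth k₀ A →
      ringKrullDim A = (2 : ℕ) → ∃ (Z Y : Sch k₀) (i : Z ⟶ Y) (j : aff k₀ A ⟶ Y), IsTriple i j ∧
        Cw.SmoothProjective Y ∧ topologicalKrullDim Y.left = (2 : ℕ)

lemma finGen_prime (k₀ : Type) [Field k₀] (h : Cu.IntFrac k₀) : FinGen k₀ := by
  refine ⟨∅, Set.finite_empty, ?_⟩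
  rw [eq_top_iff]
  intro c _
  obtain ⟨m, n, hn, hc⟩ := h c
  have hn0 : ((n : ℤ) : k₀) ≠ 0 := hn.ne_zero
  have hc2 : c = (m : k₀) / (n : k₀) := by
    rw [eq_div_iff hn0, mul_comm]
    exact hc
  rw [hc2]
  exact div_mem (intCast_mem _ m) (intCast_mem _ n)

/-- **Theorem.** The Tate conjecture for divisors over all finitely generated fields of characteristic
`p`, `p` a prime number or zero, is equivalent to `V_ℓ(Br(U ⊗ k^s))^G = 0` for the smooth integral moduli
spaces of configurations over the prime field, of dimension at most `2`. -/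
theorem brauer_iff {p : ℕ} (F : BrauerData p) (k₀ : Type) [Field k₀] [CharP k₀ p]
    (hk : Cu.IntFrac k₀) :
    (∀ (k : Type) [Field k] [CharP k p], FinGen k → ∀ X : Sch k, Cw.SmoothProjective X →
      F.surj k X) ↔
    ∀ (A : Type) [CommRing A] [Algebra k₀ A] [Algebra.FiniteType k₀ A], IsDomain A →
      Algebra.Smooth k₀ A → Cx.FrameModuli k₀ A → ringKrullDim A ≤ (2 : ℕ) →
        Subsingleton (F.B k₀ (aff k₀ A)) := by
  have hg := finGen_prime k₀ hk
  have hp := Cw.perfect_of_prime k₀ hk
  constructor
  · intro H A _ _ _ hd hN _ hA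
    rcases hA.lt_or_eq with hA | hA
    · exact F.low k₀ hg _ (ft_aff True) (Cw.integral_aff hd) (Cw.smooth_aff hN)
        (by rw [Cw.dim_aff]; exact hA)
    · obtain ⟨Z, Y, i, j, ht, hY, hYd⟩ := F.compact k₀ hk A hd hN hA
      have hne : Nonempty (aff k₀ A).left := inferInstanceAs (Nonempty (PrimeSpectrum A))
      obtain ⟨e⟩ := F.birational k₀ hg Z Y _ i j hY.ft hY.integral hY.smooth hne ht
      have := (F.kummer k₀ hg Y hY).mp (H k₀ hg Y hY)
      exact e.symm.subsingleton
  · intro H
    refine F.reduction k₀ hk fun Y hY hYd => ?_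
    obtain ⟨A, _, _, _, j, Z, i, hd, hN, hM, hZ, ht⟩ :=
      Cb.exists_open hk (Cu.generic_field k₀) hY.ft hY.integral
    have hne : Nonempty (aff k₀ A).left := inferInstanceAs (Nonempty (PrimeSpectrum A))
    have hdim : ringKrullDim A ≤ (2 : ℕ) := by
      rw [← Cw.dim_aff k₀ A]
      exact open_dim ht hYd.le
    obtain ⟨e⟩ := F.birational k₀ hg Z Y _ i j hY.ft hY.integral hY.smooth hne ht
    rw [F.kummer k₀ hg Y hY]
    have := H A hd hN hM hdim
    exact e.subsingleton

end Pool.Agent.Run7.h902.Cz
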