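import Pool.Agent.Run7.h902.CzDiv
import Pool.Agent.Run7.h902.CbOpen

/-!
# Semisimplicity of the Frobenius on the second cohomology of surfaces, and configurations
-/

set_option autoImplicit false

open CategoryTheory AlgebraicGeometry Pool.Agent.Y116.UV Pool.Agent.Z125.UN

namespace Pool.Agent.Run7.h902.Cz

open Pool.Agent.Run7.h902 Polynomial

/-- The vector spaces `V X = Gr^W_2 H^2_c(X ⊗ 𝔽̄_p, ℚ_ℓ)` of schemes `X` of finite type over `𝔽_p` with the
action `F` of the geometric Frobenius (`W` is the weight filtration; `V X = H^2(X ⊗ 𝔽̄_p, ℚ_ℓ)` for a smooth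
projective `X`), with known properties:

* `low`: `V X` is semisimple if the dimension of `X` is less than `2` (a sum of permutation
  representations twisted by `ℚ_ℓ(-1)`);
* `opened`: for a non-empty open subscheme `U` of a smooth projective surface `Y` the map `V U → V Y` is
  injective, and `V Y` is generated by its image and by the Néron-Severi group `N` on which a
  power `F^r` acts by multiplication by `p^r` (the orthogonal complement of `N` vanishes on the
  complementary curves, and `V Y` is the sum of `N` and its orthogonal complement by the Hodge index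
  theorem);
* `compact`: a smooth affine surface is open in a smooth projective surface. -/
structure Frobenius (p l : ℕ) [Fact p.Prime] [Fact l.Prime] where
  V : Sch (ZMod p) → Type
  grp : ∀ X, AddCommGroup (V X)
  mod : ∀ X, Module ℚ_[l] (V X)
  F : ∀ X, Module.End ℚ_[l] (V X)
  fin : ∀ X, FT True X → Module.Finite ℚ_[l] (V X)
  low : ∀ X, FT True X → topologicalKrullDim X.left < (2 : ℕ) → (F X).IsSemisimple
  opened : ∀ (Z Y U : Sch (ZMod p)) (i : Z ⟶ Y) (j : U ⟶ Y), Cw.SmoothProjective Y →
    topologicalKrullDim Y.left = (2 : ℕ) → Nonempty U.left → IsTriple i j →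
      ∃ (f : V U →ₗ[ℚ_[l]] V Y) (N : Submodule ℚ_[l] (V Y)) (r : ℕ), Function.Injective f ∧
        (∀ x, f (F U x) = F Y (f x)) ∧ r ≠ 0 ∧ (∀ x ∈ N, (F Y ^ r) x = (p : ℚ_[l]) ^ r • x) ∧
        N ⊔ LinearMap.range f = ⊤
  compact : ∀ (A : Type) [CommRing A] [Algebra (ZMod p) A] [Algebra.FiniteType (ZMod p) A],
    IsDomain A → Algebra.Smooth (ZMod p) A → ringKrullDim A = (2 : ℕ) →
      ∃ (Z Y : Sch (ZMod p)) (i : Z ⟶ Y) (j : aff (ZMod p) A ⟶ Y), IsTriple i j ∧
        Cw.SmoothProjective Y ∧ topologicalKrullDim Y.left = (2 : ℕ)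

attribute [instance] Frobenius.grp Frobenius.mod

section algebra

variable {K V W : Type} [Field K] [AddCommGroup V] [Module K V] [AddCommGroup W] [Module K W]

lemma intertwine (f : V →ₗ[K] W) (S : Module.End K V) (T : Module.End K W)
    (h : ∀ x, f (S x) = T (f x)) (g : K[X]) (x : V) : f (aeval S g x) = aeval T g (f x) := by
  have hp : ∀ (n : ℕ) (x : V), f ((S ^ n) x) = (T ^ n) (f x) := by
    intro n
    induction n with
    | zero => intro x; rfl
    | succ n ih =>
      intro x
      rw [pow_succ, pow_succ, Module.End.mul_apply, Module.End.mul_apply, ih, h]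
  induction g using Polynomial.induction_on' with
  | add a b ha hb =>
    rw [map_add, map_add, LinearMap.add_apply, LinearMap.add_apply, map_add, ha, hb]
  | monomial n a =>
    rw [aeval_monomial, aeval_monomial, Module.End.mul_apply, Module.End.mul_apply,
      Module.algebraMap_end_apply, Module.algebraMap_end_apply, map_smul, hp]

/-- an invariant subspace of a semisimple space -/
lemma semisimple_of_injective [FiniteDimensional K W] (f : V →ₗ[K] W) (S : Module.End K V)
    (T : Module.End K W) (h : ∀ x, f (S x) = T (f x)) (hf : Function.Injective f)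
    (hT : T.IsSemisimple) : S.IsSemisimple := by
  refine Module.End.isSemisimple_of_squarefree_aeval_eq_zero hT.minpoly_squarefree ?_
  ext x
  apply hf
  rw [intertwine f S T h, minpoly.aeval, LinearMap.zero_apply, LinearMap.zero_apply, map_zero]

/-- the product of squarefree polynomials without the common factors -/
lemma exists_squarefree {a b : K[X]} (ha : Squarefree a) (hb : Squarefree b) :
    ∃ h : K[X], Squarefree (a * h) ∧ b ∣ a * h := by
  classical
  obtain ⟨h, hh⟩ := EuclideanDomain.gcd_dvd_right a b
  obtain ⟨a', ha'⟩ := EuclideanDomain.gcd_dvd_left a b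
  refine ⟨h, ?_, ?_⟩
  · rw [squarefree_mul_iff]
    refine ⟨fun x hxa hxh => ?_, ha, hb.squarefree_of_dvd ⟨_, by rw [mul_comm]; exact hh⟩⟩
    have hxb : x ∣ b := by
      rw [hh]
      exact hxh.mul_left _
    have hxd : x ∣ EuclideanDomain.gcd a b := EuclideanDomain.dvd_gcd hxa hxb
    refine hb x ?_
    rw [hh]
    exact mul_dvd_mul hxd hxh
  · rw [ha', mul_assoc, mul_comm a' h, ← mul_assoc, ← hh]
    exact dvd_mul_right _ _

/-- a space generated by a semisimple subspace and a subspace where a polynomial without multiple factors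
vanishes -/
lemma semisimple_of_sup [FiniteDimensional K V] (f : V →ₗ[K] W) (S : Module.End K V)
    (T : Module.End K W) (h : ∀ x, f (S x) = T (f x)) (hS : S.IsSemisimple) (N : Submodule K W)
    (g : K[X]) (hg : Squarefree g) (hN : ∀ x ∈ N, aeval T g x = 0)
    (htop : N ⊔ LinearMap.range f = ⊤) : T.IsSemisimple := by
  obtain ⟨c, hc, e, he⟩ := exists_squarefree hg hS.minpoly_squarefree
  refine Module.End.isSemisimple_of_squarefree_aeval_eq_zero hc ?_
  ext x
  rw [LinearMap.zero_apply]
  have hx : x ∈ N ⊔ LinearMap.range f := by rw [htop]; trivial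
  obtain ⟨y, hy, z, ⟨v, rfl⟩, rfl⟩ := Submodule.mem_sup.mp hx
  rw [map_add]
  have h1 : aeval T (g * c) y = 0 := by
    rw [mul_comm, map_mul, Module.End.mul_apply, hN y hy, map_zero]
  have h2 : aeval T (g * c) (f v) = 0 := by
    rw [← intertwine f S T h, he, mul_comm, map_mul, Module.End.mul_apply, minpoly.aeval,
      LinearMap.zero_apply, map_zero, map_zero]
  rw [h1, h2, add_zero]

end algebra

variable {p l : ℕ} [Fact p.Prime] [Fact l.Prime] (E : Frobenius p l)

/-- **Theorem.** The Frobenius acts semisimply on `H^2` of all smooth projective surfaces over finite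
fields of characteristic `p` if and only if it acts semisimply on `Gr^W_2 H^2_c` of the smooth integral
moduli spaces over `𝔽_p` of configurations, of dimension at most `2`. -/
theorem semisimple_iff :
    (∀ Y : Sch (ZMod p), Cw.SmoothProjective Y → topologicalKrullDim Y.left = (2 : ℕ) →
      (E.F Y).IsSemisimple) ↔
    ∀ (A : Type) [CommRing A] [Algebra (ZMod p) A] [Algebra.FiniteType (ZMod p) A], IsDomain A →
      Algebra.Smooth (ZMod p) A → Cx.FrameModuli (ZMod p) A → ringKrullDim A ≤ (2 : ℕ) →
        (E.F (aff (ZMod p) A)).IsSemisimple := by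
  constructor
  · intro H A _ _ _ hd hN _ hA
    rcases hA.lt_or_eq with hA | hA
    · exact E.low _ (ft_aff True) (by rw [Cw.dim_aff]; exact hA)
    · obtain ⟨Z, Y, i, j, ht, hY, hYd⟩ := E.compact A hd hN hA
      have hne : Nonempty (aff (ZMod p) A).left :=
        inferInstanceAs (Nonempty (PrimeSpectrum A))
      obtain ⟨f, N, r, hf, hfF, -⟩ := E.opened Z Y _ i j hY hYd hne ht
      have := E.fin Y hY.ft
      exact semisimple_of_injective f _ _ hfF hf (H Y hY hYd)
  · intro H Y hY hYd
    obtain ⟨A, _, _, _, j, Z, i, hd, hN, hM, hZ, ht⟩ :=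
      Cb.exists_open prime_zmod (Cu.generic_field (ZMod p)) hY.ft hY.integral
    have hne : Nonempty (aff (ZMod p) A).left :=
      inferInstanceAs (Nonempty (PrimeSpectrum A))
    have hdim : ringKrullDim A ≤ (2 : ℕ) := by
      rw [← Cw.dim_aff (ZMod p) A]
      exact open_dim ht hYd.le
    obtain ⟨f, N, r, hf, hfF, hr, hN, htop⟩ := E.opened Z Y _ i j hY hYd hne ht
    have := E.fin (aff (ZMod p) A) (ft_aff True)
    refine semisimple_of_sup f _ _ hfF (H A hd ‹_› hM hdim) N (X ^ r - C ((p : ℚ_[l]) ^ r)) ?_ ?_ htop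
    · refine (separable_X_pow_sub_C _ (Nat.cast_ne_zero.mpr hr) (pow_ne_zero r ?_)).squarefree
      exact Nat.cast_ne_zero.mpr (Fact.out : p.Prime).ne_zero
    · intro x hx
      rw [map_sub, map_pow, aeval_X, aeval_C, LinearMap.sub_apply, hN x hx,
        Module.algebraMap_end_apply, sub_self]

end Pool.Agent.Run7.h902.Cz
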