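import Pool.Agent.Run7.h902.CxMain
import Pool.Agent.Run7.h902.CuSmooth
import Pool.Agent.Q282.UZ.Fam
import Pool.Agent.R904.CU.Regular

/-!
# Étale cohomology of cycle complexes, one weight, dimension by dimension
-/

set_option autoImplicit false

open CategoryTheory CategoryTheory.Limits AlgebraicGeometry Pool.Agent.Y116.UV
  Pool.Agent.Q193.LT Pool.Agent.Q282.UZ Pool.Agent.R904.CU

universe w

namespace Pool.Agent.Run7.h902.Ed

open Pool.Agent.Run7.h902

/-- `X` is a proper regular arithmetic scheme. -/
def ProperRegular (X : Sch ℤ) : Prop :=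
  FT True X ∧ IsProper X.hom ∧ IsRegularScheme X.left

/-- Known properties of the groups `A i X = H^i(X_et, ℤ^c(n))` for one weight `n < 0` and arithmetic schemes
`X`: invariance under isomorphisms; vanishing for the empty scheme; long exact sequences
`⋯ → A i Z → A i X → A i U → A (i + 1) Z → ⋯` for a closed subscheme `Z` of `X` and its complement `U`;
transfer for finite flat surjective morphisms of integral schemes; finiteness of the torsion; and for proper
regular `X` (duality): if the groups in the degrees `i ≤ -2n + 1` are finitely generated, then all are. -/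
structure IsWeight (n : ℤ) (A : ℤ → Sch ℤ → ModuleCat.{w} ℤ) : Prop where
  iso : ∀ {X Y : Sch ℤ}, FT True X → Nonempty (X ≅ Y) → ∀ i, Nonempty (A i X ≅ A i Y)
  empty : ∀ (X : Sch ℤ), IsEmpty X.left → ∀ i, Subsingleton (A i X)
  les : ∀ {Z X U : Sch ℤ} (f : Z ⟶ X) (g : U ⟶ X), FT True X → IsTriple f g →
    ∃ m : LesMaps A (Equiv.addRight 1) Z X U, m.IsExact
  transfer : HasTransfer A
  torsion : TorsionFinite A
  duality : ∀ X : Sch ℤ, ProperRegular X → (∀ i ≤ -2 * n + 1, Module.Finite ℤ (A i X)) →
    ∀ i, Module.Finite ℤ (A i X)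

/-- The property `P` is closed under the steps of the dévissage by alterations among the arithmetic schemes
of dimension at most `d`: isomorphisms, closed-open decompositions, and the passage from `V` to `U` for
finite flat surjective morphisms `V → U` of integral schemes. -/
structure AltClosedDim (d : ℕ) (P : Sch ℤ → Prop) : Prop where
  iso : ∀ {X Y : Sch ℤ}, FT True X → topologicalKrullDim X.left ≤ d → Nonempty (X ≅ Y) → P X → P Y
  total : ∀ {Z X U : Sch ℤ} (i : Z ⟶ X) (j : U ⟶ X), FT True X → topologicalKrullDim X.left ≤ d →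
    IsTriple i j → P Z → P U → P X
  opened : ∀ {Z X U : Sch ℤ} (i : Z ⟶ X) (j : U ⟶ X), FT True X → topologicalKrullDim X.left ≤ d →
    IsTriple i j → P Z → P X → P U
  finite : ∀ {V U : Sch ℤ} (f : V ⟶ U), FT True U → topologicalKrullDim U.left ≤ d →
    IsFinite f.left → Flat f.left → Surjective f.left → IsIntegral V.left → IsIntegral U.left →
    P V → P U

/-- **De Jong's theorem on alterations of arithmetic schemes**, in the form of a principle of dévissage
for the schemes of dimension at most `d` (alterations preserve the dimension): a property which is closed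
under the steps above and true for all proper regular arithmetic schemes of dimension at most `d` is true
for all arithmetic schemes of dimension at most `d`. -/
def AlterationsDim (d : ℕ) : Prop :=
  ∀ P : Sch ℤ → Prop, AltClosedDim d P →
    (∀ X : Sch ℤ, ProperRegular X → topologicalKrullDim X.left ≤ d → P X) →
    ∀ X : Sch ℤ, FT True X → topologicalKrullDim X.left ≤ d → P X

variable {n : ℤ} {A : ℤ → Sch ℤ → ModuleCat.{w} ℤ}

lemma fin_iso {P Q : ModuleCat.{w} ℤ} (e : P ≅ Q) (h : Module.Finite ℤ P) : Module.Finite ℤ Q :=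
  Module.Finite.equiv e.toLinearEquiv

lemma IsWeight.tot (hA : IsWeight n A) (i : ℤ) : Cu.Tot True fun X => Module.Finite ℤ (A i X) where
  iso hX e h := by
    obtain ⟨e⟩ := hA.iso hX e i
    exact fin_iso e h
  empty X hX := by
    have := hA.empty X hX i
    infer_instance
  total f g hX ht hZ hU := by
    obtain ⟨m, hm⟩ := hA.les f g hX ht
    exact serre_exact serre_finite (hm.fg i) hZ hU

lemma IsWeight.alt (hA : IsWeight n A) (d : ℕ) :
    AltClosedDim d fun X => ∀ i, Module.Finite ℤ (A i X) where
  iso hX _ e h i := (hA.tot i).iso hX e (h i)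
  total f g hX _ ht hZ hU i := (hA.tot i).total f g hX ht (hZ i) (hU i)
  opened f g hX _ ht hZ hX' i := by
    obtain ⟨m, hm⟩ := hA.les f g hX ht
    exact serre_exact serre_finite (hm.gh i) (hX' i) (hZ (i + 1))
  finite {V U} f hU _ h1 h2 h3 h4 h5 h i := by
    obtain ⟨s, r, d, hd, hsr⟩ := hA.transfer f hU h1 h2 h3 h4 h5 i
    refine finite_of_transfer s r (d : ℤ) (fun x => (hsr x).trans ?_) (hA.torsion U hU i d hd) (h i)
    exact (int_smul_eq_zsmul (A i U).isModule _ _).symm

lemma intFrac_int : Cu.IntFrac ℤ := Cu.intFrac_of_surj fun c => ⟨c, rfl⟩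

/-- One degree: all arithmetic schemes of dimension at most `d` and moduli spaces. -/
theorem degree_iff (hA : IsWeight n A) (i : ℤ) (d : ℕ) :
    (∀ X : Sch ℤ, FT True X → topologicalKrullDim X.left ≤ d → Module.Finite ℤ (A i X)) ↔
    ∀ (B : Type) [CommRing B] [Algebra ℤ B] [Algebra.FiniteType ℤ B], IsDomain B →
      Cu.SmoothZ B → Cx.FrameModuli ℤ B → ringKrullDim B ≤ d → Module.Finite ℤ (A i (aff ℤ B)) := by
  constructor
  · intro H B _ _ _ _ _ _ hB
    exact H _ (ft_aff True) (by
      have h1 : topologicalKrullDim (aff ℤ B).left = ringKrullDim B :=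
        PrimeSpectrum.topologicalKrullDim_eq_ringKrullDim B
      rw [h1]
      exact hB)
  · intro H X hX hXd
    exact Cx.frame_dim intFrac_int Cu.generic_int (hA.tot i) d
      (fun B _ _ _ hd hN hN2 hM => H B hd hN hM hN2) X hX hXd

/-- **Theorem.** Finite generation in the weight `n` and the dimensions at most `d`: proper regular schemes,
all arithmetic schemes, moduli spaces of configurations. -/
theorem weight_tfae (d : ℕ) (hJ : AlterationsDim d) (hA : IsWeight n A) :
    List.TFAE [
      ∀ X : Sch ℤ, ProperRegular X → topologicalKrullDim X.left ≤ d →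
        ∀ i ≤ -2 * n + 1, Module.Finite ℤ (A i X),
      ∀ X : Sch ℤ, FT True X → topologicalKrullDim X.left ≤ d → ∀ i, Module.Finite ℤ (A i X),
      ∀ (B : Type) [CommRing B] [Algebra ℤ B] [Algebra.FiniteType ℤ B], IsDomain B →
        Cu.SmoothZ B → Cx.FrameModuli ℤ B → ringKrullDim B ≤ d →
        ∀ i ≤ -2 * n + 1, Module.Finite ℤ (A i (aff ℤ B))] := by
  have h12 : (∀ X : Sch ℤ, ProperRegular X → topologicalKrullDim X.left ≤ d →
        ∀ i ≤ -2 * n + 1, Module.Finite ℤ (A i X)) →
      ∀ X : Sch ℤ, FT True X → topologicalKrullDim X.left ≤ d → ∀ i, Module.Finite ℤ (A i X) :=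
    fun H => hJ _ (hA.alt d) fun X hX hd => hA.duality X hX (H X hX hd)
  tfae_have 1 → 2 := h12
  tfae_have 2 → 3 := by
    intro H B _ _ _ hB hN hM hd i _
    exact (degree_iff hA i d).mp (fun X hX hXd => H X hX hXd i) B hB hN hM hd
  tfae_have 3 → 1 := by
    intro H X hX hd i hi
    exact (degree_iff hA i d).mpr (fun B _ _ _ hB hN hM hd => H B hB hN hM hd i hi) X hX.1 hd
  tfae_finish

lemma le_of_lt_succ {x : WithBot ℕ∞} {d : ℕ} (h : x < ((d + 1 : ℕ) : WithBot ℕ∞)) :
    x ≤ (d : WithBot ℕ∞) := by
  rw [Nat.cast_add, Nat.cast_one] at h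
  exact ENat.WithBot.lt_add_one_iff.mp h

/-- **Theorem.** The induction step: if the groups of all arithmetic schemes of dimension at most `d` are
finitely generated, then for the dimension `d + 1` the moduli spaces of dimension `d + 1` suffice. -/
theorem weight_step (d : ℕ) (hJ : AlterationsDim (d + 1)) (hA : IsWeight n A)
    (h : ∀ X : Sch ℤ, FT True X → topologicalKrullDim X.left ≤ d → ∀ i, Module.Finite ℤ (A i X)) :
    (∀ X : Sch ℤ, ProperRegular X → topologicalKrullDim X.left ≤ (d + 1 : ℕ) →
      ∀ i ≤ -2 * n + 1, Module.Finite ℤ (A i X)) ↔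
    ∀ (B : Type) [CommRing B] [Algebra ℤ B] [Algebra.FiniteType ℤ B], IsDomain B →
      Cu.SmoothZ B → Cx.FrameModuli ℤ B → ringKrullDim B = (d + 1 : ℕ) →
      ∀ i ≤ -2 * n + 1, Module.Finite ℤ (A i (aff ℤ B)) := by
  have h0 := (weight_tfae (d + 1) hJ hA).out 0 2
  refine h0.trans ?_
  constructor
  · intro H B _ _ _ hB hN hM hd
    exact H B hB hN hM hd.le
  · intro H B _ _ _ hB hN hM hd i hi
    rcases eq_or_lt_of_le hd with hd' | hd'
    · exact H B hB hN hM hd' i hi
    · refine (degree_iff hA i d).mp (fun X hX hXd => h X hX hXd i) B hB hN hM ?_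
      exact le_of_lt_succ hd'

end Pool.Agent.Run7.h902.Ed
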