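import Pool.Agent.Run7.h902.GrNat

/-!
# Cohomological dimension of abelian tensor categories and finite extensions
-/

set_option autoImplicit false
set_option linter.unusedSectionVars false
set_option backward.defeqAttrib.useBackward true
set_option backward.isDefEq.respectTransparency false

open CategoryTheory Category Limits Abelian MonoidalCategory

namespace Pool.Agent.Run7.h902.Gr

universe w w' v v' u u' t

/-- The cohomological dimension: the supremum of the degrees of the nonzero `Ext` groups. -/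
noncomputable def cd (A : Type u) [Category.{v} A] [Abelian A] [HasExt.{w} A] : ℕ∞ :=
  ⨆ (n : ℕ) (_ : ∃ X Y : A, Nontrivial (Ext.{w} X Y n)), (n : ℕ∞)

/-- All `Ext` groups of degree `n` vanish. -/
def Van (A : Type u) [Category.{v} A] [Abelian A] [HasExt.{w} A] (n : ℕ) : Prop :=
  ∀ (X Y : A) (e : Ext.{w} X Y n), e = 0

/-- Restriction and induction for a finite extension of fields: `res` and `ind` are adjoint on both
sides, and every object is a direct summand of the induction of its restriction, and of the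
restriction of its induction. -/
structure FiniteExt (A : Type u) [Category.{v} A] (B : Type u') [Category.{v'} B] where
  res : A ⥤ B
  ind : B ⥤ A
  adjInd : ind ⊣ res
  adjRes : res ⊣ ind
  left (X : A) : ∃ (i : X ⟶ ind.obj (res.obj X)) (r : ind.obj (res.obj X) ⟶ X), i ≫ r = 𝟙 X
  right (Y : B) : ∃ (i : Y ⟶ res.obj (ind.obj Y)) (r : res.obj (ind.obj Y) ⟶ Y), i ≫ r = 𝟙 Y

/-- `X` has a finite filtration with quotients in `Q`. -/
inductive Filt {A : Type u} [Category.{v} A] [Abelian A] (Q : A → Prop) : A → Prop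
  | zero {X : A} (h : IsZero X) : Filt Q X
  | ext {S : ShortComplex A} (hS : S.ShortExact) (h1 : Filt Q S.X₁) (h3 : Q S.X₃) : Filt Q S.X₂

/-- The functor `W` of the largest subobject of weights at most zero: an exact functor with a
natural map to the identity, which is an isomorphism for the unit object, and for every simple
object `S` either `W S = S` or `W S = 0`. -/
structure WeightZero (A : Type u) [Category.{v} A] [Abelian A] [MonoidalCategory A] where
  W : A ⥤ A
  [additive : W.Additive]
  [lim : PreservesFiniteLimits W]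
  [colim : PreservesFiniteColimits W]
  ι : W ⟶ 𝟭 A
  unit : IsIso (ι.app (𝟙_ A))
  simple (S : A) (hS : Simple S) : IsIso (ι.app S) ∨ IsZero (W.obj S)

attribute [instance] WeightZero.additive WeightZero.lim WeightZero.colim

section

variable {A : Type u} [Category.{v} A] [Abelian A] [HasExt.{w} A]

lemma van_iff {n : ℕ} : Van.{w} A n ↔ ¬ ∃ X Y : A, Nontrivial (Ext.{w} X Y n) := by
  constructor
  · rintro h ⟨X, Y, h1⟩
    obtain ⟨a, b, hab⟩ := h1
    exact hab ((h X Y a).trans (h X Y b).symm)
  · intro h X Y e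
    by_contra he
    exact h ⟨X, Y, ⟨e, 0, he⟩⟩

lemma Van.succ {n : ℕ} (h : Van.{w} A n) : Van.{w} A (n + 1) := by
  intro X Y e
  obtain ⟨S, hS, i, e', he⟩ := exists_fac e
  rw [he, h _ _ e', Ext.comp_zero, Ext.comp_zero]

lemma cd_le_iff {m : ℕ} : cd.{w} A ≤ (m : ℕ∞) ↔ Van.{w} A (m + 1) := by
  constructor
  · intro h
    rw [van_iff]
    intro h1
    have h2 : ((m + 1 : ℕ) : ℕ∞) ≤ cd.{w} A := by
      refine le_trans ?_ (le_iSup _ (m + 1))
      exact le_iSup (fun _ : ∃ X Y : A, Nontrivial (Ext.{w} X Y (m + 1)) => ((m + 1 : ℕ) : ℕ∞)) h1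
    have h3 := h2.trans h
    have h4 : m + 1 ≤ m := by exact_mod_cast h3
    omega
  · intro h
    refine iSup_le fun n => iSup_le fun hn => ?_
    by_contra hlt
    have h1 : m + 1 ≤ n := by
      have : (m : ℕ∞) < (n : ℕ∞) := not_le.mp hlt
      exact_mod_cast this
    have h2 : ∀ k, Van.{w} A (m + 1 + k) := by
      intro k
      induction k with
      | zero => exact h
      | succ k ih => exact ih.succ
    obtain ⟨k, rfl⟩ := Nat.exists_eq_add_of_le h1
    exact van_iff.mp (h2 k) hn

lemma cd_congr {B : Type u'} [Category.{v'} B] [Abelian B] [HasExt.{w'} B]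
    (h : ∀ n, Van.{w} A n ↔ Van.{w'} B n) : cd.{w} A = cd.{w'} B := by
  unfold cd
  congr 1
  ext1 n
  have h1 : (∃ X Y : A, Nontrivial (Ext.{w} X Y n)) ↔ ∃ X Y : B, Nontrivial (Ext.{w'} X Y n) := by
    rw [← not_iff_not, ← van_iff, ← van_iff]
    exact h n
  rw [h1]

lemma filt_zero {Q : A → Prop} {Z : A} {n : ℕ} (h : ∀ M, Q M → ∀ e : Ext.{w} Z M n, e = 0) {X : A}
    (hX : Filt Q X) : ∀ e : Ext.{w} Z X n, e = 0 := by
  induction hX with
  | zero hz =>
    intro e
    rw [← Ext.comp_mk₀_id e, hz.eq_of_src (𝟙 _) 0, Ext.mk₀_zero, Ext.comp_zero]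
  | @ext S hS h1 h3 ih =>
    intro e
    obtain ⟨e', he'⟩ := Ext.covariant_sequence_exact₂ Z hS e (h _ h3 _)
    rw [← he', ih e', Ext.zero_comp]

lemma iso_zero {X X' Y : A} (f : X ≅ X') {n : ℕ} (h : ∀ e : Ext.{w} X' Y n, e = 0) :
    ∀ e : Ext.{w} X Y n, e = 0 :=
  fun e => zero_retract f.hom f.inv f.hom_inv_id h e

end

section

variable {A : Type u} [Category.{v} A] [Abelian A] [HasExt.{w} A]
  {B : Type u'} [Category.{v'} B] [Abelian B] [HasExt.{w'} B] (F : FiniteExt A B)

namespace FiniteExt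

lemma limRes : PreservesFiniteLimits F.res := by
  have := F.adjInd.rightAdjoint_preservesLimits
  infer_instance

lemma colimRes : PreservesFiniteColimits F.res := by
  have := F.adjRes.leftAdjoint_preservesColimits
  infer_instance

lemma limInd : PreservesFiniteLimits F.ind := by
  have := F.adjRes.rightAdjoint_preservesLimits
  infer_instance

lemma colimInd : PreservesFiniteColimits F.ind := by
  have := F.adjInd.leftAdjoint_preservesColimits
  infer_instance

lemma addRes : F.res.Additive := by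
  have := F.limRes
  exact Functor.additive_of_preserves_binary_products _

lemma addInd : F.ind.Additive := by
  have := F.limInd
  exact Functor.additive_of_preserves_binary_products _

/-- Vanishing descends along a finite extension. -/
lemma down {X Y : A} {n : ℕ} (h : ∀ e : Ext.{w'} (F.res.obj X) (F.res.obj Y) n, e = 0) :
    ∀ e : Ext.{w} X Y n, e = 0 := by
  have := F.limRes
  have := F.colimRes
  have := F.limInd
  have := F.colimInd
  have := F.addRes
  have := F.addInd
  obtain ⟨i, r, hir⟩ := F.left X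
  exact zero_retract i r hir (zero_left F.adjInd h)

lemma up {X Y : B} {n : ℕ} (h : ∀ e : Ext.{w} (F.ind.obj X) (F.ind.obj Y) n, e = 0) :
    ∀ e : Ext.{w'} X Y n, e = 0 := by
  have := F.limRes
  have := F.colimRes
  have := F.limInd
  have := F.colimInd
  have := F.addRes
  have := F.addInd
  obtain ⟨i, r, hir⟩ := F.right X
  exact zero_retract i r hir (zero_left F.adjRes h)

include F in
theorem van_iff_van {n : ℕ} : Van.{w} A n ↔ Van.{w'} B n :=
  ⟨fun h X Y => F.up (h _ _), fun h X Y => F.down (h _ _)⟩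

include F in
theorem cd_eq : cd.{w'} B = cd.{w} A := cd_congr fun _ => F.van_iff_van.symm

end FiniteExt

end

section

variable {A : Type u} [Category.{v} A] [Abelian A] [HasExt.{w} A] [MonoidalCategory A]

lemma WeightZero.zero (W : WeightZero A) {S : A} (hS : IsZero (W.W.obj S)) {n : ℕ} :
    ∀ e : Ext.{w} (𝟙_ A) S n, e = 0 := by
  intro e
  have h1 := map_nat (F := W.W) (G := 𝟭 A) W.ι e
  rw [map_id'] at h1
  have h2 : Ext.mapExactFunctor.{w, w} W.W e = 0 := by
    rw [← Ext.comp_mk₀_id (Ext.mapExactFunctor.{w, w} W.W e), hS.eq_of_src (𝟙 _) 0, Ext.mk₀_zero,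
      Ext.comp_zero]
  rw [h2, Ext.zero_comp] at h1
  have h3 := W.unit
  have h4 : e = (Ext.mk₀ (inv (W.ι.app (𝟙_ A)) ≫ W.ι.app (𝟙_ A))).comp e (zero_add n) := by
    have h6 : inv (W.ι.app (𝟙_ A)) ≫ W.ι.app (𝟙_ A) = 𝟙 (𝟙_ A) := IsIso.inv_hom_id _
    exact ((congrArg (fun z => (Ext.mk₀ z).comp e (zero_add n)) h6).trans
      (Ext.mk₀_id_comp e)).symm
  rw [h4, ← Ext.mk₀_comp_mk₀, Ext.comp_assoc _ _ _ _ (zero_add n) (show 0 + 0 + n = n by lia)]
  refine Eq.trans (congrArg (fun z => (Ext.mk₀ (inv (W.ι.app (𝟙_ A)))).comp z (zero_add n))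
    h1.symm) ?_
  exact Ext.comp_zero _ _ _ _ _

variable [SymmetricCategory A] [RightRigidCategory A]

/-- The first argument can be moved to the second one. -/
lemma van_of_unit {n : ℕ} (h : ∀ (Y : A) (e : Ext.{w} (𝟙_ A) Y n), e = 0) : Van.{w} A n := by
  intro X Y
  let _ : ExactPairing (Xᘁ) X := BraidedCategory.exactPairing_swap X Xᘁ
  have adj : tensorLeft X ⊣ tensorLeft (Xᘁ) := tensorLeftAdjunction (Xᘁ) X
  have adj' : tensorLeft (Xᘁ) ⊣ tensorLeft X := tensorLeftAdjunction X (Xᘁ)
  have i1 := adj.leftAdjoint_preservesColimits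
  have i2 := adj.rightAdjoint_preservesLimits
  have i3 := adj'.leftAdjoint_preservesColimits
  have i4 := adj'.rightAdjoint_preservesLimits
  have j1 : PreservesFiniteLimits (tensorLeft X) := inferInstance
  have j2 : PreservesFiniteColimits (tensorLeft X) := inferInstance
  have j3 : PreservesFiniteLimits (tensorLeft (Xᘁ)) := inferInstance
  have j4 : PreservesFiniteColimits (tensorLeft (Xᘁ)) := inferInstance
  have j5 : (tensorLeft X).Additive := Functor.additive_of_preserves_binary_products _
  have j6 : (tensorLeft (Xᘁ)).Additive := Functor.additive_of_preserves_binary_products _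
  exact iso_zero (ρ_ X).symm (zero_left adj (h _))

/-- The cohomological dimension is at most one if and only if `Ext²(1, M) = 0` for the simple
objects `M` of weight at most zero. -/
theorem van_two_iff (W : WeightZero A) (hfin : ∀ X : A, Filt (fun S => Simple S) X) :
    cd.{w} A ≤ 1 ↔ ∀ M : A, Simple M → IsIso (W.ι.app M) → ∀ e : Ext.{w} (𝟙_ A) M 2, e = 0 := by
  have h0 : cd.{w} A ≤ 1 ↔ Van.{w} A 2 := cd_le_iff (m := 1)
  rw [h0]
  refine ⟨fun h M _ _ => h _ _, fun h => van_of_unit fun Y => filt_zero (fun M hM => ?_) (hfin Y)⟩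
  rcases W.simple M hM with h1 | h1
  · exact h M hM h1
  · exact W.zero h1

end

/-- The objects may be restricted to finite extensions. -/
theorem van_two_iff_cofinal {I : Type t} (A : I → Type u) [∀ i, Category.{v} (A i)]
    [∀ i, Abelian (A i)] [∀ i, HasExt.{w} (A i)] [∀ i, MonoidalCategory (A i)]
    [∀ i, SymmetricCategory (A i)] [∀ i, RightRigidCategory (A i)] (o : I)
    (F : ∀ i, FiniteExt (A o) (A i)) (hF : ∀ i, Nonempty ((F i).res.obj (𝟙_ (A o)) ≅ 𝟙_ (A i)))
    (W : ∀ i, WeightZero (A i)) (Q : ∀ i, A i → Prop)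
    (hQ : ∀ X : A o, ∃ i, Filt (fun M => Simple M ∧ Q i M) ((F i).res.obj X)) :
    (∀ i, cd.{w} (A i) ≤ 1) ↔ ∀ (i : I) (M : A i), Simple M → Q i M → IsIso ((W i).ι.app M) →
      ∀ e : Ext.{w} (𝟙_ (A i)) M 2, e = 0 := by
  have h0 : ∀ i, cd.{w} (A i) ≤ 1 ↔ Van.{w} (A i) 2 := fun i => cd_le_iff (m := 1)
  refine ⟨fun h i M _ _ _ => (h0 i).mp (h i) _ _, fun h => ?_⟩
  have h1 : Van.{w} (A o) 2 := by
    refine van_of_unit fun Y => ?_
    obtain ⟨i, hi⟩ := hQ Y
    refine (F i).down (iso_zero (hF i).some (filt_zero (fun M hM => ?_) hi))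
    rcases (W i).simple M hM.1 with h2 | h2
    · exact h i M hM.1 hM.2 h2
    · exact (W i).zero h2
  intro i
  rw [(F i).cd_eq]
  exact (h0 o).mpr h1

end Pool.Agent.Run7.h902.Gr
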