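import Mathlib

/-!
# Effaceability and naturality for `Ext` groups

Every class in `Ext^{n+1}(X, Y)` is killed by an epimorphism `P ⟶ X`, and a natural transformation
between exact functors is compatible with the induced maps of `Ext` groups.
-/

set_option autoImplicit false
set_option backward.defeqAttrib.useBackward true
set_option backward.isDefEq.respectTransparency false

open CategoryTheory Category Limits Abelian

namespace Pool.Agent.Run7.h902.Gr

universe w w' v v' u u'

section Cover

open HomologicalComplex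

variable {C : Type u} [Category.{v} C] [Abelian C]

lemma exists_cover {X : C} {K : CochainComplex C ℤ} {i : ℤ}
    (π : K ⟶ (CochainComplex.singleFunctor C i).obj X) [K.IsStrictlyLE i] [QuasiIsoAt π i] :
    ∃ (P : C) (α : P ⟶ X) (_ : Epi α) (j : (CochainComplex.singleFunctor C i).obj P ⟶ K),
      j ≫ π = (CochainComplex.singleFunctor C i).map α := by
  let e := K.iCyclesIso i (i + 1) (by simp)
    ((K.isZero_of_isStrictlyLE i (i + 1) (by simp)).eq_of_tgt _ _)
  let α := e.inv ≫ K.homologyπ i ≫ homologyMap π i ≫ (singleObjHomologySelfIso _ _ _).hom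
  have h : π.f i = α ≫ (singleObjXSelf (ComplexShape.up ℤ) i X).inv := by
    rw [← cancel_epi e.hom]
    dsimp [α, e]
    rw [assoc, assoc, assoc, iCyclesIso_hom_inv_id_assoc,
      homologyπ_naturality_assoc]
    dsimp [CochainComplex.singleFunctor, CochainComplex.singleFunctors]
    rw [homologyπ_singleObjHomologySelfIso_hom_assoc,
      ← singleObjCyclesSelfIso_inv_iCycles, Iso.hom_inv_id_assoc, ← cyclesMap_i]
  refine ⟨K.X i, α, ?_, mkHomFromSingle (𝟙 _) (by
      rintro _ rfl
      apply (K.isZero_of_isStrictlyLE i (i + 1) (by simp)).eq_of_tgt), ?_⟩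
  · dsimp [α]
    infer_instance
  · apply HomologicalComplex.from_single_hom_ext
    rw [comp_f, mkHomFromSingle_f, h, comp_id]
    dsimp [CochainComplex.singleFunctor, CochainComplex.singleFunctors]
    rw [single_map_f_self]

end Cover

section Eff

open DerivedCategory

variable {C : Type u} [Category.{v} C] [Abelian C]

lemma exists_cover_zero [HasDerivedCategory.{w} C] {X : C} {L : CochainComplex C ℤ} {i : ℤ}
    (φ : Q.obj ((CochainComplex.singleFunctor C i).obj X) ⟶ Q.obj L)
    (n : ℤ) (hn : n < i) [L.IsStrictlyLE n] :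
    ∃ (P : C) (α : P ⟶ X) (_ : Epi α),
      Q.map ((CochainComplex.singleFunctor C i).map α) ≫ φ = 0 := by
  obtain ⟨K, _, π, h, g, rfl⟩ := right_fac_of_isStrictlyLE φ i
  have h' := h
  rw [isIso_Q_map_iff_quasiIso] at h'
  obtain ⟨P, α, hα, j, hj⟩ := exists_cover π
  refine ⟨P, α, hα, ?_⟩
  have h₂ : j ≫ g = 0 := by
    apply HomologicalComplex.from_single_hom_ext
    apply (L.isZero_of_isStrictlyLE n i hn).eq_of_tgt
  rw [← hj, Q.map_comp, assoc, IsIso.hom_inv_id_assoc, ← Q.map_comp, h₂, Q.map_zero]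

/-- Effaceability. -/
theorem exists_epi_zero [HasExt.{w} C] {X Y : C} {n : ℕ} (e : Ext X Y (n + 1)) :
    ∃ (P : C) (α : P ⟶ X) (_ : Epi α), (Ext.mk₀ α).comp e (zero_add _) = 0 := by
  let := HasDerivedCategory.standard C
  obtain ⟨P, α, hα, h⟩ := exists_cover_zero
    (L := (CochainComplex.singleFunctor C (-(n + 1))).obj Y) (i := 0)
    (show Q.obj ((CochainComplex.singleFunctor C 0).obj X) ⟶ Q.obj _ from e.hom ≫
      ((singleFunctors C).shiftIso (n + 1) (-(n + 1)) 0 (by lia)).hom.app _) (-(n + 1)) (by lia)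
  refine ⟨P, α, hα, ?_⟩
  apply Ext.homEquiv.injective
  simp only [← cancel_mono (((singleFunctors C).shiftIso (n + 1) (-(n + 1)) 0
    (by lia)).hom.app _)]
  rw [← assoc] at h
  change (((Ext.mk₀ α).comp e (zero_add _)).hom ≫ _ = _)
  rw [Ext.comp_hom, Ext.mk₀_hom, ShiftedHom.mk₀_comp]
  refine Eq.trans h ?_
  change 0 = (0 : Ext P Y (n + 1)).hom ≫ _
  rw [Ext.zero_hom, zero_comp]

end Eff

end Pool.Agent.Run7.h902.Gr
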