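import Pool.Agent.Run7.h902.GrEff

/-!
# Naturality, adjunctions and devissage for `Ext` groups
-/

set_option autoImplicit false
set_option backward.defeqAttrib.useBackward true
set_option backward.isDefEq.respectTransparency false

open CategoryTheory Category Limits Abelian

namespace Pool.Agent.Run7.h902.Gr

universe w w' w'' v v' v'' u u' u''

section

variable {C : Type u} [Category.{v} C] [Abelian C] [HasExt.{w} C]

/-- Every class of degree `n + 1` is the product of the class of a short exact sequence and a class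
of degree `n`. -/
lemma exists_fac {X Y : C} {n : ℕ} (e : Ext X Y (n + 1)) :
    ∃ (S : ShortComplex C) (hS : S.ShortExact) (i : S.X₃ = X) (e' : Ext S.X₁ Y n),
      e = (Ext.mk₀ (eqToHom i.symm)).comp (hS.extClass.comp e' (by lia)) (zero_add (n + 1)) := by
  obtain ⟨P, α, hα, h⟩ := exists_epi_zero e
  let S : ShortComplex C := ShortComplex.mk (kernel.ι α) α (kernel.condition α)
  have hS : S.ShortExact :=
    { exact := ShortComplex.exact_kernel α
      mono_f := inferInstanceAs (Mono (kernel.ι α))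
      epi_g := hα }
  obtain ⟨e', he'⟩ := Ext.contravariant_sequence_exact₃ hS Y e h (show 1 + n = n + 1 by lia)
  refine ⟨S, hS, rfl, e', ?_⟩
  rw [eqToHom_refl, Ext.mk₀_id_comp]
  exact he'.symm

/-- Induction on the degree. -/
lemma ext_induction {motive : ∀ {X Y : C} {n : ℕ}, Ext X Y n → Prop}
    (h0 : ∀ {X Y : C} (f : X ⟶ Y), motive (Ext.mk₀ f))
    (h1 : ∀ {S : ShortComplex C} (hS : S.ShortExact) {Y : C} {n : ℕ} (e : Ext S.X₁ Y n),
      motive e → motive (hS.extClass.comp e (show 1 + n = n + 1 by lia)))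
    {X Y : C} {n : ℕ} (e : Ext X Y n) : motive e := by
  induction n generalizing X with
  | zero =>
    obtain ⟨f, rfl⟩ := (Ext.mk₀_bijective X Y).2 e
    exact h0 f
  | succ n ih =>
    obtain ⟨P, α, hα, h⟩ := exists_epi_zero e
    let S : ShortComplex C := ShortComplex.mk (kernel.ι α) α (kernel.condition α)
    have hS : S.ShortExact :=
      { exact := ShortComplex.exact_kernel α
        mono_f := inferInstanceAs (Mono (kernel.ι α))
        epi_g := hα }
    obtain ⟨e', he'⟩ := Ext.contravariant_sequence_exact₃ hS Y e h (show 1 + n = n + 1 by lia)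
    rw [← he']
    exact h1 hS e' (ih e')

variable {D : Type u'} [Category.{v'} D] [Abelian D] [HasExt.{w'} D]

section

variable {F G : C ⥤ D} [F.Additive] [PreservesFiniteLimits F] [PreservesFiniteColimits F]
  [G.Additive] [PreservesFiniteLimits G] [PreservesFiniteColimits G]

/-- Natural transformations are compatible with the maps of `Ext` groups. -/
theorem map_nat (τ : F ⟶ G) {X Y : C} {n : ℕ} (e : Ext.{w} X Y n) :
    (e.mapExactFunctor F).comp (Ext.mk₀ (τ.app Y)) (add_zero n) =
      (Ext.mk₀ (τ.app X)).comp (Ext.mapExactFunctor.{w, w'} G e) (zero_add n) := by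
  induction e using ext_induction with
  | h0 f =>
    rw [Ext.mapExactFunctor_mk₀, Ext.mapExactFunctor_mk₀, Ext.mk₀_comp_mk₀, Ext.mk₀_comp_mk₀,
      τ.naturality]
  | @h1 S hS Y n e ih =>
    have h2 : (hS.map_of_exact F).extClass.comp (Ext.mk₀ (τ.app S.X₁)) (add_zero 1) =
        (Ext.mk₀ (τ.app S.X₃)).comp (hS.map_of_exact G).extClass (zero_add 1) :=
      ShortComplex.ShortExact.extClass_naturality (hS.map_of_exact F) (hS.map_of_exact G)
        (S.mapNatTrans τ)
    rw [Ext.mapExactFunctor_comp, Ext.mapExactFunctor_comp, Ext.mapExactFunctor_extClass,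
      Ext.mapExactFunctor_extClass]
    calc ((hS.map_of_exact F).extClass.comp (e.mapExactFunctor F) (show 1 + n = n + 1 by lia)).comp
          (Ext.mk₀ (τ.app Y)) (add_zero _)
        = (hS.map_of_exact F).extClass.comp ((e.mapExactFunctor F).comp (Ext.mk₀ (τ.app Y))
            (add_zero n)) (show 1 + n = n + 1 by lia) :=
          Ext.comp_assoc _ _ _ _ _ (show 1 + n + 0 = n + 1 by lia)
      _ = (hS.map_of_exact F).extClass.comp ((Ext.mk₀ (τ.app S.X₁)).comp
            (Ext.mapExactFunctor.{w, w'} G e) (zero_add n)) (show 1 + n = n + 1 by lia) := by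
          rw [ih]
      _ = ((hS.map_of_exact F).extClass.comp (Ext.mk₀ (τ.app S.X₁)) (add_zero 1)).comp
            (Ext.mapExactFunctor.{w, w'} G e) (show 1 + n = n + 1 by lia) :=
          (Ext.comp_assoc _ _ _ _ _ (show 1 + 0 + n = n + 1 by lia)).symm
      _ = ((Ext.mk₀ (τ.app S.X₃)).comp (hS.map_of_exact G).extClass (zero_add 1)).comp
            (Ext.mapExactFunctor.{w, w'} G e) (show 1 + n = n + 1 by lia) := by rw [h2]
      _ = _ := Ext.comp_assoc _ _ _ _ _ (show 0 + 1 + n = n + 1 by lia)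

end

lemma map_id' {X Y : C} {n : ℕ} (e : Ext.{w} X Y n) :
    Ext.mapExactFunctor.{w, w} (𝟭 C) e = e := by
  induction e using ext_induction with
  | h0 f => rw [Ext.mapExactFunctor_mk₀, Functor.id_map]
  | @h1 S hS Y n e ih =>
    rw [Ext.mapExactFunctor_comp, Ext.mapExactFunctor_extClass, ih]

variable {E : Type u''} [Category.{v''} E] [Abelian E] [HasExt.{w''} E]

lemma map_comp' (F : C ⥤ D) [F.Additive] [PreservesFiniteLimits F] [PreservesFiniteColimits F]
    (G : D ⥤ E) [G.Additive] [PreservesFiniteLimits G] [PreservesFiniteColimits G]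
    {X Y : C} {n : ℕ} (e : Ext.{w} X Y n) :
    Ext.mapExactFunctor.{w, w''} (F ⋙ G) e =
      Ext.mapExactFunctor.{w', w''} G (Ext.mapExactFunctor.{w, w'} F e) := by
  induction e using ext_induction with
  | h0 f =>
    rw [Ext.mapExactFunctor_mk₀, Ext.mapExactFunctor_mk₀, Ext.mapExactFunctor_mk₀,
      Functor.comp_map]
  | @h1 S hS Y n e ih =>
    rw [Ext.mapExactFunctor_comp, Ext.mapExactFunctor_comp, Ext.mapExactFunctor_comp,
      Ext.mapExactFunctor_extClass, Ext.mapExactFunctor_extClass, Ext.mapExactFunctor_extClass, ih]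

end

section Adj

variable {C : Type u} [Category.{v} C] [Abelian C] [HasExt.{w} C]
  {D : Type u'} [Category.{v'} D] [Abelian D] [HasExt.{w'} D]
  {F : C ⥤ D} [F.Additive] [PreservesFiniteLimits F] [PreservesFiniteColimits F]
  {G : D ⥤ C} [G.Additive] [PreservesFiniteLimits G] [PreservesFiniteColimits G]

/-- Vanishing of `Ext` and adjoint exact functors. -/
theorem zero_left (adj : F ⊣ G) {X : C} {Y : D} {n : ℕ}
    (h : ∀ e : Ext.{w} X (G.obj Y) n, e = 0) (e : Ext.{w'} (F.obj X) Y n) : e = 0 := by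
  have h1 := map_nat (F := G ⋙ F) (G := 𝟭 D) adj.counit e
  rw [map_id', map_comp'.{w', w, w'}] at h1
  have h2 : e = (Ext.mk₀ (F.map (adj.unit.app X) ≫ adj.counit.app (F.obj X))).comp e
      (zero_add n) := by
    have h6 : F.map (adj.unit.app X) ≫ adj.counit.app (F.obj X) = 𝟙 (F.obj X) :=
      adj.left_triangle_components X
    exact ((congrArg (fun z => (Ext.mk₀ z).comp e (zero_add n)) h6).trans
      (Ext.mk₀_id_comp e)).symm
  have h3 : (Ext.mk₀ (adj.unit.app X)).comp (Ext.mapExactFunctor.{w', w} G e) (zero_add n) = 0 :=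
    h _
  have h4 := congrArg (Ext.mapExactFunctor.{w, w'} F) h3
  rw [Ext.mapExactFunctor_comp, Ext.mapExactFunctor_mk₀, Ext.mapExactFunctor_zero] at h4
  rw [h2, ← Ext.mk₀_comp_mk₀, Ext.comp_assoc _ _ _ _ _ (show 0 + 0 + n = n by lia)]
  change (Ext.mk₀ (F.map (adj.unit.app X))).comp ((Ext.mk₀ (adj.counit.app (F.obj X))).comp e
    (zero_add n)) (zero_add n) = 0
  have h5 : (Ext.mk₀ (adj.counit.app (F.obj X))).comp e (zero_add n) =
      (Ext.mapExactFunctor.{w, w'} F (Ext.mapExactFunctor.{w', w} G e)).comp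
        (Ext.mk₀ (adj.counit.app Y)) (add_zero n) := h1.symm
  rw [h5, ← Ext.comp_assoc _ _ _ (show 0 + n = n by lia) _ (show 0 + n + 0 = n by lia)]
  refine Eq.trans (congrArg (fun z => z.comp (Ext.mk₀ (adj.counit.app Y)) (add_zero n)) h4) ?_
  simp

/-- Vanishing of `Ext` and adjoint exact functors. -/
theorem zero_right (adj : F ⊣ G) {X : C} {Y : D} {n : ℕ}
    (h : ∀ e : Ext.{w'} (F.obj X) Y n, e = 0) (e : Ext.{w} X (G.obj Y) n) : e = 0 := by
  have h1 := map_nat (F := 𝟭 C) (G := F ⋙ G) adj.unit e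
  rw [map_id', map_comp'.{w, w', w}] at h1
  have h2 : e = e.comp (Ext.mk₀ (adj.unit.app (G.obj Y) ≫ G.map (adj.counit.app Y)))
      (add_zero n) := by
    have h6 : adj.unit.app (G.obj Y) ≫ G.map (adj.counit.app Y) = 𝟙 (G.obj Y) :=
      adj.right_triangle_components Y
    exact ((congrArg (fun z => e.comp (Ext.mk₀ z) (add_zero n)) h6).trans
      (Ext.comp_mk₀_id e)).symm
  have h3 : (Ext.mapExactFunctor.{w, w'} F e).comp (Ext.mk₀ (adj.counit.app Y)) (add_zero n) = 0 :=
    h _
  have h4 := congrArg (Ext.mapExactFunctor.{w', w} G) h3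
  rw [Ext.mapExactFunctor_comp, Ext.mapExactFunctor_mk₀, Ext.mapExactFunctor_zero] at h4
  rw [h2, ← Ext.mk₀_comp_mk₀, ← Ext.comp_assoc _ _ _ (add_zero n) _ (show n + 0 + 0 = n by lia)]
  have h5 : e.comp (Ext.mk₀ (adj.unit.app (G.obj Y))) (add_zero n) =
      (Ext.mk₀ (adj.unit.app X)).comp
        (Ext.mapExactFunctor.{w', w} G (Ext.mapExactFunctor.{w, w'} F e)) (zero_add n) := h1
  rw [h5, Ext.comp_assoc _ _ _ _ (add_zero n) (show 0 + n + 0 = n by lia)]
  refine Eq.trans (congrArg (fun z => (Ext.mk₀ (adj.unit.app X)).comp z (zero_add n)) h4) ?_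
  simp

omit [HasExt.{w'} D] in
lemma zero_retract {X X' Y : C} {n : ℕ} (i : X ⟶ X') (r : X' ⟶ X) (hir : i ≫ r = 𝟙 X)
    (h : ∀ e : Ext.{w} X' Y n, e = 0) (e : Ext.{w} X Y n) : e = 0 := by
  have h1 : e = (Ext.mk₀ (i ≫ r)).comp e (zero_add n) := by rw [hir, Ext.mk₀_id_comp]
  rw [h1, ← Ext.mk₀_comp_mk₀, Ext.comp_assoc _ _ _ _ (zero_add n) (show 0 + 0 + n = n by lia),
    h ((Ext.mk₀ r).comp e (zero_add n))]
  simp

end Adj

end Pool.Agent.Run7.h902.Gr
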