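import Pool.Agent.Run7.h902.CxMain
import Pool.Agent.Run7.h902.CuSmooth

/-!
# Ranks of higher Chow groups and moduli spaces of configurations
-/

set_option autoImplicit false

open CategoryTheory AlgebraicGeometry Pool.Agent.Y116.UV Pool.Agent.Z125.UN

namespace Pool.Agent.Run7.h902.Rk

open Pool.Agent.Run7.h902

/-- Rational vector spaces `A s i X` with known properties of `CH_s(X, i) ⊗ ℚ`, `s ∈ ℤ`, `i ≥ 0`, where `X` is
a scheme of finite type over `R` and `CH_s(X, i)` is the `i`-th homology of the cycle complex of the cycles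
of dimension `s + i` on `X × Δ^i`: invariance under isomorphisms; vanishing for the empty scheme;
exactness of `A s i Z → A s i X → A s i U` for a closed subscheme `Z` and its complement `U` (localization);
for affine `X`: `A s i X` is a direct factor of `A s (i + 1) (X × 𝔾_m)`, and `A s i X ≅ A (s + 1) i (X × 𝔸^1)`
(homotopy invariance). -/
structure Chow (R : Type) [CommRing R] where
  A : ℤ → ℕ → Sch R → Type
  grp : ∀ (s : ℤ) (i : ℕ) (X : Sch R), AddCommGroup (A s i X)
  mod : ∀ (s : ℤ) (i : ℕ) (X : Sch R), Module ℚ (A s i X)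
  iso : ∀ (s : ℤ) (i : ℕ) (X Y : Sch R), FT False X → Nonempty (X ≅ Y) →
    Nonempty (A s i X ≃ₗ[ℚ] A s i Y)
  empty : ∀ (s : ℤ) (i : ℕ) (X : Sch R), IsEmpty X.left → Subsingleton (A s i X)
  localization : ∀ (s : ℤ) (i : ℕ) (Z X U : Sch R) (a : Z ⟶ X) (b : U ⟶ X), FT False X →
    IsTriple a b → ∃ (f : A s i Z →ₗ[ℚ] A s i X) (g : A s i X →ₗ[ℚ] A s i U), Function.Exact f g
  torus : ∀ (s : ℤ) (i : ℕ) (B : Type) [CommRing B] [Algebra R B] [Algebra.FiniteType R B],
    ∃ (f : A s i (aff R B) →ₗ[ℚ] A s (i + 1) (aff R (LaurentPolynomial B)))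
      (g : A s (i + 1) (aff R (LaurentPolynomial B)) →ₗ[ℚ] A s i (aff R B)), g ∘ₗ f = LinearMap.id
  line : ∀ (s : ℤ) (i : ℕ) (B : Type) [CommRing B] [Algebra R B] [Algebra.FiniteType R B],
    Nonempty (A s i (aff R B) ≃ₗ[ℚ] A (s + 1) i (aff R (Polynomial B)))

attribute [instance] Chow.grp Chow.mod

variable {R : Type} [CommRing R] (C : Chow R)

/-- The rank of `CH_s(X, i)` is finite. -/
def Chow.Fin (s : ℤ) (i : ℕ) (X : Sch R) : Prop := Module.Finite ℚ (C.A s i X)

lemma Chow.tot (s : ℤ) (i : ℕ) : Cu.Tot False (C.Fin s i) where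
  iso := by
    intro X Y hX e h
    obtain ⟨e⟩ := C.iso s i X Y hX e
    have h' : Module.Finite ℚ (C.A s i X) := h
    exact Module.Finite.equiv e
  empty X hX := by
    have := C.empty s i X hX
    change Module.Finite ℚ (C.A s i X)
    infer_instance
  total := by
    intro Z X U a b hX ht hZ hU
    obtain ⟨f, g, hfg⟩ := C.localization s i Z X U a b hX ht
    have hZ' : Module.Finite ℚ (C.A s i Z) := hZ
    have hU' : Module.Finite ℚ (C.A s i U) := hU
    have h1 : LinearMap.range f = LinearMap.ker g := by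
      ext x
      exact (hfg x).symm
    have h2 : IsNoetherian ℚ (C.A s i X) := isNoetherian_of_range_eq_ker _ _ h1
    change Module.Finite ℚ (C.A s i X)
    infer_instance

/-- **Theorem.** One pair `(s, i)` and the dimensions at most `d`. -/
theorem rank_dim [IsNoetherianRing R] (hR : Cu.IntFrac R) (s : ℤ) (i d : ℕ) :
    (∀ X : Sch R, FT False X → topologicalKrullDim X.left ≤ d → C.Fin s i X) ↔
    ∀ (B : Type) [CommRing B] [Algebra R B] [Algebra.FiniteType R B], IsDomain B →
      Cx.FrameModuli R B → ringKrullDim B ≤ d → C.Fin s i (aff R B) := by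
  constructor
  · intro H B _ _ _ _ _ hB
    exact H _ (ft_aff False) (by
      have h1 : topologicalKrullDim (aff R B).left = ringKrullDim B :=
        PrimeSpectrum.topologicalKrullDim_eq_ringKrullDim B
      rw [h1]
      exact hB)
  · intro H X hX hXd
    exact Cx.frame_dim hR (Cu.generic_true R) (C.tot s i) d
      (fun B _ _ _ hd _ hN2 hM => H B hd hM hN2) X hX hXd

lemma Chow.of_aff (s : ℤ) (i : ℕ)
    (h : ∀ (B : Type) [CommRing B] [Algebra R B] [Algebra.FiniteType R B], C.Fin s i (aff R B))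
    (X : Sch R) (hX : FT False X) : C.Fin s i X :=
  of_affine' (C.tot s i).iso (C.tot s i).total h X hX

lemma Chow.down_i (s : ℤ) (i : ℕ) (h : ∀ X : Sch R, FT False X → C.Fin s (i + 1) X)
    (X : Sch R) (hX : FT False X) : C.Fin s i X := by
  refine C.of_aff s i (fun B _ _ _ => ?_) X hX
  obtain ⟨f, g, hgf⟩ := C.torus s i B
  have hft : Algebra.FiniteType R (LaurentPolynomial B) :=
    Algebra.FiniteType.trans (S := B) inferInstance inferInstance
  have h1 : Module.Finite ℚ (C.A s (i + 1) (aff R (LaurentPolynomial B))) := h _ (ft_aff False)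
  exact Module.Finite.of_surjective g fun x => ⟨f x, LinearMap.congr_fun hgf x⟩

lemma Chow.down_s (s : ℤ) (i : ℕ) (h : ∀ X : Sch R, FT False X → C.Fin (s + 1) i X)
    (X : Sch R) (hX : FT False X) : C.Fin s i X := by
  refine C.of_aff s i (fun B _ _ _ => ?_) X hX
  obtain ⟨e⟩ := C.line s i B
  have hft : Algebra.FiniteType R (Polynomial B) :=
    Algebra.FiniteType.trans (S := B) inferInstance inferInstance
  have h1 : Module.Finite ℚ (C.A (s + 1) i (aff R (Polynomial B))) := h _ (ft_aff False)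
  exact Module.Finite.equiv e.symm

lemma Chow.down (s : ℤ) (i : ℕ) (m k : ℕ) (h : ∀ X : Sch R, FT False X → C.Fin (s + m) (i + k) X)
    (X : Sch R) (hX : FT False X) : C.Fin s i X := by
  have h1 : ∀ X : Sch R, FT False X → C.Fin (s + m) i X := by
    clear hX
    induction k with
    | zero => exact h
    | succ k ih => exact ih (C.down_i (s + m) (i + k) h)
  clear h
  induction m with
  | zero =>
    have := h1 X hX
    simpa using this
  | succ m ih =>
    refine ih (C.down_s (s + m) i fun Y hY => ?_)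
    have := h1 Y hY
    rwa [Nat.cast_add, Nat.cast_one, ← add_assoc] at this

/-- **Theorem.** All `s` and `i` and all schemes: a cofinal set of pairs `(s, i)` and the moduli spaces. -/
theorem rank_all [IsNoetherianRing R] (hR : Cu.IntFrac R) (D : Set (ℤ × ℕ))
    (hD : ∀ (s : ℤ) (i : ℕ), ∃ p ∈ D, s ≤ p.1 ∧ i ≤ p.2) :
    (∀ (s : ℤ) (i : ℕ) (X : Sch R), FT False X → C.Fin s i X) ↔
    ∀ p ∈ D, ∀ (B : Type) [CommRing B] [Algebra R B] [Algebra.FiniteType R B], IsDomain B →
      Cx.FrameModuli R B → C.Fin p.1 p.2 (aff R B) := by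
  constructor
  · intro H p _ B _ _ _ _ _
    exact H _ _ _ (ft_aff False)
  · intro H s i X hX
    obtain ⟨⟨t, j⟩, hp, h1, h2⟩ := hD s i
    obtain ⟨m, hm⟩ : ∃ m : ℕ, t = s + m := ⟨(t - s).toNat, by simp only at h1; omega⟩
    obtain ⟨k, hk⟩ : ∃ k : ℕ, j = i + k := ⟨j - i, by simp only at h2; omega⟩
    subst hm hk
    exact C.down s i m k (fun Y hY => Cx.frame_all hR (Cu.generic_true R) (C.tot _ _)
      (fun B _ _ _ hd _ hM => H _ hp B hd hM) Y hY) X hX

end Pool.Agent.Run7.h902.Rk
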