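import Pool.Agent.Run7.h902.STower

/-!
Families of zero-cycles with null trace on smooth complete intersections in products of projective
lines: a refined step.
-/

set_option autoImplicit false
set_option linter.overlappingInstances false
set_option linter.unusedSectionVars false
set_option maxHeartbeats 4000000
set_option synthInstance.maxHeartbeats 400000

open FF Module Pool.Agent Pool.Agent.W602.GT
open Pool.Agent.R882.HL (IsSmooth IsGenericPoint)
open Pool.Agent.R882.ZC (NullTrace agree relE descend)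

namespace Pool.Agent.Run7.h902.SC

section

variable {K Ω : Type} [Field K] [Algebra ℂ K] [Field Ω] [Algebra ℂ Ω] {n : ℕ}

/-- If there is one more relation then the coefficients are zero. -/
theorem step_zero [IsAlgClosed Ω] (hΩ : Algebra.trdeg ℂ Ω = (n : ℕ)) [Algebra.EssFiniteType ℂ K]
    (hK : Algebra.trdeg ℂ K = (n : ℕ)) {N M C : ℕ} {x : Fin N → K}
    [FiniteDimensional (IntermediateField.adjoin ℂ (Set.range x)) K] {y : K}
    (hy : IntermediateField.adjoin (IntermediateField.adjoin ℂ (Set.range x)) {y} = ⊤)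
    {ω : (Fin n → Derivation ℂ K K) → K} (hω : IsPluri 1 ω)
    (hne : ∀ Z : Fin n → K, IsTranscendenceBasis ℂ Z → ∀ D0 : Fin n → Derivation ℂ K K,
      (∀ i j, D0 i (Z j) = if i = j then 1 else 0) → ω D0 ≠ 0)
    (hreg : ∀ j < C, ∀ a : Fin N → ℕ, ∑ l, a l ≤ M → ∀ P : Place ℂ K, Divisorial n P →
        RegAt P (fun D => (∏ l, x l ^ a l) * (y ^ j * ω D)))
    (hC : Module.finrank (IntermediateField.adjoin ℂ (Set.range x)) K ≤ C)
    {c : (K →ₐ[ℂ] Ω) →₀ ℤ} (hc : NullTrace n c)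
    [DecidableEq (Fin N → Ω)]
    (hcard : (c.support.image fun σ l => σ (x l)).card ≤ M + 1)
    (σ : K →ₐ[ℂ] Ω) : c σ = 0 := by
  classical
  have hEn : Algebra.trdeg ℂ (IntermediateField.adjoin ℂ (Set.range x)) = (n : ℕ) :=
    Pool.Agent.Y184.NT.trdeg_below (K := K) hK
  obtain ⟨z, E, hz, hE⟩ := Pool.Agent.Y172.exists_crd (k := ℂ)
    (K := IntermediateField.adjoin ℂ (Set.range x)) hEn
  choose E' hE' using fun i => Pool.Agent.Y172.exists_lift (k := ℂ)
    (K := IntermediateField.adjoin ℂ (Set.range x)) (L := K) hEn (E i)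
  have hzK : IsTranscendenceBasis ℂ (fun j => algebraMap (IntermediateField.adjoin ℂ
      (Set.range x)) K (z j)) := hz.algebraMap_comp
  have hE'd := Pool.Agent.Y172.lift_dual hE hE'
  have hg : ω E' ≠ 0 := hne _ hzK E' hE'd
  have hcharΩ : CharZero Ω := charZero_of_injective_algebraMap (algebraMap ℂ Ω).injective
  -- the structure over ℂ(x)
  let i1 : Algebra (IntermediateField.adjoin ℂ (Set.range x)) Ω :=
    (σ.toRingHom.comp (algebraMap (IntermediateField.adjoin ℂ (Set.range x)) K)).toAlgebra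
  have hi1 : ∀ e : IntermediateField.adjoin ℂ (Set.range x),
      algebraMap (IntermediateField.adjoin ℂ (Set.range x)) Ω e = σ (e : K) := fun e => rfl
  have i2 : IsScalarTower ℂ (IntermediateField.adjoin ℂ (Set.range x)) Ω :=
    IsScalarTower.of_algebraMap_eq fun c => by
      rw [hi1]
      exact (σ.commutes c).symm
  have hcE : CharZero (IntermediateField.adjoin ℂ (Set.range x)) :=
    charZero_of_injective_algebraMap (algebraMap ℂ _).injective
  have hT : ∀ ρ : K →ₐ[ℂ] Ω, (∀ l, ρ (x l) = σ (x l)) →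
      ∃ ρ' : K →ₐ[IntermediateField.adjoin ℂ (Set.range x)] Ω, ρ'.restrictScalars ℂ = ρ := by
    intro ρ hρ
    exact ⟨{ ρ with commutes' := fun e => (agree hρ e.2).trans (hi1 e).symm }, rfl⟩
  obtain ⟨σ', hσ'⟩ := hT σ fun _ => rfl
  have hrel1 : ∀ j, j < C →
      ∑ ρ' : K →ₐ[IntermediateField.adjoin ℂ (Set.range x)] Ω,
        (c (ρ'.restrictScalars ℂ) : Ω) * (ρ' y ^ j * ρ' (ω E')) = 0 := by
    intro j hj
    exact relE (C := C) hΩ hω hreg hz hE'd hc hcard hj
  rw [← hσ']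
  exact core0 hy hg (fun ρ' : K →ₐ[IntermediateField.adjoin ℂ (Set.range x)] Ω =>
    c (ρ'.restrictScalars ℂ)) (fun j hj => hrel1 j (by omega)) σ'

/-- The number of the different restrictions to the function field of the image of the projection
which forgets the coordinate `i0` of the embeddings which occur in `c`. -/
noncomputable def numBelow {ι K Ω : Type} [Field K] [Algebra ℂ K] [Field Ω] [Algebra ℂ Ω]
    (x : ι → K) (i0 : ι) (c : (K →ₐ[ℂ] Ω) →₀ ℤ) : ℕ :=
  Set.ncard {g : {i // i ≠ i0} → Ω | ∃ σ, c σ ≠ 0 ∧ ∀ i, g i = σ (x i)}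

theorem numBelow_eq {ι K Ω : Type} [Field K] [Algebra ℂ K] [Field Ω] [Algebra ℂ Ω]
    {x : ι → K} {i0 : ι} {c : (K →ₐ[ℂ] Ω) →₀ ℤ} [DecidableEq ({j // j ≠ i0} → Ω)] :
    numBelow x i0 c =
      (c.support.image fun (σ : K →ₐ[ℂ] Ω) (j : {j // j ≠ i0}) => σ (x j)).card := by
  unfold numBelow
  rw [← Set.ncard_coe_finset]
  congr 1
  ext g
  rw [Finset.coe_image, Set.mem_image, Set.mem_ofPred_eq]
  constructor
  · rintro ⟨ρ, hρ, hg⟩
    exact ⟨ρ, Finsupp.mem_support_iff.2 hρ, (funext hg).symm⟩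
  · rintro ⟨ρ, hρ, rfl⟩
    exact ⟨ρ, Finsupp.mem_support_iff.1 hρ, fun _ => rfl⟩

/-- **The refined step in a product of projective lines.** -/
theorem lines_ref [IsAlgClosed Ω] (hn : 1 ≤ n) (hΩ : Algebra.trdeg ℂ Ω = (n : ℕ)) {q : ℕ}
    {F : Fin q → MvPolynomial (Fin (n + q)) ℂ}
    {d : Fin q → Fin (n + q) → ℕ} (deg : ∀ k i, (F k).degreeOf i ≤ d k i)
    {m : Fin (n + q) → ℕ} (canonical : ∀ i, ∑ k, d k i = m i + 2) (smooth : IsSmooth d F)
    {x : Fin (n + q) → K} (point : IsGenericPoint n F x) {i0 : Fin (n + q)}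
    {c : (K →ₐ[ℂ] Ω) →₀ ℤ} (positive : ∀ i, i ≠ i0 → numBelow x i0 c ≤ m i + 1)
    (hc : NullTrace n c) :
    FiniteDimensional (IntermediateField.adjoin ℂ (x '' {i0}ᶜ)) K ∧
    (∀ σ τ : K →ₐ[ℂ] Ω, (∀ e : IntermediateField.adjoin ℂ (x '' {i0}ᶜ),
        σ (algebraMap _ K e) = τ (algebraMap _ K e)) → c σ = c τ) ∧
    (Module.finrank (IntermediateField.adjoin ℂ (x '' {i0}ᶜ)) K ≤ m i0 + 1 → c = 0) := by
  classical
  have hK := point.dim
  obtain ⟨hess, hfin, N, π, t, ht, hrange, hy, hle, ω, hω, hne, hreg, htri⟩ :=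
    lines_data_int hn (by simp) canonical i0 deg smooth point
  have hfin' : FiniteDimensional (IntermediateField.adjoin ℂ (Set.range t)) K := by
    rw [hrange]
    exact hfin
  obtain ⟨M, hMd⟩ : ∃ M, M = numBelow x i0 c - 1 := ⟨_, rfl⟩
  have hM : ∀ i, i ≠ i0 → M ≤ m i := fun i hi => by
    have := positive i hi
    omega
  have himg : (c.support.image fun (σ : K →ₐ[ℂ] Ω) (l : Fin N) => σ (t l)).card ≤ M + 1 := by
    have h2 : (c.support.image fun (σ : K →ₐ[ℂ] Ω) (l : Fin N) => σ (t l)).card ≤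
        (c.support.image fun (σ : K →ₐ[ℂ] Ω) (j : {j // j ≠ i0}) => σ (x j)).card := by
      have h1 : (c.support.image fun (σ : K →ₐ[ℂ] Ω) (l : Fin N) => σ (t l)) =
          (c.support.image fun (σ : K →ₐ[ℂ] Ω) (j : {j // j ≠ i0}) => σ (x j)).image
            fun f l => f (π l) := by
        rw [Finset.image_image]
        refine Finset.image_congr fun σ _ => ?_
        funext l
        rw [ht]
        rfl
      rw [h1]
      exact Finset.card_image_le
    rw [← numBelow_eq] at h2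
    omega
  refine ⟨hfin, fun σ τ hστ => ?_, fun hz => ?_⟩
  · refine step_int (C := m i0 + 1) hΩ hK hy hω hne (hreg M hM) hle
      (fun h1 D D' hD' _ => htri h1 D D' hD') hc himg fun l => ?_
    rw [ht]
    exact hστ ⟨x (π l), IntermediateField.subset_adjoin ℂ _ ⟨_, (π l).2, rfl⟩⟩
  · rw [← hrange] at hz
    ext σ
    rw [Finsupp.zero_apply]
    exact step_zero (C := m i0 + 1) hΩ hK hy hω hne (hreg M hM) hz hc himg σ

/-- the number of the points below -/
theorem card_below {ι : Type} {x : ι → K} {i0 : ι} {c : (K →ₐ[ℂ] Ω) →₀ ℤ}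
    {c1 : (IntermediateField.adjoin ℂ (x '' {i0}ᶜ) →ₐ[ℂ] Ω) →₀ ℤ}
    (h1 : ∀ σ : K →ₐ[ℂ] Ω, c1 (σ.comp (IntermediateField.adjoin ℂ (x '' {i0}ᶜ)).val) = c σ)
    (h2 : ∀ q, ∃ σ : K →ₐ[ℂ] Ω, σ.comp (IntermediateField.adjoin ℂ (x '' {i0}ᶜ)).val = q) :
    c1.support.card ≤ numBelow x i0 c := by
  classical
  rw [numBelow_eq]
  choose lift hl using h2
  have hx : ∀ j : {j // j ≠ i0}, x j ∈ IntermediateField.adjoin ℂ (x '' {i0}ᶜ) := fun j =>
    IntermediateField.subset_adjoin ℂ _ ⟨j.1, j.2, rfl⟩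
  refine Finset.card_le_card_of_injOn
    (fun (q : IntermediateField.adjoin ℂ (x '' {i0}ᶜ) →ₐ[ℂ] Ω) (j : {j // j ≠ i0}) =>
      q ⟨x j, hx j⟩) (fun q hq => ?_) (fun q1 _ q2 _ h12 => ?_)
  · rw [Finset.mem_coe, Finset.mem_image]
    refine ⟨lift q, ?_, ?_⟩
    · rw [Finsupp.mem_support_iff, ← h1, hl]
      exact Finsupp.mem_support_iff.1 (Finset.mem_coe.1 hq)
    · funext j
      exact DFunLike.congr_fun (hl q) ⟨x j, hx j⟩
  · rw [← hl q1, ← hl q2]
    ext e
    have h3 : ∀ j : {j // j ≠ i0}, lift q1 (x j) = lift q2 (x j) := by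
      intro j
      have h4 := congrFun h12 j
      have h5 := DFunLike.congr_fun (hl q1) ⟨x j, hx j⟩
      have h6 := DFunLike.congr_fun (hl q2) ⟨x j, hx j⟩
      exact h5.trans (h4.trans h6.symm)
    obtain ⟨e, he⟩ := e
    change lift q1 e = lift q2 e
    induction he using IntermediateField.adjoin_induction with
    | mem e he =>
      obtain ⟨j, hj, rfl⟩ := he
      exact h3 ⟨j, hj⟩
    | algebraMap c => rw [AlgHom.commutes, AlgHom.commutes]
    | add a b _ _ ha hb => rw [map_add, map_add, ha, hb]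
    | inv a _ ha => rw [map_inv₀, map_inv₀, ha]
    | mul a b _ _ ha hb => rw [map_mul, map_mul, ha, hb]

/-- embeddings of a subfield extend -/
theorem exists_lift_emb [IsAlgClosed Ω] (E1 : IntermediateField ℂ K) [FiniteDimensional E1 K]
    (q : E1 →ₐ[ℂ] Ω) : ∃ σ : K →ₐ[ℂ] Ω, σ.comp E1.val = q := by
  let i1 : Algebra E1 Ω := q.toRingHom.toAlgebra
  have i2 : IsScalarTower ℂ E1 Ω := IsScalarTower.of_algebraMap_eq fun a =>
    (q.commutes a).symm
  let ρ : K →ₐ[E1] Ω := IsAlgClosed.lift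
  refine ⟨ρ.restrictScalars ℂ, ?_⟩
  ext e
  exact ρ.commutes e

/-- **The refined step in a product of projective lines.** -/
theorem lines_full [IsAlgClosed Ω] (hn : 1 ≤ n) (hΩ : Algebra.trdeg ℂ Ω = (n : ℕ)) {q : ℕ}
    {F : Fin q → MvPolynomial (Fin (n + q)) ℂ}
    {d : Fin q → Fin (n + q) → ℕ} (deg : ∀ k i, (F k).degreeOf i ≤ d k i)
    {m : Fin (n + q) → ℕ} (canonical : ∀ i, ∑ k, d k i = m i + 2) (smooth : IsSmooth d F)
    {x : Fin (n + q) → K} (point : IsGenericPoint n F x) {i0 : Fin (n + q)}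
    {c : (K →ₐ[ℂ] Ω) →₀ ℤ} (positive : ∀ i, i ≠ i0 → numBelow x i0 c ≤ m i + 1)
    (hc : NullTrace n c) :
    (∃ c1 : (IntermediateField.adjoin ℂ (x '' {i0}ᶜ) →ₐ[ℂ] Ω) →₀ ℤ, NullTrace n c1 ∧
      c1.support.card ≤ numBelow x i0 c ∧
      ∀ σ : K →ₐ[ℂ] Ω, c σ = c1 (σ.comp (IntermediateField.adjoin ℂ (x '' {i0}ᶜ)).val)) ∧
    (Module.finrank (IntermediateField.adjoin ℂ (x '' {i0}ᶜ)) K ≤ m i0 + 1 → c = 0) ∧
    ∀ Base : ∀ (K : Type) [Field K] [Algebra ℂ K], Prop,
      MixedTower n Base (IntermediateField.adjoin ℂ (x '' {i0}ᶜ)) (numBelow x i0 c) →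
        NullPullback n Base c := by
  obtain ⟨hfin, hconst, hzero⟩ := lines_ref hn hΩ deg canonical smooth point positive hc
  have hess : Algebra.EssFiniteType ℂ K := ess_lines point
  obtain ⟨c1, hn1, h1, -, -⟩ := descend point.dim (IntermediateField.adjoin ℂ (x '' {i0}ᶜ)) hc
    hconst
  have hcard : c1.support.card ≤ numBelow x i0 c :=
    card_below h1 (exists_lift_emb (IntermediateField.adjoin ℂ (x '' {i0}ᶜ)))
  refine ⟨⟨c1, hn1, hcard, fun σ => (h1 σ).symm⟩, hzero, fun Base hB => ?_⟩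
  exact nullPullback_of _ h1 (mixed_tower hn hB hΩ
    (Pool.Agent.Y184.NT.trdeg_below (K := K) point.dim) c1 hn1 hcard)

end

end Pool.Agent.Run7.h902.SC
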