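import Mathlib

/-!
# Phantoms and the action of the primes

`T` is a triangulated category, `Nuc` a triangulated subcategory and `Acyc` the objects on which a
homological functor vanishes.
-/

set_option autoImplicit false
set_option linter.unusedSectionVars false

open CategoryTheory Limits Pretriangulated

namespace Pool.Agent.Run7.h902.Uct

universe v u

variable {T : Type u} [Category.{v} T] [Preadditive T] [HasZeroObject T] [HasShift T ℤ]
  [∀ n : ℤ, (shiftFunctor T n).Additive] [Pretriangulated T]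

/-- `A` satisfies the universal coefficient theorem: there are no nonzero morphisms from `A` to
objects without K-theory. -/
def UCT (Acyc : T → Prop) (A : T) : Prop := ∀ B : T, Acyc B → ∀ f : A ⟶ B, f = 0

/-- The objects of the class `P` form a triangulated subcategory. -/
structure Tri (P : T → Prop) : Prop where
  shift : ∀ (A : T) (n : ℤ), P A → P (A⟦n⟧)
  cone : ∀ D : Triangle T, D ∈ distTriang T → P D.obj₁ → P D.obj₂ → P D.obj₃

/-- The primes in `S` act invertibly on `A`. -/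
def Divisible (S : Set ℕ) (A : T) : Prop := ∀ p ∈ S, p.Prime → IsIso (p • 𝟙 A)

/-- The facts about `KK`-theory which are used: the classes `Nuc` and `Acyc` are triangulated
subcategories, the cone of `ℓ : A ⟶ A` can be chosen as an object `C` with `ℓ • 𝟙 C = 0`, and every
nuclear object `A` lies in a triangle `P ⟶ A ⟶ N ⟶` with `N` nuclear and without K-theory, and `P`
satisfying the universal coefficient theorem. -/
structure Facts (Nuc Acyc : T → Prop) : Prop where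
  nuc : Tri Nuc
  acyc : Tri Acyc
  torsion : ∀ (A : T) (l : ℕ), l.Prime → ∃ (C : T) (u : A ⟶ C) (δ : C ⟶ A⟦(1 : ℤ)⟧),
    Triangle.mk (l • 𝟙 A) u δ ∈ distTriang T ∧ l • 𝟙 C = 0
  resolution : ∀ A : T, Nuc A → ∃ (P N : T) (f : P ⟶ A) (g : A ⟶ N) (δ : N ⟶ P⟦(1 : ℤ)⟧),
    Triangle.mk f g δ ∈ distTriang T ∧ Nuc N ∧ UCT Acyc P ∧ Acyc N

variable {Nuc Acyc : T → Prop}

lemma UCT.shift (hA : Tri Acyc) {A : T} (h : UCT Acyc A) (k : ℤ) : UCT Acyc (A⟦k⟧) := by
  intro B hB f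
  have h1 := h (B⟦(-k : ℤ)⟧) (hA.shift B _ hB)
    ((shiftFunctorCompIsoId T k (-k) (by omega)).inv.app A ≫ f⟦(-k : ℤ)⟧')
  have h2 : f⟦(-k : ℤ)⟧' = 0 := by
    rw [← cancel_epi ((shiftFunctorCompIsoId T k (-k) (by omega)).inv.app A), h1]
    exact comp_zero.symm
  exact (shiftFunctor T (-k)).map_injective (h2.trans (Functor.map_zero _ _ _).symm)

lemma isZero_of_uct {A : T} (h : UCT Acyc A) (hA : Acyc A) : IsZero A :=
  (IsZero.iff_id_eq_zero A).mpr (h A hA (𝟙 A))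

/-- A prime acts invertibly if the cone is zero. -/
lemma isIso_of_cone {A C : T} {l : ℕ} {u : A ⟶ C} {δ : C ⟶ A⟦(1 : ℤ)⟧}
    (hD : Triangle.mk (l • 𝟙 A) u δ ∈ distTriang T) (h : IsZero C) : IsIso (l • 𝟙 A) :=
  (Triangle.isZero₃_iff_isIso₁ _ hD).mp h

lemma divisible_of_torsion {A : T} {l : ℕ} (hl : l.Prime) (h : l • 𝟙 A = 0) {S : Set ℕ}
    (hS : l ∉ S) : Divisible S A := by
  intro p hp hpp
  have hne : l ≠ p := fun h => hS (h ▸ hp)
  have hc : IsCoprime (l : ℤ) (p : ℤ) :=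
    Nat.isCoprime_iff_coprime.mpr ((Nat.coprime_primes hl hpp).mpr hne)
  obtain ⟨a, b, hab⟩ := hc
  have h1 : (b * p : ℤ) • 𝟙 A = 𝟙 A := by
    have h2 : (1 : ℤ) • 𝟙 A = 𝟙 A := one_smul _ _
    rw [← hab, add_smul, mul_smul a, natCast_zsmul, h, smul_zero, zero_add] at h2
    exact h2
  refine ⟨b • 𝟙 A, ?_, ?_⟩
  · rw [Preadditive.nsmul_comp, Category.id_comp, ← natCast_zsmul, ← mul_smul, mul_comm]
    exact h1
  · rw [Preadditive.comp_nsmul, Category.comp_id, ← natCast_zsmul, ← mul_smul, mul_comm]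
    exact h1

section

variable {A P N : T} (f : P ⟶ A) (g : A ⟶ N) (δ : N ⟶ P⟦(1 : ℤ)⟧)

lemma eq_zero_of_restrict (hA : Tri Acyc) (hD : Triangle.mk f g δ ∈ distTriang T)
    (hP : UCT Acyc P) {B : T} (hB : Acyc B) (x : N ⟶ B) (hx : g ≫ x = 0) : x = 0 := by
  obtain ⟨y, hy⟩ := Triangle.yoneda_exact₃ _ hD x hx
  change P⟦(1 : ℤ)⟧ ⟶ B at y
  change x = δ ≫ y at hy
  rw [hy, hP.shift hA 1 B hB y, comp_zero]

lemma exists_extend (hD : Triangle.mk f g δ ∈ distTriang T)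
    (hP : UCT Acyc P) {B : T} (hB : Acyc B) (x : A ⟶ B) : ∃ y : N ⟶ B, x = g ≫ y :=
  Triangle.yoneda_exact₂ _ hD x (hP B hB _)

lemma prime_inj (hA : Tri Acyc) (hD : Triangle.mk f g δ ∈ distTriang T) (hP : UCT Acyc P) {p : ℕ}
    (hp : IsIso (p • 𝟙 A)) {B : T} (hB : Acyc B) (x : N ⟶ B) (hx : (p • 𝟙 N) ≫ x = 0) : x = 0 := by
  refine eq_zero_of_restrict f g δ hA hD hP hB x ?_
  rw [← cancel_epi (p • 𝟙 A), comp_zero, Preadditive.nsmul_comp, Category.id_comp,
    ← Preadditive.comp_nsmul]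
  rw [Preadditive.nsmul_comp, Category.id_comp] at hx
  rw [hx, comp_zero]

lemma prime_surj (hA : Tri Acyc) (hD : Triangle.mk f g δ ∈ distTriang T) (hP : UCT Acyc P) {p : ℕ}
    (hp : IsIso (p • 𝟙 A)) {B : T} (hB : Acyc B) (x : N ⟶ B) : ∃ y : N ⟶ B, x = (p • 𝟙 N) ≫ y := by
  obtain ⟨y, hy⟩ := exists_extend f g δ hD hP hB (inv (p • 𝟙 A) ≫ g ≫ x)
  refine ⟨y, ?_⟩
  have h1 : g ≫ (x - (p • 𝟙 N) ≫ y) = 0 := by
    rw [Preadditive.comp_sub, sub_eq_zero, Preadditive.nsmul_comp, Category.id_comp,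
      Preadditive.comp_nsmul, ← hy]
    have h2 : p • (inv (p • 𝟙 A) ≫ g ≫ x) = (p • 𝟙 A) ≫ (inv (p • 𝟙 A) ≫ g ≫ x) := by
      rw [Preadditive.nsmul_comp, Category.id_comp]
    rw [h2, IsIso.hom_inv_id_assoc]
  exact sub_eq_zero.mp (eq_zero_of_restrict f g δ hA hD hP hB _ h1)

end

/-- The resolution of an `S`-divisible object is `S`-divisible. -/
lemma divisible_of_resolution (hF : Facts Nuc Acyc) {S : Set ℕ} {A P N : T} {f : P ⟶ A}
    {g : A ⟶ N} {δ : N ⟶ P⟦(1 : ℤ)⟧} (hD : Triangle.mk f g δ ∈ distTriang T)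
    (hP : UCT Acyc P) (hN : Acyc N) (hA : Divisible S A) : Divisible S N := by
  intro p hp hpp
  obtain ⟨C, u, ε, hC, -⟩ := hF.torsion N p hpp
  refine isIso_of_cone hC ?_
  have hCa : Acyc C := hF.acyc.cone _ hC hN hN
  have hAp := hA p hp hpp
  have hAp1 : IsIso (p • 𝟙 (A⟦(1 : ℤ)⟧)) := by
    have h1 : p • 𝟙 (A⟦(1 : ℤ)⟧) = (p • 𝟙 A)⟦(1 : ℤ)⟧' := by
      rw [Functor.map_nsmul, CategoryTheory.Functor.map_id]
    rw [h1]
    infer_instance
  have hD1 := Triangle.shift_distinguished _ hD 1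
  -- there are no morphisms from `C` to acyclic objects
  have van : ∀ (B : T), Acyc B → ∀ x : C ⟶ B, x = 0 := by
    intro B hB x
    have h1 : u ≫ x = 0 := by
      refine prime_inj f g δ hF.acyc hD hP hAp hB _ ?_
      have h2 : (p • 𝟙 N) ≫ u = 0 := comp_distTriang_mor_zero₁₂ _ hC
      rw [← Category.assoc, h2, zero_comp]
    obtain ⟨y, hy⟩ := Triangle.yoneda_exact₃ _ hC x h1
    change N⟦(1 : ℤ)⟧ ⟶ B at y
    change x = ε ≫ y at hy
    obtain ⟨z, hz⟩ : ∃ z : N⟦(1 : ℤ)⟧ ⟶ B, y = (p • 𝟙 (N⟦(1 : ℤ)⟧)) ≫ z :=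
      prime_surj _ _ _ hF.acyc hD1 (hP.shift hF.acyc 1) hAp1 hB y
    have h3 : ε ≫ ((p • 𝟙 N)⟦(1 : ℤ)⟧') = 0 := comp_distTriang_mor_zero₃₁ _ hC
    have h4 : (p • 𝟙 N)⟦(1 : ℤ)⟧' = p • 𝟙 (N⟦(1 : ℤ)⟧) := by
      rw [Functor.map_nsmul, CategoryTheory.Functor.map_id]
    rw [h4] at h3
    rw [hy, hz, ← Category.assoc, h3, zero_comp]
  rw [IsZero.iff_id_eq_zero]
  exact van C hCa (𝟙 C)

/-- There are no nonzero phantoms on which all primes act invertibly. -/
def NoRational (Nuc Acyc : T → Prop) : Prop :=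
  ∀ A : T, Nuc A → Acyc A → (∀ p : ℕ, p.Prime → IsIso (p • 𝟙 A)) → IsZero A

/-- There are no nonzero phantoms on which the prime `l` acts as zero. -/
def NoTorsion (Nuc Acyc : T → Prop) (l : ℕ) : Prop :=
  ∀ A : T, Nuc A → Acyc A → l • 𝟙 A = 0 → IsZero A

/-- All nuclear objects on which the primes in `S` act invertibly satisfy the universal coefficient
theorem. -/
def UCTAt (Nuc Acyc : T → Prop) (S : Set ℕ) : Prop :=
  ∀ A : T, Nuc A → Divisible S A → UCT Acyc A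

lemma uct_of_isZero_right {A P N : T} {f : P ⟶ A}
    {g : A ⟶ N} {δ : N ⟶ P⟦(1 : ℤ)⟧} (hD : Triangle.mk f g δ ∈ distTriang T)
    (hP : UCT Acyc P) (hN : IsZero N) : UCT Acyc A := by
  intro B hB x
  obtain ⟨y, hy⟩ := exists_extend f g δ hD hP hB x
  rw [hy, hN.eq_of_src y 0, comp_zero]

/-- The universal coefficient theorem for the `S`-divisible objects is decided by the phantoms over
the prime fields. -/
theorem uctAt_iff (hF : Facts Nuc Acyc) (S : Set ℕ) :
    UCTAt Nuc Acyc S ↔ NoRational Nuc Acyc ∧ ∀ l : ℕ, l.Prime → l ∉ S → NoTorsion Nuc Acyc l := by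
  constructor
  · intro h
    refine ⟨fun A hn ha hA => isZero_of_uct (h A hn fun p _ hp => hA p hp) ha, ?_⟩
    exact fun l hl hS A hn ha hA =>
      isZero_of_uct (h A hn (divisible_of_torsion hl hA hS)) ha
  · rintro ⟨hQ, hT⟩ A hn hA
    obtain ⟨P, N, f, g, δ, hD, hNn, hP, hNa⟩ := hF.resolution A hn
    have hNd := divisible_of_resolution hF hD hP hNa hA
    refine uct_of_isZero_right hD hP (hQ N hNn hNa fun p hp => ?_)
    by_cases hpS : p ∈ S
    · exact hNd p hpS hp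
    · obtain ⟨C, u, ε, hC, h0⟩ := hF.torsion N p hp
      exact isIso_of_cone hC (hT p hp hpS C (hF.nuc.cone _ hC hNn hNn)
        (hF.acyc.cone _ hC hNa hNa) h0)

/-- Every `p`-divisible nuclear object is isomorphic to an object of the class `X`, and the objects
of `X` are nuclear. By a theorem of Barlak and Szabó this holds for the crossed products of the Cuntz
algebra `O_2` by actions of the group of order `p`. -/
structure Models (Nuc X : T → Prop) (p : ℕ) : Prop where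
  nuc : ∀ A, X A → Nuc A
  model : ∀ A, Nuc A → IsIso (p • 𝟙 A) → ∃ B, X B ∧ Nonempty (A ≅ B)

lemma UCT.of_iso {A B : T} (e : A ≅ B) (h : UCT Acyc B) : UCT Acyc A := by
  intro C hC f
  have h1 := h C hC (e.inv ≫ f)
  rw [← cancel_epi e.inv, h1, comp_zero]

/-- One prime: the universal coefficient theorem holds for all nuclear objects if and only if it
holds for the class `X` and there are no `p`-torsion phantoms. -/
theorem uct_iff_models (hF : Facts Nuc Acyc) {X : T → Prop} {p : ℕ} (hp : p.Prime)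
    (hX : Models Nuc X p) :
    (∀ A, Nuc A → UCT Acyc A) ↔ (∀ A, X A → UCT Acyc A) ∧ NoTorsion Nuc Acyc p := by
  have h0 : (∀ A, Nuc A → UCT Acyc A) ↔ UCTAt Nuc Acyc ∅ :=
    ⟨fun h A hA _ => h A hA, fun h A hA => h A hA fun q hq => absurd hq (Set.notMem_empty q)⟩
  constructor
  · intro h
    refine ⟨fun A hA => h A (hX.nuc A hA), ?_⟩
    exact ((uctAt_iff hF ∅).mp (h0.mp h)).2 p hp (Set.notMem_empty p)
  · rintro ⟨h1, h2⟩
    have h3 : UCTAt Nuc Acyc {p} := by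
      intro A hA hd
      obtain ⟨B, hB, ⟨e⟩⟩ := hX.model A hA (hd p rfl hp)
      exact (h1 B hB).of_iso e
    obtain ⟨hQ, hT⟩ := (uctAt_iff hF {p}).mp h3
    refine h0.mpr ((uctAt_iff hF ∅).mpr ⟨hQ, fun l hl _ => ?_⟩)
    by_cases hlp : l = p
    · rw [hlp]
      exact h2
    · exact hT l hl fun h => hlp h

end Pool.Agent.Run7.h902.Uct
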